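import Mathlib
import Pool.Agent.W_MP_bb6588_an.Defs

set_option autoImplicit false

/-!
# Divergent and obvious orbits in `G/Γ`, `G ≤ SL_ι(ℝ)`: definitions

`SLR ι` is `SL_ι(ℝ)` and `SLZ ι` its subgroup `SL_ι(ℤ)`.
-/

namespace Pool.Agent.W_MP_bb6588_G

open Matrix Filter Topology
open Pool.Agent.W_MP_bb6588_an (SLR SLZ nrm Dig step expo dlt val)

variable {ι : Type} [Fintype ι] [DecidableEq ι]

/-- The real matrix with the same entries as the rational matrix `X`. -/
def toR (X : Matrix ι ι ℚ) : Matrix ι ι ℝ := X.map fun q : ℚ => (q : ℝ)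

/-- The real matrix with the same entries as the integral matrix `A`. -/
def zR (A : Matrix ι ι ℤ) : Matrix ι ι ℝ := A.map fun n : ℤ => (n : ℝ)

/-- The real span `W ⊗ ℝ` of a space `W` of rational matrices. -/
def realSpan (W : Submodule ℚ (Matrix ι ι ℚ)) : Submodule ℝ (Matrix ι ι ℝ) :=
  Submodule.span ℝ (toR '' (W : Set (Matrix ι ι ℚ)))

/-- All elements of the real subspace `E` are diagonal in one real basis. -/
def SDg (E : Submodule ℝ (Matrix ι ι ℝ)) : Prop :=
  ∃ R : (Matrix ι ι ℝ)ˣ, ∀ z ∈ E, ∃ d : ι → ℝ,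
    z = (R : Matrix ι ι ℝ) * Matrix.diagonal d * ((R⁻¹ : (Matrix ι ι ℝ)ˣ) : Matrix ι ι ℝ)

/-- All elements of the rational subspace `S` are diagonal in one rational basis. -/
def SDgQ (S : Submodule ℚ (Matrix ι ι ℚ)) : Prop :=
  ∃ P : (Matrix ι ι ℚ)ˣ, ∀ s ∈ S, ∃ d : ι → ℚ,
    s = (P : Matrix ι ι ℚ) * Matrix.diagonal d * ((P⁻¹ : (Matrix ι ι ℚ)ˣ) : Matrix ι ι ℚ)

/-- For `E` a space of real matrices let `D = {d ∈ G : d = exp z, z ∈ E}`. The orbit `D g Γ` in
`G/Γ` is divergent: for every compact `K ⊆ G/Γ` the `z ∈ E` with `exp(z) g Γ ∈ K` form a bounded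
set. -/
def IsDivergent (G : Subgroup (SLR ι)) (Γ : Subgroup G) (E : Submodule ℝ (Matrix ι ι ℝ))
    (g : G) : Prop :=
  ∀ K : Set (G ⧸ Γ), IsCompact K → ∃ R : ℝ, ∀ z ∈ E, ∀ d : G,
    ((d : SLR ι) : Matrix ι ι ℝ) = NormedSpace.exp z → ((d * g : G) : G ⧸ Γ) ∈ K →
      ∀ i j, |z i j| ≤ R

/-- The homomorphism `ρ : G → GL_m(ℝ)` is a `ℚ`-representation: the entries of `ρ g` are
polynomials with rational coefficients in the entries of `g`. -/
def IsRationalRep {G : Subgroup (SLR ι)} {m : ℕ} (ρ : G →* GL (Fin m) ℝ) : Prop :=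
  ∃ P : Fin m → Fin m → MvPolynomial (ι × ι) ℚ,
    ∀ (g : G) (a b : Fin m),
      (ρ g : Matrix (Fin m) (Fin m) ℝ) a b =
        MvPolynomial.aeval (fun p : ι × ι => ((g : SLR ι) : Matrix ι ι ℝ) p.1 p.2) (P a b)

/-- The orbit of `g Γ` under `D = {d ∈ G : d = exp z, z ∈ E}` is obvious: there are finitely many
`ℚ`-representations `ρ i` of `G` and nonzero rational vectors `v i` such that for every sequence
`d k = exp (z k) → ∞` in `D` there are an index `i` and a subsequence along which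
`ρ i (d k g) (v i) → 0`. -/
def IsObvious (G : Subgroup (SLR ι)) (E : Submodule ℝ (Matrix ι ι ℝ)) (g : G) : Prop :=
  ∃ (l : ℕ) (m : Fin l → ℕ) (ρ : ∀ i : Fin l, G →* GL (Fin (m i)) ℝ)
    (v : ∀ i : Fin l, Fin (m i) → ℚ),
    (∀ i, IsRationalRep (ρ i)) ∧ (∀ i, v i ≠ 0) ∧
    ∀ (z : ℕ → Matrix ι ι ℝ) (d : ℕ → G), (∀ k, z k ∈ E) →
      (∀ k, ((d k : SLR ι) : Matrix ι ι ℝ) = NormedSpace.exp (z k)) →
      Tendsto z atTop (cocompact (Matrix ι ι ℝ)) →
      ∃ (i : Fin l) (φ : ℕ → ℕ), StrictMono φ ∧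
        Tendsto (fun k => (ρ i (d (φ k) * g) : Matrix (Fin (m i)) (Fin (m i)) ℝ) *ᵥ
          (fun a => (v i a : ℝ))) atTop (𝓝 0)

/-! ## Auxiliary notions used in the proof -/

/-- `exp X` as an element of `SL_ι(ℝ)` (and `1` if its determinant is not `1`). -/
noncomputable def eS (X : Matrix ι ι ℝ) : SLR ι :=
  if h : (NormedSpace.exp X).det = 1 then ⟨NormedSpace.exp X, h⟩ else 1

/-- The space `V` of matrices is closed under the bracket. -/
def IsLie (V : Submodule ℝ (Matrix ι ι ℝ)) : Prop := ∀ x ∈ V, ∀ y ∈ V, x * y - y * x ∈ V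

/-- All elements of `V` have trace `0`. -/
def TrZ (V : Submodule ℝ (Matrix ι ι ℝ)) : Prop := ∀ x ∈ V, x.trace = 0

/-- The trace form is nondegenerate on `V`. -/
def Nondeg (V : Submodule ℝ (Matrix ι ι ℝ)) : Prop :=
  ∀ x ∈ V, (∀ y ∈ V, (x * y).trace = 0) → x = 0

/-- `a` is diagonalizable over `ℝ`. -/
def Dg (a : Matrix ι ι ℝ) : Prop :=
  ∃ (R : (Matrix ι ι ℝ)ˣ) (d : ι → ℝ),
    a = (R : Matrix ι ι ℝ) * Matrix.diagonal d * ((R⁻¹ : (Matrix ι ι ℝ)ˣ) : Matrix ι ι ℝ)

/-- The group generated by `exp x`, `x ∈ V`. -/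
def GG (V : Submodule ℝ (Matrix ι ι ℝ)) : Subgroup (SLR ι) :=
  Subgroup.closure {g | ∃ x ∈ V, g = eS x}

/-- The group generated by `exp x`, `x ∈ V`, `[a, x] = μ x`, `μ > 0`. -/
def NN (V : Submodule ℝ (Matrix ι ι ℝ)) (a : Matrix ι ι ℝ) : Subgroup (SLR ι) :=
  Subgroup.closure {g | ∃ x ∈ V, ∃ μ : ℝ, 0 < μ ∧ a * x - x * a = μ • x ∧ g = eS x}

/-- The matrix of `x` in the basis given by `R`. -/
def cj (R : (Matrix ι ι ℝ)ˣ) (x : Matrix ι ι ℝ) : Matrix ι ι ℝ :=
  ((R⁻¹ : (Matrix ι ι ℝ)ˣ) : Matrix ι ι ℝ) * x * (R : Matrix ι ι ℝ)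

/-- The matrices whose entries in the basis `R` vanish at the places `(i, j)` with
`d i - d j ≤ μ`. -/
def Up (R : (Matrix ι ι ℝ)ˣ) (d : ι → ℝ) (μ : ℝ) : Submodule ℝ (Matrix ι ι ℝ) where
  carrier := {x | ∀ i j, d i - d j ≤ μ → cj R x i j = 0}
  add_mem' := by
    intro x y hx hy i j h
    have h1 := hx i j h
    have h2 := hy i j h
    simp only [cj, mul_add, add_mul, Matrix.add_apply] at *
    rw [h1, h2, add_zero]
  zero_mem' := by
    intro i j _
    simp [cj]
  smul_mem' := by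
    intro c x hx i j h
    have h1 := hx i j h
    simp only [cj, Algebra.mul_smul_comm, Algebra.smul_mul_assoc, Matrix.smul_apply] at *
    rw [h1, smul_zero]

/-- The matrices whose entries in the basis `R` vanish at the places `(i, j)` with
`d i - d j < μ`. -/
def Upe (R : (Matrix ι ι ℝ)ˣ) (d : ι → ℝ) (μ : ℝ) : Submodule ℝ (Matrix ι ι ℝ) where
  carrier := {x | ∀ i j, d i - d j < μ → cj R x i j = 0}
  add_mem' := by
    intro x y hx hy i j h
    have h1 := hx i j h
    have h2 := hy i j h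
    simp only [cj, mul_add, add_mul, Matrix.add_apply] at *
    rw [h1, h2, add_zero]
  zero_mem' := by
    intro i j _
    simp [cj]
  smul_mem' := by
    intro c x hx i j h
    have h1 := hx i j h
    simp only [cj, Algebra.mul_smul_comm, Algebra.smul_mul_assoc, Matrix.smul_apply] at *
    rw [h1, smul_zero]

/-- The component of `x` on the places `(i, j)` with `d i - d j = μ` (in the basis `R`). -/
noncomputable def lev (R : (Matrix ι ι ℝ)ˣ) (d : ι → ℝ) (μ : ℝ) (x : Matrix ι ι ℝ) :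
    Matrix ι ι ℝ :=
  (R : Matrix ι ι ℝ) * (Matrix.of fun i j => if d i - d j = μ then cj R x i j else 0) *
    ((R⁻¹ : (Matrix ι ι ℝ)ˣ) : Matrix ι ι ℝ)

/-- `Y` maps the coordinate space of `C` to itself. -/
def Blk (C : Finset ι) (Y : Matrix ι ι ℝ) : Prop := ∀ i, i ∉ C → ∀ j, j ∈ C → Y i j = 0

/-- The block of `Y` with rows and columns in `C`. -/
def blk (C : Finset ι) (Y : Matrix ι ι ℝ) : Matrix C C ℝ :=
  Y.submatrix (fun i : C => (i : ι)) (fun j : C => (j : ι))

/-- The minor of `A` with columns `C` and rows `r`. -/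
noncomputable def minor (C : Finset ι) (A : Matrix ι ι ℝ) (r : C → ι) : ℝ :=
  (Matrix.of fun i j : C => A (r i) j).det

/-- The size of the wedge product of the columns of `A` with index in `C`. -/
noncomputable def wsize (C : Finset ι) (A : Matrix ι ι ℝ) : ℝ := ∑ r : C → ι, |minor C A r|

/-- `f` maps the wedge product of some columns of a nonsingular integral matrix to an `ε`-short
vector. -/
def ShortW (f : Matrix ι ι ℝ) (ε : ℝ) : Prop :=
  ∃ (A : Matrix ι ι ℤ) (C : Finset ι), A.det ≠ 0 ∧ wsize C (f * zR A) < ε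

/-- A finite family of polynomial one-parameter groups with integral coefficients. -/
structure UniFam (κ : Type) (ι : Type) [Fintype ι] [DecidableEq ι] where
  /-- the one-parameter groups -/
  u : κ → ℝ → SLR ι
  /-- they are one-parameter groups -/
  add : ∀ k s t, u k (s + t) = u k s * u k t
  /-- a bound for the degrees -/
  N : ℕ
  /-- the coefficients -/
  M : κ → ℕ → Matrix ι ι ℤ
  /-- `u k t = ∑ t ^ j M k j` -/
  poly : ∀ k t, (u k t : Matrix ι ι ℝ) = ∑ j ∈ Finset.range (N + 1), t ^ j • zR (M k j)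

/-- Partial products: `partU p b (l+1) = u (p l) (step b l) * partU p b l`. -/
noncomputable def partU {κ : Type} (U : UniFam κ ι) (p : ℕ → κ) (b : Dig) : ℕ → SLR ι
  | 0 => 1
  | l + 1 => U.u (p l) (step b l) * partU U p b l

/-- The group generated by the one-parameter groups of the family. -/
def KU {κ : Type} (U : UniFam κ ι) : Subgroup (SLR ι) :=
  Subgroup.closure {g | ∃ (k : κ) (t : ℝ), g = U.u k t}

/-- `q` maps the span of the columns of `P` with index in `C` to itself, with determinant `1`. -/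
def Stab (C : Finset ι) (P : Matrix ι ι ℤ) (q : SLR ι) : Prop :=
  ∃ Y : Matrix ι ι ℝ, (q : Matrix ι ι ℝ) * zR P = zR P * Y ∧ Blk C Y ∧ (blk C Y).det = 1

/-- The real polynomial with the same coefficients. -/
noncomputable def pR (Q : MvPolynomial (ι × ι) ℚ) : MvPolynomial (ι × ι) ℝ :=
  MvPolynomial.map (algebraMap ℚ ℝ) Q

/-- The derivative at `1`, in the direction `Y`, of the matrix of polynomials `P`. -/
noncomputable def dP {m : ℕ} (P : Fin m → Fin m → MvPolynomial (ι × ι) ℝ) (Y : Matrix ι ι ℝ) :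
    Matrix (Fin m) (Fin m) ℝ :=
  Matrix.of fun a b => ∑ q : ι × ι, val (MvPolynomial.pderiv q (P a b)) 1 * Y q.1 q.2

/-- `X` is a weight vector of weight `α` for `S`. -/
def IsWt (S : Submodule ℚ (Matrix ι ι ℚ)) (α : Matrix ι ι ℚ →ₗ[ℚ] ℚ) (X : Matrix ι ι ℚ) : Prop :=
  ∀ s ∈ S, s * X - X * s = α s • X

end Pool.Agent.W_MP_bb6588_G
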