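import Mathlib
import Pool.Agent.W_MP_bb6588_G.Defs

set_option autoImplicit false

/-!
# Determinant of the exponential, and `eS`
-/

namespace Pool.Agent.W_MP_bb6588_G

open Matrix Filter Topology
open Pool.Agent.W_MP_bb6588_an (SLR SLZ nrm Dig step expo dlt val)

variable {ι : Type} [Fintype ι] [DecidableEq ι]

set_option backward.isDefEq.respectTransparency false in
theorem exp_entry_zero {n : Type} [Fintype n] [DecidableEq n] (A : Matrix n n ℝ) (i j : n) :
    HasDerivAt (fun s : ℝ => (NormedSpace.exp (s • A)) i j) (A i j) 0 := by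
  open scoped Matrix.Norms.Operator in
  have h : HasDerivAt (fun s : ℝ => NormedSpace.exp (s • A))
      (NormedSpace.exp ((0 : ℝ) • A) * A) 0 := hasDerivAt_exp_smul_const A 0
  let L : Matrix n n ℝ →ₗ[ℝ] ℝ := Matrix.entryLinearMap ℝ ℝ i j
  have h2 := (LinearMap.toContinuousLinearMap L).hasFDerivAt.comp_hasDerivAt (0 : ℝ) h
  have h3 : (NormedSpace.exp ((0 : ℝ) • A) * A) i j = A i j := by
    rw [zero_smul, NormedSpace.exp_zero, one_mul]
  have h4 : HasDerivAt (fun s : ℝ => (NormedSpace.exp (s • A)) i j)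
      ((NormedSpace.exp ((0 : ℝ) • A) * A) i j) 0 := h2
  rwa [h3] at h4

/-- the determinant of a curve of matrices through `1` has a derivative depending only on the
derivatives of the entries -/
theorem det_curve {n : Type} [Fintype n] [DecidableEq n] {F : ℝ → Matrix n n ℝ}
    {D : Matrix n n ℝ} (h0 : F 0 = 1) (hF : ∀ i j, HasDerivAt (fun s => F s i j) (D i j) 0) :
    HasDerivAt (fun s => (F s).det) (∑ σ : Equiv.Perm n, ((Equiv.Perm.sign σ : ℤ) : ℝ) *
      ∑ i : n, (∏ j ∈ Finset.univ.erase i, (1 : Matrix n n ℝ) (σ j) j) * D (σ i) i) 0 := by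
  have h1 : (fun s => (F s).det) = fun s => ∑ σ : Equiv.Perm n,
      ((Equiv.Perm.sign σ : ℤ) : ℝ) * ∏ i : n, F s (σ i) i := by
    funext s
    rw [Matrix.det_apply']
  rw [h1]
  refine HasDerivAt.fun_sum fun σ _ => ?_
  refine HasDerivAt.const_mul _ ?_
  have h2 := HasDerivAt.fun_finsetProd (u := (Finset.univ : Finset n))
    (f := fun i s => F s (σ i) i) (f' := fun i => D (σ i) i) (x := (0 : ℝ))
    (fun i _ => hF (σ i) i)
  rw [h0] at h2
  simpa only [smul_eq_mul] using h2

theorem det_exp_deriv {n : Type} [Fintype n] [DecidableEq n] (A : Matrix n n ℝ) :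
    HasDerivAt (fun s : ℝ => (NormedSpace.exp (s • A)).det) A.trace 0 := by
  have h1 := det_curve (F := fun s : ℝ => NormedSpace.exp (s • A)) (D := A)
    (by rw [zero_smul, NormedSpace.exp_zero]) (exp_entry_zero A)
  have h2 := det_curve (F := fun s : ℝ => 1 + s • A) (D := A)
    (by rw [zero_smul, add_zero]) (by
      intro i j
      have h3 : HasDerivAt (fun s : ℝ => (1 : Matrix n n ℝ) i j + s * A i j) (A i j) 0 := by
        have := ((hasDerivAt_id (0 : ℝ)).mul_const (A i j)).const_add ((1 : Matrix n n ℝ) i j)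
        simpa using this
      exact h3)
  have h3 : HasDerivAt (fun s : ℝ => (1 + s • A).det) A.trace 0 := by
    set P := (det (1 + (Polynomial.X : Polynomial ℝ) • A.map Polynomial.C)).divX.divX with hP
    have h4 : (fun s : ℝ => (1 + s • A).det) = fun s => 1 + A.trace * s + P.eval s * s ^ 2 := by
      funext s
      rw [Matrix.det_one_add_smul]
    rw [h4]
    have h5 : HasDerivAt (fun s : ℝ => 1 + A.trace * s) A.trace 0 := by
      have := ((hasDerivAt_id (0 : ℝ)).const_mul A.trace).const_add 1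
      simpa using this
    have h6 : HasDerivAt (fun s : ℝ => P.eval s * s ^ 2) 0 0 := by
      have := (P.hasDerivAt 0).fun_mul ((hasDerivAt_pow 2 (0 : ℝ)))
      simpa using this
    have := h5.fun_add h6
    simpa using this
  rw [h2.unique h3] at h1
  exact h1

/-- `det (exp A) = exp (tr A)`.

Proof. Several routes. (a) `f t = det (exp (t A))` satisfies `f (s + t) = f s * f t`
(`Matrix.exp_add_of_commute`), `f 0 = 1`, and has derivative `tr A` at `0`
(`Matrix.det_one_add_smul`, or differentiate the determinant of `exp (t A)`, whose entries have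
derivative `A i j` at `0`); so `f' = (tr A) f` and `f t = exp (t tr A)`. (b) Complexify and use
a triangular form of the matrix. -/
theorem det_exp {n : Type} [Fintype n] [DecidableEq n] (A : Matrix n n ℝ) :
    (NormedSpace.exp A).det = Real.exp A.trace := by
  set f : ℝ → ℝ := fun s => (NormedSpace.exp (s • A)).det with hf
  have hadd : ∀ s t, f (s + t) = f s * f t := by
    intro s t
    simp only [hf]
    rw [add_smul, Matrix.exp_add_of_commute _ _ (((Commute.refl A).smul_left s).smul_right t),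
      Matrix.det_mul]
  have hd : ∀ t, HasDerivAt f (A.trace * f t) t := by
    intro t
    have h1 : HasDerivAt (fun s => f (s - t)) A.trace t := by
      have h2 : HasDerivAt f A.trace (t - t) := by
        rw [sub_self]; exact det_exp_deriv A
      exact HasDerivAt.comp_sub_const t t h2
    have h3 : f = fun s => f (s - t) * f t := by
      funext s
      rw [← hadd, sub_add_cancel]
    rw [h3]
    have := h1.mul_const (f t)
    simp only [sub_self]
    have h0 : f 0 * f t = f t := by rw [← hadd, zero_add]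
    rw [h0]
    exact this
  have hg : ∀ t, HasDerivAt (fun s => f s * Real.exp (-(A.trace * s))) 0 t := by
    intro t
    have h1 : HasDerivAt (fun s : ℝ => Real.exp (-(A.trace * s)))
        (Real.exp (-(A.trace * t)) * (-A.trace)) t := by
      have h2 : HasDerivAt (fun s : ℝ => -(A.trace * s)) (-A.trace) t := by
        have := ((hasDerivAt_id t).const_mul A.trace).fun_neg
        simpa using this
      exact h2.exp
    have h2 := (hd t).fun_mul h1
    have h3 : A.trace * f t * Real.exp (-(A.trace * t)) +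
        f t * (Real.exp (-(A.trace * t)) * (-A.trace)) = 0 := by ring
    rw [h3] at h2
    exact h2
  have hc := is_const_of_deriv_eq_zero (f := fun s => f s * Real.exp (-(A.trace * s)))
    (fun t => (hg t).differentiableAt) (fun t => (hg t).deriv) 1 0
  have h0 : f 0 = 1 := by
    simp only [hf]
    rw [zero_smul, NormedSpace.exp_zero, Matrix.det_one]
  have h1 : f 1 = (NormedSpace.exp A).det := by
    simp only [hf]; rw [one_smul]
  simp only [mul_one, mul_zero, neg_zero, Real.exp_zero] at hc
  rw [h0, h1] at hc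
  rw [Real.exp_neg] at hc
  exact (mul_inv_eq_one₀ (Real.exp_ne_zero _)).mp hc

theorem coe_eS {X : Matrix ι ι ℝ} (h : X.trace = 0) :
    (eS X : Matrix ι ι ℝ) = NormedSpace.exp X := by
  have h1 : (NormedSpace.exp X).det = 1 := by rw [det_exp, h, Real.exp_zero]
  unfold eS
  rw [dif_pos h1]

theorem eS_zero : eS (0 : Matrix ι ι ℝ) = 1 := by
  apply Subtype.ext
  rw [coe_eS (Matrix.trace_zero ι ℝ), NormedSpace.exp_zero]
  rfl

theorem eS_add {X Y : Matrix ι ι ℝ} (hX : X.trace = 0) (hY : Y.trace = 0) (h : X * Y = Y * X) :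
    eS (X + Y) = eS X * eS Y := by
  apply Subtype.ext
  rw [Matrix.SpecialLinearGroup.coe_mul, coe_eS (by rw [Matrix.trace_add, hX, hY, add_zero]),
    coe_eS hX, coe_eS hY, Matrix.exp_add_of_commute _ _ h]

theorem eS_neg {X : Matrix ι ι ℝ} (hX : X.trace = 0) : eS (-X) = (eS X)⁻¹ := by
  rw [eq_inv_iff_mul_eq_one, ← eS_add (by rw [Matrix.trace_neg, hX, neg_zero]) hX
    (by rw [neg_mul, mul_neg]), neg_add_cancel, eS_zero]

/-- If `g = exp X` as matrices, `g : SL`, then `g = eS X`. -/
theorem eq_eS {X : Matrix ι ι ℝ} {g : SLR ι} (h : (g : Matrix ι ι ℝ) = NormedSpace.exp X) :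
    g = eS X := by
  have h1 : (NormedSpace.exp X).det = 1 := by rw [← h]; exact g.2
  unfold eS
  rw [dif_pos h1]
  exact Subtype.ext h

/-- `g exp(X) g⁻¹ = exp(g X g⁻¹)`. -/
theorem conj_eS {X : Matrix ι ι ℝ} (hX : X.trace = 0) (g : SLR ι) :
    g * eS X * g⁻¹ = eS ((g : Matrix ι ι ℝ) * X * ((g⁻¹ : SLR ι) : Matrix ι ι ℝ)) := by
  apply eq_eS
  have h1 : (g : Matrix ι ι ℝ) * ((g⁻¹ : SLR ι) : Matrix ι ι ℝ) = 1 := by
    rw [← Matrix.SpecialLinearGroup.coe_mul, mul_inv_cancel]; rfl
  have h2 : ((g⁻¹ : SLR ι) : Matrix ι ι ℝ) * (g : Matrix ι ι ℝ) = 1 := by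
    rw [← Matrix.SpecialLinearGroup.coe_mul, inv_mul_cancel]; rfl
  rw [Matrix.SpecialLinearGroup.coe_mul, Matrix.SpecialLinearGroup.coe_mul, coe_eS hX]
  have h3 := Matrix.exp_units_conj (⟨(g : Matrix ι ι ℝ), ((g⁻¹ : SLR ι) : Matrix ι ι ℝ), h1, h2⟩ :
    (Matrix ι ι ℝ)ˣ) X
  exact h3.symm

end Pool.Agent.W_MP_bb6588_G
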