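import Mathlib
import Pool.Agent.W_MP_bb6588_G.Exp
import Pool.Agent.W_MP_bb6588_an.Limit

set_option autoImplicit false

/-!
# Exponentials of block triangular matrices, and a norm bound
-/

namespace Pool.Agent.W_MP_bb6588_G

open Matrix Filter Topology
open Pool.Agent.W_MP_bb6588_an (SLR SLZ nrm Dig step expo dlt val)

variable {ι : Type} [Fintype ι] [DecidableEq ι]

theorem Blk.mul {C : Finset ι} {Y Z : Matrix ι ι ℝ} (hY : Blk C Y) (hZ : Blk C Z) :
    Blk C (Y * Z) := by
  intro i hi j hj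
  rw [Matrix.mul_apply]
  refine Finset.sum_eq_zero fun k _ => ?_
  by_cases hk : k ∈ C
  · rw [hY i hi k hk, zero_mul]
  · rw [hZ k hk j hj, mul_zero]

theorem ExpB_one (C : Finset ι) : Blk C (1 : Matrix ι ι ℝ) := by
  intro i hi j hj
  exact Matrix.one_apply_ne fun h => hi (h ▸ hj)

theorem ExpB_pow {C : Finset ι} {Y : Matrix ι ι ℝ} (hY : Blk C Y) (n : ℕ) : Blk C (Y ^ n) := by
  induction n with
  | zero => rw [pow_zero]; exact ExpB_one C
  | succ n ih => rw [pow_succ]; exact ih.mul hY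

/-- `(Y Z)_{CC} = Y_{CC} Z_{CC}` if `Z` maps the coordinate space of `C` to itself. -/
theorem blk_mul {C : Finset ι} {Y Z : Matrix ι ι ℝ} (hZ : Blk C Z) :
    blk C (Y * Z) = blk C Y * blk C Z := by
  ext a b
  change (Y * Z) a.1 b.1 = (blk C Y * blk C Z) a b
  rw [Matrix.mul_apply, Matrix.mul_apply]
  change ∑ k, Y a.1 k * Z k b.1 = ∑ k : C, Y a.1 k.1 * Z k.1 b.1
  rw [Finset.sum_coe_sort C fun k => Y a.1 k * Z k b.1]
  symm
  refine Finset.sum_subset (Finset.subset_univ C) fun k _ hk => ?_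
  rw [hZ k hk b.1 b.2, mul_zero]

theorem ExpB_blk_pow {C : Finset ι} {Y : Matrix ι ι ℝ} (hY : Blk C Y) (n : ℕ) :
    blk C (Y ^ n) = blk C Y ^ n := by
  induction n with
  | zero =>
    rw [pow_zero, pow_zero]
    exact Matrix.submatrix_one _ Subtype.val_injective
  | succ n ih => rw [pow_succ, pow_succ, blk_mul hY, ih]

theorem ExpB_hasSum {n : Type} [Fintype n] [DecidableEq n] (Y : Matrix n n ℝ) :
    HasSum (fun k : ℕ => ((k.factorial : ℝ)⁻¹) • Y ^ k) (NormedSpace.exp Y) := by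
  letI : NormedRing (Matrix n n ℝ) := Matrix.linftyOpNormedRing
  letI : NormedAlgebra ℝ (Matrix n n ℝ) := Matrix.linftyOpNormedAlgebra
  exact NormedSpace.exp_series_hasSum_exp' (𝕂 := ℝ) Y

theorem ExpB_hasSum_apply {n : Type} [Fintype n] [DecidableEq n] (Y : Matrix n n ℝ) (i j : n) :
    HasSum (fun k : ℕ => ((k.factorial : ℝ)⁻¹) * (Y ^ k) i j) (NormedSpace.exp Y i j) :=
  Pi.hasSum.1 (Pi.hasSum.1 (ExpB_hasSum Y) i) j

/-- Proof. `blk C (Y ^ n) = (blk C Y) ^ n`, `Blk C (Y ^ n)`; sum the exponential series entrywise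
(`NormedSpace.exp_eq_tsum`, and its `HasSum` form; put a local norm on the matrices as in
`Mathlib/Analysis/Normed/Algebra/MatrixExponential.lean`), `Y ↦ Y i j` is continuous. -/
theorem blk_exp {C : Finset ι} {Y : Matrix ι ι ℝ} (hY : Blk C Y) :
    Blk C (NormedSpace.exp Y) ∧ blk C (NormedSpace.exp Y) = NormedSpace.exp (blk C Y) := by
  constructor
  · intro i hi j hj
    have h1 := ExpB_hasSum_apply Y i j
    have h2 : (fun k : ℕ => ((k.factorial : ℝ)⁻¹) * (Y ^ k) i j) = fun _ => 0 := by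
      funext k
      rw [ExpB_pow hY k i hi j hj, mul_zero]
    rw [h2] at h1
    exact h1.unique hasSum_zero
  · ext a b
    have h1 := ExpB_hasSum_apply Y a.1 b.1
    have h2 := ExpB_hasSum_apply (blk C Y) a b
    have h3 : (fun k : ℕ => ((k.factorial : ℝ)⁻¹) * (Y ^ k) a.1 b.1) =
        fun k : ℕ => ((k.factorial : ℝ)⁻¹) * (blk C Y ^ k) a b := by
      funext k
      rw [← ExpB_blk_pow hY k]
      rfl
    rw [h3] at h1
    exact h1.unique h2

theorem det_blk_exp {C : Finset ι} {Y : Matrix ι ι ℝ} (hY : Blk C Y) :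
    (blk C (NormedSpace.exp Y)).det = Real.exp (∑ i ∈ C, Y i i) := by
  rw [(blk_exp hY).2, det_exp]
  congr 1
  exact Finset.sum_coe_sort C fun i => Y i i

/-- `nrm (exp z) ≤ |ι| exp (nrm z)`: `nrm 1 = |ι|`, `nrm (z ^ k) ≤ (nrm z) ^ k` for `k ≥ 1`
(`nrm_mul_le` from `W_MP_bb6588_an.Limit`) and sum the series (if `ι` is empty all is `0`). -/
theorem nrm_exp_le (z : Matrix ι ι ℝ) :
    nrm (NormedSpace.exp z) ≤ Fintype.card ι * Real.exp (nrm z) := by
  have h0 : 0 ≤ nrm z := Pool.Agent.W_MP_bb6588_an.nrm_nonneg z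
  have hone : nrm (1 : Matrix ι ι ℝ) = Fintype.card ι := by
    unfold nrm
    have h1 : ∀ i : ι, ∑ j, |(1 : Matrix ι ι ℝ) i j| = 1 := by
      intro i
      rw [Finset.sum_eq_single i]
      · rw [Matrix.one_apply_eq, abs_one]
      · intro j _ hj
        rw [Matrix.one_apply_ne (Ne.symm hj), abs_zero]
      · intro h4
        exact absurd (Finset.mem_univ i) h4
    rw [Finset.sum_congr rfl fun i _ => h1 i]
    simp
  have hpow : ∀ k : ℕ, nrm (z ^ k) ≤ Fintype.card ι * nrm z ^ k := by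
    intro k
    induction k with
    | zero => rw [pow_zero, pow_zero, mul_one, hone]
    | succ k ih =>
      rw [pow_succ, pow_succ, ← mul_assoc]
      exact (Pool.Agent.W_MP_bb6588_an.nrm_mul_le _ _).trans (mul_le_mul_of_nonneg_right ih h0)
  have hsmul : ∀ (a : ℝ) (M : Matrix ι ι ℝ), nrm (a • M) = |a| * nrm M := by
    intro a M
    unfold nrm
    rw [Finset.mul_sum]
    refine Finset.sum_congr rfl fun i _ => ?_
    rw [Finset.mul_sum]
    refine Finset.sum_congr rfl fun j _ => ?_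
    rw [Matrix.smul_apply, smul_eq_mul, abs_mul]
  have hsum : ∀ N : ℕ, nrm (∑ k ∈ Finset.range N, ((k.factorial : ℝ)⁻¹) • z ^ k) ≤
      ∑ k ∈ Finset.range N, Fintype.card ι * (nrm z ^ k / k.factorial) := by
    intro N
    induction N with
    | zero => simp [nrm]
    | succ N ih =>
      rw [Finset.sum_range_succ, Finset.sum_range_succ]
      refine (Pool.Agent.W_MP_bb6588_an.nrm_add_le _ _).trans (add_le_add ih ?_)
      rw [hsmul, abs_of_nonneg (by positivity)]
      calc ((N.factorial : ℝ)⁻¹) * nrm (z ^ N)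
          ≤ ((N.factorial : ℝ)⁻¹) * (Fintype.card ι * nrm z ^ N) :=
            mul_le_mul_of_nonneg_left (hpow N) (by positivity)
        _ = _ := by ring
  have hcont : Continuous fun M : Matrix ι ι ℝ => nrm M := by
    unfold nrm
    refine continuous_finsetSum _ fun i _ => continuous_finsetSum _ fun j _ => ?_
    exact continuous_abs.comp (continuous_apply_apply i j)
  have hlim := (hcont.tendsto _).comp (ExpB_hasSum z).tendsto_sum_nat
  refine le_of_tendsto hlim (Filter.Eventually.of_forall fun N => ?_)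
  refine (hsum N).trans ?_
  rw [← Finset.mul_sum]
  exact mul_le_mul_of_nonneg_left (Real.sum_le_exp_of_nonneg h0 N) (Nat.cast_nonneg _)

/-- A nilpotent matrix maps the coordinate space of `C` to itself with trace zero. -/
theorem sum_diag_eq_zero_of_pow {C : Finset ι} {Y : Matrix ι ι ℝ} (hY : Blk C Y) {N : ℕ}
    (hN : Y ^ N = 0) : ∑ i ∈ C, Y i i = 0 := by
  have h1 : IsNilpotent (blk C Y) := ⟨N, by rw [← ExpB_blk_pow hY, hN]; rfl⟩
  have h2 := (Matrix.isNilpotent_trace_of_isNilpotent h1).eq_zero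
  rw [← h2]
  exact (Finset.sum_coe_sort C fun i => Y i i).symm

end Pool.Agent.W_MP_bb6588_G
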