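import Mathlib
import Pool.Agent.W_MP_bb6588_G.Exp
import Pool.Agent.W_MP_bb6588_G.ExpB

set_option autoImplicit false

/-!
# Contraction and trace
-/

namespace Pool.Agent.W_MP_bb6588_G

open Matrix Filter Topology
open Pool.Agent.W_MP_bb6588_an (SLR SLZ nrm Dig step expo dlt val)

variable {ι : Type} [Fintype ι] [DecidableEq ι]

/-- The exponential series and an intertwining matrix. -/
theorem ContrA_exp {m k : ℕ} {X : Matrix (Fin m) (Fin m) ℝ} {Y : Matrix (Fin k) (Fin k) ℝ}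
    {J : Matrix (Fin m) (Fin k) ℝ} (h : X * J = J * Y) :
    NormedSpace.exp X * J = J * NormedSpace.exp Y := by
  have hpow : ∀ j : ℕ, X ^ j * J = J * Y ^ j := by
    intro j
    induction j with
    | zero => rw [pow_zero, pow_zero, Matrix.one_mul, Matrix.mul_one]
    | succ j ih => rw [pow_succ, pow_succ, Matrix.mul_assoc, h, ← Matrix.mul_assoc, ih,
        Matrix.mul_assoc]
  ext i a
  have h1 : HasSum (fun j : ℕ => ∑ l, ((j.factorial : ℝ)⁻¹ * (X ^ j) i l) * J l a)
      ((NormedSpace.exp X * J) i a) := by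
    rw [Matrix.mul_apply]
    exact hasSum_sum fun l _ => (ExpB_hasSum_apply X i l).mul_right (J l a)
  have h2 : HasSum (fun j : ℕ => ∑ l, J i l * ((j.factorial : ℝ)⁻¹ * (Y ^ j) l a))
      ((J * NormedSpace.exp Y) i a) := by
    rw [Matrix.mul_apply]
    exact hasSum_sum fun l _ => (ExpB_hasSum_apply Y l a).mul_left (J i l)
  have h3 : (fun j : ℕ => ∑ l, ((j.factorial : ℝ)⁻¹ * (X ^ j) i l) * J l a) =
      fun j : ℕ => ∑ l, J i l * ((j.factorial : ℝ)⁻¹ * (Y ^ j) l a) := by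
    funext j
    have h4 := congrFun (congrFun (hpow j) i) a
    rw [Matrix.mul_apply, Matrix.mul_apply] at h4
    calc ∑ l, ((j.factorial : ℝ)⁻¹ * (X ^ j) i l) * J l a
        = (j.factorial : ℝ)⁻¹ * ∑ l, (X ^ j) i l * J l a := by
          rw [Finset.mul_sum]
          exact Finset.sum_congr rfl fun l _ => by ring
      _ = (j.factorial : ℝ)⁻¹ * ∑ l, J i l * (Y ^ j) l a := by rw [h4]
      _ = _ := by
          rw [Finset.mul_sum]
          exact Finset.sum_congr rfl fun l _ => by ring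
  rw [h3] at h1
  exact h1.unique h2

/-- A basis of a subspace of `ℝ^m`, as a matrix with a left inverse. -/
theorem ContrA_basis {m : ℕ} (W : Submodule ℝ (Fin m → ℝ)) :
    ∃ (J : Matrix (Fin m) (Fin (Module.finrank ℝ W)) ℝ)
      (L : Matrix (Fin (Module.finrank ℝ W)) (Fin m) ℝ),
      L * J = 1 ∧ (∀ a, (fun i => J i a) ∈ W) ∧ ∀ w ∈ W, J *ᵥ (L *ᵥ w) = w := by
  obtain ⟨g, hg⟩ := LinearMap.exists_leftInverse_of_injective W.subtype
    (LinearMap.ker_eq_bot.2 W.injective_subtype)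
  have hgw : ∀ w : W, g (w : Fin m → ℝ) = w := fun w => LinearMap.congr_fun hg w
  obtain ⟨b⟩ : Nonempty (Module.Basis (Fin (Module.finrank ℝ W)) ℝ W) :=
    ⟨Module.finBasis ℝ W⟩
  obtain ⟨L, hL⟩ : ∃ L : Matrix (Fin (Module.finrank ℝ W)) (Fin m) ℝ,
      ∀ x, L *ᵥ x = b.equivFun (g x) :=
    ⟨LinearMap.toMatrix' (b.equivFun.toLinearMap ∘ₗ g), fun x => LinearMap.toMatrix'_mulVec _ x⟩
  refine ⟨Matrix.of fun i a => (b a : Fin m → ℝ) i, L, ?_, fun a => (b a).2, ?_⟩
  · ext p a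
    have h1 : (L * Matrix.of fun i a => (b a : Fin m → ℝ) i) p a =
        (L *ᵥ (b a : Fin m → ℝ)) p := rfl
    rw [h1, hL, hgw, Module.Basis.equivFun_self, Matrix.one_apply]
    by_cases hpa : p = a
    · subst hpa; simp
    · rw [if_neg hpa, if_neg (Ne.symm hpa)]
  · intro w hw
    rw [hL, hgw ⟨w, hw⟩]
    have h1 := b.sum_equivFun ⟨w, hw⟩
    have h2 := congrArg (fun z : W => (z : Fin m → ℝ)) h1
    funext i
    have h3 := congrFun h2 i
    simp only [Submodule.coe_sum, Submodule.coe_smul, Finset.sum_apply, Pi.smul_apply,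
      smul_eq_mul] at h3
    rw [← h3]
    change ∑ a, (b a : Fin m → ℝ) i * b.equivFun ⟨w, hw⟩ a = _
    exact Finset.sum_congr rfl fun a _ => mul_comm _ _

/-- Linear algebra. Let `D : V → M_m(ℝ)` be compatible with sums, scalars and brackets, where
`V` is spanned by brackets. If `W ⊆ ℝ^m` is stable under all `D y`, `y ∈ V`, and for some `η ∈ V`
`exp(n D η) w → 0` for all `w ∈ W`, then `W = 0`.

Proof. Let `k = dim W`, and choose matrices `J : m × k`, `L : k × m` with `L J = 1`, and the range of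
`J` equal to `W`. For `y ∈ V` put `y_W = L (D y) J`; as `W` is stable, `J y_W = (D y) J`, so
`[x, y]_W = [x_W, y_W]` and the trace of `y_W` is `0` for all `y ∈ V` (`V` is spanned by brackets,
`y ↦ y_W` is linear on `V`). `J η_W = (D η) J` gives `(D η)^j J = J η_W^j` and
`exp(n D η) J = J exp(n η_W)`, `exp(n η_W) = L exp(n D η) J → 0` entrywise. But
`det exp(n η_W) = exp(n tr η_W) = 1` (`det_exp`), and the determinant of the zero `k × k` matrix is
`0` if `k ≥ 1`. So `k = 0`. -/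
theorem eq_bot_of_contract {m : ℕ} (V : Submodule ℝ (Matrix ι ι ℝ))
    (D : Matrix ι ι ℝ → Matrix (Fin m) (Fin m) ℝ)
    (hadd : ∀ x y, D (x + y) = D x + D y) (hsmul : ∀ (c : ℝ) (x), D (c • x) = c • D x)
    (hbr : ∀ x ∈ V, ∀ y ∈ V, D (x * y - y * x) = D x * D y - D y * D x)
    (hperf : V ≤ Submodule.span ℝ {z | ∃ x ∈ V, ∃ y ∈ V, z = x * y - y * x})
    (W : Submodule ℝ (Fin m → ℝ)) (hW : ∀ y ∈ V, ∀ w ∈ W, D y *ᵥ w ∈ W)
    (η : Matrix ι ι ℝ) (hη : η ∈ V)
    (hc : ∀ w ∈ W, Tendsto (fun n : ℕ => NormedSpace.exp ((n : ℝ) • D η) *ᵥ w) atTop (𝓝 0)) :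
    W = ⊥ := by
  obtain ⟨J, L, hLJ, hJW, hJL⟩ := ContrA_basis W
  have hDJ : ∀ y ∈ V, D y * J = J * (L * (D y * J)) := by
    intro y hy
    ext i a
    have h1 := hJL _ (hW y hy _ (hJW a))
    have h2 := congrFun h1 i
    rw [← Matrix.mul_assoc]
    have h3 : ((J * L) * (D y * J)) i a = (J *ᵥ (L *ᵥ (D y *ᵥ fun i => J i a))) i := by
      rw [Matrix.mulVec_mulVec]
      rfl
    rw [h3, h2]
    rfl
  have htr : ∀ y ∈ V, (L * (D y * J)).trace = 0 := by
    intro y hy
    refine Submodule.span_induction (p := fun z _ => (L * (D z * J)).trace = 0) ?_ ?_ ?_ ?_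
      (hperf hy)
    · rintro z ⟨x, hx, y, hy, rfl⟩
      have h1 : L * (D x * D y * J) = (L * (D x * J)) * (L * (D y * J)) := by
        rw [Matrix.mul_assoc (D x), hDJ y hy, ← Matrix.mul_assoc (D x), Matrix.mul_assoc L]
        rw [← hDJ y hy]
      have h2 : L * (D y * D x * J) = (L * (D y * J)) * (L * (D x * J)) := by
        rw [Matrix.mul_assoc (D y), hDJ x hx, ← Matrix.mul_assoc (D y), Matrix.mul_assoc L]
        rw [← hDJ x hx]
      rw [hbr x hx y hy, Matrix.sub_mul, Matrix.mul_sub, Matrix.trace_sub, h1, h2,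
        Matrix.trace_mul_comm, sub_self]
    · have h0 : D 0 = 0 := by
        have := hsmul 0 0
        rw [zero_smul, zero_smul] at this
        exact this
      rw [h0, Matrix.zero_mul, Matrix.mul_zero, Matrix.trace_zero]
    · intro x y _ _ hx hy
      rw [hadd, Matrix.add_mul, Matrix.mul_add, Matrix.trace_add, hx, hy, add_zero]
    · intro c x _ hx
      rw [hsmul, Matrix.smul_mul, Matrix.mul_smul, Matrix.trace_smul, hx, smul_zero]
  obtain ⟨A, hA⟩ : ∃ A, A = L * (D η * J) := ⟨_, rfl⟩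
  have hA0 : A.trace = 0 := by rw [hA]; exact htr η hη
  have hint : ∀ n : ℕ, NormedSpace.exp ((n : ℝ) • D η) * J =
      J * NormedSpace.exp ((n : ℝ) • A) := by
    intro n
    apply ContrA_exp
    rw [Matrix.smul_mul, hDJ η hη, Matrix.mul_smul, hA]
  have hlim : Tendsto (fun n : ℕ => NormedSpace.exp ((n : ℝ) • A)) atTop (𝓝 0) := by
    refine tendsto_pi_nhds.2 fun p => tendsto_pi_nhds.2 fun a => ?_
    have h1 : ∀ i, Tendsto (fun n : ℕ => (J * NormedSpace.exp ((n : ℝ) • A)) i a) atTop (𝓝 0) := by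
      intro i
      have h2 := (tendsto_pi_nhds.1 (hc _ (hJW a))) i
      refine h2.congr fun n => ?_
      rw [← hint n]
      rfl
    have h3 : Tendsto (fun n : ℕ => ∑ i, L p i * (J * NormedSpace.exp ((n : ℝ) • A)) i a) atTop
        (𝓝 (∑ i, L p i * 0)) := tendsto_finsetSum _ fun i _ => (h1 i).const_mul (L p i)
    simp only [mul_zero, Finset.sum_const_zero] at h3
    refine h3.congr fun n => ?_
    rw [← Matrix.mul_apply, ← Matrix.mul_assoc, hLJ, Matrix.one_mul]
  have hdet : Tendsto (fun n : ℕ => (NormedSpace.exp ((n : ℝ) • A)).det) atTop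
      (𝓝 (0 : Matrix (Fin (Module.finrank ℝ W)) (Fin (Module.finrank ℝ W)) ℝ).det) :=
    ((continuous_id.matrix_det).tendsto _).comp hlim
  have hdet1 : ∀ n : ℕ, (NormedSpace.exp ((n : ℝ) • A)).det = 1 := by
    intro n
    rw [det_exp, Matrix.trace_smul, hA0, smul_zero, Real.exp_zero]
  simp only [hdet1] at hdet
  have h0 := tendsto_nhds_unique hdet tendsto_const_nhds
  rcases Nat.eq_zero_or_pos (Module.finrank ℝ W) with hk | hk
  · exact Submodule.finrank_eq_zero.1 hk
  · exfalso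
    haveI : Nonempty (Fin (Module.finrank ℝ W)) := ⟨⟨0, hk⟩⟩
    rw [Matrix.det_zero] at h0
    exact zero_ne_one h0

end Pool.Agent.W_MP_bb6588_G
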