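import Mathlib
import Pool.Agent.W_MP_bb6588_G.Exp

set_option autoImplicit false

/-!
# Derivatives of exponentials, and the adjoint action
-/

namespace Pool.Agent.W_MP_bb6588_G

open Matrix Filter Topology
open Pool.Agent.W_MP_bb6588_an (SLR SLZ nrm Dig step expo dlt val)

variable {ι : Type} [Fintype ι] [DecidableEq ι]

set_option backward.isDefEq.respectTransparency false in
/-- Use `hasDerivAt_exp_smul_const` (with a local norm on matrices). -/
theorem hasDerivAt_exp_entry (X : Matrix ι ι ℝ) (t : ℝ) (i j : ι) :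
    HasDerivAt (fun s : ℝ => (NormedSpace.exp (s • X)) i j)
      ((X * NormedSpace.exp (t • X)) i j) t := by
  open scoped Matrix.Norms.Operator in
  have h := hasDerivAt_exp_smul_const' (𝕂 := ℝ) X t
  let e : Matrix ι ι ℝ →ₗ[ℝ] ℝ :=
    { toFun := fun M => M i j, map_add' := fun _ _ => rfl, map_smul' := fun _ _ => rfl }
  have he := (LinearMap.toContinuousLinearMap e).hasFDerivAt.comp_hasDerivAt t h
  exact he

section
variable {𝔸 : Type*} [NormedRing 𝔸] [NormedAlgebra ℝ 𝔸] [CompleteSpace 𝔸]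

theorem exp_clm_apply (A : 𝔸 →L[ℝ] 𝔸) (y : 𝔸) :
    HasSum (fun n : ℕ => ((n.factorial : ℝ)⁻¹) • (A ^ n) y) (NormedSpace.exp A y) := by
  have h := NormedSpace.exp_series_hasSum_exp' (𝕂 := ℝ) A
  exact h.mapL (ContinuousLinearMap.apply ℝ 𝔸 y)

theorem exp_mulL (x y : 𝔸) :
    NormedSpace.exp (ContinuousLinearMap.mul ℝ 𝔸 x) y = NormedSpace.exp x * y := by
  have h1 := exp_clm_apply (ContinuousLinearMap.mul ℝ 𝔸 x) y
  have h2 := (NormedSpace.exp_series_hasSum_exp' (𝕂 := ℝ) x).mul_right y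
  have h3 : ∀ n : ℕ, ((ContinuousLinearMap.mul ℝ 𝔸 x) ^ n) y = x ^ n * y := by
    intro n
    induction n with
    | zero => simp
    | succ n ih =>
      rw [pow_succ']
      change x * ((ContinuousLinearMap.mul ℝ 𝔸 x) ^ n) y = _
      rw [ih, pow_succ', mul_assoc]
  simp only [h3] at h1
  simp only [smul_mul_assoc] at h2
  exact h1.unique h2

theorem exp_mulR (x y : 𝔸) :
    NormedSpace.exp ((ContinuousLinearMap.mul ℝ 𝔸).flip x) y = y * NormedSpace.exp x := by
  have h1 := exp_clm_apply ((ContinuousLinearMap.mul ℝ 𝔸).flip x) y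
  have h2 := (NormedSpace.exp_series_hasSum_exp' (𝕂 := ℝ) x).mul_left y
  have h3 : ∀ n : ℕ, (((ContinuousLinearMap.mul ℝ 𝔸).flip x) ^ n) y = y * x ^ n := by
    intro n
    induction n with
    | zero => simp
    | succ n ih =>
      rw [pow_succ']
      change (((ContinuousLinearMap.mul ℝ 𝔸).flip x) ^ n) y * x = _
      rw [ih, pow_succ, mul_assoc]
  simp only [h3] at h1
  simp only [mul_smul_comm] at h2
  exact h1.unique h2

theorem conj_mem_aux (V : Submodule ℝ 𝔸) (hV : IsClosed (V : Set 𝔸)) (x : 𝔸)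
    (hx : ∀ y ∈ V, x * y - y * x ∈ V) (y : 𝔸) (hy : y ∈ V) :
    NormedSpace.exp x * y * NormedSpace.exp (-x) ∈ V := by
  have hc : Commute (ContinuousLinearMap.mul ℝ 𝔸 x) ((ContinuousLinearMap.mul ℝ 𝔸).flip (-x)) := by
    ext z
    simp [mul_assoc]
  let _ : NormedAlgebra ℚ (𝔸 →L[ℝ] 𝔸) := NormedAlgebra.restrictScalars ℚ ℝ _
  have he := NormedSpace.exp_add_of_commute hc
  have h1 : NormedSpace.exp x * y * NormedSpace.exp (-x) =
      NormedSpace.exp (ContinuousLinearMap.mul ℝ 𝔸 x + (ContinuousLinearMap.mul ℝ 𝔸).flip (-x)) y := by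
    rw [he]
    change _ = NormedSpace.exp (ContinuousLinearMap.mul ℝ 𝔸 x)
      (NormedSpace.exp ((ContinuousLinearMap.mul ℝ 𝔸).flip (-x)) y)
    rw [exp_mulL, exp_mulR, mul_assoc]
  rw [h1]
  have hs := exp_clm_apply (ContinuousLinearMap.mul ℝ 𝔸 x + (ContinuousLinearMap.mul ℝ 𝔸).flip (-x)) y
  refine hV.mem_of_tendsto hs (Filter.Eventually.of_forall fun s => ?_)
  refine Submodule.sum_mem _ fun n _ => Submodule.smul_mem _ _ ?_
  clear * - hx hy
  induction n with
  | zero => simpa using hy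
  | succ n ih =>
    rw [pow_succ']
    have := hx _ ih
    change x * _ + _ * (-x) ∈ V
    rw [mul_neg, ← sub_eq_add_neg]
    exact this

end

set_option backward.isDefEq.respectTransparency false in
/-- A space `V` of matrices with `[x, V] ⊆ V` satisfies `exp(x) V exp(-x) ⊆ V`.

Proof. One route: `exp(x) y exp(-x) = ∑ ad(x)^k y / k!`, because left multiplication by `x` and
right multiplication by `-x` are commuting continuous linear operators `L`, `R'` on the space of
matrices, `exp(L + R') = exp(L) exp(R')`; the partial sums lie in `V`, a closed subspace. Another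
route: for a linear functional `f` vanishing on `V` and `y ∈ V` consider
`h_y(t) = f (exp(tx) y exp(-tx))`: choose a basis of `V`; the vector of these functions solves a
linear differential equation with initial value `0`. -/
theorem conj_mem_of_bracket (V : Submodule ℝ (Matrix ι ι ℝ)) (x : Matrix ι ι ℝ)
    (hx : ∀ y ∈ V, x * y - y * x ∈ V) (y : Matrix ι ι ℝ) (hy : y ∈ V) :
    NormedSpace.exp x * y * NormedSpace.exp (-x) ∈ V := by
  have hcl : IsClosed (V : Set (Matrix ι ι ℝ)) := V.closed_of_finiteDimensional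
  open scoped Matrix.Norms.Operator in
  exact conj_mem_aux V hcl x hx y hy

/-- `V` is stable under conjugation by the group generated by `exp V`. -/
theorem conj_mem {V : Submodule ℝ (Matrix ι ι ℝ)} (hV : IsLie V) (hT : TrZ V) {g : SLR ι}
    (hg : g ∈ GG V) {y : Matrix ι ι ℝ} (hy : y ∈ V) :
    (g : Matrix ι ι ℝ) * y * ((g⁻¹ : SLR ι) : Matrix ι ι ℝ) ∈ V := by
  have hgen : ∀ x ∈ V, ∀ y ∈ V,
      (eS x : Matrix ι ι ℝ) * y * (((eS x)⁻¹ : SLR ι) : Matrix ι ι ℝ) ∈ V := by
    intro x hx y hy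
    have hxn : (-x).trace = 0 := by rw [Matrix.trace_neg, hT x hx, neg_zero]
    rw [← eS_neg (hT x hx), coe_eS (hT x hx), coe_eS hxn]
    exact conj_mem_of_bracket V x (fun y hy => hV x hx y hy) y hy
  unfold GG at hg
  revert y
  induction hg using Subgroup.closure_induction'' with
  | mem g hg =>
    obtain ⟨x, hx, rfl⟩ := hg
    intro y hy
    exact hgen x hx y hy
  | inv_mem g hg =>
    obtain ⟨x, hx, rfl⟩ := hg
    intro y hy
    rw [← eS_neg (hT x hx)]
    exact hgen (-x) (V.neg_mem hx) y hy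
  | one =>
    intro y hy
    simpa using hy
  | mul g h _ _ ihg ihh =>
    intro y hy
    have h1 := ihg (ihh hy)
    have e1 : ((g * h : SLR ι) : Matrix ι ι ℝ) = (g : Matrix ι ι ℝ) * (h : Matrix ι ι ℝ) :=
      Matrix.SpecialLinearGroup.coe_mul g h
    have e2 : (((g * h)⁻¹ : SLR ι) : Matrix ι ι ℝ) =
        ((h⁻¹ : SLR ι) : Matrix ι ι ℝ) * ((g⁻¹ : SLR ι) : Matrix ι ι ℝ) := by
      rw [_root_.mul_inv_rev]
      exact Matrix.SpecialLinearGroup.coe_mul h⁻¹ g⁻¹
    rw [e1, e2]
    simpa only [mul_assoc] using h1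

theorem NN_le_GG (V : Submodule ℝ (Matrix ι ι ℝ)) (a : Matrix ι ι ℝ) : NN V a ≤ GG V := by
  unfold NN GG
  apply Subgroup.closure_mono
  rintro g ⟨x, hx, μ, _, _, hg⟩
  exact ⟨x, hx, hg⟩

/-- Elements which commute with `V` commute with `GG V`. -/
theorem commute_of_mem_GG {V : Submodule ℝ (Matrix ι ι ℝ)} (hT : TrZ V) {c : Matrix ι ι ℝ}
    (hc : ∀ x ∈ V, x * c = c * x) {g : SLR ι} (hg : g ∈ GG V) :
    (g : Matrix ι ι ℝ) * c = c * (g : Matrix ι ι ℝ) := by
  have hgen : ∀ x ∈ V, (eS x : Matrix ι ι ℝ) * c = c * (eS x : Matrix ι ι ℝ) := by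
    intro x hx
    rw [coe_eS (hT x hx)]
    have h : Commute x c := hc x hx
    exact h.exp_left
  unfold GG at hg
  induction hg using Subgroup.closure_induction'' with
  | mem g hg =>
    obtain ⟨x, hx, rfl⟩ := hg
    exact hgen x hx
  | inv_mem g hg =>
    obtain ⟨x, hx, rfl⟩ := hg
    rw [← eS_neg (hT x hx)]
    exact hgen (-x) (V.neg_mem hx)
  | one => simp
  | mul g h _ _ ihg ihh =>
    have e1 : ((g * h : SLR ι) : Matrix ι ι ℝ) = (g : Matrix ι ι ℝ) * (h : Matrix ι ι ℝ) :=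
      Matrix.SpecialLinearGroup.coe_mul g h
    rw [e1, mul_assoc, ihh, ← mul_assoc, ihg, mul_assoc]

end Pool.Agent.W_MP_bb6588_G
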