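import Mathlib
import Pool.Agent.W_MP_bb6588_G.ExpC

set_option autoImplicit false

/-!
# The derivative of a rational representation
-/

namespace Pool.Agent.W_MP_bb6588_G

open Matrix Filter Topology
open Pool.Agent.W_MP_bb6588_an (SLR SLZ nrm Dig step expo dlt val)

variable {ι : Type} [Fintype ι] [DecidableEq ι]

/-!
Throughout, `ρ : G → GL_m(ℝ)` is a homomorphism with `(ρ g) a b = P a b (g)` for polynomials
`P a b`.
-/

/-- The chain rule for polynomials (`MvPolynomial.induction_on`). -/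
theorem hasDerivAt_val (Q : MvPolynomial (ι × ι) ℝ) (c : ℝ → Matrix ι ι ℝ) (c' : Matrix ι ι ℝ)
    (t : ℝ) (hc : ∀ i j, HasDerivAt (fun s => c s i j) (c' i j) t) :
    HasDerivAt (fun s => val Q (c s))
      (∑ q : ι × ι, val (MvPolynomial.pderiv q Q) (c t) * c' q.1 q.2) t := by
  induction Q using MvPolynomial.induction_on with
  | C a =>
    simp only [val, MvPolynomial.eval_C, MvPolynomial.pderiv_C, map_zero, zero_mul,
      Finset.sum_const_zero]
    exact hasDerivAt_const t a
  | add p q hp hq =>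
    simp only [val, map_add, add_mul, Finset.sum_add_distrib] at hp hq ⊢
    exact hp.add hq
  | mul_X p n hp =>
    have h := hp.mul (hc n.1 n.2)
    have e1 : (fun s => val (p * MvPolynomial.X n) (c s)) =
        (fun s => val p (c s)) * (fun s => c s n.1 n.2) := by
      funext s
      simp [val]
    rw [e1]
    have e2 : ∀ q : ι × ι, val (MvPolynomial.pderiv q (p * MvPolynomial.X n)) (c t) * c' q.1 q.2 =
        val (MvPolynomial.pderiv q p) (c t) * c' q.1 q.2 * c t n.1 n.2 +
          (if n = q then val p (c t) * c' q.1 q.2 else 0) := by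
      intro q
      rw [MvPolynomial.pderiv_mul, MvPolynomial.pderiv_X]
      by_cases hq : n = q
      · subst hq
        simp [val]
        ring
      · simp [val, hq]
        ring
    rw [Finset.sum_congr rfl fun q _ => e2 q, Finset.sum_add_distrib, ← Finset.sum_mul,
      Finset.sum_ite_eq, if_pos (Finset.mem_univ _)]
    exact h

theorem dP_add {m : ℕ} (P : Fin m → Fin m → MvPolynomial (ι × ι) ℝ) (X Y : Matrix ι ι ℝ) :
    dP P (X + Y) = dP P X + dP P Y := by
  ext a b
  simp only [dP, Matrix.of_apply, Matrix.add_apply, mul_add, Finset.sum_add_distrib]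

theorem dP_smul {m : ℕ} (P : Fin m → Fin m → MvPolynomial (ι × ι) ℝ) (c : ℝ) (Y : Matrix ι ι ℝ) :
    dP P (c • Y) = c • dP P Y := by
  ext a b
  simp only [dP, Matrix.of_apply, Matrix.smul_apply, smul_eq_mul, Finset.mul_sum]
  exact Finset.sum_congr rfl fun q _ => by ring

/-- The derivative at `0` of `t ↦ ρ(exp(tY))` is `dP P Y`, for `Y` with `exp(tY) ∈ G`. -/
theorem hasDerivAt_rho {G : Subgroup (SLR ι)} {m : ℕ} (ρ : G →* GL (Fin m) ℝ)
    (P : Fin m → Fin m → MvPolynomial (ι × ι) ℝ)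
    (hP : ∀ (g : G) (a b : Fin m), (ρ g : Matrix (Fin m) (Fin m) ℝ) a b =
      val (P a b) ((g : SLR ι) : Matrix ι ι ℝ))
    (Y : Matrix ι ι ℝ) (hY : Y.trace = 0) (hG : ∀ t : ℝ, eS (t • Y) ∈ G) (a b : Fin m) :
    HasDerivAt (fun t : ℝ => (ρ ⟨eS (t • Y), hG t⟩ : Matrix (Fin m) (Fin m) ℝ) a b)
      (dP P Y a b) 0 := by
  have e1 : (fun t : ℝ => (ρ ⟨eS (t • Y), hG t⟩ : Matrix (Fin m) (Fin m) ℝ) a b) =
      fun t : ℝ => val (P a b) (NormedSpace.exp (t • Y)) := by
    funext t
    rw [hP]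
    congr 1
    exact coe_eS (by rw [Matrix.trace_smul, hY, smul_zero])
  rw [e1]
  have h := hasDerivAt_val (P a b) (fun t : ℝ => NormedSpace.exp (t • Y))
    (Y * NormedSpace.exp ((0 : ℝ) • Y)) 0 (fun i j => hasDerivAt_exp_entry Y 0 i j)
  simp only [zero_smul, NormedSpace.exp_zero, mul_one] at h
  exact h

end Pool.Agent.W_MP_bb6588_G
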