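import Mathlib
import Pool.Agent.W_MP_bb6588_G.DRhoA

set_option autoImplicit false

/-!
# Representations and exponentials
-/

namespace Pool.Agent.W_MP_bb6588_G

open Matrix Filter Topology
open Pool.Agent.W_MP_bb6588_an (SLR SLZ nrm Dig step expo dlt val)

variable {ι : Type} [Fintype ι] [DecidableEq ι]

/-!
Throughout, `ρ : G → GL_m(ℝ)` is a homomorphism with `(ρ g) a b = P a b (g)` for polynomials
`P a b`.
-/

/-- `ρ(exp(tY)) = exp(t dP P Y)`: a differentiable one-parameter group is determined by its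
derivative at `0` (the derivative of `t ↦ ρ(exp(tY)) exp(-t dP P Y)` is `0`). -/
theorem rho_exp {G : Subgroup (SLR ι)} {m : ℕ} (ρ : G →* GL (Fin m) ℝ)
    (P : Fin m → Fin m → MvPolynomial (ι × ι) ℝ)
    (hP : ∀ (g : G) (a b : Fin m), (ρ g : Matrix (Fin m) (Fin m) ℝ) a b =
      val (P a b) ((g : SLR ι) : Matrix ι ι ℝ))
    (Y : Matrix ι ι ℝ) (hY : Y.trace = 0) (hG : ∀ t : ℝ, eS (t • Y) ∈ G) (t : ℝ) :
    (ρ ⟨eS (t • Y), hG t⟩ : Matrix (Fin m) (Fin m) ℝ) = NormedSpace.exp (t • dP P Y) := by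
  obtain ⟨A, hA⟩ : ∃ A, A = dP P Y := ⟨_, rfl⟩
  obtain ⟨R, hR⟩ : ∃ R : ℝ → Matrix (Fin m) (Fin m) ℝ,
      R = fun t => (ρ ⟨eS (t • Y), hG t⟩ : Matrix (Fin m) (Fin m) ℝ) := ⟨_, rfl⟩
  have htr : ∀ t : ℝ, (t • Y).trace = 0 := fun t => by
    rw [Matrix.trace_smul, hY, smul_zero]
  have hadd : ∀ s t, R (s + t) = R s * R t := by
    intro s t
    have h1 : (⟨eS ((s + t) • Y), hG (s + t)⟩ : G) = ⟨eS (s • Y), hG s⟩ * ⟨eS (t • Y), hG t⟩ := by
      apply Subtype.ext
      change eS ((s + t) • Y) = eS (s • Y) * eS (t • Y)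
      rw [add_smul]
      refine eS_add (htr s) (htr t) ?_
      rw [smul_mul_smul_comm, smul_mul_smul_comm, mul_comm s t]
    rw [hR]
    beta_reduce
    rw [h1, map_mul]
    rfl
  have h0 : R 0 = 1 := by
    have h1 : (⟨eS ((0 : ℝ) • Y), hG 0⟩ : G) = 1 := by
      apply Subtype.ext
      change eS ((0 : ℝ) • Y) = 1
      rw [zero_smul, eS_zero]
    rw [hR]
    beta_reduce
    rw [h1, map_one]
    rfl
  have hd0 : ∀ a b, HasDerivAt (fun s => R s a b) (A a b) 0 := by
    intro a b
    rw [hR, hA]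
    exact hasDerivAt_rho ρ P hP Y hY hG a b
  have hd : ∀ t a b, HasDerivAt (fun s => R s a b) ((R t * A) a b) t := by
    intro t a b
    have h1 : (fun s => R s a b) = fun s => ∑ k, R t a k * R (s - t) k b := by
      funext s
      have h2 := hadd t (s - t)
      rw [add_sub_cancel] at h2
      rw [h2, Matrix.mul_apply]
    rw [h1, Matrix.mul_apply]
    refine HasDerivAt.fun_sum fun k _ => ?_
    refine HasDerivAt.const_mul _ ?_
    have h3 : HasDerivAt (fun s => R s k b) (A k b) (t - t) := by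
      rw [sub_self]
      exact hd0 k b
    exact h3.comp_sub_const t t
  have hF : ∀ t a b, HasDerivAt (fun s => (R s * NormedSpace.exp (s • (-A))) a b) 0 t := by
    intro t a b
    have h1 : HasDerivAt (fun s => ∑ k, R s a k * (NormedSpace.exp (s • (-A))) k b)
        (∑ k, ((R t * A) a k * (NormedSpace.exp (t • (-A))) k b +
          R t a k * ((-A) * NormedSpace.exp (t • (-A))) k b)) t :=
      HasDerivAt.fun_sum fun k _ => (hd t a k).mul (hasDerivAt_exp_entry (-A) t k b)
    have h2 : (∑ k, ((R t * A) a k * (NormedSpace.exp (t • (-A))) k b +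
          R t a k * ((-A) * NormedSpace.exp (t • (-A))) k b)) = 0 := by
      rw [Finset.sum_add_distrib, ← Matrix.mul_apply, ← Matrix.mul_apply, ← Matrix.add_apply]
      have h3 : R t * A * NormedSpace.exp (t • (-A)) + R t * (-A * NormedSpace.exp (t • (-A)))
          = 0 := by
        rw [Matrix.mul_assoc, Matrix.neg_mul, Matrix.mul_neg, add_neg_cancel]
      rw [h3]
      rfl
    rw [h2] at h1
    simpa only [Matrix.mul_apply] using h1
  have hc : ∀ t, R t * NormedSpace.exp (t • (-A)) = 1 := by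
    intro t
    ext a b
    have h1 : (R t * NormedSpace.exp (t • (-A))) a b =
        (R 0 * NormedSpace.exp ((0 : ℝ) • (-A))) a b :=
      is_const_of_deriv_eq_zero (f := fun s => (R s * NormedSpace.exp (s • (-A))) a b)
        (fun s => (hF s a b).differentiableAt) (fun s => (hF s a b).deriv) t 0
    rw [h1, h0, zero_smul, NormedSpace.exp_zero, mul_one]
  have hinv : NormedSpace.exp (t • (-A)) * NormedSpace.exp (t • A) = 1 := by
    have h1 : Commute (t • (-A)) (t • A) := by
      refine Commute.smul_left (Commute.smul_right ?_ t) t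
      exact (Commute.refl A).neg_left
    rw [← Matrix.exp_add_of_commute _ _ h1, smul_neg, neg_add_cancel, NormedSpace.exp_zero]
  have h4 : R t = NormedSpace.exp (t • A) := by
    calc R t = R t * (NormedSpace.exp (t • (-A)) * NormedSpace.exp (t • A)) := by
          rw [hinv, mul_one]
      _ = NormedSpace.exp (t • A) := by
          rw [← mul_assoc, hc t, one_mul]
  rw [← hA, ← h4, hR]

end Pool.Agent.W_MP_bb6588_G
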