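import Mathlib
import Pool.Agent.W_MP_bb6588_G.DRhoA

set_option autoImplicit false

/-!
# The derivative respects brackets
-/

namespace Pool.Agent.W_MP_bb6588_G

open Matrix Filter Topology
open Pool.Agent.W_MP_bb6588_an (SLR SLZ nrm Dig step expo dlt val)

variable {ι : Type} [Fintype ι] [DecidableEq ι]

/-!
Throughout, `ρ : G → GL_m(ℝ)` is a homomorphism with `(ρ g) a b = P a b (g)` for polynomials
`P a b`.
-/

/-- the product rule, entrywise -/
theorem DRhoC_mul {n : Type} [Fintype n] {A B : ℝ → Matrix n n ℝ} {A' B' : Matrix n n ℝ} {t : ℝ}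
    (hA : ∀ i j, HasDerivAt (fun s => A s i j) (A' i j) t)
    (hB : ∀ i j, HasDerivAt (fun s => B s i j) (B' i j) t) (i j : n) :
    HasDerivAt (fun s => (A s * B s) i j) ((A' * B t + A t * B') i j) t := by
  simp only [Matrix.mul_apply, Matrix.add_apply]
  rw [← Finset.sum_add_distrib]
  exact HasDerivAt.fun_sum fun k _ => (hA i k).fun_mul (hB k j)

/-- the product of three curves passing through `1` -/
theorem DRhoC_conj {n : Type} [Fintype n] [DecidableEq n] {A B : ℝ → Matrix n n ℝ}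
    {A' B' C : Matrix n n ℝ} {t : ℝ}
    (hA : ∀ i j, HasDerivAt (fun s => A s i j) (A' i j) t)
    (hB : ∀ i j, HasDerivAt (fun s => B s i j) (B' i j) t) (hA1 : A t = 1) (hB1 : B t = 1)
    (i j : n) :
    HasDerivAt (fun s => (A s * C * B s) i j) ((A' * C + C * B') i j) t := by
  have h1 := DRhoC_mul (A := fun s => A s * C) (B := B) (A' := A' * C) (B' := B') (t := t)
    (fun i j => by
      have := DRhoC_mul (A := A) (B := fun _ => C) (A' := A') (B' := 0) (t := t) hA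
        (fun i j => hasDerivAt_const t (C i j)) i j
      simpa only [mul_zero, add_zero] using this) hB i j
  simpa only [hA1, hB1, one_mul, mul_one] using h1

/-- constants on both sides -/
theorem DRhoC_const {n : Type} [Fintype n] [DecidableEq n] {B : ℝ → Matrix n n ℝ}
    {B' R S : Matrix n n ℝ} {t : ℝ}
    (hB : ∀ i j, HasDerivAt (fun s => B s i j) (B' i j) t) (i j : n) :
    HasDerivAt (fun s => (R * B s * S) i j) ((R * B' * S) i j) t := by
  have h1 := DRhoC_mul (A := fun s => R * B s) (B := fun _ => S) (A' := R * B') (B' := 0) (t := t)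
    (fun i j => by
      have := DRhoC_mul (A := fun _ => R) (B := B) (A' := 0) (B' := B') (t := t)
        (fun i j => hasDerivAt_const t (R i j)) hB i j
      simpa only [zero_mul, zero_add] using this) (fun i j => hasDerivAt_const t (S i j)) i j
  simpa only [mul_zero, add_zero] using h1

/-- `dP P [X, Y] = [dP P X, dP P Y]`.

Proof. For fixed `s`, `exp(sX) exp(tY) exp(-sX) = exp(t Y_s)`, `Y_s = exp(sX) Y exp(-sX)`. Apply `ρ`
and differentiate at `t = 0` (on the left the chain rule for the polynomials `P a b` along the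
curve `exp(sX) exp(tY) exp(-sX)`, which has derivative `Y_s` at `t = 0`):
`dP P (Y_s) = ρ(exp(sX)) (dP P Y) ρ(exp(-sX))`. Differentiate at `s = 0`: `Y_s` has derivative
`X Y - Y X`, `dP P` is linear, and `ρ(exp(± sX))` has derivative `± dP P X` (`hasDerivAt_rho`). -/
theorem dP_bracket {G : Subgroup (SLR ι)} {m : ℕ} (ρ : G →* GL (Fin m) ℝ)
    (P : Fin m → Fin m → MvPolynomial (ι × ι) ℝ)
    (hP : ∀ (g : G) (a b : Fin m), (ρ g : Matrix (Fin m) (Fin m) ℝ) a b =
      val (P a b) ((g : SLR ι) : Matrix ι ι ℝ))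
    (X Y : Matrix ι ι ℝ) (hX : X.trace = 0) (hY : Y.trace = 0)
    (hGX : ∀ t : ℝ, eS (t • X) ∈ G) (hGY : ∀ t : ℝ, eS (t • Y) ∈ G) :
    dP P (X * Y - Y * X) = dP P X * dP P Y - dP P Y * dP P X := by
  have hX' : (-X).trace = 0 := by rw [Matrix.trace_neg, hX, neg_zero]
  have htr : ∀ {Z : Matrix ι ι ℝ}, Z.trace = 0 → ∀ t : ℝ, (t • Z).trace = 0 := by
    intro Z hZ t
    rw [Matrix.trace_smul, hZ, smul_zero]
  have hGX' : ∀ t : ℝ, eS (t • (-X)) ∈ G := by
    intro t
    rw [smul_neg, eS_neg (htr hX t)]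
    exact G.inv_mem (hGX t)
  have hinv : ∀ s : ℝ, (⟨eS (s • (-X)), hGX' s⟩ : G) = (⟨eS (s • X), hGX s⟩ : G)⁻¹ := by
    intro s
    apply Subtype.ext
    rw [Subgroup.coe_inv]
    simp only
    rw [smul_neg, eS_neg (htr hX s)]
  -- the curves of matrices
  have e1 : ∀ {Z : Matrix ι ι ℝ}, ∀ i j, HasDerivAt (fun s : ℝ => (NormedSpace.exp (s • Z)) i j)
      (Z i j) 0 := by
    intro Z i j
    have := hasDerivAt_exp_entry Z 0 i j
    rwa [zero_smul, NormedSpace.exp_zero, mul_one] at this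
  set Ys : ℝ → Matrix ι ι ℝ := fun s =>
    NormedSpace.exp (s • X) * Y * NormedSpace.exp (s • (-X)) with hYs
  -- first derivative
  have key : ∀ s : ℝ, dP P (Ys s) = (ρ ⟨eS (s • X), hGX s⟩ : Matrix (Fin m) (Fin m) ℝ) * dP P Y *
      (ρ ⟨eS (s • (-X)), hGX' s⟩ : Matrix (Fin m) (Fin m) ℝ) := by
    intro s
    ext a b
    have h1 : ∀ t : ℝ, val (P a b) (NormedSpace.exp (s • X) * NormedSpace.exp (t • Y) *
        NormedSpace.exp (s • (-X))) = ((ρ ⟨eS (s • X), hGX s⟩ : Matrix (Fin m) (Fin m) ℝ) *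
        (ρ ⟨eS (t • Y), hGY t⟩ : Matrix (Fin m) (Fin m) ℝ) *
        (ρ ⟨eS (s • (-X)), hGX' s⟩ : Matrix (Fin m) (Fin m) ℝ)) a b := by
      intro t
      have h2 := hP (⟨eS (s • X), hGX s⟩ * ⟨eS (t • Y), hGY t⟩ * ⟨eS (s • (-X)), hGX' s⟩) a b
      rw [map_mul, map_mul] at h2
      simp only [Subgroup.coe_mul, Matrix.SpecialLinearGroup.coe_mul, coe_eS (htr hX s),
        coe_eS (htr hY t), coe_eS (htr hX' s)] at h2
      rw [← h2]
      rfl
    have h3 := hasDerivAt_val (P a b) (fun t : ℝ => NormedSpace.exp (s • X) *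
      NormedSpace.exp (t • Y) * NormedSpace.exp (s • (-X))) (Ys s) 0
      (DRhoC_const (B := fun t : ℝ => NormedSpace.exp (t • Y)) e1)
    have h4 : NormedSpace.exp (s • X) * NormedSpace.exp ((0 : ℝ) • Y) *
        NormedSpace.exp (s • (-X)) = 1 := by
      rw [zero_smul, NormedSpace.exp_zero, mul_one, ← coe_eS (htr hX s), ← coe_eS (htr hX' s),
        ← Matrix.SpecialLinearGroup.coe_mul, smul_neg, eS_neg (htr hX s), mul_inv_cancel]
      rfl
    have h5 := DRhoC_const (B := fun t : ℝ => (ρ ⟨eS (t • Y), hGY t⟩ :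
      Matrix (Fin m) (Fin m) ℝ)) (R := (ρ ⟨eS (s • X), hGX s⟩ : Matrix (Fin m) (Fin m) ℝ))
      (S := (ρ ⟨eS (s • (-X)), hGX' s⟩ : Matrix (Fin m) (Fin m) ℝ))
      (hasDerivAt_rho ρ P hP Y hY hGY) a b
    simp only [h4] at h3
    rw [funext h1] at h3
    exact h3.unique h5
  -- second derivative
  ext a b
  have h1 : ∀ i j, HasDerivAt (fun s => Ys s i j) ((X * Y + Y * (-X)) i j) 0 :=
    DRhoC_conj (A := fun s : ℝ => NormedSpace.exp (s • X))
      (B := fun s : ℝ => NormedSpace.exp (s • (-X))) e1 e1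
      (by rw [zero_smul, NormedSpace.exp_zero]) (by rw [zero_smul, NormedSpace.exp_zero])
  have h2 : HasDerivAt (fun s => dP P (Ys s) a b) (dP P (X * Y + Y * (-X)) a b) 0 := by
    have h3 : HasDerivAt (fun s => ∑ q : ι × ι, val (MvPolynomial.pderiv q (P a b)) 1 *
        Ys s q.1 q.2) (∑ q : ι × ι, val (MvPolynomial.pderiv q (P a b)) 1 *
        (X * Y + Y * (-X)) q.1 q.2) 0 :=
      HasDerivAt.fun_sum fun q _ => (h1 q.1 q.2).const_mul _
    exact h3
  have hone : ∀ {Z : Matrix ι ι ℝ} (hZ : ∀ t : ℝ, eS (t • Z) ∈ G),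
      (ρ ⟨eS ((0 : ℝ) • Z), hZ 0⟩ : Matrix (Fin m) (Fin m) ℝ) = 1 := by
    intro Z hZ
    have h6 : (⟨eS ((0 : ℝ) • Z), hZ 0⟩ : G) = 1 := by
      apply Subtype.ext
      simp only [zero_smul, eS_zero, Subgroup.coe_one]
    rw [h6, map_one]
    rfl
  have h4 := DRhoC_conj (A := fun s : ℝ => (ρ ⟨eS (s • X), hGX s⟩ : Matrix (Fin m) (Fin m) ℝ))
    (B := fun s : ℝ => (ρ ⟨eS (s • (-X)), hGX' s⟩ : Matrix (Fin m) (Fin m) ℝ))
    (C := dP P Y) (hasDerivAt_rho ρ P hP X hX hGX) (hasDerivAt_rho ρ P hP (-X) hX' hGX')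
    (hone hGX) (hone hGX') a b
  simp only [key] at h2
  have h5 := h2.unique h4
  have h6 : X * Y + Y * (-X) = X * Y - Y * X := by rw [mul_neg, sub_eq_add_neg]
  have h7 : dP P (-X) = - dP P X := by
    rw [← neg_one_smul ℝ X, dP_smul, neg_one_smul]
  rw [h6, h7] at h5
  rw [h5, mul_neg, ← sub_eq_add_neg]

end Pool.Agent.W_MP_bb6588_G
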