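import Mathlib
import Pool.Agent.W_MP_bb6588_G.DRhoB
import Pool.Agent.W_MP_bb6588_G.DRhoC
import Pool.Agent.W_MP_bb6588_G.ContrA

set_option autoImplicit false

/-!
# A vector all of whose translates are contracted vanishes
-/

namespace Pool.Agent.W_MP_bb6588_G

open Matrix Filter Topology
open Pool.Agent.W_MP_bb6588_an (SLR SLZ nrm Dig step expo dlt val)

variable {ι : Type} [Fintype ι] [DecidableEq ι]

/-- The derivative at `0` of a curve in a subspace lies in the subspace. -/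
theorem contrB_deriv_mem {m : ℕ} (W : Submodule ℝ (Fin m → ℝ)) (c : ℝ → Fin m → ℝ)
    (c' : Fin m → ℝ) (hc : ∀ t, c t ∈ W) (h : ∀ a, HasDerivAt (fun t => c t a) (c' a) 0) :
    c' ∈ W := by
  have h1 : HasDerivAt c c' 0 := hasDerivAt_pi.2 h
  have h2 := hasDerivAt_iff_tendsto_slope_zero.1 h1
  have hcl : IsClosed (W : Set (Fin m → ℝ)) := Submodule.closed_of_finiteDimensional W
  refine hcl.mem_of_tendsto h2 (Eventually.of_forall fun t => ?_)
  exact W.smul_mem _ (W.sub_mem (hc _) (hc _))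

/-- Let `V` be a Lie algebra of real matrices which is spanned by its brackets, and is spanned by
`X₀` and the brackets of elements of `X₀`. Let `G` contain `exp(V)`, `K ≤ G` contain `exp(t x)`,
`x ∈ X₀`. If `ρ(exp(n η) k) w → 0` for all `k ∈ K` then `w = 0`.

Proof. Let `W` be the span of the `ρ(k) w`, `k ∈ K`. It is stable under `ρ(k)`, `k ∈ K`. For
`x ∈ X₀` and `w' ∈ W` the curve `t ↦ ρ(exp(tx)) w'` lies in `W` (closed), so its derivative at `0`,
`(dP P x) w'` (`hasDerivAt_rho`), is in `W`. By `dP_bracket` and linearity `W` is stable under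
`dP P y` for all `y ∈ V`. By `rho_exp`, `ρ(exp(nη)) = exp(n dP P η)`; by linearity
`exp(n dP P η) w' → 0` for all `w' ∈ W`. So `W = ⊥` by `eq_bot_of_contract`, and `w ∈ W`. -/
theorem eq_zero_of_contract {G : Subgroup (SLR ι)} {m : ℕ} (ρ : G →* GL (Fin m) ℝ)
    (P : Fin m → Fin m → MvPolynomial (ι × ι) ℝ)
    (hP : ∀ (g : G) (a b : Fin m), (ρ g : Matrix (Fin m) (Fin m) ℝ) a b =
      val (P a b) ((g : SLR ι) : Matrix ι ι ℝ))
    (V : Submodule ℝ (Matrix ι ι ℝ)) (hV : IsLie V) (hT : TrZ V) (hG : ∀ x ∈ V, eS x ∈ G)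
    (hperf : V ≤ Submodule.span ℝ {z | ∃ x ∈ V, ∃ y ∈ V, z = x * y - y * x})
    (X₀ : Set (Matrix ι ι ℝ)) (hX₀ : X₀ ⊆ V)
    (hgen : V ≤ Submodule.span ℝ (X₀ ∪ {z | ∃ x ∈ X₀, ∃ y ∈ X₀, z = x * y - y * x}))
    (K : Subgroup (SLR ι)) (hK : ∀ x ∈ X₀, ∀ t : ℝ, eS (t • x) ∈ K)
    (η : Matrix ι ι ℝ) (hη : η ∈ V) (w : Fin m → ℝ)
    (hw : ∀ k : G, (k : SLR ι) ∈ K → Tendsto (fun n : ℕ =>
      (ρ (⟨eS ((n : ℝ) • η), hG _ (V.smul_mem _ hη)⟩ * k) : Matrix (Fin m) (Fin m) ℝ) *ᵥ w)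
        atTop (𝓝 0)) :
    w = 0 := by
  have hGt : ∀ x ∈ V, ∀ t : ℝ, eS (t • x) ∈ G := fun x hx t => hG _ (V.smul_mem t hx)
  obtain ⟨W, hWdef⟩ : ∃ W : Submodule ℝ (Fin m → ℝ), W = Submodule.span ℝ
      {v | ∃ k : G, (k : SLR ι) ∈ K ∧ v = (ρ k : Matrix (Fin m) (Fin m) ℝ) *ᵥ w} := ⟨_, rfl⟩
  have hmul : ∀ g k : G, ∀ v : Fin m → ℝ, (ρ g : Matrix (Fin m) (Fin m) ℝ) *ᵥ
      ((ρ k : Matrix (Fin m) (Fin m) ℝ) *ᵥ v) = (ρ (g * k) : Matrix (Fin m) (Fin m) ℝ) *ᵥ v := by
    intro g k v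
    rw [Matrix.mulVec_mulVec, map_mul, Units.val_mul]
  -- stability under `K`
  have h0 : ∀ g : G, (g : SLR ι) ∈ K → ∀ v ∈ W, (ρ g : Matrix (Fin m) (Fin m) ℝ) *ᵥ v ∈ W := by
    intro g hg v hv
    rw [hWdef] at hv
    induction hv using Submodule.span_induction with
    | mem v hv =>
      obtain ⟨k, hk, rfl⟩ := hv
      rw [hmul, hWdef]
      refine Submodule.subset_span ⟨g * k, ?_, rfl⟩
      rw [Subgroup.coe_mul]
      exact K.mul_mem hg hk
    | zero =>
      rw [Matrix.mulVec_zero]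
      exact W.zero_mem
    | add x y _ _ hx hy =>
      rw [Matrix.mulVec_add]
      exact W.add_mem hx hy
    | smul a x _ hx =>
      rw [Matrix.mulVec_smul]
      exact W.smul_mem a hx
  -- stability under the derivatives in the directions of `X₀`
  have h1 : ∀ x ∈ X₀, ∀ v ∈ W, dP P x *ᵥ v ∈ W := by
    intro x hx v hv
    refine contrB_deriv_mem W (fun t : ℝ =>
      (ρ ⟨eS (t • x), hGt x (hX₀ hx) t⟩ : Matrix (Fin m) (Fin m) ℝ) *ᵥ v) _
      (fun t => h0 _ (hK x hx t) v hv) (fun a => ?_)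
    have h2 := fun b => (hasDerivAt_rho ρ P hP x (hT x (hX₀ hx)) (hGt x (hX₀ hx)) a b).mul_const
      (v b)
    have h3 := HasDerivAt.fun_sum (u := Finset.univ) fun b _ => h2 b
    exact h3
  -- stability under the derivatives in the directions of `V`
  have h2 : ∀ y ∈ V, ∀ v ∈ W, dP P y *ᵥ v ∈ W := by
    intro y hy
    have hy' := hgen hy
    clear hy
    induction hy' using Submodule.span_induction with
    | mem y hy =>
      rcases hy with hy | ⟨x, hx, x', hx', rfl⟩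
      · exact h1 y hy
      · intro v hv
        rw [dP_bracket ρ P hP x x' (hT x (hX₀ hx)) (hT x' (hX₀ hx')) (hGt x (hX₀ hx))
          (hGt x' (hX₀ hx')), Matrix.sub_mulVec, ← Matrix.mulVec_mulVec, ← Matrix.mulVec_mulVec]
        exact W.sub_mem (h1 x hx _ (h1 x' hx' v hv)) (h1 x' hx' _ (h1 x hx v hv))
    | zero =>
      intro v _
      have h3 : dP P (0 : Matrix ι ι ℝ) = 0 := by
        have h4 := dP_smul P 0 (0 : Matrix ι ι ℝ)
        rwa [zero_smul, zero_smul] at h4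
      rw [h3, Matrix.zero_mulVec]
      exact W.zero_mem
    | add x y _ _ hx hy =>
      intro v hv
      rw [dP_add, Matrix.add_mulVec]
      exact W.add_mem (hx v hv) (hy v hv)
    | smul a x _ hx =>
      intro v hv
      rw [dP_smul, Matrix.smul_mulVec]
      exact W.smul_mem a (hx v hv)
  -- contraction
  have h3 : ∀ v ∈ W, Tendsto (fun n : ℕ => NormedSpace.exp ((n : ℝ) • dP P η) *ᵥ v) atTop
      (𝓝 0) := by
    intro v hv
    rw [hWdef] at hv
    induction hv using Submodule.span_induction with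
    | mem v hv =>
      obtain ⟨k, hk, rfl⟩ := hv
      refine (hw k hk).congr fun n => ?_
      rw [← hmul, rho_exp ρ P hP η (hT η hη) (hGt η hη) (n : ℝ)]
    | zero =>
      simp only [Matrix.mulVec_zero]
      exact tendsto_const_nhds
    | add x y _ _ hx hy =>
      simp only [Matrix.mulVec_add]
      have h4 := hx.add hy
      rwa [add_zero] at h4
    | smul a x _ hx =>
      simp only [Matrix.mulVec_smul]
      have h4 := hx.const_smul a
      rwa [smul_zero] at h4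
  have hbot := eq_bot_of_contract V (dP P) (dP_add P) (dP_smul P)
    (fun x hx y hy => dP_bracket ρ P hP x y (hT x hx) (hT y hy) (hGt x hx) (hGt y hy)) hperf W h2
    η hη h3
  have hwW : w ∈ W := by
    rw [hWdef]
    refine Submodule.subset_span ⟨1, ?_, ?_⟩
    · rw [Subgroup.coe_one]
      exact K.one_mem
    · rw [map_one, Units.val_one, Matrix.one_mulVec]
  rw [hbot] at hwW
  exact (Submodule.mem_bot ℝ).1 hwW

end Pool.Agent.W_MP_bb6588_G
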