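import Mathlib
import Pool.Agent.W_MP_bb6588_G.Defs
import Pool.Agent.W_MP_bb6588_an.Limit
import Pool.Agent.W_MP_bb6588_an.Window

set_option autoImplicit false

/-!
# Uniform contraction rates and time windows
-/

namespace Pool.Agent.W_MP_bb6588_G

open Matrix Filter Topology
open Pool.Agent.W_MP_bb6588_an (SLR SLZ nrm Dig step expo dlt val)

variable {ι : Type} [Fintype ι] [DecidableEq ι] {κ : Type}

/-- The matrix of `z` in the basis given by the columns of `P`. -/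
noncomputable def cz (P : Matrix ι ι ℤ) (z : Matrix ι ι ℝ) : Matrix ι ι ℝ := (zR P)⁻¹ * z * zR P

/-- Compactness: if for every `z ∈ E`, `z ≠ 0`, there is a set `C` of a given kind with
`∑_{i ∈ C} (cz P z) i i < 0`, then there is a uniform bound.

Proof. For fixed `k` the function `z ↦ min_C ∑_{i ∈ C} (cz P z) i i` (minimum over the finitely many
`C` with `good k C`) is continuous and negative on the compact set `{z ∈ E : nrm z = 1}`
(if this set is empty, `E = 0` and there is nothing to prove); so it is `≤ - c_k < 0` there. Use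
homogeneity and the minimum of the finitely many `c_k`. (`nrm` is continuous, homogeneous, and
`nrm z = 0` only for `z = 0`; the set `{nrm z ≤ 1}` is compact; `E` is closed.) -/
theorem exists_uniform [Finite κ] (P : Matrix ι ι ℤ) (E : Submodule ℝ (Matrix ι ι ℝ))
    (good : κ → Finset ι → Prop)
    (h : ∀ k, ∀ z ∈ E, z ≠ 0 → ∃ C, good k C ∧ ∑ i ∈ C, cz P z i i < 0) :
    ∃ c : ℝ, 0 < c ∧ ∀ k, ∀ z ∈ E, z ≠ 0 →
      ∃ C, good k C ∧ ∑ i ∈ C, cz P z i i ≤ -(c * nrm z) := by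
  classical
  -- the linear forms
  have hcont : ∀ C : Finset ι, Continuous fun z : Matrix ι ι ℝ => ∑ i ∈ C, cz P z i i := by
    intro C
    refine continuous_finsetSum C fun i _ => ?_
    unfold cz
    exact ((continuous_const.matrix_mul continuous_id).matrix_mul continuous_const).matrix_elem i i
  have hhom : ∀ (C : Finset ι) (a : ℝ) (z : Matrix ι ι ℝ),
      ∑ i ∈ C, cz P (a • z) i i = a * ∑ i ∈ C, cz P z i i := by
    intro C a z
    rw [Finset.mul_sum]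
    refine Finset.sum_congr rfl fun i _ => ?_
    unfold cz
    rw [Matrix.mul_smul, Matrix.smul_mul, Matrix.smul_apply, smul_eq_mul]
  -- the sphere of `E`
  have hK : IsCompact {z : Matrix ι ι ℝ | z ∈ E ∧ nrm z = 1} := by
    have hc : IsCompact {z : Matrix ι ι ℝ | ∀ i, z i ∈ {y : ι → ℝ | ∀ j, y j ∈ Set.Icc (-1 : ℝ) 1}} :=
      isCompact_pi_infinite fun i : ι => isCompact_pi_infinite fun j : ι => isCompact_Icc
    refine hc.of_isClosed_subset ?_ ?_
    · have h1 : IsClosed (E : Set (Matrix ι ι ℝ)) := E.closed_of_finiteDimensional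
      have h2 : IsClosed {z : Matrix ι ι ℝ | nrm z = 1} :=
        isClosed_eq Pool.Agent.W_MP_bb6588_an.continuous_nrm continuous_const
      exact h1.inter h2
    · rintro z ⟨-, hz⟩ i j
      have h1 := Pool.Agent.W_MP_bb6588_an.abs_apply_le_nrm z i j
      rw [hz] at h1
      exact abs_le.1 h1
  -- the cover
  let V : ℕ → Set (Matrix ι ι ℝ) := fun n =>
    ⋂ k : κ, ⋃ C : {C : Finset ι // good k C},
      {z | ∑ i ∈ C.1, cz P z i i < -(1 / ((n : ℝ) + 1))}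
  have hVo : ∀ n, IsOpen (V n) := fun n =>
    isOpen_iInter_of_finite fun k => isOpen_iUnion fun C => isOpen_lt (hcont C.1) continuous_const
  have hmono : ∀ {a b : ℕ}, a ≤ b → V a ⊆ V b := by
    intro a b hab z hz
    refine Set.mem_iInter.2 fun k => ?_
    obtain ⟨C, hC⟩ := Set.mem_iUnion.1 (Set.mem_iInter.1 hz k)
    have hC' : ∑ i ∈ C.1, cz P z i i < -(1 / ((a : ℝ) + 1)) := hC
    refine Set.mem_iUnion.2 ⟨C, ?_⟩
    show ∑ i ∈ C.1, cz P z i i < -(1 / ((b : ℝ) + 1))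
    have h1 : 1 / ((b : ℝ) + 1) ≤ 1 / ((a : ℝ) + 1) := Nat.one_div_le_one_div hab
    linarith
  have hcov : {z : Matrix ι ι ℝ | z ∈ E ∧ nrm z = 1} ⊆ ⋃ n, V n := by
    rintro z ⟨hzE, hz1⟩
    have hz0 : z ≠ 0 := by
      rintro rfl
      simp [nrm] at hz1
    have h1 : ∀ k : κ, ∃ n : ℕ, ∃ C, good k C ∧ ∑ i ∈ C, cz P z i i < -(1 / ((n : ℝ) + 1)) := by
      intro k
      obtain ⟨C, hC, hneg⟩ := h k z hzE hz0
      obtain ⟨n, hn⟩ := exists_nat_one_div_lt (show 0 < -∑ i ∈ C, cz P z i i by linarith)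
      exact ⟨n, C, hC, by linarith⟩
    choose n C hC hn using h1
    obtain ⟨N, hN⟩ := Finite.exists_le n
    refine Set.mem_iUnion.2 ⟨N, Set.mem_iInter.2 fun k => Set.mem_iUnion.2 ⟨⟨C k, hC k⟩, ?_⟩⟩
    show ∑ i ∈ C k, cz P z i i < -(1 / ((N : ℝ) + 1))
    have h2 := hn k
    have h1 : 1 / ((N : ℝ) + 1) ≤ 1 / ((n k : ℝ) + 1) := Nat.one_div_le_one_div (hN k)
    linarith
  obtain ⟨n, hn⟩ := hK.elim_directed_cover V hVo hcov fun a b =>
    ⟨max a b, hmono (le_max_left a b), hmono (le_max_right a b)⟩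
  refine ⟨1 / ((n : ℝ) + 1), by positivity, fun k z hzE hz0 => ?_⟩
  have hpos : 0 < nrm z := by
    refine lt_of_le_of_ne (Pool.Agent.W_MP_bb6588_an.nrm_nonneg z) fun h0 => hz0 ?_
    ext i j
    have h1 := Pool.Agent.W_MP_bb6588_an.abs_apply_le_nrm z i j
    rw [← h0] at h1
    exact abs_nonpos_iff.1 h1
  have hmem : (nrm z)⁻¹ • z ∈ {z : Matrix ι ι ℝ | z ∈ E ∧ nrm z = 1} := by
    refine ⟨E.smul_mem _ hzE, ?_⟩
    have h1 : nrm ((nrm z)⁻¹ • z) = (nrm z)⁻¹ * nrm z := by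
      unfold nrm
      rw [Finset.mul_sum]
      refine Finset.sum_congr rfl fun i _ => ?_
      rw [Finset.mul_sum]
      refine Finset.sum_congr rfl fun j _ => ?_
      have h2 : 0 ≤ (∑ i, ∑ j, |z i j|)⁻¹ := inv_nonneg.2 hpos.le
      rw [Matrix.smul_apply, smul_eq_mul, abs_mul, abs_of_nonneg h2]
    rw [h1, inv_mul_cancel₀ hpos.ne']
  obtain ⟨C, hC⟩ := Set.mem_iUnion.1 (Set.mem_iInter.1 (hn hmem) k)
  refine ⟨C.1, C.2, ?_⟩
  have h1 : ∑ i ∈ C.1, cz P ((nrm z)⁻¹ • z) i i < -(1 / ((n : ℝ) + 1)) := hC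
  rw [hhom] at h1
  have h2 := mul_lt_mul_of_pos_left h1 hpos
  rw [← mul_assoc, mul_inv_cancel₀ hpos.ne', one_mul] at h2
  linarith

/-- Variant of `W_MP_bb6588_an.window` with constants.

Proof. Apply `window` with `c / (M + 1)`, `C + c`, and a small `ε' ≤ 1` (for instance
`ε' = min 1 (min ε ε₂)`) to get `l` with `2^{expo l} e^{-c τ/(M+1)} < ε'` and
`2^{expo l} e^{(C + c) τ} dlt (l+1) < ε'`. Then
`2^{M expo l} e^{-c τ} ≤ (2^{expo l} e^{-cτ/(M+1)})^{M+1} ≤ ε'^{M+1} ≤ ε'` (as `2^{expo l} ≥ 1`) and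
`e^{C τ} dlt (l+1) ≤ 2^{expo l} e^{(C+c) τ} dlt (l+1) < ε'` (for `τ ≥ 0`). -/
theorem window' (M : ℕ) (c C ε ε₂ : ℝ) (hc : 0 < c) (hC : 0 < C) (hε : 0 < ε) (hε₂ : 0 < ε₂) :
    ∃ T : ℝ, ∀ τ : ℝ, T ≤ τ → ∃ l : ℕ,
      (2 : ℝ) ^ (M * expo l) * Real.exp (-(c * τ)) < ε ∧
      Real.exp (C * τ) * dlt (l + 1) < ε₂ := by
  have hM : (0 : ℝ) < (M : ℝ) + 1 := by positivity
  obtain ⟨T, hT⟩ := Pool.Agent.W_MP_bb6588_an.window (c / ((M : ℝ) + 1)) (C + c)
    (min 1 (min ε ε₂)) (by positivity) (by positivity) (lt_min one_pos (lt_min hε hε₂))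
  refine ⟨max T 0, fun τ hτ => ?_⟩
  obtain ⟨l, h1, h2⟩ := hT τ ((le_max_left _ _).trans hτ)
  have hτ0 : 0 ≤ τ := (le_max_right _ _).trans hτ
  refine ⟨l, ?_, ?_⟩
  · have ha : (1 : ℝ) ≤ 2 ^ expo l := one_le_pow₀ (by norm_num)
    have hb : 0 < Real.exp (-(c / ((M : ℝ) + 1) * τ)) := Real.exp_pos _
    have hexp : Real.exp (-(c * τ)) = Real.exp (-(c / ((M : ℝ) + 1) * τ)) ^ (M + 1) := by
      rw [← Real.exp_nat_mul]
      congr 1
      push_cast
      field_simp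
    have hab : (2 : ℝ) ^ expo l * Real.exp (-(c / ((M : ℝ) + 1) * τ)) < 1 :=
      lt_of_lt_of_le h1 (min_le_left _ _)
    have hab0 : 0 ≤ (2 : ℝ) ^ expo l * Real.exp (-(c / ((M : ℝ) + 1) * τ)) := by positivity
    calc (2 : ℝ) ^ (M * expo l) * Real.exp (-(c * τ))
        = (2 ^ expo l) ^ M * Real.exp (-(c / ((M : ℝ) + 1) * τ)) ^ (M + 1) := by
          rw [hexp, mul_comm M, pow_mul]
      _ ≤ (2 ^ expo l) ^ (M + 1) * Real.exp (-(c / ((M : ℝ) + 1) * τ)) ^ (M + 1) :=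
          mul_le_mul_of_nonneg_right (pow_le_pow_right₀ ha (Nat.le_succ M)) (by positivity)
      _ = (2 ^ expo l * Real.exp (-(c / ((M : ℝ) + 1) * τ))) ^ (M + 1) := by rw [mul_pow]
      _ ≤ 2 ^ expo l * Real.exp (-(c / ((M : ℝ) + 1) * τ)) :=
          pow_le_of_le_one hab0 hab.le (Nat.succ_ne_zero M)
      _ < min 1 (min ε ε₂) := h1
      _ ≤ ε := (min_le_right _ _).trans (min_le_left _ _)
  · have ha : (1 : ℝ) ≤ 2 ^ expo l := one_le_pow₀ (by norm_num)
    have hd : 0 ≤ dlt (l + 1) := by unfold dlt; positivity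
    have he : Real.exp (C * τ) ≤ Real.exp ((C + c) * τ) := by
      refine Real.exp_le_exp.2 ?_
      nlinarith
    calc Real.exp (C * τ) * dlt (l + 1) ≤ 2 ^ expo l * Real.exp ((C + c) * τ) * dlt (l + 1) := by
          refine mul_le_mul_of_nonneg_right ?_ hd
          calc Real.exp (C * τ) ≤ 1 * Real.exp ((C + c) * τ) := by rw [one_mul]; exact he
            _ ≤ 2 ^ expo l * Real.exp ((C + c) * τ) :=
              mul_le_mul_of_nonneg_right ha (Real.exp_pos _).le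
      _ < min 1 (min ε ε₂) := h2
      _ ≤ ε₂ := (min_le_right _ _).trans (min_le_right _ _)

end Pool.Agent.W_MP_bb6588_G
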