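import Mathlib
import Pool.Agent.W_MP_bb6588_G.Defs
import Pool.Agent.W_MP_bb6588_an.Limit

set_option autoImplicit false

/-!
# Minors
-/

namespace Pool.Agent.W_MP_bb6588_G

open Matrix Filter Topology
open Pool.Agent.W_MP_bb6588_an (SLR SLZ nrm Dig step expo dlt val)

variable {ι : Type} [Fintype ι] [DecidableEq ι]

/-- Expansion along the rows: row `i` of the matrix `((B A) (r i) j)` is
`∑ m, B (r i) m • (row m of A restricted to C)`; the determinant is multilinear in the rows
(`MultilinearMap.map_sum` and `map_smul_univ` for `Matrix.detRowAlternating`, or directly from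
`Matrix.det_apply` and `Finset.prod_univ_sum`). -/
theorem minor_mul (C : Finset ι) (B A : Matrix ι ι ℝ) (r : C → ι) :
    minor C (B * A) r = ∑ r' : C → ι, (∏ i : C, B (r i) (r' i)) * minor C A r' := by
  have h1 : (Matrix.of fun i j : C => (B * A) (r i) j) =
      fun i : C => ∑ m : ι, B (r i) m • (fun j : C => A m j) := by
    funext i j
    simp [Matrix.mul_apply, Finset.sum_apply]
  unfold minor
  have h2 := (Matrix.detRowAlternating (R := ℝ) (n := C)).toMultilinearMap.map_sum
    (fun (i : C) (m : ι) => B (r i) m • (fun j : C => A m j))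
  rw [h1]
  refine h2.trans ?_
  refine Finset.sum_congr rfl fun r' _ => ?_
  exact (Matrix.detRowAlternating (R := ℝ) (n := C)).toMultilinearMap.map_smul_univ
    (fun i : C => B (r i) (r' i)) (fun (i : C) (j : C) => A (r' i) j)

theorem wsize_nonneg (C : Finset ι) (A : Matrix ι ι ℝ) : 0 ≤ wsize C A := by
  exact Finset.sum_nonneg fun r _ => abs_nonneg _

/-- From `minor_mul`: `∑_r ∏_i |B (r i) (r' i)| = ∏_i ∑_m |B m (r' i)| ≤ (nrm B)^{|C|}`. -/
theorem wsize_mul_le (C : Finset ι) (B A : Matrix ι ι ℝ) :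
    wsize C (B * A) ≤ nrm B ^ C.card * wsize C A := by
  have hcol : ∀ k : ι, ∑ m : ι, |B m k| ≤ nrm B := by
    intro k
    unfold nrm
    exact Finset.sum_le_sum fun i _ =>
      Finset.single_le_sum (f := fun j => |B i j|) (fun j _ => abs_nonneg _) (Finset.mem_univ k)
  have h1 : ∀ r : C → ι, |minor C (B * A) r| ≤
      ∑ r' : C → ι, (∏ i : C, |B (r i) (r' i)|) * |minor C A r'| := by
    intro r
    rw [minor_mul]
    refine (Finset.abs_sum_le_sum_abs _ _).trans (le_of_eq ?_)
    refine Finset.sum_congr rfl fun r' _ => ?_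
    rw [abs_mul, Finset.abs_prod]
  have h2 : ∀ r' : C → ι, ∑ r : C → ι, ∏ i : C, |B (r i) (r' i)| ≤ nrm B ^ C.card := by
    intro r'
    have h3 := Finset.prod_univ_sum (fun _ : C => (Finset.univ : Finset ι))
      (fun (i : C) (m : ι) => |B m (r' i)|)
    rw [Fintype.piFinset_univ] at h3
    rw [← h3]
    refine (Finset.prod_le_prod (fun i _ => Finset.sum_nonneg fun m _ => abs_nonneg _)
      (fun i _ => hcol (r' i))).trans (le_of_eq ?_)
    rw [Finset.prod_const, Finset.card_univ, Fintype.card_coe]
  unfold wsize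
  calc ∑ r : C → ι, |minor C (B * A) r|
      ≤ ∑ r : C → ι, ∑ r' : C → ι, (∏ i : C, |B (r i) (r' i)|) * |minor C A r'| :=
        Finset.sum_le_sum fun r _ => h1 r
    _ = ∑ r' : C → ι, (∑ r : C → ι, ∏ i : C, |B (r i) (r' i)|) * |minor C A r'| := by
        rw [Finset.sum_comm]
        refine Finset.sum_congr rfl fun r' _ => ?_
        rw [Finset.sum_mul]
    _ ≤ ∑ r' : C → ι, nrm B ^ C.card * |minor C A r'| :=
        Finset.sum_le_sum fun r' _ => mul_le_mul_of_nonneg_right (h2 r') (abs_nonneg _)
    _ = nrm B ^ C.card * ∑ r' : C → ι, |minor C A r'| := by rw [Finset.mul_sum]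

/-- Proof. The minors are integers. If all `minor C (zR A) r` vanish then by `minor_mul` with
`B = (zR A)⁻¹`, `minor C 1 (inclusion) = 0`, but this is the determinant of the identity. -/
theorem one_le_wsize (C : Finset ι) (A : Matrix ι ι ℤ) (hA : A.det ≠ 0) :
    1 ≤ wsize C (zR A) := by
  have hdet : IsUnit (zR A).det := by
    have h1 : (zR A).det = ((A.det : ℤ) : ℝ) := by
      unfold zR
      exact ((Int.castRingHom ℝ).map_det A).symm
    rw [h1]
    exact (Int.cast_ne_zero.2 hA).isUnit
  obtain ⟨r, hr⟩ : ∃ r : C → ι, minor C (zR A) r ≠ 0 := by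
    by_contra hcon
    push Not at hcon
    have h2 : minor C ((zR A)⁻¹ * zR A) (fun i : C => (i : ι)) = 0 := by
      rw [minor_mul]
      refine Finset.sum_eq_zero fun r' _ => ?_
      rw [hcon r', mul_zero]
    rw [Matrix.nonsing_inv_mul _ hdet] at h2
    have h3 : minor C (1 : Matrix ι ι ℝ) (fun i : C => (i : ι)) = 1 := by
      unfold minor
      have h4 : (Matrix.of fun i j : C => (1 : Matrix ι ι ℝ) (i : ι) (j : ι)) = 1 := by
        exact Matrix.submatrix_one (fun i : C => (i : ι)) Subtype.coe_injective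
      rw [h4, Matrix.det_one]
    rw [h3] at h2
    exact one_ne_zero h2
  have hint : minor C (zR A) r =
      (((Matrix.of fun i j : C => A (r i) j).det : ℤ) : ℝ) := by
    unfold minor
    exact ((Int.castRingHom ℝ).map_det (Matrix.of fun i j : C => A (r i) j)).symm
  have h5 : 1 ≤ |minor C (zR A) r| := by
    rw [hint] at hr ⊢
    have h6 : ((Matrix.of fun i j : C => A (r i) j).det : ℤ) ≠ 0 := fun h => hr (by rw [h]; simp)
    have h7 := Int.one_le_abs h6
    exact_mod_cast h7
  unfold wsize
  exact h5.trans (Finset.single_le_sum (f := fun r : C → ι => |minor C (zR A) r|)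
    (fun r _ => abs_nonneg _) (Finset.mem_univ r))

/-- Proof. For `j ∈ C`: `(A Y) (r i) j = ∑_{m ∈ C} A (r i) m * Y m j`, as `Y m j = 0` for `m ∉ C`;
so the matrix of the minor is the product of the matrix of `minor C A r` and `blk C Y`. -/
theorem minor_mul_right (C : Finset ι) (A Y : Matrix ι ι ℝ) (hY : Blk C Y) (r : C → ι) :
    minor C (A * Y) r = minor C A r * (blk C Y).det := by
  unfold minor blk
  rw [← Matrix.det_mul]
  congr 1
  ext i j
  rw [Matrix.mul_apply]
  simp only [Matrix.of_apply, Matrix.submatrix_apply]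
  rw [Matrix.mul_apply, Finset.sum_coe_sort C (fun m => A (r i) m * Y m j)]
  refine (Finset.sum_subset (Finset.subset_univ C) fun m _ hm => ?_).symm
  rw [hY m hm j j.2, mul_zero]

theorem wsize_mul_right (C : Finset ι) (A Y : Matrix ι ι ℝ) (hY : Blk C Y) :
    wsize C (A * Y) = wsize C A * |(blk C Y).det| := by
  unfold wsize
  rw [Finset.sum_mul]
  refine Finset.sum_congr rfl fun r _ => ?_
  rw [minor_mul_right C A Y hY r, abs_mul]

theorem wsize_smul (C : Finset ι) (c : ℝ) (A : Matrix ι ι ℝ) :
    wsize C (c • A) = |c| ^ C.card * wsize C A := by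
  have h1 : ∀ r : C → ι, minor C (c • A) r = c ^ C.card * minor C A r := by
    intro r
    unfold minor
    have h2 : (Matrix.of fun i j : C => (c • A) (r i) j) =
        c • (Matrix.of fun i j : C => A (r i) j) := by
      ext i j
      simp
    rw [h2, Matrix.det_smul, Fintype.card_coe]
  unfold wsize
  rw [Finset.mul_sum]
  refine Finset.sum_congr rfl fun r _ => ?_
  rw [h1, abs_mul, abs_pow]

end Pool.Agent.W_MP_bb6588_G
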