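import Mathlib
import Pool.Agent.W_MP_bb6588_G.Defs
import Pool.Agent.W_MP_bb6588_an.Limit
import Pool.Agent.W_MP_bb6588_an.LimitLem

set_option autoImplicit false

/-!
# Convergence of the infinite products

Compare `Pool/Agent/W_MP_bb6588_an/Limit.lean` and `LimitLem.lean`, where the same is done for the
elementary matrices `tv q t`; the lemmas on `nrm`, `step`, `dlt` there can be used.
-/

namespace Pool.Agent.W_MP_bb6588_G

open Matrix Filter Topology
open Pool.Agent.W_MP_bb6588_an (SLR SLZ nrm Dig step expo dlt val)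

variable {ι : Type} [Fintype ι] [DecidableEq ι] {κ : Type}

theorem u_zero (U : UniFam κ ι) (k : κ) : U.u k 0 = 1 := by
  have h := U.add k 0 0
  rw [add_zero] at h
  exact (mul_left_cancel (a := U.u k 0) (by rw [mul_one]; exact h)).symm

theorem u_neg (U : UniFam κ ι) (k : κ) (t : ℝ) : U.u k (-t) = (U.u k t)⁻¹ := by
  refine eq_inv_of_mul_eq_one_left ?_
  rw [← U.add, neg_add_cancel, u_zero]

theorem ul_nrm_zero : nrm (0 : Matrix ι ι ℝ) = 0 := by
  simp [nrm]

theorem ul_nrm_smul (c : ℝ) (M : Matrix ι ι ℝ) : nrm (c • M) = |c| * nrm M := by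
  unfold nrm
  rw [Finset.mul_sum]
  refine Finset.sum_congr rfl fun i _ => ?_
  rw [Finset.mul_sum]
  refine Finset.sum_congr rfl fun j _ => ?_
  rw [Matrix.smul_apply, smul_eq_mul, abs_mul]

theorem ul_nrm_sum_le (s : Finset ℕ) (f : ℕ → Matrix ι ι ℝ) :
    nrm (∑ j ∈ s, f j) ≤ ∑ j ∈ s, nrm (f j) := by
  classical
  induction s using Finset.induction_on with
  | empty => rw [Finset.sum_empty, Finset.sum_empty, ul_nrm_zero]
  | insert a s ha ih =>
    rw [Finset.sum_insert ha, Finset.sum_insert ha]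
    exact (W_MP_bb6588_an.nrm_add_le _ _).trans (add_le_add le_rfl ih)

/-- `nrm (u k t - 1) ≤ K |t|` for `|t| ≤ 1`: `u k t - u k 0 = ∑_{1 ≤ j ≤ N} t ^ j M k j` and
`u k 0 = 1`. -/
theorem exists_K (U : UniFam κ ι) [Finite κ] : ∃ K : ℝ, 0 < K ∧ ∀ (k : κ) (t : ℝ), |t| ≤ 1 →
    nrm ((U.u k t : Matrix ι ι ℝ) - 1) ≤ K * |t| := by
  obtain ⟨hF⟩ := nonempty_fintype κ
  refine ⟨1 + ∑ k : κ, ∑ j ∈ Finset.range (U.N + 1), nrm (zR (U.M k j)), ?_, ?_⟩
  · have h1 : 0 ≤ ∑ k : κ, ∑ j ∈ Finset.range (U.N + 1), nrm (zR (U.M k j)) :=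
      Finset.sum_nonneg fun _ _ => Finset.sum_nonneg fun _ _ => W_MP_bb6588_an.nrm_nonneg _
    linarith
  · intro k t ht
    have h0 : (U.u k 0 : Matrix ι ι ℝ) = 1 := by
      rw [u_zero]
      rfl
    have h1 : (U.u k t : Matrix ι ι ℝ) - 1 =
        ∑ j ∈ Finset.range (U.N + 1), (t ^ j - 0 ^ j) • zR (U.M k j) := by
      rw [← h0, U.poly, U.poly, ← Finset.sum_sub_distrib]
      exact Finset.sum_congr rfl fun j _ => (sub_smul _ _ _).symm
    have h2 : ∀ j : ℕ, |t ^ j - 0 ^ j| ≤ |t| := by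
      intro j
      rcases Nat.eq_zero_or_pos j with hj | hj
      · subst hj
        simp
      · rw [zero_pow hj.ne', sub_zero, abs_pow]
        exact pow_le_of_le_one (abs_nonneg t) ht hj.ne'
    rw [h1]
    refine (ul_nrm_sum_le _ _).trans ?_
    have h3 : ∑ j ∈ Finset.range (U.N + 1), nrm ((t ^ j - 0 ^ j) • zR (U.M k j)) ≤
        |t| * ∑ j ∈ Finset.range (U.N + 1), nrm (zR (U.M k j)) := by
      rw [Finset.mul_sum]
      refine Finset.sum_le_sum fun j _ => ?_
      rw [ul_nrm_smul]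
      exact mul_le_mul_of_nonneg_right (h2 j) (W_MP_bb6588_an.nrm_nonneg _)
    refine h3.trans ?_
    rw [mul_comm]
    refine mul_le_mul_of_nonneg_right ?_ (abs_nonneg t)
    have h4 : ∑ j ∈ Finset.range (U.N + 1), nrm (zR (U.M k j)) ≤
        ∑ k : κ, ∑ j ∈ Finset.range (U.N + 1), nrm (zR (U.M k j)) :=
      Finset.single_le_sum (f := fun k => ∑ j ∈ Finset.range (U.N + 1), nrm (zR (U.M k j)))
        (fun _ _ => Finset.sum_nonneg fun _ _ => W_MP_bb6588_an.nrm_nonneg _) (Finset.mem_univ k)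
    linarith

theorem partU_eq_of_zero (U : UniFam κ ι) (p : ℕ → κ) (b : Dig) (L m : ℕ) (hLm : L ≤ m)
    (h0 : ∀ l, L ≤ l → l < m → (b l : ℕ) = 0) : partU U p b m = partU U p b L := by
  induction m, hLm using Nat.le_induction with
  | base => rfl
  | succ n hn ih =>
    have h1 : step b n = 0 := by
      unfold W_MP_bb6588_an.step
      rw [h0 n hn (Nat.lt_succ_self n)]
      simp
    show U.u (p n) (step b n) * partU U p b n = partU U p b L
    rw [h1, u_zero, one_mul]
    exact ih fun l h2 h3 => h0 l h2 (Nat.lt_succ_of_lt h3)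

theorem partU_congr (U : UniFam κ ι) (p : ℕ → κ) (b b' : Dig) (L : ℕ)
    (h : ∀ l, l < L → b' l = b l) : partU U p b' L = partU U p b L := by
  induction L with
  | zero => rfl
  | succ n ih =>
    show U.u (p n) (step b' n) * partU U p b' n = U.u (p n) (step b n) * partU U p b n
    have h1 : step b' n = step b n := by
      unfold W_MP_bb6588_an.step
      rw [h n (Nat.lt_succ_self n)]
    rw [h1, ih fun l hl => h l (Nat.lt_succ_of_lt hl)]

theorem ul_exp_sub_one_le {x : ℝ} : Real.exp x - 1 ≤ x * Real.exp x := by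
  have h1 := Real.add_one_le_exp (-x)
  have h2 := mul_le_mul_of_nonneg_right h1 (Real.exp_pos x).le
  rw [← Real.exp_add, neg_add_cancel, Real.exp_zero] at h2
  linarith

theorem nrm_partU_le (U : UniFam κ ι) {K : ℝ} (hK : 0 < K)
    (hU : ∀ (k : κ) (t : ℝ), |t| ≤ 1 → nrm ((U.u k t : Matrix ι ι ℝ) - 1) ≤ K * |t|)
    (p : ℕ → κ) (b : Dig) (l m : ℕ) (hlm : l ≤ m) :
    nrm (((partU U p b m * (partU U p b l)⁻¹ : SLR ι) : Matrix ι ι ℝ) - 1) ≤
      K * Real.exp K * dlt l := by
  have hst : ∀ i, step b i ≤ 1 := by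
    intro i
    have h := W_MP_bb6588_an.sum_step_le_one b i (i + 1)
    rwa [Nat.Ico_succ_singleton, Finset.sum_singleton] at h
  have h1 := W_MP_bb6588_an.nrm_prod_le
    (fun i => (U.u (p i) (step b i) : Matrix ι ι ℝ))
    (fun m => ((partU U p b m * (partU U p b l)⁻¹ : SLR ι) : Matrix ι ι ℝ))
    (fun i => K * step b i) (fun i => mul_nonneg hK.le (W_MP_bb6588_an.step_nonneg b i))
    (fun i => by
      have h := hU (p i) (step b i)
        (by rw [abs_of_nonneg (W_MP_bb6588_an.step_nonneg b i)]; exact hst i)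
      rwa [abs_of_nonneg (W_MP_bb6588_an.step_nonneg b i)] at h) l
    (by simp only [mul_inv_cancel, Matrix.SpecialLinearGroup.coe_one])
    (fun m _ => by
      have h1 : partU U p b (m + 1) * (partU U p b l)⁻¹ =
          U.u (p m) (step b m) * (partU U p b m * (partU U p b l)⁻¹) := mul_assoc _ _ _
      exact (congrArg (fun x : SLR ι => (x : Matrix ι ι ℝ)) h1).trans
        (Matrix.SpecialLinearGroup.coe_mul _ _)) m hlm
  refine h1.trans ?_
  rw [← Finset.mul_sum]
  have hS0 : 0 ≤ ∑ i ∈ Finset.Ico l m, step b i :=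
    Finset.sum_nonneg fun i _ => W_MP_bb6588_an.step_nonneg b i
  have hS1 := W_MP_bb6588_an.sum_step_le_one b l m
  have hS2 := W_MP_bb6588_an.sum_step_le b l m
  have hd := W_MP_bb6588_an.dlt_nonneg l
  set T := ∑ i ∈ Finset.Ico l m, step b i
  have h2 : Real.exp (K * T) ≤ Real.exp K :=
    Real.exp_le_exp.2 (mul_le_of_le_one_right hK.le hS1)
  calc Real.exp (K * T) - 1 ≤ K * T * Real.exp (K * T) := ul_exp_sub_one_le
    _ ≤ K * T * Real.exp K := mul_le_mul_of_nonneg_left h2 (mul_nonneg hK.le hS0)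
    _ = K * Real.exp K * T := by ring
    _ ≤ K * Real.exp K * dlt l :=
        mul_le_mul_of_nonneg_left (by linarith) (mul_nonneg hK.le (Real.exp_pos K).le)

theorem nrm_partU_sub_le (U : UniFam κ ι) {K : ℝ} (hK : 0 < K)
    (hU : ∀ (k : κ) (t : ℝ), |t| ≤ 1 → nrm ((U.u k t : Matrix ι ι ℝ) - 1) ≤ K * |t|)
    (p : ℕ → κ) (b : Dig) (l m : ℕ) (hlm : l ≤ m) :
    nrm ((partU U p b m : Matrix ι ι ℝ) - (partU U p b l : Matrix ι ι ℝ)) ≤
      K * Real.exp K * dlt l * (nrm (1 : Matrix ι ι ℝ) + K * Real.exp K * dlt 0) := by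
  have hK' : 0 ≤ K * Real.exp K := mul_nonneg hK.le (Real.exp_pos K).le
  have h1 : (partU U p b m : Matrix ι ι ℝ) - (partU U p b l : Matrix ι ι ℝ) =
      (((partU U p b m * (partU U p b l)⁻¹ : SLR ι) : Matrix ι ι ℝ) - 1) *
        (partU U p b l : Matrix ι ι ℝ) := by
    rw [sub_mul, one_mul, ← Matrix.SpecialLinearGroup.coe_mul, inv_mul_cancel_right]
  have h2 : nrm (partU U p b l : Matrix ι ι ℝ) ≤
      nrm (1 : Matrix ι ι ℝ) + K * Real.exp K * dlt 0 := by
    have h3 := nrm_partU_le U hK hU p b 0 l (Nat.zero_le l)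
    have h4 : (partU U p b l * (partU U p b 0)⁻¹ : SLR ι) = partU U p b l := by
      show partU U p b l * (1 : SLR ι)⁻¹ = partU U p b l
      rw [inv_one, mul_one]
    rw [h4] at h3
    have h5 : (partU U p b l : Matrix ι ι ℝ) = 1 + ((partU U p b l : Matrix ι ι ℝ) - 1) := by
      rw [add_sub_cancel]
    rw [h5]
    exact (W_MP_bb6588_an.nrm_add_le _ _).trans (add_le_add le_rfl h3)
  rw [h1]
  refine (W_MP_bb6588_an.nrm_mul_le _ _).trans ?_
  exact mul_le_mul (nrm_partU_le U hK hU p b l m hlm) h2 (W_MP_bb6588_an.nrm_nonneg _)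
    (mul_nonneg hK' (W_MP_bb6588_an.dlt_nonneg l))

theorem continuous_u (U : UniFam κ ι) (k : κ) :
    Continuous fun t : ℝ => (U.u k t : Matrix ι ι ℝ) := by
  simp only [U.poly]
  exact continuous_finsetSum _ fun j _ => (continuous_pow j).smul continuous_const

theorem continuous_partU (U : UniFam κ ι) (p : ℕ → κ) (l : ℕ) :
    Continuous fun b : Dig => (partU U p b l : Matrix ι ι ℝ) := by
  induction l with
  | zero => exact continuous_const
  | succ l ih =>
    have h1 : (fun b : Dig => (partU U p b (l + 1) : Matrix ι ι ℝ)) =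
        fun b => (U.u (p l) (step b l) : Matrix ι ι ℝ) * (partU U p b l : Matrix ι ι ℝ) := by
      funext b
      rw [← Matrix.SpecialLinearGroup.coe_mul]
      rfl
    rw [h1]
    exact ((continuous_u U (p l)).comp (W_MP_bb6588_an.continuous_step l)).mul ih

/-- The limit `G b = lim_l partU p b l` exists, is continuous in `b` and satisfies the tail bound.

Proof. Let `K` be as in `exists_K`. For `l ≤ m`: `partU m * (partU l)⁻¹` is the product of the
`u (p i) (step b i)`, `l ≤ i < m`, and `nrm (that - 1) ≤ exp (K S) - 1 ≤ K exp(K) S`,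
`S = ∑_{l ≤ i < m} step b i ≤ min(1, dlt l / 2)` (`sum_step_le`, `sum_step_le_one`). So with
`K' = K exp K` the sequence is Cauchy, uniformly in `b`, and so on as in
`W_MP_bb6588_an.Limit`. -/
theorem exists_limU (U : UniFam κ ι) [Finite κ] (p : ℕ → κ) :
    ∃ (K : ℝ) (G : Dig → SLR ι), 0 < K ∧ Continuous G ∧
      (∀ (b : Dig) (l : ℕ),
        nrm (((G b * (partU U p b l)⁻¹ : SLR ι) : Matrix ι ι ℝ) - 1) ≤ K * dlt l) ∧
      ∀ b : Dig, Tendsto (fun l => partU U p b l) atTop (𝓝 (G b)) := by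
  obtain ⟨K, hK, hU⟩ := exists_K U
  set K' : ℝ := K * Real.exp K with hK'def
  have hK' : 0 < K' := mul_pos hK (Real.exp_pos K)
  set C : ℝ := nrm (1 : Matrix ι ι ℝ) + K' * dlt 0 with hC
  have htC : Tendsto (fun l => K' * dlt l * C) atTop (𝓝 0) := by
    simpa using (W_MP_bb6588_an.dlt_tendsto.const_mul K').mul_const C
  -- entrywise Cauchy
  have hent : ∀ (b : Dig) (i j : ι) (l m : ℕ), l ≤ m →
      |(partU U p b m : Matrix ι ι ℝ) i j - (partU U p b l : Matrix ι ι ℝ) i j| ≤
        K' * dlt l * C := by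
    intro b i j l m hlm
    exact (W_MP_bb6588_an.abs_apply_le_nrm _ i j).trans (nrm_partU_sub_le U hK hU p b l m hlm)
  have hcau : ∀ (b : Dig) (i j : ι), CauchySeq fun m => (partU U p b m : Matrix ι ι ℝ) i j := by
    intro b i j
    refine Metric.cauchySeq_iff'.2 fun ε hε => ?_
    obtain ⟨N, hN⟩ := (htC.eventually (gt_mem_nhds hε)).exists
    refine ⟨N, fun n hn => ?_⟩
    rw [Real.dist_eq]
    exact lt_of_le_of_lt (hent b i j N n hn) hN
  have hlim : ∀ (b : Dig) (i j : ι), ∃ x : ℝ,
      Tendsto (fun m => (partU U p b m : Matrix ι ι ℝ) i j) atTop (𝓝 x) := fun b i j =>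
    cauchySeq_tendsto_of_complete (hcau b i j)
  choose g hg using hlim
  have hgt : ∀ b : Dig, Tendsto (fun m => (partU U p b m : Matrix ι ι ℝ)) atTop
      (𝓝 (Matrix.of (g b))) := by
    intro b
    refine tendsto_pi_nhds.2 fun i => tendsto_pi_nhds.2 fun j => ?_
    exact hg b i j
  have hdet : ∀ b : Dig, (Matrix.of (g b)).det = 1 := by
    intro b
    have h1 : Tendsto (fun m => (partU U p b m : Matrix ι ι ℝ).det) atTop
        (𝓝 (Matrix.of (g b)).det) :=
      ((continuous_id.matrix_det (R := ℝ)).tendsto _).comp (hgt b)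
    have h2 : (fun m => (partU U p b m : Matrix ι ι ℝ).det) = fun _ => (1 : ℝ) := by
      funext m
      exact (partU U p b m).det_coe
    rw [h2] at h1
    exact tendsto_nhds_unique h1 tendsto_const_nhds
  let G : Dig → SLR ι := fun b => ⟨Matrix.of (g b), hdet b⟩
  have hGt : ∀ b : Dig, Tendsto (fun m => partU U p b m) atTop (𝓝 (G b)) := by
    intro b
    exact tendsto_subtype_rng.2 (hgt b)
  refine ⟨K', G, hK', ?_, ?_, hGt⟩
  · -- continuity
    have h1 : ∀ i j : ι, Continuous fun b => g b i j := by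
      intro i j
      have hunif : TendstoUniformly (fun (m : ℕ) (b : Dig) => (partU U p b m : Matrix ι ι ℝ) i j)
          (fun b => g b i j) atTop := by
        rw [Metric.tendstoUniformly_iff]
        intro ε hε
        filter_upwards [htC.eventually (gt_mem_nhds hε)] with l hl b
        rw [Real.dist_eq]
        refine lt_of_le_of_lt ?_ hl
        have h2 : Tendsto (fun m => |(partU U p b m : Matrix ι ι ℝ) i j -
            (partU U p b l : Matrix ι ι ℝ) i j|) atTop
            (𝓝 |g b i j - (partU U p b l : Matrix ι ι ℝ) i j|) :=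
          ((hg b i j).sub_const _).abs
        refine le_of_tendsto h2 ?_
        filter_upwards [eventually_ge_atTop l] with m hm
        exact hent b i j l m hm
      refine hunif.continuous (Frequently.of_forall fun m => ?_)
      exact (continuous_apply_apply i j).comp (continuous_partU U p m)
    refine continuous_induced_rng.2 ?_
    exact continuous_matrix fun i j => h1 i j
  · intro b l
    have h1 : Tendsto (fun m => partU U p b m * (partU U p b l)⁻¹) atTop
        (𝓝 (G b * (partU U p b l)⁻¹)) := (hGt b).mul_const _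
    have hval : Continuous fun x : SLR ι => (x : Matrix ι ι ℝ) := continuous_subtype_val
    have h2 : Tendsto (fun m => nrm (((partU U p b m * (partU U p b l)⁻¹ : SLR ι) :
        Matrix ι ι ℝ) - 1)) atTop
        (𝓝 (nrm (((G b * (partU U p b l)⁻¹ : SLR ι) : Matrix ι ι ℝ) - 1))) :=
      ((W_MP_bb6588_an.continuous_nrm.comp (hval.sub continuous_const)).tendsto _).comp h1
    refine le_of_tendsto h2 ?_
    filter_upwards [eventually_ge_atTop l] with m hm
    exact nrm_partU_le U hK hU p b l m hm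

/-- The limit `lim_l partU p b l`. -/
noncomputable def limU (U : UniFam κ ι) [Finite κ] (p : ℕ → κ) : Dig → SLR ι :=
  Classical.choose (Classical.choose_spec (exists_limU U p))

theorem continuous_limU (U : UniFam κ ι) [Finite κ] (p : ℕ → κ) : Continuous (limU U p) :=
  (Classical.choose_spec (Classical.choose_spec (exists_limU U p))).2.1

theorem limU_bound (U : UniFam κ ι) [Finite κ] (p : ℕ → κ) : ∃ K : ℝ, 0 < K ∧
    ∀ (b : Dig) (l : ℕ),
      nrm (((limU U p b * (partU U p b l)⁻¹ : SLR ι) : Matrix ι ι ℝ) - 1) ≤ K * dlt l :=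
  ⟨Classical.choose (exists_limU U p),
    (Classical.choose_spec (Classical.choose_spec (exists_limU U p))).1,
    (Classical.choose_spec (Classical.choose_spec (exists_limU U p))).2.2.1⟩

theorem tendsto_partU (U : UniFam κ ι) [Finite κ] (p : ℕ → κ) (b : Dig) :
    Tendsto (fun l => partU U p b l) atTop (𝓝 (limU U p b)) :=
  (Classical.choose_spec (Classical.choose_spec (exists_limU U p))).2.2.2 b

theorem limU_eq_partU (U : UniFam κ ι) [Finite κ] (p : ℕ → κ) (b : Dig) (L : ℕ)
    (h0 : ∀ l, L ≤ l → (b l : ℕ) = 0) : limU U p b = partU U p b L := by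
  refine tendsto_nhds_unique (tendsto_partU U p b) ?_
  refine tendsto_const_nhds.congr' ?_
  filter_upwards [eventually_ge_atTop L] with l hl
  exact (partU_eq_of_zero U p b L l hl fun k hk _ => h0 k hk).symm

/-- If a closed subgroup contains the one-parameter groups, it contains the limit. -/
theorem limU_mem (U : UniFam κ ι) [Finite κ] (p : ℕ → κ) (b : Dig) (G : Subgroup (SLR ι))
    (hG : IsClosed (G : Set (SLR ι))) (hU : ∀ k t, U.u k t ∈ G) : limU U p b ∈ G := by
  refine hG.mem_of_tendsto (tendsto_partU U p b) (Eventually.of_forall fun l => ?_)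
  induction l with
  | zero => exact G.one_mem
  | succ n ih => exact G.mul_mem (hU _ _) ih

end Pool.Agent.W_MP_bb6588_G
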