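import Mathlib
import Pool.Agent.W_MP_bb6588_G.UniLim
import Pool.Agent.W_MP_bb6588_G.Exp

set_option autoImplicit false

/-!
# Denominators of the partial products, and the family attached to nilpotent integral matrices
-/

namespace Pool.Agent.W_MP_bb6588_G

open Matrix Filter Topology
open Pool.Agent.W_MP_bb6588_an (SLR SLZ nrm Dig step expo dlt val)

variable {ι : Type} [Fintype ι] [DecidableEq ι] {κ : Type}

theorem uniInt_zR_eq (A : Matrix ι ι ℤ) : zR A = (Int.castRingHom ℝ).mapMatrix A := rfl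

theorem uniInt_zR_mul (A B : Matrix ι ι ℤ) : zR (A * B) = zR A * zR B := by
  rw [uniInt_zR_eq, uniInt_zR_eq, uniInt_zR_eq, map_mul]

theorem uniInt_zR_one : zR (1 : Matrix ι ι ℤ) = 1 := by
  rw [uniInt_zR_eq, map_one]

theorem uniInt_zR_pow (A : Matrix ι ι ℤ) (n : ℕ) : zR (A ^ n) = zR A ^ n := by
  rw [uniInt_zR_eq, uniInt_zR_eq, map_pow]

theorem uniInt_zR_sum {α : Type} (s : Finset α) (f : α → Matrix ι ι ℤ) :
    zR (∑ j ∈ s, f j) = ∑ j ∈ s, zR (f j) := by
  simp only [uniInt_zR_eq, map_sum]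

omit [Fintype ι] [DecidableEq ι] in
theorem uniInt_zR_smul (n : ℤ) (A : Matrix ι ι ℤ) : zR (n • A) = (n : ℝ) • zR A := by
  ext i j
  change ((n • A i j : ℤ) : ℝ) = (n : ℝ) * ((A i j : ℤ) : ℝ)
  rw [smul_eq_mul]
  push_cast
  rfl

/-- `2^{N m} u(c / 2^m)` is an integral matrix. -/
theorem uniInt_u (U : UniFam κ ι) (k : κ) (c : ℤ) (m : ℕ) :
    ∃ M : Matrix ι ι ℤ,
      (2 : ℝ) ^ (U.N * m) • (U.u k ((c : ℝ) / 2 ^ m) : Matrix ι ι ℝ) = zR M := by
  refine ⟨∑ j ∈ Finset.range (U.N + 1), (c ^ j * 2 ^ (m * (U.N - j))) • U.M k j, ?_⟩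
  rw [U.poly, Finset.smul_sum, uniInt_zR_sum]
  refine Finset.sum_congr rfl fun j hj => ?_
  rw [uniInt_zR_smul, smul_smul]
  congr 1
  have hj' : j ≤ U.N := Nat.lt_succ_iff.1 (Finset.mem_range.1 hj)
  have h2 : (2 : ℝ) ^ m ≠ 0 := by positivity
  have h3 : (2 : ℝ) ^ (U.N * m) = (2 ^ m) ^ j * 2 ^ (m * (U.N - j)) := by
    rw [← pow_mul, ← pow_add, ← mul_add, Nat.add_sub_cancel' hj', mul_comm]
  rw [h3, div_pow]
  push_cast
  field_simp

/-- `2^{N expo l} (partU p b l)⁻¹` is an integral matrix.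

Proof. Induction on `l`: `(partU (l+1))⁻¹ = (partU l)⁻¹ * u (p l) (- step b l)`, and with
`m = (l+1)!` the matrix `2^{N m} u k (- β / 2^m) = ∑_j 2^{m (N - j)} (-β)^j M k j` is integral;
`expo (l+1) = expo l + (l+1)!`. -/
theorem integral_partU (U : UniFam κ ι) (p : ℕ → κ) (b : Dig) (l : ℕ) :
    ∃ M : Matrix ι ι ℤ,
      (2 : ℝ) ^ (U.N * expo l) • (((partU U p b l)⁻¹ : SLR ι) : Matrix ι ι ℝ) = zR M := by
  induction l with
  | zero =>
    refine ⟨1, ?_⟩
    have h0 : expo 0 = 0 := by simp [expo]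
    have h1 : (partU U p b 0)⁻¹ = (1 : SLR ι) := inv_one
    rw [h0, h1, mul_zero, pow_zero, one_smul, uniInt_zR_one, Matrix.SpecialLinearGroup.coe_one]
  | succ l ih =>
    obtain ⟨A, hA⟩ := ih
    have h0 : expo (l + 1) = expo l + (l + 1).factorial := by
      simp [expo, Finset.sum_range_succ]
    have e1 : partU U p b (l + 1) = U.u (p l) (step b l) * partU U p b l := rfl
    have s2 : -step b l = ((-((b l : ℕ) : ℤ) : ℤ) : ℝ) / 2 ^ (l + 1).factorial := by
      unfold Pool.Agent.W_MP_bb6588_an.step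
      push_cast
      ring
    obtain ⟨B, hB⟩ := uniInt_u U (p l) (-((b l : ℕ) : ℤ)) (l + 1).factorial
    refine ⟨A * B, ?_⟩
    rw [uniInt_zR_mul, ← hA, ← hB, h0, e1, _root_.mul_inv_rev, Matrix.SpecialLinearGroup.coe_mul,
      ← u_neg, s2, mul_add, pow_add, smul_mul_smul_comm]

/-- the exponential of a nilpotent matrix is a finite sum -/
theorem uniInt_exp (A : Matrix ι ι ℝ) (N : ℕ) (hA : A ^ (N + 1) = 0) :
    NormedSpace.exp A = ∑ j ∈ Finset.range (N + 1), ((j.factorial : ℝ)⁻¹) • A ^ j := by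
  rw [NormedSpace.exp_eq_tsum ℝ]
  change ∑' n : ℕ, ((n.factorial : ℝ)⁻¹) • A ^ n = _
  refine tsum_eq_sum fun n hn => ?_
  have hn' : N + 1 ≤ n := by
    by_contra h
    exact hn (Finset.mem_range.2 (not_le.1 h))
  obtain ⟨m, rfl⟩ := Nat.exists_eq_add_of_le hn'
  rw [pow_add, hA, zero_mul, smul_zero]

theorem uniInt_trace (A : Matrix ι ι ℝ) (N : ℕ) (hA : A ^ (N + 1) = 0) : A.trace = 0 :=
  (Matrix.isNilpotent_trace_of_isNilpotent ⟨N + 1, hA⟩).eq_zero

theorem uniInt_det (A : Matrix ι ι ℝ) (N : ℕ) (hA : A ^ (N + 1) = 0) (t : ℝ) :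
    (NormedSpace.exp (t • A)).det = 1 := by
  rw [det_exp, Matrix.trace_smul, uniInt_trace A N hA, smul_zero, Real.exp_zero]

/-- Nilpotent integral matrices `X k`, `(X k)^{N+1} = 0`, give a family
`u k t = exp(t N! X k) = ∑_{j ≤ N} t^j (N!^j / j!) (X k)^j`. -/
theorem exists_uniFam (X : κ → Matrix ι ι ℤ) (N : ℕ) (hX : ∀ k, X k ^ (N + 1) = 0) :
    ∃ U : UniFam κ ι, ∀ (k : κ) (t : ℝ),
      (U.u k t : Matrix ι ι ℝ) = NormedSpace.exp ((t * (N.factorial : ℝ)) • zR (X k)) := by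
  have hz : ∀ k, zR (X k) ^ (N + 1) = 0 := by
    intro k
    rw [← uniInt_zR_pow, hX k]
    ext i j
    simp [zR]
  refine ⟨{
    u := fun k t => ⟨NormedSpace.exp ((t * (N.factorial : ℝ)) • zR (X k)),
      uniInt_det _ N (hz k) _⟩
    add := ?_
    N := N
    M := fun k j => ((N.factorial ^ j / j.factorial : ℕ) : ℤ) • X k ^ j
    poly := ?_ }, fun k t => rfl⟩
  · intro k s t
    apply Subtype.ext
    rw [Matrix.SpecialLinearGroup.coe_mul]
    change NormedSpace.exp _ = NormedSpace.exp _ * NormedSpace.exp _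
    rw [← Matrix.exp_add_of_commute]
    · congr 1
      rw [← add_smul]
      congr 1
      ring
    · exact ((Commute.refl (zR (X k))).smul_left _).smul_right _
  · intro k t
    change NormedSpace.exp ((t * (N.factorial : ℝ)) • zR (X k)) = _
    rw [uniInt_exp _ N (by rw [smul_pow, hz k, smul_zero])]
    refine Finset.sum_congr rfl fun j hj => ?_
    have hj' : j ≤ N := Nat.lt_succ_iff.1 (Finset.mem_range.1 hj)
    rw [uniInt_zR_smul, uniInt_zR_pow, smul_pow, smul_smul, smul_smul]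
    congr 1
    have hdvd : j.factorial ∣ N.factorial ^ j := by
      rcases Nat.eq_zero_or_pos j with rfl | hj0
      · simp
      · exact (Nat.factorial_dvd_factorial hj').trans (dvd_pow_self _ hj0.ne')
    obtain ⟨c, hc⟩ := hdvd
    have hjf : 0 < j.factorial := Nat.factorial_pos j
    have h1 : N.factorial ^ j / j.factorial = c := by
      rw [hc, Nat.mul_div_cancel_left _ hjf]
    rw [h1, mul_pow]
    have h2 : ((N.factorial : ℝ)) ^ j = (j.factorial : ℝ) * (c : ℝ) := by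
      exact_mod_cast congrArg (fun x : ℕ => (x : ℝ)) hc
    rw [h2]
    have h3 : (j.factorial : ℝ) ≠ 0 := by exact_mod_cast hjf.ne'
    push_cast
    field_simp

end Pool.Agent.W_MP_bb6588_G
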