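import Mathlib
import Pool.Agent.W_MP_bb6588_G.ExpB
import Pool.Agent.W_MP_bb6588_G.Minor
import Pool.Agent.W_MP_bb6588_G.UniInt
import Pool.Agent.W_MP_bb6588_G.CoreA

set_option autoImplicit false

/-!
# One time step
-/

namespace Pool.Agent.W_MP_bb6588_G

open Matrix Filter Topology
open Pool.Agent.W_MP_bb6588_an (SLR SLZ nrm Dig step expo dlt val)

variable {ι : Type} [Fintype ι] [DecidableEq ι] {κ : Type}

omit [DecidableEq ι] in
theorem CoreB_zR_mul (A B : Matrix ι ι ℤ) : zR (A * B) = zR A * zR B := by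
  unfold zR
  exact Matrix.map_mul (f := Int.castRingHom ℝ)

theorem CoreB_zR_det (A : Matrix ι ι ℤ) : (zR A).det = (A.det : ℝ) := by
  unfold zR
  exact (RingHom.map_det (Int.castRingHom ℝ) A).symm

theorem CoreB_zR_det_ne {A : Matrix ι ι ℤ} (hA : A.det ≠ 0) : (zR A).det ≠ 0 := by
  rw [CoreB_zR_det]
  exact_mod_cast hA

theorem CoreB_nrm_one : nrm (1 : Matrix ι ι ℝ) = Fintype.card ι := by
  unfold nrm
  have h1 : ∀ i : ι, ∑ j, |(1 : Matrix ι ι ℝ) i j| = 1 := by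
    intro i
    rw [Finset.sum_eq_single i]
    · rw [Matrix.one_apply_eq, abs_one]
    · intro j _ hj
      rw [Matrix.one_apply_ne (Ne.symm hj), abs_zero]
    · intro h4
      exact absurd (Finset.mem_univ i) h4
  rw [Finset.sum_congr rfl fun i _ => h1 i]
  simp

/-- One time step. Let `G` be close to `partU p b (l+1)`, `C` stable under `u (p l) t` (all `t`) and
under `z`. Then the wedge product of the columns of `A = 2^{N expo l} (partU p b l)⁻¹ P` with index
in `C` is short at time `z`.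

Proof. Let `H = G (partU (l+1))⁻¹`, `q = u (p l) (step b l)`, so `G (partU l)⁻¹ = H q`.
`exp(z) G A = 2^{N expo l} exp(z) H q P = 2^{N expo l} exp(z) H P Y` with `Y` from `Stab`, so
by `wsize_smul`, `wsize_mul_right` its `wsize` is `2^{N expo l |C|} wsize C (exp(z) H P)`. Further
`exp(z) H P = H' exp(z) P`, `H' = exp(z) H exp(-z) = 1 + exp(z) (H - 1) exp(-z)`, and
`nrm H' ≤ |ι| + nrm(exp z) nrm(H - 1) nrm(exp(-z)) ≤ |ι| + 1`; `exp(z) P = P exp(cz P z)`, so
`wsize C (exp(z) P) = wsize C P * exp(∑_{i ∈ C} cz P z i i)` by `det_blk_exp`. -/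
theorem short_step (U : UniFam κ ι) (p : ℕ → κ) (b : Dig) (l : ℕ) (G : SLR ι)
    (P : Matrix ι ι ℤ) (hP : P.det ≠ 0) (C : Finset ι) (hst : ∀ t, Stab C P (U.u (p l) t))
    (z : Matrix ι ι ℝ) (hz : Blk C (cz P z)) (δ : ℝ)
    (hG : nrm (((G * (partU U p b (l + 1))⁻¹ : SLR ι) : Matrix ι ι ℝ) - 1) ≤ δ)
    (hδ : nrm (NormedSpace.exp z) * δ * nrm (NormedSpace.exp (-z)) ≤ 1) :
    ∃ A : Matrix ι ι ℤ, A.det ≠ 0 ∧
      wsize C (NormedSpace.exp z * (G : Matrix ι ι ℝ) * zR A) ≤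
        (2 : ℝ) ^ (U.N * expo l * C.card) * ((Fintype.card ι + 1 : ℝ) ^ C.card *
          (wsize C (zR P) * Real.exp (∑ i ∈ C, cz P z i i))) := by
  obtain ⟨M, hM⟩ := integral_partU U p b l
  set c : ℝ := (2 : ℝ) ^ (U.N * expo l) with hc
  have hcpos : 0 < c := by rw [hc]; positivity
  set Q : SLR ι := partU U p b l with hQ
  have hPu : (zR P).det ≠ 0 := CoreB_zR_det_ne hP
  -- the matrix `M` is nonsingular
  have hMdet : M.det ≠ 0 := by
    intro h0
    have h1 : (zR M).det = 0 := by rw [CoreB_zR_det, h0, Int.cast_zero]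
    rw [← hM, Matrix.det_smul] at h1
    have h2 : (((Q⁻¹ : SLR ι) : Matrix ι ι ℝ)).det = 1 := (Q⁻¹ : SLR ι).2
    rw [h2, mul_one] at h1
    exact absurd h1 (pow_ne_zero _ hcpos.ne')
  refine ⟨M * P, by rw [Matrix.det_mul]; exact mul_ne_zero hMdet hP, ?_⟩
  -- the matrices `H`, `q`
  set H : SLR ι := G * (partU U p b (l + 1))⁻¹ with hH
  set q : SLR ι := U.u (p l) (step b l) with hq
  have hGQ : G * Q⁻¹ = H * q := by
    have h1 : partU U p b (l + 1) = q * Q := rfl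
    rw [hH, h1]
    group
  have hGQ' : (G : Matrix ι ι ℝ) * ((Q⁻¹ : SLR ι) : Matrix ι ι ℝ) =
      (H : Matrix ι ι ℝ) * (q : Matrix ι ι ℝ) := by
    rw [← Matrix.SpecialLinearGroup.coe_mul, ← Matrix.SpecialLinearGroup.coe_mul, hGQ]
  obtain ⟨Y, hY1, hY2, hY3⟩ := hst (step b l)
  set e : Matrix ι ι ℝ := NormedSpace.exp z with he
  set f : Matrix ι ι ℝ := NormedSpace.exp (-z) with hf
  have hfe : f * e = 1 := by
    rw [hf, he, ← Matrix.exp_add_of_commute _ _ (Commute.neg_left (Commute.refl z)),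
      neg_add_cancel, NormedSpace.exp_zero]
  have hef : e * f = 1 := by
    rw [hf, he, ← Matrix.exp_add_of_commute _ _ (Commute.neg_right (Commute.refl z)),
      add_neg_cancel, NormedSpace.exp_zero]
  have hPunit : IsUnit (zR P) := (Matrix.isUnit_iff_isUnit_det _).2 (isUnit_iff_ne_zero.2 hPu)
  have hPdet : IsUnit (zR P).det := isUnit_iff_ne_zero.2 hPu
  have hexp : e * zR P = zR P * NormedSpace.exp (cz P z) := by
    have h1 : NormedSpace.exp (cz P z) = (zR P)⁻¹ * e * zR P := by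
      rw [cz, Matrix.exp_conj' _ _ hPunit]
    rw [h1, mul_assoc, ← mul_assoc (zR P), Matrix.mul_nonsing_inv _ hPdet, one_mul]
  have hmain : e * (G : Matrix ι ι ℝ) * zR (M * P) =
      c • (e * (H : Matrix ι ι ℝ) * f * (zR P * NormedSpace.exp (cz P z)) * Y) := by
    rw [← hexp, CoreB_zR_mul, ← hM]
    have h1 : e * (H : Matrix ι ι ℝ) * f * (e * zR P) * Y =
        e * ((G : Matrix ι ι ℝ) * ((Q⁻¹ : SLR ι) : Matrix ι ι ℝ)) * zR P := by
      have h2 : f * (e * zR P) = zR P := by rw [← mul_assoc, hfe, one_mul]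
      rw [mul_assoc (e * (H : Matrix ι ι ℝ)), h2, mul_assoc (e * (H : Matrix ι ι ℝ)), ← hY1,
        hGQ', ← hq]
      simp only [mul_assoc]
    rw [h1, Matrix.smul_mul, Matrix.mul_smul]
    simp only [mul_assoc]
  rw [hmain, wsize_smul, wsize_mul_right C _ _ hY2, hY3, abs_one, mul_one]
  have hcC : |c| ^ C.card = (2 : ℝ) ^ (U.N * expo l * C.card) := by
    rw [abs_of_pos hcpos, hc, ← pow_mul]
  rw [hcC]
  refine mul_le_mul_of_nonneg_left ?_ (by positivity)
  refine (wsize_mul_le C _ _).trans ?_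
  have hdet : wsize C (zR P * NormedSpace.exp (cz P z)) =
      wsize C (zR P) * Real.exp (∑ i ∈ C, cz P z i i) := by
    rw [wsize_mul_right C _ _ (blk_exp hz).1, det_blk_exp hz, abs_of_pos (Real.exp_pos _)]
  rw [hdet]
  refine mul_le_mul_of_nonneg_right ?_
    (mul_nonneg (wsize_nonneg C _) (Real.exp_pos _).le)
  refine pow_le_pow_left₀ (Pool.Agent.W_MP_bb6588_an.nrm_nonneg _) ?_ _
  have h3 : e * (H : Matrix ι ι ℝ) * f = 1 + e * ((H : Matrix ι ι ℝ) - 1) * f := by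
    rw [mul_sub, sub_mul, mul_one, hef]
    abel
  rw [h3]
  have h4 : nrm (e * ((H : Matrix ι ι ℝ) - 1) * f) ≤ 1 := by
    have h5 : nrm (e * ((H : Matrix ι ι ℝ) - 1) * f) ≤
        nrm e * nrm ((H : Matrix ι ι ℝ) - 1) * nrm f :=
      (Pool.Agent.W_MP_bb6588_an.nrm_mul_le _ _).trans
        (mul_le_mul_of_nonneg_right (Pool.Agent.W_MP_bb6588_an.nrm_mul_le _ _)
          (Pool.Agent.W_MP_bb6588_an.nrm_nonneg _))
    refine h5.trans (le_trans ?_ hδ)
    refine mul_le_mul_of_nonneg_right ?_ (Pool.Agent.W_MP_bb6588_an.nrm_nonneg _)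
    exact mul_le_mul_of_nonneg_left hG (Pool.Agent.W_MP_bb6588_an.nrm_nonneg _)
  refine (Pool.Agent.W_MP_bb6588_an.nrm_add_le _ _).trans ?_
  rw [CoreB_nrm_one]
  linarith

end Pool.Agent.W_MP_bb6588_G
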