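import Mathlib
import Pool.Agent.W_MP_bb6588_G.CoreB

set_option autoImplicit false

/-!
# Divergence
-/

namespace Pool.Agent.W_MP_bb6588_G

open Matrix Filter Topology
open Pool.Agent.W_MP_bb6588_an (SLR SLZ nrm Dig step expo dlt val)

variable {ι : Type} [Fintype ι] [DecidableEq ι] {κ : Type}

omit [DecidableEq ι] in
theorem CoreC_nrm_neg (z : Matrix ι ι ℝ) : nrm (-z) = nrm z := by
  unfold nrm
  simp

omit [DecidableEq ι] in
theorem CoreC_nrm_nonneg (z : Matrix ι ι ℝ) : 0 ≤ nrm z := by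
  unfold nrm
  exact Finset.sum_nonneg fun i _ => Finset.sum_nonneg fun j _ => abs_nonneg _

omit [DecidableEq ι] in
theorem CoreC_nrm_zero : nrm (0 : Matrix ι ι ℝ) = 0 := by
  unfold nrm
  simp

theorem CoreC_wsize_nonneg (C : Finset ι) (A : Matrix ι ι ℝ) : 0 ≤ wsize C A := by
  unfold wsize
  exact Finset.sum_nonneg fun r _ => abs_nonneg _

/-- The orbit leaves all compact sets.

Proof. Take `c` from `exists_uniform`
(`good k C := (∀ t, Stab C P (U.u k t)) ∧ ∀ z' ∈ E, Blk C (cz P z')`), `K` from `limU_bound`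
(here the hypothesis `hG`), let `n = |ι|`, `W = ∑_C wsize C P + 1`, and apply `window'` with
`M = U.N * n`, `c`, `C = 2`, `ε / ((n + 1)^n W)` and `ε₂ = 1 / ((n² + 1) K)`. For
`z ∈ E` with `τ = nrm z ≥ T` large (and `> 0`) take `l`, `k = p l` and `C` with
`∑_{i ∈ C} ≤ - c τ`; `short_step` applies with `δ = K dlt (l+1)`, as
`nrm(exp(±z)) ≤ n e^τ` (`nrm_exp_le`) and `n² e^{2τ} K dlt(l+1) ≤ 1`. -/
theorem short_all [Finite κ] (U : UniFam κ ι) (p : ℕ → κ) (b : Dig) (G : SLR ι) (K : ℝ)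
    (hK : 0 < K)
    (hG : ∀ l, nrm (((G * (partU U p b l)⁻¹ : SLR ι) : Matrix ι ι ℝ) - 1) ≤ K * dlt l)
    (P : Matrix ι ι ℤ) (hP : P.det ≠ 0) (E : Submodule ℝ (Matrix ι ι ℝ))
    (hE : ∀ k, ∀ z ∈ E, z ≠ 0 → ∃ C : Finset ι,
      ((∀ t, Stab C P (U.u k t)) ∧ ∀ z' ∈ E, Blk C (cz P z')) ∧ ∑ i ∈ C, cz P z i i < 0) :
    ∀ ε : ℝ, 0 < ε → ∃ T : ℝ, ∀ z ∈ E, T ≤ nrm z →
      ShortW (NormedSpace.exp z * (G : Matrix ι ι ℝ)) ε := by
  intro ε hε
  obtain ⟨c, hc, hunif⟩ := exists_uniform P E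
    (fun k C => (∀ t, Stab C P (U.u k t)) ∧ ∀ z' ∈ E, Blk C (cz P z')) hE
  obtain ⟨n, hn⟩ : ∃ n : ℕ, n = Fintype.card ι := ⟨_, rfl⟩
  obtain ⟨W, hW⟩ : ∃ W : ℝ, W = ∑ C : Finset ι, wsize C (zR P) + 1 := ⟨_, rfl⟩
  have hWpos : 0 < W := by
    rw [hW]
    have := Finset.sum_nonneg fun (C : Finset ι) (_ : C ∈ Finset.univ) =>
      CoreC_wsize_nonneg C (zR P)
    linarith
  have hWle : ∀ C : Finset ι, wsize C (zR P) ≤ W := by
    intro C
    rw [hW]
    have := Finset.single_le_sum (f := fun C : Finset ι => wsize C (zR P))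
      (fun C _ => CoreC_wsize_nonneg C (zR P)) (Finset.mem_univ C)
    linarith
  have hn1 : (0 : ℝ) < ((n : ℝ) + 1) ^ n := by positivity
  have hε1 : 0 < ε / (((n : ℝ) + 1) ^ n * W) := by positivity
  have hε2 : 0 < 1 / (((n : ℝ) ^ 2 + 1) * K) := by positivity
  obtain ⟨T₀, hT₀⟩ := window' (U.N * n) c 2 (ε / (((n : ℝ) + 1) ^ n * W))
    (1 / (((n : ℝ) ^ 2 + 1) * K)) hc two_pos hε1 hε2
  refine ⟨max T₀ 1, ?_⟩
  intro z hz hT
  obtain ⟨τ, hτ⟩ : ∃ τ : ℝ, τ = nrm z := ⟨_, rfl⟩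
  have hτ0 : T₀ ≤ τ := by rw [hτ]; exact (le_max_left _ _).trans hT
  have hτ1 : 1 ≤ τ := by rw [hτ]; exact (le_max_right _ _).trans hT
  have hz0 : z ≠ 0 := by
    rintro rfl
    rw [CoreC_nrm_zero] at hτ
    linarith
  obtain ⟨l, hl1, hl2⟩ := hT₀ τ hτ0
  obtain ⟨C, ⟨hst, hblk⟩, hsum⟩ := hunif (p l) z hz hz0
  rw [← hτ] at hsum
  have hdl : 0 ≤ dlt (l + 1) := by unfold dlt; positivity
  have e1 := nrm_exp_le z
  have e2 := nrm_exp_le (-z)
  rw [CoreC_nrm_neg, ← hτ, ← hn] at e2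
  rw [← hτ, ← hn] at e1
  have hδ : nrm (NormedSpace.exp z) * (K * dlt (l + 1)) * nrm (NormedSpace.exp (-z)) ≤ 1 := by
    have h1 : nrm (NormedSpace.exp z) * nrm (NormedSpace.exp (-z)) ≤
        ((n : ℝ) * Real.exp τ) * ((n : ℝ) * Real.exp τ) :=
      mul_le_mul e1 e2 (CoreC_nrm_nonneg _) (by positivity)
    have h2 : ((n : ℝ) * Real.exp τ) * ((n : ℝ) * Real.exp τ) = (n : ℝ) ^ 2 * Real.exp (2 * τ) := by
      rw [two_mul, Real.exp_add]; ring
    rw [h2] at h1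
    have h3 : Real.exp (2 * τ) * dlt (l + 1) * (((n : ℝ) ^ 2 + 1) * K) < 1 := by
      rwa [lt_div_iff₀ (by positivity)] at hl2
    calc nrm (NormedSpace.exp z) * (K * dlt (l + 1)) * nrm (NormedSpace.exp (-z))
        = (nrm (NormedSpace.exp z) * nrm (NormedSpace.exp (-z))) * (K * dlt (l + 1)) := by ring
      _ ≤ ((n : ℝ) ^ 2 * Real.exp (2 * τ)) * (K * dlt (l + 1)) :=
          mul_le_mul_of_nonneg_right h1 (by positivity)
      _ ≤ (((n : ℝ) ^ 2 + 1) * Real.exp (2 * τ)) * (K * dlt (l + 1)) := by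
          apply mul_le_mul_of_nonneg_right _ (by positivity)
          apply mul_le_mul_of_nonneg_right _ (by positivity)
          linarith
      _ = Real.exp (2 * τ) * dlt (l + 1) * (((n : ℝ) ^ 2 + 1) * K) := by ring
      _ ≤ 1 := h3.le
  obtain ⟨A, hA, hAw⟩ := short_step U p b l G P hP C hst z (hblk z hz) (K * dlt (l + 1))
    (hG (l + 1)) hδ
  refine ⟨A, C, hA, lt_of_le_of_lt hAw ?_⟩
  have hCn : C.card ≤ n := by rw [hn]; exact Finset.card_le_univ C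
  have hexp : U.N * expo l * C.card ≤ U.N * n * expo l := by
    calc U.N * expo l * C.card ≤ U.N * expo l * n := Nat.mul_le_mul_left _ hCn
      _ = U.N * n * expo l := by ring
  rw [← hn]
  have g1 : (2 : ℝ) ^ (U.N * expo l * C.card) ≤ 2 ^ (U.N * n * expo l) :=
    pow_le_pow_right₀ one_le_two hexp
  have g2 : ((n : ℝ) + 1) ^ C.card ≤ ((n : ℝ) + 1) ^ n :=
    pow_le_pow_right₀ (by linarith [(Nat.cast_nonneg n : (0 : ℝ) ≤ n)]) hCn
  have g3 : Real.exp (∑ i ∈ C, cz P z i i) ≤ Real.exp (-(c * τ)) := Real.exp_le_exp.mpr hsum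
  have g4 : wsize C (zR P) * Real.exp (∑ i ∈ C, cz P z i i) ≤ W * Real.exp (-(c * τ)) :=
    mul_le_mul (hWle C) g3 (Real.exp_pos _).le hWpos.le
  calc (2 : ℝ) ^ (U.N * expo l * C.card) * (((n : ℝ) + 1) ^ C.card *
          (wsize C (zR P) * Real.exp (∑ i ∈ C, cz P z i i)))
      ≤ 2 ^ (U.N * n * expo l) * (((n : ℝ) + 1) ^ n * (W * Real.exp (-(c * τ)))) := by
        apply mul_le_mul g1 _ (by
          have := CoreC_wsize_nonneg C (zR P)
          positivity) (by positivity)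
        apply mul_le_mul g2 g4 (by
          have := CoreC_wsize_nonneg C (zR P)
          positivity) (by positivity)
    _ = (2 ^ (U.N * n * expo l) * Real.exp (-(c * τ))) * (((n : ℝ) + 1) ^ n * W) := by ring
    _ < ε := by
        rwa [lt_div_iff₀ (by positivity)] at hl1

end Pool.Agent.W_MP_bb6588_G
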