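import Mathlib
import Pool.Agent.W_MP_bb6588_G.Minor

set_option autoImplicit false

/-!
# Short wedge products force a point out of compact sets
-/

namespace Pool.Agent.W_MP_bb6588_G

open Matrix Filter Topology
open Pool.Agent.W_MP_bb6588_an (SLR SLZ nrm Dig step expo dlt val)

variable {ι : Type} [Fintype ι] [DecidableEq ι]

theorem Cpt_mono {f : Matrix ι ι ℝ} {ε ε' : ℝ} (h : ShortW f ε) (hε : ε ≤ ε') :
    ShortW f ε' := by
  obtain ⟨A, C, hA, hw⟩ := h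
  exact ⟨A, C, hA, hw.trans_le hε⟩

/-- If `k f` is `ε`-short then `f` is `B^{|ι|} ε`-short for any `B ≥ 1` with `nrm k⁻¹ ≤ B`.

Proof. `wsize C (f A) = wsize C (k⁻¹ (k f A)) ≤ (nrm k⁻¹)^{|C|} wsize C (k f A)`
(`wsize_mul_le`). -/
theorem ShortW.of_mul {k f : SLR ι} {ε B : ℝ} (hε : 0 < ε)
    (h : ShortW ((k * f : SLR ι) : Matrix ι ι ℝ) ε) (hB : 1 ≤ B)
    (hk : nrm ((k⁻¹ : SLR ι) : Matrix ι ι ℝ) ≤ B) :
    ShortW (f : Matrix ι ι ℝ) (B ^ Fintype.card ι * ε) := by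
  obtain ⟨A, C, hA, hw⟩ := h
  refine ⟨A, C, hA, ?_⟩
  have hB0 : (0 : ℝ) ≤ B := zero_le_one.trans hB
  have e : (f : Matrix ι ι ℝ) * zR A =
      ((k⁻¹ : SLR ι) : Matrix ι ι ℝ) * (((k * f : SLR ι) : Matrix ι ι ℝ) * zR A) := by
    rw [← mul_assoc, ← Matrix.SpecialLinearGroup.coe_mul, inv_mul_cancel_left]
  rw [e]
  have h1 := wsize_mul_le C ((k⁻¹ : SLR ι) : Matrix ι ι ℝ)
    (((k * f : SLR ι) : Matrix ι ι ℝ) * zR A)
  have h2 : nrm ((k⁻¹ : SLR ι) : Matrix ι ι ℝ) ^ C.card ≤ B ^ Fintype.card ι :=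
    (pow_le_pow_left₀ (Pool.Agent.W_MP_bb6588_an.nrm_nonneg _) hk _).trans
      (pow_le_pow_right₀ hB (Finset.card_le_univ C))
  have h3 : 0 < B ^ Fintype.card ι := pow_pos (zero_lt_one.trans_le hB) _
  calc wsize C (((k⁻¹ : SLR ι) : Matrix ι ι ℝ) * (((k * f : SLR ι) : Matrix ι ι ℝ) * zR A))
      ≤ nrm ((k⁻¹ : SLR ι) : Matrix ι ι ℝ) ^ C.card *
          wsize C (((k * f : SLR ι) : Matrix ι ι ℝ) * zR A) := h1
    _ ≤ B ^ Fintype.card ι * wsize C (((k * f : SLR ι) : Matrix ι ι ℝ) * zR A) :=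
        mul_le_mul_of_nonneg_right h2 (wsize_nonneg _ _)
    _ < B ^ Fintype.card ι * ε := mul_lt_mul_of_pos_left hw h3

/-- If `f γ` is `ε`-short, `γ ∈ SL_ι(ℤ)`, then `f` is `ε`-short. -/
theorem ShortW.of_mul_int {f γ : SLR ι} {ε : ℝ}
    (h : ShortW ((f * γ : SLR ι) : Matrix ι ι ℝ) ε) (hγ : γ ∈ SLZ ι) :
    ShortW (f : Matrix ι ι ℝ) ε := by
  obtain ⟨A, C, hA, hw⟩ := h
  obtain ⟨g, rfl⟩ := hγ
  refine ⟨(g : Matrix ι ι ℤ) * A, C, ?_, ?_⟩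
  · rw [Matrix.det_mul, g.det_coe, one_mul]
    exact hA
  · have e : zR ((g : Matrix ι ι ℤ) * A) =
        ((Matrix.SpecialLinearGroup.map (n := ι) (Int.castRingHom ℝ) g : SLR ι) :
          Matrix ι ι ℝ) * zR A := by
      unfold zR
      rw [Matrix.SpecialLinearGroup.map_apply_coe]
      exact Matrix.map_mul (f := Int.castRingHom ℝ)
    rw [e, ← mul_assoc, ← Matrix.SpecialLinearGroup.coe_mul]
    exact hw

/-- No matrix in `SL` is arbitrarily short: `f` is not `ε`-short for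
`ε ≤ (1 + nrm f⁻¹)^{-|ι|}`. -/
theorem exists_not_shortW (f : SLR ι) : ∃ ε : ℝ, 0 < ε ∧ ¬ ShortW (f : Matrix ι ι ℝ) ε := by
  have hn : 0 ≤ nrm ((f⁻¹ : SLR ι) : Matrix ι ι ℝ) := Pool.Agent.W_MP_bb6588_an.nrm_nonneg _
  have hB : 1 ≤ 1 + nrm ((f⁻¹ : SLR ι) : Matrix ι ι ℝ) := by linarith
  have hp : 0 < (1 + nrm ((f⁻¹ : SLR ι) : Matrix ι ι ℝ)) ^ Fintype.card ι :=
    pow_pos (zero_lt_one.trans_le hB) _
  refine ⟨((1 + nrm ((f⁻¹ : SLR ι) : Matrix ι ι ℝ)) ^ Fintype.card ι)⁻¹, inv_pos.2 hp, ?_⟩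
  intro h
  have h' : ShortW ((f * 1 : SLR ι) : Matrix ι ι ℝ)
      ((1 + nrm ((f⁻¹ : SLR ι) : Matrix ι ι ℝ)) ^ Fintype.card ι)⁻¹ := by
    rw [mul_one]
    exact h
  obtain ⟨A, C, hA, hw⟩ := ShortW.of_mul (inv_pos.2 hp) h' hB (by linarith)
  rw [mul_inv_cancel₀ hp.ne', Matrix.SpecialLinearGroup.coe_one, one_mul] at hw
  exact absurd (one_le_wsize C A hA) (not_le.2 hw)

/-- For a compact subset `K` of `G/Γ`, `Γ ≤ G` commensurable with `G ∩ SL_ι(ℤ)`, there is `ε > 0`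
such that `f` is not `ε`-short for all `f ∈ G` with `f Γ ∈ K`.

Proof. `Γ₀ = Γ ⊓ (SLZ ι).subgroupOf G` has finite index in `Γ`: there is a finite set `S ⊆ Γ` with
`Γ = ⋃_{s ∈ S} s Γ₀`. For each `g ∈ G` let `U g` be the set of the `κ g`, `κ ∈ G`, with
`nrm κ⁻¹ < |ι| + 1` (`nrm 1 = |ι|`): an open set containing `g`. For `g' = κ g ∈ U g`, `γ ∈ Γ`,
`γ = s γ₀`: if `g' γ` is `ε`-short then `g' s = κ (g s)` is `ε`-short (`of_mul_int`), and `g s` is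
`(|ι|+1)^{|ι|} ε`-short (`of_mul`); by `exists_not_shortW` applied to the finitely many `g s` this
is impossible for `ε ≤ ε_g`. The quotient map `G → G/Γ` is open, so `K` is covered by finitely many
images of the sets `U g`; take the minimum of the corresponding `ε_g`. -/
theorem not_shortW_of_mem_compact (G : Subgroup (SLR ι)) (Γ : Subgroup G)
    (hΓ : Subgroup.Commensurable Γ ((SLZ ι).subgroupOf G)) (K : Set (G ⧸ Γ)) (hK : IsCompact K) :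
    ∃ ε : ℝ, 0 < ε ∧ ∀ f : G, ((f : G) : G ⧸ Γ) ∈ K →
      ¬ ShortW ((f : SLR ι) : Matrix ι ι ℝ) ε := by
  classical
  -- finitely many representatives
  have hfin : Finite (Γ ⧸ (((SLZ ι).subgroupOf G).subgroupOf Γ)) :=
    Subgroup.index_ne_zero_iff_finite.1 hΓ.2
  have hrep : ∀ γ : G, γ ∈ Γ → ∃ (n : Γ ⧸ (((SLZ ι).subgroupOf G).subgroupOf Γ)) (γ₀ : G),
      γ = ((Quotient.out n : Γ) : G) * γ₀ ∧ (γ₀ : SLR ι) ∈ SLZ ι := by
    intro γ hγ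
    refine ⟨((⟨γ, hγ⟩ : Γ) : Γ ⧸ (((SLZ ι).subgroupOf G).subgroupOf Γ)),
      ((Quotient.out ((⟨γ, hγ⟩ : Γ) : Γ ⧸ (((SLZ ι).subgroupOf G).subgroupOf Γ)) : Γ) : G)⁻¹ * γ,
      by rw [mul_inv_cancel_left], ?_⟩
    have h1 : ((Quotient.out ((⟨γ, hγ⟩ : Γ) :
        Γ ⧸ (((SLZ ι).subgroupOf G).subgroupOf Γ)) : Γ) :
        Γ ⧸ (((SLZ ι).subgroupOf G).subgroupOf Γ)) = ((⟨γ, hγ⟩ : Γ) : _ ) := Quotient.out_eq _
    rw [QuotientGroup.eq] at h1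
    exact h1
  set B : ℝ := nrm (1 : Matrix ι ι ℝ) + 1 with hBdef
  have hB : 1 ≤ B := by
    have := Pool.Agent.W_MP_bb6588_an.nrm_nonneg (1 : Matrix ι ι ℝ)
    linarith
  have hBp : 0 < B ^ Fintype.card ι := pow_pos (zero_lt_one.trans_le hB) _
  refine hK.induction_on (p := fun K : Set (G ⧸ Γ) => ∃ ε : ℝ, 0 < ε ∧
    ∀ f : G, ((f : G) : G ⧸ Γ) ∈ K → ¬ ShortW ((f : SLR ι) : Matrix ι ι ℝ) ε) ?_ ?_ ?_ ?_
  · exact ⟨1, one_pos, fun f hf => absurd hf (Set.notMem_empty _)⟩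
  · rintro s t hst ⟨ε, hε, h⟩
    exact ⟨ε, hε, fun f hf => h f (hst hf)⟩
  · rintro s t ⟨ε, hε, h⟩ ⟨ε', hε', h'⟩
    refine ⟨min ε ε', lt_min hε hε', fun f hf hS => ?_⟩
    rcases hf with hf | hf
    · exact h f hf (Cpt_mono hS (min_le_left _ _))
    · exact h' f hf (Cpt_mono hS (min_le_right _ _))
  · intro x hx
    obtain ⟨g, rfl⟩ := QuotientGroup.mk_surjective x
    have hcont : Continuous fun x : G =>
        nrm (((g : SLR ι) * (x : SLR ι)⁻¹ : SLR ι) : Matrix ι ι ℝ) := by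
      have h0 : Continuous fun x : G => ((g : SLR ι) * (x : SLR ι)⁻¹ : SLR ι) :=
        continuous_const.mul continuous_subtype_val.inv
      unfold nrm
      refine continuous_finsetSum _ fun i _ => continuous_finsetSum _ fun j _ => ?_
      exact ((continuous_apply j).comp
        (Matrix.SpecialLinearGroup.continuous_apply _ h0 i)).abs
    have hopen : IsOpen {x : G |
        nrm (((g : SLR ι) * (x : SLR ι)⁻¹ : SLR ι) : Matrix ι ι ℝ) < B} :=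
      isOpen_lt hcont continuous_const
    have hmem : g ∈ {x : G |
        nrm (((g : SLR ι) * (x : SLR ι)⁻¹ : SLR ι) : Matrix ι ι ℝ) < B} := by
      show nrm (((g : SLR ι) * (g : SLR ι)⁻¹ : SLR ι) : Matrix ι ι ℝ) < B
      rw [mul_inv_cancel, Matrix.SpecialLinearGroup.coe_one]
      linarith
    refine ⟨((↑) : G → G ⧸ Γ) '' {x : G |
        nrm (((g : SLR ι) * (x : SLR ι)⁻¹ : SLR ι) : Matrix ι ι ℝ) < B},
      mem_nhdsWithin_of_mem_nhds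
        ((QuotientGroup.isOpenMap_coe _ hopen).mem_nhds ⟨g, hmem, rfl⟩), ?_⟩
    choose ε hε hnot using fun n : Γ ⧸ (((SLZ ι).subgroupOf G).subgroupOf Γ) =>
      exists_not_shortW ((g * ((Quotient.out n : Γ) : G) : G) : SLR ι)
    obtain ⟨n₀, hn₀⟩ := Finite.exists_min ε
    refine ⟨ε n₀ / B ^ Fintype.card ι, div_pos (hε _) hBp, ?_⟩
    rintro f ⟨x, hxU, hxf⟩ hS
    have hγ : x⁻¹ * f ∈ Γ := QuotientGroup.eq.1 hxf
    obtain ⟨n, γ₀, hγ1, hγ2⟩ := hrep _ hγ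
    have hf : (f : SLR ι) = ((x : SLR ι) * (g : SLR ι)⁻¹) *
        (((g * ((Quotient.out n : Γ) : G) : G) : SLR ι)) * (γ₀ : SLR ι) := by
      have h1 : f = x * (((Quotient.out n : Γ) : G) * γ₀) := by
        rw [← hγ1, mul_inv_cancel_left]
      rw [h1]
      push_cast
      group
    rw [hf] at hS
    have hS2 := ShortW.of_mul (div_pos (hε _) hBp) (ShortW.of_mul_int hS hγ2) hB (by
      rw [_root_.mul_inv_rev, inv_inv]
      exact le_of_lt hxU)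
    rw [mul_div_cancel₀ _ hBp.ne'] at hS2
    exact hnot n (Cpt_mono hS2 (hn₀ n))

end Pool.Agent.W_MP_bb6588_G
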