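import Mathlib
import Pool.Agent.W_MP_bb6588_G.Defs

set_option autoImplicit false

/-!
# Rational matrices as real matrices
-/

namespace Pool.Agent.W_MP_bb6588_G

open Matrix Filter Topology
open Pool.Agent.W_MP_bb6588_an (SLR SLZ nrm Dig step expo dlt val)

variable {ι : Type} [Fintype ι] [DecidableEq ι]

theorem toR_apply' (X : Matrix ι ι ℚ) (i j : ι) : toR X i j = (X i j : ℝ) := rfl

theorem toR_eq_mapMatrix (X : Matrix ι ι ℚ) : toR X = (algebraMap ℚ ℝ).mapMatrix X := by
  ext i j
  simp [toR_apply']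

theorem toR_mul (X Y : Matrix ι ι ℚ) : toR (X * Y) = toR X * toR Y := by
  simp only [toR_eq_mapMatrix, map_mul]

theorem toR_add (X Y : Matrix ι ι ℚ) : toR (X + Y) = toR X + toR Y := by
  simp only [toR_eq_mapMatrix, map_add]

theorem toR_sub (X Y : Matrix ι ι ℚ) : toR (X - Y) = toR X - toR Y := by
  simp only [toR_eq_mapMatrix, map_sub]

theorem toR_smul (c : ℚ) (X : Matrix ι ι ℚ) : toR (c • X) = (c : ℝ) • toR X := by
  ext i j
  simp [toR_apply']

theorem toR_inj {X Y : Matrix ι ι ℚ} (h : toR X = toR Y) : X = Y := by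
  ext i j
  have h1 := congrFun (congrFun h i) j
  rw [toR_apply', toR_apply'] at h1
  exact_mod_cast h1

theorem toR_zero' : toR (0 : Matrix ι ι ℚ) = 0 := by
  ext i j
  simp [toR_apply']

theorem toR_sum' {κ : Type} (s : Finset κ) (f : κ → Matrix ι ι ℚ) :
    toR (∑ k ∈ s, f k) = ∑ k ∈ s, toR (f k) := by
  simp only [toR_eq_mapMatrix, map_sum]

/-- A rational linear relation: a real number solution space of rational linear equations is spanned
by rational solutions. Here: rational matrices which are linearly independent over `ℚ` are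
linearly independent over `ℝ`. -/
theorem linearIndependent_toR {n : ℕ} (v : Fin n → Matrix ι ι ℚ) (hv : LinearIndependent ℚ v) :
    LinearIndependent ℝ fun i => toR (v i) := by
  classical
  -- a left inverse of the linear combination map
  obtain ⟨f, hf⟩ := LinearMap.exists_leftInverse_of_injective (Fintype.linearCombination ℚ v)
    (by
      rw [LinearMap.ker_eq_bot']
      intro c hc
      rw [Fintype.linearCombination_apply] at hc
      ext i
      exact Fintype.linearIndependent_iff.1 hv c hc i)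
  have hfv : ∀ i j, f (v i) j = if i = j then 1 else 0 := by
    intro i j
    have h1 := LinearMap.congr_fun hf (Pi.single i 1)
    rw [LinearMap.comp_apply, Fintype.linearCombination_apply_single, one_smul] at h1
    rw [h1]
    simp [Pi.single_apply, eq_comm]
  -- the real extension
  let F : Fin n → (Matrix ι ι ℝ →ₗ[ℝ] ℝ) := fun j =>
    { toFun := fun Y => ∑ p : ι, ∑ q : ι, Y p q * ((f (Matrix.single p q 1) j : ℚ) : ℝ)
      map_add' := by
        intro x y
        simp only [Matrix.add_apply, add_mul, Finset.sum_add_distrib]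
      map_smul' := by
        intro c x
        simp only [Matrix.smul_apply, smul_eq_mul, Finset.mul_sum, RingHom.id_apply, mul_assoc] }
  have hF : ∀ j X, F j (toR X) = ((f X j : ℚ) : ℝ) := by
    intro j X
    conv_rhs => rw [Matrix.matrix_eq_sum_single X]
    simp only [map_sum, Finset.sum_apply, F, LinearMap.coe_mk, AddHom.coe_mk]
    push_cast
    refine Finset.sum_congr rfl fun p _ => Finset.sum_congr rfl fun q _ => ?_
    have h2 : Matrix.single p q (X p q) = X p q • Matrix.single p q (1 : ℚ) := by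
      rw [Matrix.smul_single, smul_eq_mul, mul_one]
    rw [h2, map_smul, Pi.smul_apply, smul_eq_mul, toR_apply']
    push_cast
    ring
  rw [Fintype.linearIndependent_iff]
  intro g hg j
  have h1 : F j (∑ i, g i • toR (v i)) = g j := by
    rw [map_sum]
    simp only [map_smul, hF, hfv, smul_eq_mul]
    rw [Finset.sum_eq_single j]
    · rw [if_pos rfl]; push_cast; ring
    · intro i _ hij
      rw [if_neg hij]; push_cast; ring
    · intro h; exact absurd (Finset.mem_univ j) h
  rw [← h1, hg, map_zero]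

theorem realSpan_eq_span_basis {n : ℕ} (W : Submodule ℚ (Matrix ι ι ℚ))
    (b : Module.Basis (Fin n) ℚ W) :
    realSpan W = Submodule.span ℝ (Set.range fun i => toR ((b i : W) : Matrix ι ι ℚ)) := by
  apply le_antisymm
  · refine Submodule.span_le.2 ?_
    rintro _ ⟨X, hX, rfl⟩
    have h1 : X = ∑ i, b.repr ⟨X, hX⟩ i • ((b i : W) : Matrix ι ι ℚ) := by
      have h2 := congrArg (fun w : W => (w : Matrix ι ι ℚ)) (b.sum_repr ⟨X, hX⟩)
      simp only [Submodule.coe_sum, Submodule.coe_smul] at h2
      exact h2.symm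
    rw [h1, toR_sum']
    refine Submodule.sum_mem _ fun i _ => ?_
    rw [toR_smul]
    exact Submodule.smul_mem _ _ (Submodule.subset_span ⟨i, rfl⟩)
  · refine Submodule.span_le.2 ?_
    rintro _ ⟨i, rfl⟩
    exact Submodule.subset_span ⟨_, (b i).2, rfl⟩

theorem finrank_realSpan (W : Submodule ℚ (Matrix ι ι ℚ)) :
    Module.finrank ℝ (realSpan W) = Module.finrank ℚ W := by
  have b := Module.finBasis ℚ W
  rw [realSpan_eq_span_basis W b]
  have h1 : LinearIndependent ℚ fun i => ((b i : W) : Matrix ι ι ℚ) :=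
    b.linearIndependent.map' W.subtype (Submodule.ker_subtype W)
  rw [finrank_span_eq_card (linearIndependent_toR _ h1), Fintype.card_fin]

theorem realSpan_mono {W W' : Submodule ℚ (Matrix ι ι ℚ)} (h : W ≤ W') :
    realSpan W ≤ realSpan W' :=
  Submodule.span_mono (Set.image_mono h)

theorem SDg_realSpan {S : Submodule ℚ (Matrix ι ι ℚ)} (h : SDgQ S) : SDg (realSpan S) := by
  obtain ⟨P, hP⟩ := h
  refine ⟨Units.map ((algebraMap ℚ ℝ).mapMatrix : Matrix ι ι ℚ →+* Matrix ι ι ℝ).toMonoidHom P,
    fun z hz => ?_⟩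
  refine Submodule.span_induction (p := fun z _ => ∃ d : ι → ℝ,
    z = ((Units.map ((algebraMap ℚ ℝ).mapMatrix : Matrix ι ι ℚ →+* Matrix ι ι ℝ).toMonoidHom P :
      (Matrix ι ι ℝ)ˣ) : Matrix ι ι ℝ) * Matrix.diagonal d *
      (((Units.map ((algebraMap ℚ ℝ).mapMatrix : Matrix ι ι ℚ →+* Matrix ι ι ℝ).toMonoidHom P)⁻¹ :
        (Matrix ι ι ℝ)ˣ) : Matrix ι ι ℝ)) ?_ ?_ ?_ ?_ hz
  · rintro _ ⟨X, hX, rfl⟩
    obtain ⟨d, hd⟩ := hP X hX
    refine ⟨fun i => (d i : ℝ), ?_⟩
    have h1 : (Matrix.diagonal fun i => (d i : ℝ)) = (algebraMap ℚ ℝ).mapMatrix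
        (Matrix.diagonal d) := by
      ext i j
      by_cases hij : i = j
      · subst hij
        simp
      · simp [Matrix.diagonal_apply_ne _ hij]
    rw [h1, ← map_inv, hd, toR_eq_mapMatrix, map_mul, map_mul]
    rfl
  · exact ⟨0, by simp⟩
  · rintro x y _ _ ⟨d, hd⟩ ⟨e, he⟩
    refine ⟨d + e, ?_⟩
    have h2 : Matrix.diagonal (d + e) = Matrix.diagonal d + Matrix.diagonal e := by
      rw [Matrix.diagonal_add]; rfl
    rw [h2, mul_add, add_mul, ← hd, ← he]
  · rintro c x _ ⟨d, hd⟩
    refine ⟨c • d, ?_⟩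
    rw [Matrix.diagonal_smul, Algebra.mul_smul_comm, Algebra.smul_mul_assoc, ← hd]

end Pool.Agent.W_MP_bb6588_G
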