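import Mathlib
import Pool.Agent.W_MP_bb6588_G.Defs

set_option autoImplicit false

/-!
# Levels of a matrix with respect to a diagonalizable matrix

`mkD R d = R diag(d) R⁻¹`; `lev R d μ x` is the component of `x` in the eigenspace of
`ad (mkD R d)` for the eigenvalue `μ`; `Up R d μ` (`Upe R d μ`) consists of the matrices with
components only in levels `> μ` (`≥ μ`).
-/

namespace Pool.Agent.W_MP_bb6588_G

open Matrix Filter Topology
open Pool.Agent.W_MP_bb6588_an (SLR SLZ nrm Dig step expo dlt val)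

variable {ι : Type} [Fintype ι] [DecidableEq ι]

/-- The matrix `R diag(d) R⁻¹`. -/
def mkD (R : (Matrix ι ι ℝ)ˣ) (d : ι → ℝ) : Matrix ι ι ℝ :=
  (R : Matrix ι ι ℝ) * Matrix.diagonal d * ((R⁻¹ : (Matrix ι ι ℝ)ˣ) : Matrix ι ι ℝ)

theorem lv_inv_mul (R : (Matrix ι ι ℝ)ˣ) :
    ((R⁻¹ : (Matrix ι ι ℝ)ˣ) : Matrix ι ι ℝ) * (R : Matrix ι ι ℝ) = 1 := Units.inv_mul R

theorem lv_mul_inv (R : (Matrix ι ι ℝ)ˣ) :
    (R : Matrix ι ι ℝ) * ((R⁻¹ : (Matrix ι ι ℝ)ˣ) : Matrix ι ι ℝ) = 1 := Units.mul_inv R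

/-- `cj R (R Z R⁻¹) = Z`. -/
theorem lv_cj_conj (R : (Matrix ι ι ℝ)ˣ) (Z : Matrix ι ι ℝ) :
    cj R ((R : Matrix ι ι ℝ) * Z * ((R⁻¹ : (Matrix ι ι ℝ)ˣ) : Matrix ι ι ℝ)) = Z := by
  unfold cj
  calc _ = (((R⁻¹ : (Matrix ι ι ℝ)ˣ) : Matrix ι ι ℝ) * (R : Matrix ι ι ℝ)) * Z *
        (((R⁻¹ : (Matrix ι ι ℝ)ˣ) : Matrix ι ι ℝ) * (R : Matrix ι ι ℝ)) := by
        simp only [mul_assoc]
    _ = Z := by rw [lv_inv_mul, one_mul, mul_one]

theorem lv_conj_cj (R : (Matrix ι ι ℝ)ˣ) (x : Matrix ι ι ℝ) :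
    (R : Matrix ι ι ℝ) * cj R x * ((R⁻¹ : (Matrix ι ι ℝ)ˣ) : Matrix ι ι ℝ) = x := by
  unfold cj
  calc _ = ((R : Matrix ι ι ℝ) * ((R⁻¹ : (Matrix ι ι ℝ)ˣ) : Matrix ι ι ℝ)) * x *
        ((R : Matrix ι ι ℝ) * ((R⁻¹ : (Matrix ι ι ℝ)ˣ) : Matrix ι ι ℝ)) := by
        simp only [mul_assoc]
    _ = x := by rw [lv_mul_inv, one_mul, mul_one]

theorem cj_mul (R : (Matrix ι ι ℝ)ˣ) (x y : Matrix ι ι ℝ) : cj R (x * y) = cj R x * cj R y := by
  unfold cj
  calc _ = ((R⁻¹ : (Matrix ι ι ℝ)ˣ) : Matrix ι ι ℝ) * x * 1 * y * (R : Matrix ι ι ℝ) := by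
        simp only [mul_assoc, one_mul]
    _ = _ := by rw [← lv_mul_inv R]; simp only [mul_assoc]

theorem cj_one (R : (Matrix ι ι ℝ)ˣ) : cj R 1 = 1 := by
  unfold cj
  rw [mul_one, lv_inv_mul]

theorem cj_add (R : (Matrix ι ι ℝ)ˣ) (x y : Matrix ι ι ℝ) : cj R (x + y) = cj R x + cj R y := by
  unfold cj
  rw [mul_add, add_mul]

theorem cj_sub (R : (Matrix ι ι ℝ)ˣ) (x y : Matrix ι ι ℝ) : cj R (x - y) = cj R x - cj R y := by
  unfold cj
  rw [mul_sub, sub_mul]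

theorem cj_smul (R : (Matrix ι ι ℝ)ˣ) (c : ℝ) (x : Matrix ι ι ℝ) : cj R (c • x) = c • cj R x := by
  unfold cj
  rw [mul_smul_comm, smul_mul_assoc]

theorem cj_inj (R : (Matrix ι ι ℝ)ˣ) {x y : Matrix ι ι ℝ} (h : cj R x = cj R y) : x = y := by
  rw [← lv_conj_cj R x, h, lv_conj_cj]

theorem cj_mkD (R : (Matrix ι ι ℝ)ˣ) (d : ι → ℝ) : cj R (mkD R d) = Matrix.diagonal d := by
  unfold mkD
  rw [lv_cj_conj]

theorem trace_cj (R : (Matrix ι ι ℝ)ˣ) (x : Matrix ι ι ℝ) : (cj R x).trace = x.trace := by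
  unfold cj
  rw [Matrix.trace_mul_comm, ← mul_assoc, lv_mul_inv, one_mul]

theorem cj_lev (R : (Matrix ι ι ℝ)ˣ) (d : ι → ℝ) (μ : ℝ) (x : Matrix ι ι ℝ) :
    cj R (lev R d μ x) = Matrix.of fun i j => if d i - d j = μ then cj R x i j else 0 := by
  unfold lev
  rw [lv_cj_conj]

theorem lev_add (R : (Matrix ι ι ℝ)ˣ) (d : ι → ℝ) (μ : ℝ) (x y : Matrix ι ι ℝ) :
    lev R d μ (x + y) = lev R d μ x + lev R d μ y := by
  apply cj_inj R
  rw [cj_add]
  simp only [cj_lev, cj_add]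
  ext i j
  simp only [Matrix.of_apply, Matrix.add_apply]
  split_ifs <;> simp

theorem lev_smul (R : (Matrix ι ι ℝ)ˣ) (d : ι → ℝ) (μ c : ℝ) (x : Matrix ι ι ℝ) :
    lev R d μ (c • x) = c • lev R d μ x := by
  apply cj_inj R
  rw [cj_smul]
  simp only [cj_lev, cj_smul]
  ext i j
  simp only [Matrix.of_apply, Matrix.smul_apply]
  split_ifs <;> simp

theorem lv_cj_bracket (R : (Matrix ι ι ℝ)ˣ) (d : ι → ℝ) (x : Matrix ι ι ℝ) (i j : ι) :
    cj R (mkD R d * x - x * mkD R d) i j = (d i - d j) * cj R x i j := by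
  rw [cj_sub, cj_mul, cj_mul, cj_mkD, Matrix.sub_apply, Matrix.diagonal_mul,
    Matrix.mul_diagonal]
  ring

/-- `[mkD R d, lev μ x] = μ lev μ x`. -/
theorem bracket_lev (R : (Matrix ι ι ℝ)ˣ) (d : ι → ℝ) (μ : ℝ) (x : Matrix ι ι ℝ) :
    mkD R d * lev R d μ x - lev R d μ x * mkD R d = μ • lev R d μ x := by
  apply cj_inj R
  ext i j
  rw [lv_cj_bracket, cj_smul, Matrix.smul_apply, cj_lev, Matrix.of_apply, smul_eq_mul]
  split_ifs with h
  · rw [h]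
  · simp

theorem lev_of_bracket (R : (Matrix ι ι ℝ)ˣ) (d : ι → ℝ) (μ : ℝ) (x : Matrix ι ι ℝ)
    (h : mkD R d * x - x * mkD R d = μ • x) : lev R d μ x = x := by
  apply cj_inj R
  ext i j
  rw [cj_lev, Matrix.of_apply]
  split_ifs with hij
  · rfl
  · have h1 := lv_cj_bracket R d x i j
    rw [h, cj_smul, Matrix.smul_apply, smul_eq_mul] at h1
    have h2 : (d i - d j - μ) * cj R x i j = 0 := by linarith
    rcases mul_eq_zero.1 h2 with h3 | h3
    · exact absurd (by linarith) hij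
    · exact h3.symm

theorem lv_cj_sum {κ : Type} (R : (Matrix ι ι ℝ)ˣ) (s : Finset κ) (f : κ → Matrix ι ι ℝ) :
    cj R (∑ k ∈ s, f k) = ∑ k ∈ s, cj R (f k) := by
  unfold cj
  rw [Finset.mul_sum, Finset.sum_mul]

theorem sum_lev (R : (Matrix ι ι ℝ)ˣ) (d : ι → ℝ) (x : Matrix ι ι ℝ) :
    x = ∑ μ ∈ Finset.univ.image (fun q : ι × ι => d q.1 - d q.2), lev R d μ x := by
  apply cj_inj R
  ext i j
  rw [lv_cj_sum, Matrix.sum_apply]
  simp only [cj_lev, Matrix.of_apply]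
  rw [Finset.sum_ite_eq]
  rw [if_pos]
  exact Finset.mem_image.2 ⟨(i, j), Finset.mem_univ _, rfl⟩

/-- `ad (mkD R d)` as a linear map. -/
def lvAd (R : (Matrix ι ι ℝ)ˣ) (d : ι → ℝ) : Matrix ι ι ℝ →ₗ[ℝ] Matrix ι ι ℝ :=
  LinearMap.mulLeft ℝ (mkD R d) - LinearMap.mulRight ℝ (mkD R d)

theorem lvAd_apply (R : (Matrix ι ι ℝ)ˣ) (d : ι → ℝ) (x : Matrix ι ι ℝ) :
    lvAd R d x = mkD R d * x - x * mkD R d := by
  simp [lvAd]

theorem lvAd_pow (R : (Matrix ι ι ℝ)ˣ) (d : ι → ℝ) (x : Matrix ι ι ℝ) (n : ℕ) (i j : ι) :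
    cj R ((lvAd R d ^ n) x) i j = (d i - d j) ^ n * cj R x i j := by
  induction n with
  | zero => simp
  | succ n ih =>
    rw [pow_succ', Module.End.mul_apply, lvAd_apply, lv_cj_bracket, ih]
    ring

theorem lvAd_aeval (R : (Matrix ι ι ℝ)ˣ) (d : ι → ℝ) (x : Matrix ι ι ℝ) (p : Polynomial ℝ)
    (i j : ι) : cj R (Polynomial.aeval (lvAd R d) p x) i j = p.eval (d i - d j) * cj R x i j := by
  induction p using Polynomial.induction_on' with
  | add p q hp hq =>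
    rw [map_add, LinearMap.add_apply, cj_add, Matrix.add_apply, hp, hq, Polynomial.eval_add]
    ring
  | monomial n c =>
    rw [Polynomial.aeval_monomial, Polynomial.eval_monomial, ← Algebra.smul_def,
      LinearMap.smul_apply, cj_smul, Matrix.smul_apply, lvAd_pow, smul_eq_mul]
    ring

theorem lvAd_mem (V : Submodule ℝ (Matrix ι ι ℝ)) (R : (Matrix ι ι ℝ)ˣ) (d : ι → ℝ)
    (hV : ∀ x ∈ V, mkD R d * x - x * mkD R d ∈ V) {x : Matrix ι ι ℝ} (hx : x ∈ V)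
    (p : Polynomial ℝ) : Polynomial.aeval (lvAd R d) p x ∈ V := by
  induction p using Polynomial.induction_on' with
  | add p q hp hq =>
    rw [map_add, LinearMap.add_apply]
    exact V.add_mem hp hq
  | monomial n c =>
    rw [Polynomial.aeval_monomial, ← Algebra.smul_def, LinearMap.smul_apply]
    apply V.smul_mem
    induction n with
    | zero => simpa using hx
    | succ n ih =>
      rw [pow_succ', Module.End.mul_apply, lvAd_apply]
      exact hV _ ih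

/-- A subspace stable under `ad (mkD R d)` contains the components of its elements.

Proof. `lev μ x = ∏_{ν ≠ μ} (ad(mkD R d) - ν) / (μ - ν) x`, the product over the finitely many
differences `ν = d i - d j`, `ν ≠ μ` (entrywise in the basis `R`); if `μ` is not such a
difference, `lev μ x = 0`. -/
theorem lev_mem (V : Submodule ℝ (Matrix ι ι ℝ)) (R : (Matrix ι ι ℝ)ˣ) (d : ι → ℝ)
    (hV : ∀ x ∈ V, mkD R d * x - x * mkD R d ∈ V) {x : Matrix ι ι ℝ} (hx : x ∈ V) (μ : ℝ) :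
    lev R d μ x ∈ V := by
  classical
  set s : Finset ℝ := Finset.univ.image (fun q : ι × ι => d q.1 - d q.2) with hs
  set p : Polynomial ℝ := Lagrange.interpolate s id (fun ν => if ν = μ then 1 else 0) with hp
  have hpe : ∀ i j, p.eval (d i - d j) = if d i - d j = μ then 1 else 0 := by
    intro i j
    have hm : d i - d j ∈ s := Finset.mem_image.2 ⟨(i, j), Finset.mem_univ _, rfl⟩
    exact Lagrange.eval_interpolate_at_node (v := id) (s := s)
      (fun ν : ℝ => if ν = μ then (1 : ℝ) else 0) (fun a _ b _ hab => hab) hm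
  have h1 : lev R d μ x = Polynomial.aeval (lvAd R d) p x := by
    apply cj_inj R
    ext i j
    rw [cj_lev, lvAd_aeval, hpe, Matrix.of_apply]
    split_ifs <;> simp
  rw [h1]
  exact lvAd_mem V R d hV hx p

theorem lv_lev_eq_zero (R : (Matrix ι ι ℝ)ˣ) (d : ι → ℝ) (μ : ℝ) (x : Matrix ι ι ℝ) :
    lev R d μ x = 0 ↔ ∀ i j, d i - d j = μ → cj R x i j = 0 := by
  constructor
  · intro h i j hij
    have h1 : cj R (lev R d μ x) i j = 0 := by
      rw [h]; simp [cj]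
    rw [cj_lev, Matrix.of_apply, if_pos hij] at h1
    exact h1
  · intro h
    apply cj_inj R
    ext i j
    rw [cj_lev, Matrix.of_apply]
    have h0 : cj R (0 : Matrix ι ι ℝ) i j = 0 := by simp [cj]
    rw [h0]
    split_ifs with hij
    · exact h i j hij
    · rfl

theorem mem_Up_iff (R : (Matrix ι ι ℝ)ˣ) (d : ι → ℝ) (ν : ℝ) (x : Matrix ι ι ℝ) :
    x ∈ Up R d ν ↔ ∀ μ ≤ ν, lev R d μ x = 0 := by
  simp only [lv_lev_eq_zero]
  constructor
  · intro h μ hμ i j hij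
    exact h i j (hij ▸ hμ)
  · intro h i j hij
    exact h _ hij i j rfl

theorem mem_Upe_iff (R : (Matrix ι ι ℝ)ˣ) (d : ι → ℝ) (ν : ℝ) (x : Matrix ι ι ℝ) :
    x ∈ Upe R d ν ↔ ∀ μ < ν, lev R d μ x = 0 := by
  simp only [lv_lev_eq_zero]
  constructor
  · intro h μ hμ i j hij
    exact h i j (hij ▸ hμ)
  · intro h i j hij
    exact h _ hij i j rfl

end Pool.Agent.W_MP_bb6588_G
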