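import Mathlib
import Pool.Agent.W_MP_bb6588_G.Lev

set_option autoImplicit false

/-!
# Simultaneous diagonalization
-/

namespace Pool.Agent.W_MP_bb6588_G

open Matrix Filter Topology
open Pool.Agent.W_MP_bb6588_an (SLR SLZ nrm Dig step expo dlt val)

variable {ι : Type} [Fintype ι] [DecidableEq ι]

theorem Dg_of_mem {𝔞 : Submodule ℝ (Matrix ι ι ℝ)} (h : SDg 𝔞) {z : Matrix ι ι ℝ} (hz : z ∈ 𝔞) :
    Dg z := by
  obtain ⟨R, hR⟩ := h
  obtain ⟨d, hd⟩ := hR z hz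
  exact ⟨R, d, hd⟩

theorem sd_cj {𝔞 : Submodule ℝ (Matrix ι ι ℝ)} {R : (Matrix ι ι ℝ)ˣ}
    (hR : ∀ z ∈ 𝔞, ∃ d : ι → ℝ,
      z = (R : Matrix ι ι ℝ) * Matrix.diagonal d * ((R⁻¹ : (Matrix ι ι ℝ)ˣ) : Matrix ι ι ℝ))
    {z : Matrix ι ι ℝ} (hz : z ∈ 𝔞) : cj R z = Matrix.diagonal fun i => cj R z i i := by
  obtain ⟨d, hd⟩ := hR z hz
  have h1 : cj R z = Matrix.diagonal d := by
    rw [hd]
    exact lv_cj_conj R _
  rw [h1]
  congr 1
  funext i
  simp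

theorem SDg.commute {𝔞 : Submodule ℝ (Matrix ι ι ℝ)} (h : SDg 𝔞) {z w : Matrix ι ι ℝ}
    (hz : z ∈ 𝔞) (hw : w ∈ 𝔞) : z * w = w * z := by
  obtain ⟨R, hR⟩ := h
  apply cj_inj R
  rw [cj_mul, cj_mul, sd_cj hR hz, sd_cj hR hw, Matrix.diagonal_mul_diagonal,
    Matrix.diagonal_mul_diagonal]
  congr 1
  funext i
  exact mul_comm _ _

theorem SDg.mono {𝔞 𝔟 : Submodule ℝ (Matrix ι ι ℝ)} (h : SDg 𝔟) (hab : 𝔞 ≤ 𝔟) : SDg 𝔞 := by
  obtain ⟨R, hR⟩ := h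
  exact ⟨R, fun z hz => hR z (hab hz)⟩

/-- an element of `SL` as a unit of the matrix ring -/
def sdU (g : SLR ι) : (Matrix ι ι ℝ)ˣ where
  val := (g : Matrix ι ι ℝ)
  inv := ((g⁻¹ : SLR ι) : Matrix ι ι ℝ)
  val_inv := by
    rw [← Matrix.SpecialLinearGroup.coe_mul, mul_inv_cancel, Matrix.SpecialLinearGroup.coe_one]
  inv_val := by
    rw [← Matrix.SpecialLinearGroup.coe_mul, inv_mul_cancel, Matrix.SpecialLinearGroup.coe_one]

theorem sd_conj (g : SLR ι) (R : (Matrix ι ι ℝ)ˣ) (D : Matrix ι ι ℝ) :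
    (g : Matrix ι ι ℝ) * ((R : Matrix ι ι ℝ) * D * ((R⁻¹ : (Matrix ι ι ℝ)ˣ) : Matrix ι ι ℝ))
        * ((g⁻¹ : SLR ι) : Matrix ι ι ℝ)
      = ((sdU g * R : (Matrix ι ι ℝ)ˣ) : Matrix ι ι ℝ) * D
        * (((sdU g * R)⁻¹ : (Matrix ι ι ℝ)ˣ) : Matrix ι ι ℝ) := by
  rw [_root_.mul_inv_rev, Units.val_mul, Units.val_mul]
  have h1 : ((sdU g : (Matrix ι ι ℝ)ˣ) : Matrix ι ι ℝ) = (g : Matrix ι ι ℝ) := rfl
  have h2 : (((sdU g)⁻¹ : (Matrix ι ι ℝ)ˣ) : Matrix ι ι ℝ) = ((g⁻¹ : SLR ι) : Matrix ι ι ℝ) := rfl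
  rw [h1, h2]
  simp only [mul_assoc]

/-- Conjugates of simultaneously diagonalizable spaces. -/
theorem SDg.conj {𝔞 : Submodule ℝ (Matrix ι ι ℝ)} (h : SDg 𝔞) (g : SLR ι)
    (𝔟 : Submodule ℝ (Matrix ι ι ℝ))
    (hb : ∀ w ∈ 𝔟, ∃ z ∈ 𝔞, w = (g : Matrix ι ι ℝ) * z * ((g⁻¹ : SLR ι) : Matrix ι ι ℝ)) :
    SDg 𝔟 := by
  obtain ⟨R, hR⟩ := h
  refine ⟨sdU g * R, fun w hw => ?_⟩
  obtain ⟨z, hz, hwz⟩ := hb w hw
  obtain ⟨d, hd⟩ := hR z hz
  refine ⟨d, ?_⟩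
  rw [hwz, hd]
  exact sd_conj g R _

theorem Dg.conj {a : Matrix ι ι ℝ} (h : Dg a) (g : SLR ι) :
    Dg ((g : Matrix ι ι ℝ) * a * ((g⁻¹ : SLR ι) : Matrix ι ι ℝ)) := by
  obtain ⟨R, d, hd⟩ := h
  refine ⟨sdU g * R, d, ?_⟩
  rw [hd]
  exact sd_conj g R _

/-- the difference of two diagonal entries in the basis `R` as a linear form -/
def sdF (R : (Matrix ι ι ℝ)ˣ) (q : ι × ι) : Module.Dual ℝ (Matrix ι ι ℝ) where
  toFun x := cj R x q.1 q.1 - cj R x q.2 q.2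
  map_add' x y := by
    rw [cj_add, Matrix.add_apply, Matrix.add_apply]
    ring
  map_smul' c x := by
    rw [cj_smul, Matrix.smul_apply, Matrix.smul_apply, smul_eq_mul, smul_eq_mul, RingHom.id_apply,
      smul_eq_mul]
    ring

/-- In a simultaneously diagonalizable space there is a regular element: whatever commutes with it
commutes with the whole space.

Proof. Let `z = R diag(d z) R⁻¹` for `z ∈ 𝔞`; `d z i` is linear in `z ∈ 𝔞`. There is `a ∈ 𝔞` with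
`d a i ≠ d a j` for all `i, j` for which `d z i ≠ d z j` for some `z ∈ 𝔞`
(`Module.Dual.exists_forall_mem_ne_zero_of_forall_exists`). If `x a = a x`, then in the basis `R`,
`x i j ≠ 0` implies `d a i = d a j`, hence `d z i = d z j` for all `z ∈ 𝔞`. -/
theorem exists_regular {𝔞 : Submodule ℝ (Matrix ι ι ℝ)} (h : SDg 𝔞) :
    ∃ a ∈ 𝔞, ∀ x : Matrix ι ι ℝ, x * a = a * x → ∀ z ∈ 𝔞, x * z = z * x := by
  classical
  obtain ⟨R, hR⟩ := h
  obtain ⟨a, ha, hreg⟩ := Module.Dual.exists_forall_mem_ne_zero_of_forall_exists 𝔞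
    (fun q : {q : ι × ι // ∃ x ∈ 𝔞, sdF R q x ≠ 0} => sdF R q.1) (fun q => q.2)
  refine ⟨a, ha, fun x hx z hz => ?_⟩
  apply cj_inj R
  have h1 : cj R x * cj R a = cj R a * cj R x := by rw [← cj_mul, hx, cj_mul]
  rw [cj_mul, cj_mul]
  ext i j
  have h2 := congrFun (congrFun h1 i) j
  rw [sd_cj hR ha, Matrix.mul_diagonal, Matrix.diagonal_mul] at h2
  rw [sd_cj hR hz, Matrix.mul_diagonal, Matrix.diagonal_mul]
  by_cases h0 : cj R x i j = 0
  · rw [h0, mul_zero, zero_mul]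
  have h3 : cj R a i i = cj R a j j := by
    have h4 : (cj R a i i - cj R a j j) * cj R x i j = 0 := by linarith
    rcases mul_eq_zero.1 h4 with h5 | h5
    · linarith
    · exact absurd h5 h0
  have h6 : cj R z i i = cj R z j j := by
    by_contra hne
    have h7 := hreg ⟨(i, j), z, hz, by
      change cj R z i i - cj R z j j ≠ 0
      exact sub_ne_zero.2 hne⟩
    apply h7
    change cj R a i i - cj R a j j = 0
    rw [h3, sub_self]
  rw [h6, mul_comm]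


/-- `tr(z²) > 0` for diagonalizable `z ≠ 0`. -/
theorem trace_sq_pos {z : Matrix ι ι ℝ} (h : Dg z) (hz : z ≠ 0) : 0 < (z * z).trace := by
  obtain ⟨R, d, hd⟩ := h
  have h1 : cj R z = Matrix.diagonal d := by
    rw [hd]
    exact lv_cj_conj R _
  have h2 : (z * z).trace = ∑ i, d i * d i := by
    rw [← trace_cj R, cj_mul, h1, Matrix.diagonal_mul_diagonal, Matrix.trace_diagonal]
  rw [h2]
  have h3 : ∃ i, d i ≠ 0 := by
    by_contra hno
    push Not at hno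
    apply hz
    apply cj_inj R
    rw [h1, funext hno]
    simp [cj]
  obtain ⟨i, hi⟩ := h3
  exact Finset.sum_pos' (fun j _ => mul_self_nonneg _) ⟨i, Finset.mem_univ _, mul_self_pos.2 hi⟩

/-- The trace form is positive definite on a simultaneously diagonalizable space, so linear
functionals are represented by elements. -/
theorem exists_dual {𝔞 : Submodule ℝ (Matrix ι ι ℝ)} (h : SDg 𝔞)
    (β : Matrix ι ι ℝ →ₗ[ℝ] ℝ) : ∃ t ∈ 𝔞, ∀ z ∈ 𝔞, (t * z).trace = β z := by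
  let L : 𝔞 →ₗ[ℝ] Module.Dual ℝ 𝔞 := LinearMap.mk₂ ℝ
    (fun t z : 𝔞 => ((t : Matrix ι ι ℝ) * (z : Matrix ι ι ℝ)).trace)
    (by intro x y z; simp [add_mul])
    (by intro c x z; simp)
    (by intro x y z; simp [mul_add])
    (by intro c x z; simp)
  have hinj : Function.Injective L := by
    rw [injective_iff_map_eq_zero]
    intro t ht
    by_contra hne
    have h1 : 0 < ((t : Matrix ι ι ℝ) * (t : Matrix ι ι ℝ)).trace :=
      trace_sq_pos (Dg_of_mem h t.2) (fun h0 => hne (Subtype.ext h0))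
    have h2 : L t t = 0 := by rw [ht]; rfl
    have h3 : L t t = ((t : Matrix ι ι ℝ) * (t : Matrix ι ι ℝ)).trace := rfl
    linarith
  have hsurj : Function.Surjective L :=
    (LinearMap.injective_iff_surjective_of_finrank_eq_finrank
      (Subspace.dual_finrank_eq (K := ℝ) (V := 𝔞)).symm).1 hinj
  obtain ⟨t, ht⟩ := hsurj (β.comp 𝔞.subtype)
  refine ⟨t, t.2, fun z hz => ?_⟩
  have h4 := LinearMap.congr_fun ht ⟨z, hz⟩
  exact h4


end Pool.Agent.W_MP_bb6588_G
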