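import Mathlib

set_option autoImplicit false

/-!
# Simple Lie algebras of rational matrices
-/

namespace Pool.Agent.W_MP_bb6588_G

open Matrix

variable {ι : Type} [Fintype ι] [DecidableEq ι]

/-- The space `𝔤` of rational matrices is a simple Lie algebra over `ℚ` for the bracket
`[x, y] = x y - y x`: it is closed under the bracket, not abelian, and its only ideals are `0` and
`𝔤`. -/
structure IsSimpleLie (𝔤 : Submodule ℚ (Matrix ι ι ℚ)) : Prop where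
  lie : ∀ x ∈ 𝔤, ∀ y ∈ 𝔤, x * y - y * x ∈ 𝔤
  nonabelian : ∃ x ∈ 𝔤, ∃ y ∈ 𝔤, x * y ≠ y * x
  ideal : ∀ I : Submodule ℚ (Matrix ι ι ℚ), I ≤ 𝔤 →
    (∀ x ∈ 𝔤, ∀ y ∈ I, x * y - y * x ∈ I) → I = ⊥ ∨ I = 𝔤

end Pool.Agent.W_MP_bb6588_G
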