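import Mathlib
import Pool.Agent.W_MP_bb6588_G.SimD
import Pool.Agent.W_MP_bb6588_G.RealA
import Pool.Agent.W_MP_bb6588_G.Simple

set_option autoImplicit false

/-!
# The real span of a simple Lie algebra of rational matrices
-/

namespace Pool.Agent.W_MP_bb6588_G

open Matrix Filter Topology
open Pool.Agent.W_MP_bb6588_an (SLR SLZ nrm Dig step expo dlt val)

variable {ι : Type} [Fintype ι] [DecidableEq ι]


theorem toR_zero : toR (0 : Matrix ι ι ℚ) = 0 := by
  have h := toR_sub (0 : Matrix ι ι ℚ) 0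
  rw [sub_zero, sub_self] at h
  exact h

/-- `toR` as an additive map -/
noncomputable def toRA : Matrix ι ι ℚ →+ Matrix ι ι ℝ where
  toFun := toR
  map_zero' := toR_zero
  map_add' := toR_add

theorem toR_sum {n : ℕ} (f : Fin n → Matrix ι ι ℚ) : toR (∑ i, f i) = ∑ i, toR (f i) :=
  map_sum toRA f Finset.univ

theorem trace_toR (X : Matrix ι ι ℚ) : (toR X).trace = ((X.trace : ℚ) : ℝ) := by
  simp [toR, Matrix.trace]

theorem toR_mem_realSpan {W : Submodule ℚ (Matrix ι ι ℚ)} {X : Matrix ι ι ℚ} (hX : X ∈ W) :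
    toR X ∈ realSpan W := Submodule.subset_span ⟨X, hX, rfl⟩

theorem isLie_realSpan {𝔤 : Submodule ℚ (Matrix ι ι ℚ)} (h𝔤 : IsSimpleLie 𝔤) :
    IsLie (realSpan 𝔤) := by
  have h1 : ∀ X ∈ 𝔤, ∀ y ∈ realSpan 𝔤, toR X * y - y * toR X ∈ realSpan 𝔤 := by
    intro X hX y hy
    refine Submodule.span_induction (p := fun y _ => toR X * y - y * toR X ∈ realSpan 𝔤)
      ?_ ?_ ?_ ?_ hy
    · rintro _ ⟨Y, hY, rfl⟩
      rw [← toR_mul, ← toR_mul, ← toR_sub]
      exact toR_mem_realSpan (h𝔤.lie X hX Y hY)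
    · rw [mul_zero, zero_mul, sub_zero]
      exact Submodule.zero_mem _
    · intro a b _ _ ha hb
      have h : toR X * (a + b) - (a + b) * toR X =
          (toR X * a - a * toR X) + (toR X * b - b * toR X) := by
        rw [mul_add, add_mul]
        abel
      rw [h]
      exact Submodule.add_mem _ ha hb
    · intro c a _ ha
      rw [mul_smul_comm, smul_mul_assoc, ← smul_sub]
      exact Submodule.smul_mem _ _ ha
  intro x hx y hy
  refine Submodule.span_induction (p := fun x _ => x * y - y * x ∈ realSpan 𝔤)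
    ?_ ?_ ?_ ?_ hx
  · rintro _ ⟨X, hX, rfl⟩
    exact h1 X hX y hy
  · rw [mul_zero, zero_mul, sub_zero]
    exact Submodule.zero_mem _
  · intro a b _ _ ha hb
    have h : (a + b) * y - y * (a + b) = (a * y - y * a) + (b * y - y * b) := by
      rw [mul_add, add_mul]
      abel
    rw [h]
    exact Submodule.add_mem _ ha hb
  · intro c a _ ha
    rw [mul_smul_comm, smul_mul_assoc, ← smul_sub]
    exact Submodule.smul_mem _ _ ha

/-- A simple Lie algebra is spanned by its brackets. -/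
theorem mem_span_bracket {𝔤 : Submodule ℚ (Matrix ι ι ℚ)} (h𝔤 : IsSimpleLie 𝔤)
    {X : Matrix ι ι ℚ} (hX : X ∈ 𝔤) :
    X ∈ Submodule.span ℚ {z | ∃ x ∈ 𝔤, ∃ y ∈ 𝔤, z = x * y - y * x} := by
  set D : Submodule ℚ (Matrix ι ι ℚ) :=
    Submodule.span ℚ {z | ∃ x ∈ 𝔤, ∃ y ∈ 𝔤, z = x * y - y * x} with hD
  have hle : D ≤ 𝔤 := by
    refine Submodule.span_le.2 ?_
    rintro _ ⟨x, hx, y, hy, rfl⟩
    exact h𝔤.lie x hx y hy
  rcases h𝔤.ideal D hle (fun x hx y hy => Submodule.subset_span ⟨x, hx, y, hle hy, rfl⟩) with h | h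
  · exfalso
    obtain ⟨x, hx, y, hy, hxy⟩ := h𝔤.nonabelian
    have h1 : x * y - y * x ∈ D := Submodule.subset_span ⟨x, hx, y, hy, rfl⟩
    rw [h, Submodule.mem_bot] at h1
    exact hxy (sub_eq_zero.1 h1)
  · rw [h]
    exact hX

theorem realSpan_le_span_bracket {𝔤 : Submodule ℚ (Matrix ι ι ℚ)}
    (h𝔤 : IsSimpleLie 𝔤) :
    realSpan 𝔤 ≤ Submodule.span ℝ {z | ∃ x ∈ realSpan 𝔤,
      ∃ y ∈ realSpan 𝔤, z = x * y - y * x} := by
  refine Submodule.span_le.2 ?_
  rintro _ ⟨X, hX, rfl⟩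
  refine Submodule.span_induction (p := fun X _ => toR X ∈ Submodule.span ℝ
    {z | ∃ x ∈ realSpan 𝔤, ∃ y ∈ realSpan 𝔤, z = x * y - y * x}) ?_ ?_ ?_ ?_
    (mem_span_bracket h𝔤 hX)
  · rintro _ ⟨x, hx, y, hy, rfl⟩
    exact Submodule.subset_span ⟨toR x, toR_mem_realSpan hx, toR y, toR_mem_realSpan hy, by
      rw [toR_sub, toR_mul, toR_mul]⟩
  · rw [toR_zero]
    exact Submodule.zero_mem _
  · intro a b _ _ ha hb
    rw [toR_add]
    exact Submodule.add_mem _ ha hb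
  · intro c a _ ha
    rw [toR_smul]
    exact Submodule.smul_mem _ _ ha

theorem trZ_realSpan {𝔤 : Submodule ℚ (Matrix ι ι ℚ)} (h𝔤 : IsSimpleLie 𝔤) :
    TrZ (realSpan 𝔤) := by
  intro x hx
  refine Submodule.span_induction (p := fun x _ => x.trace = 0) ?_ ?_ ?_ ?_
    (realSpan_le_span_bracket h𝔤 hx)
  · rintro _ ⟨x, _, y, _, rfl⟩
    rw [Matrix.trace_sub, Matrix.trace_mul_comm, sub_self]
  · exact Matrix.trace_zero _ _
  · intro a b _ _ ha hb
    rw [Matrix.trace_add, ha, hb, add_zero]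
  · intro c a _ ha
    rw [Matrix.trace_smul, ha, smul_zero]

/-- The trace form is nondegenerate over `ℚ`. -/
theorem nondegQ {𝔤 : Submodule ℚ (Matrix ι ι ℚ)} (h𝔤 : IsSimpleLie 𝔤)
    (s : Matrix ι ι ℚ) (hs : s ∈ 𝔤) (hs0 : s ≠ 0) (hsD : Dg (toR s))
    (x : Matrix ι ι ℚ) (hx : x ∈ 𝔤) (h : ∀ y ∈ 𝔤, (x * y).trace = 0) : x = 0 := by
  let I : Submodule ℚ (Matrix ι ι ℚ) :=
    { carrier := {x | x ∈ 𝔤 ∧ ∀ y ∈ 𝔤, (x * y).trace = 0}
      add_mem' := by
        rintro a b ⟨ha, ha'⟩ ⟨hb, hb'⟩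
        refine ⟨Submodule.add_mem _ ha hb, fun y hy => ?_⟩
        rw [add_mul, Matrix.trace_add, ha' y hy, hb' y hy, add_zero]
      zero_mem' := by
        refine ⟨Submodule.zero_mem _, fun y _ => ?_⟩
        rw [zero_mul, Matrix.trace_zero]
      smul_mem' := by
        rintro c a ⟨ha, ha'⟩
        refine ⟨Submodule.smul_mem _ _ ha, fun y hy => ?_⟩
        rw [smul_mul_assoc, Matrix.trace_smul, ha' y hy, smul_zero] }
  have hI : ∀ x ∈ 𝔤, ∀ y ∈ I, x * y - y * x ∈ I := by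
    rintro w hw x ⟨hx, hx'⟩
    refine ⟨h𝔤.lie w hw x hx, fun y hy => ?_⟩
    have h1 := hx' (y * w - w * y) (h𝔤.lie y hy w hw)
    have h2 : ((w * x - x * w) * y).trace = (x * (y * w - w * y)).trace := by
      rw [sub_mul, mul_sub, Matrix.trace_sub, Matrix.trace_sub, mul_assoc w x y,
        Matrix.trace_mul_comm w (x * y), mul_assoc x y w, mul_assoc x w y]
    rw [h2]
    exact h1
  rcases h𝔤.ideal I (fun x hx => hx.1) hI with h1 | h1
  · have h2 : x ∈ I := ⟨hx, h⟩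
    rw [h1, Submodule.mem_bot] at h2
    exact h2
  · exfalso
    have h2 : s ∈ I := by
      rw [h1]
      exact hs
    have h3 := h2.2 s hs
    have h4 : toR s ≠ 0 := by
      intro h5
      exact hs0 (toR_inj (h5.trans toR_zero.symm))
    have h5 := trace_sq_pos hsD h4
    rw [← toR_mul, trace_toR, h3, Rat.cast_zero] at h5
    exact lt_irrefl _ h5

/-- The trace form of a simple Lie algebra `𝔤` containing a nonzero matrix diagonalizable over `ℚ`
is nondegenerate, also over `ℝ`.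

Proof. The radical `{x ∈ 𝔤 | ∀ y ∈ 𝔤, tr(x y) = 0}` is an ideal, so `0` or `𝔤`; it does not contain
the diagonalizable `s ≠ 0`, as `tr(s²) > 0`. So the Gram matrix of a `ℚ`-basis of `𝔤` is invertible;
this basis spans `realSpan 𝔤` over `ℝ`. -/
theorem nondeg_realSpan {𝔤 : Submodule ℚ (Matrix ι ι ℚ)} (h𝔤 : IsSimpleLie 𝔤)
    (s : Matrix ι ι ℚ) (hs : s ∈ 𝔤) (hs0 : s ≠ 0) (hsD : Dg (toR s)) :
    Nondeg (realSpan 𝔤) := by
  intro x hx hxy
  let b := Module.finBasis ℚ 𝔤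
  have hrep : ∀ X ∈ 𝔤, ∃ c : Fin (Module.finrank ℚ 𝔤) → ℚ, X = ∑ i, c i • (b i : Matrix ι ι ℚ) := by
    intro X hX
    refine ⟨fun i => b.repr ⟨X, hX⟩ i, ?_⟩
    have h := congrArg (Subtype.val) (b.sum_repr ⟨X, hX⟩)
    rw [Submodule.coe_sum] at h
    exact h.symm
  have hspan : x ∈ Submodule.span ℝ (Set.range fun i => toR (b i : Matrix ι ι ℚ)) := by
    refine Submodule.span_le.2 ?_ hx
    rintro _ ⟨X, hX, rfl⟩
    obtain ⟨c, hc⟩ := hrep X hX
    rw [hc, toR_sum]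
    refine Submodule.sum_mem _ fun i _ => ?_
    rw [toR_smul]
    exact Submodule.smul_mem _ _ (Submodule.subset_span ⟨i, rfl⟩)
  obtain ⟨c, hc⟩ := (Submodule.mem_span_range_iff_exists_fun ℝ).1 hspan
  let G : Matrix (Fin (Module.finrank ℚ 𝔤)) (Fin (Module.finrank ℚ 𝔤)) ℚ :=
    Matrix.of fun i j => ((b j : Matrix ι ι ℚ) * (b i : Matrix ι ι ℚ)).trace
  have hdet : G.det ≠ 0 := by
    intro h0
    obtain ⟨v, hv, hGv⟩ := Matrix.exists_mulVec_eq_zero_iff.2 h0
    have h1 : (∑ j, v j • (b j : Matrix ι ι ℚ)) = 0 := by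
      refine nondegQ h𝔤 s hs hs0 hsD _ (Submodule.sum_mem _ fun j _ =>
        Submodule.smul_mem _ _ (b j).2) fun y hy => ?_
      obtain ⟨d, hd⟩ := hrep y hy
      rw [hd, Finset.mul_sum, Matrix.trace_sum]
      refine Finset.sum_eq_zero fun i _ => ?_
      rw [mul_smul_comm, Matrix.trace_smul, Finset.sum_mul, Matrix.trace_sum]
      have h2 : (G *ᵥ v) i = 0 := congrFun hGv i
      have h3 : ∑ j, ((v j • (b j : Matrix ι ι ℚ)) * (b i : Matrix ι ι ℚ)).trace = 0 := by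
        rw [← h2]
        simp only [Matrix.mulVec, dotProduct, G, Matrix.of_apply, smul_mul_assoc,
          Matrix.trace_smul, smul_eq_mul]
        exact Finset.sum_congr rfl fun j _ => mul_comm _ _
      rw [h3, smul_zero]
    have h2 : ∑ j, v j • b j = 0 := by
      apply Subtype.ext
      rw [Submodule.coe_sum]
      exact h1
    have h3 := Fintype.linearIndependent_iff.1 b.linearIndependent v h2
    exact hv (funext h3)
  have hdetR : (G.map fun q : ℚ => (q : ℝ)).det ≠ 0 := by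
    have h1 : (G.map fun q : ℚ => (q : ℝ)).det = ((G.det : ℚ) : ℝ) := by
      have h2 := RingHom.map_det (Rat.castHom ℝ) G
      exact h2.symm
    rw [h1]
    exact_mod_cast hdet
  have hc0 : c = 0 := by
    refine Matrix.eq_zero_of_mulVec_eq_zero hdetR ?_
    funext i
    have h1 := hxy (toR (b i : Matrix ι ι ℚ)) (toR_mem_realSpan (b i).2)
    rw [← hc, Finset.sum_mul, Matrix.trace_sum] at h1
    show ∑ j, (((b j : Matrix ι ι ℚ) * (b i : Matrix ι ι ℚ)).trace : ℝ) * c j = 0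
    rw [← h1]
    refine Finset.sum_congr rfl fun j _ => ?_
    rw [smul_mul_assoc, Matrix.trace_smul, ← toR_mul, trace_toR, smul_eq_mul, mul_comm]
  rw [← hc, hc0]
  simp

/-- The center vanishes. Proof. If `x` is central, `tr(x [y, z]) = tr([x, y] z) = 0`, and the
brackets span; so `x = 0` by nondegeneracy. -/
theorem center_eq_zero {V : Submodule ℝ (Matrix ι ι ℝ)} (hN : Nondeg V)
    (hperf : V ≤ Submodule.span ℝ {z | ∃ x ∈ V, ∃ y ∈ V, z = x * y - y * x})
    {x : Matrix ι ι ℝ} (hx : x ∈ V) (hc : ∀ y ∈ V, x * y = y * x) : x = 0 := by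
  refine hN x hx fun y hy => ?_
  refine Submodule.span_induction (p := fun y _ => (x * y).trace = 0) ?_ ?_ ?_ ?_ (hperf hy)
  · rintro _ ⟨u, hu, w, _, rfl⟩
    rw [mul_sub, Matrix.trace_sub, ← mul_assoc, hc u hu, mul_assoc u x w,
      Matrix.trace_mul_comm u (x * w), mul_assoc x w u, sub_self]
  · rw [mul_zero, Matrix.trace_zero]
  · intro a b _ _ ha hb
    rw [mul_add, Matrix.trace_add, ha, hb, add_zero]
  · intro c a _ ha
    rw [mul_smul_comm, Matrix.trace_smul, ha, smul_zero]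

/-- A real ideal of `realSpan 𝔤` containing a nonzero rational element is everything.

Proof. `{X ∈ 𝔤 | toR X ∈ Z}` is a nonzero ideal of `𝔤`. -/
theorem le_of_ideal {𝔤 : Submodule ℚ (Matrix ι ι ℚ)} (h𝔤 : IsSimpleLie 𝔤)
    (Z : Submodule ℝ (Matrix ι ι ℝ))
    (hZ : ∀ w ∈ realSpan 𝔤, ∀ x ∈ Z, w * x - x * w ∈ Z)
    {X : Matrix ι ι ℚ} (hX : X ∈ 𝔤) (hX0 : X ≠ 0) (hXZ : toR X ∈ Z) :
    realSpan 𝔤 ≤ Z := by
  let I : Submodule ℚ (Matrix ι ι ℚ) :=
    { carrier := {x | x ∈ 𝔤 ∧ toR x ∈ Z}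
      add_mem' := by
        rintro a b ⟨ha, ha'⟩ ⟨hb, hb'⟩
        refine ⟨Submodule.add_mem _ ha hb, ?_⟩
        rw [toR_add]
        exact Submodule.add_mem _ ha' hb'
      zero_mem' := by
        refine ⟨Submodule.zero_mem _, ?_⟩
        rw [toR_zero]
        exact Submodule.zero_mem _
      smul_mem' := by
        rintro c a ⟨ha, ha'⟩
        refine ⟨Submodule.smul_mem _ _ ha, ?_⟩
        rw [toR_smul]
        exact Submodule.smul_mem _ _ ha' }
  have hI : ∀ x ∈ 𝔤, ∀ y ∈ I, x * y - y * x ∈ I := by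
    rintro w hw x ⟨hx, hx'⟩
    refine ⟨h𝔤.lie w hw x hx, ?_⟩
    rw [toR_sub, toR_mul, toR_mul]
    exact hZ _ (toR_mem_realSpan hw) _ hx'
  rcases h𝔤.ideal I (fun x hx => hx.1) hI with h1 | h1
  · exfalso
    have h2 : X ∈ I := ⟨hX, hXZ⟩
    rw [h1, Submodule.mem_bot] at h2
    exact hX0 h2
  · refine Submodule.span_le.2 ?_
    rintro _ ⟨Y, hY, rfl⟩
    have h2 : Y ∈ I := by
      rw [h1]
      exact hY
    exact h2.2

end Pool.Agent.W_MP_bb6588_G
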