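import Mathlib
import Pool.Agent.W_MP_bb6588_G.RealF

set_option autoImplicit false

/-!
# Rational weight vectors
-/

namespace Pool.Agent.W_MP_bb6588_G

open Matrix Filter Topology
open Pool.Agent.W_MP_bb6588_an (SLR SLZ nrm Dig step expo dlt val)

variable {ι : Type} [Fintype ι] [DecidableEq ι]

/-- conjugation by `P`, as a linear map -/
noncomputable def wtC (P : (Matrix ι ι ℚ)ˣ) : Matrix ι ι ℚ →ₗ[ℚ] Matrix ι ι ℚ where
  toFun X := ((P⁻¹ : (Matrix ι ι ℚ)ˣ) : Matrix ι ι ℚ) * X * (P : Matrix ι ι ℚ)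
  map_add' X Y := by rw [mul_add, add_mul]
  map_smul' c X := by rw [Algebra.mul_smul_comm, Algebra.smul_mul_assoc]; rfl

/-- the diagonal entries in the basis `P` -/
noncomputable def wtD (P : (Matrix ι ι ℚ)ˣ) (i : ι) : Matrix ι ι ℚ →ₗ[ℚ] ℚ where
  toFun X := wtC P X i i
  map_add' X Y := by rw [map_add]; rfl
  map_smul' c X := by rw [map_smul]; rfl

theorem wtC_mul (P : (Matrix ι ι ℚ)ˣ) (X Y : Matrix ι ι ℚ) :
    wtC P (X * Y) = wtC P X * wtC P Y := by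
  show ((P⁻¹ : (Matrix ι ι ℚ)ˣ) : Matrix ι ι ℚ) * (X * Y) * (P : Matrix ι ι ℚ)
    = (((P⁻¹ : (Matrix ι ι ℚ)ˣ) : Matrix ι ι ℚ) * X * (P : Matrix ι ι ℚ))
      * (((P⁻¹ : (Matrix ι ι ℚ)ˣ) : Matrix ι ι ℚ) * Y * (P : Matrix ι ι ℚ))
  simp only [mul_assoc, Units.mul_inv_cancel_left]

theorem wtC_inj (P : (Matrix ι ι ℚ)ˣ) {X Y : Matrix ι ι ℚ} (h : wtC P X = wtC P Y) : X = Y := by
  have h1 : ((P⁻¹ : (Matrix ι ι ℚ)ˣ) : Matrix ι ι ℚ) * X * (P : Matrix ι ι ℚ)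
    = ((P⁻¹ : (Matrix ι ι ℚ)ˣ) : Matrix ι ι ℚ) * Y * (P : Matrix ι ι ℚ) := h
  exact (Units.isUnit P⁻¹).mul_left_cancel ((Units.isUnit P).mul_right_cancel h1)

theorem wtC_conj (P : (Matrix ι ι ℚ)ˣ) (X : Matrix ι ι ℚ) :
    wtC P ((P : Matrix ι ι ℚ) * X * ((P⁻¹ : (Matrix ι ι ℚ)ˣ) : Matrix ι ι ℚ)) = X := by
  show ((P⁻¹ : (Matrix ι ι ℚ)ˣ) : Matrix ι ι ℚ) * ((P : Matrix ι ι ℚ) * X
    * ((P⁻¹ : (Matrix ι ι ℚ)ˣ) : Matrix ι ι ℚ)) * (P : Matrix ι ι ℚ) = X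
  simp [mul_assoc]

theorem wtC_split {P : (Matrix ι ι ℚ)ˣ} {s : Matrix ι ι ℚ} (h : ∃ d : ι → ℚ,
    s = (P : Matrix ι ι ℚ) * Matrix.diagonal d * ((P⁻¹ : (Matrix ι ι ℚ)ˣ) : Matrix ι ι ℚ)) :
    wtC P s = Matrix.diagonal fun i => wtD P i s := by
  obtain ⟨d, hd⟩ := h
  have h1 : wtC P s = Matrix.diagonal d := by rw [hd, wtC_conj]
  have h2 : (fun i => wtD P i s) = d := by
    funext i
    show wtC P s i i = d i
    rw [h1, Matrix.diagonal_apply_eq]
  rw [h1, h2]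

theorem wt_bracket_apply {P : (Matrix ι ι ℚ)ˣ} {s : Matrix ι ι ℚ}
    (h : wtC P s = Matrix.diagonal fun i => wtD P i s) (Y : Matrix ι ι ℚ) (k l : ι) :
    wtC P (s * Y - Y * s) k l = (wtD P k s - wtD P l s) * wtC P Y k l := by
  rw [map_sub, wtC_mul, wtC_mul, h, Matrix.sub_apply, Matrix.diagonal_mul,
    Matrix.mul_diagonal]
  ring

/-- `ad s` as an endomorphism -/
noncomputable def wtAd (s : Matrix ι ι ℚ) : Module.End ℚ (Matrix ι ι ℚ) where
  toFun Y := s * Y - Y * s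
  map_add' X Y := by rw [mul_add, add_mul]; abel
  map_smul' c X := by
    rw [Algebra.mul_smul_comm, Algebra.smul_mul_assoc, ← smul_sub]; rfl

theorem wtAd_apply (s Y : Matrix ι ι ℚ) : wtAd s Y = s * Y - Y * s := rfl

theorem wtAd_iSup {P : (Matrix ι ι ℚ)ˣ} {s : Matrix ι ι ℚ}
    (h : wtC P s = Matrix.diagonal fun i => wtD P i s) :
    ⨆ μ, (wtAd s).genEigenspace μ 1 = ⊤ := by
  rw [eq_top_iff]
  rintro X -
  have h1 : X = ∑ i, ∑ j, (wtC P X i j) • ((P : Matrix ι ι ℚ) * Matrix.single i j 1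
      * ((P⁻¹ : (Matrix ι ι ℚ)ˣ) : Matrix ι ι ℚ)) := by
    apply wtC_inj P
    simp only [map_sum, map_smul, wtC_conj]
    conv_lhs => rw [Matrix.matrix_eq_sum_single (wtC P X)]
    refine Finset.sum_congr rfl fun i _ => Finset.sum_congr rfl fun j _ => ?_
    rw [Matrix.smul_single, smul_eq_mul, mul_one]
  rw [h1]
  refine Submodule.sum_mem _ fun i _ => Submodule.sum_mem _ fun j _ => Submodule.smul_mem _ _ ?_
  refine Submodule.mem_iSup_of_mem (wtD P i s - wtD P j s) ?_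
  rw [Module.End.mem_genEigenspace_one, wtAd_apply]
  apply wtC_inj P
  ext k l
  rw [wt_bracket_apply h, map_smul, wtC_conj, Matrix.smul_apply, smul_eq_mul]
  by_cases hk : i = k ∧ j = l
  · obtain ⟨rfl, rfl⟩ := hk
    rfl
  · rw [Matrix.single_apply_of_ne _ _ _ _ _ hk, mul_zero, mul_zero]

/-- A simple Lie algebra is spanned by the weight vectors for a split subspace `S ≤ 𝔤`.

Proof. Let `S ∋ s = P diag(d s) P⁻¹`. The component of `x` of weight `α` has, in the basis `P`, the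
entries of `x` at the places `(i, j)` with `d s i - d s j = α s` for all `s ∈ S`. There is
`s₀ ∈ S` such that `d s₀ i - d s₀ j = d s₀ k - d s₀ l` only if `d s i - d s j = d s k - d s l` for
all `s ∈ S` (`Module.Dual.exists_forall_mem_ne_zero_of_forall_exists`). The component is
obtained from `x` by applying a polynomial in `ad s₀` (Lagrange interpolation), so it lies
in `𝔤`. (Only `[s₀, 𝔤] ⊆ 𝔤` is used.) -/
theorem mem_span_wt {𝔤 S : Submodule ℚ (Matrix ι ι ℚ)} (h𝔤 : IsSimpleLie 𝔤) (hS : S ≤ 𝔤)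
    (hSD : SDgQ S) {X : Matrix ι ι ℚ} (hX : X ∈ 𝔤) :
    X ∈ Submodule.span ℚ {Y | Y ∈ 𝔤 ∧ ∃ α : Matrix ι ι ℚ →ₗ[ℚ] ℚ, IsWt S α Y} := by
  obtain ⟨P, hP⟩ := hSD
  have hsp : ∀ s ∈ S, wtC P s = Matrix.diagonal fun i => wtD P i s := fun s hs =>
    wtC_split (hP s hs)
  -- the regular element
  obtain ⟨s₀, hs₀, hreg⟩ : ∃ s₀ ∈ S, ∀ i j k l : ι,
      wtD P i s₀ - wtD P j s₀ = wtD P k s₀ - wtD P l s₀ →
      ∀ s ∈ S, wtD P i s - wtD P j s = wtD P k s - wtD P l s := by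
    let T := {q : ι × ι × ι × ι // ∃ s ∈ S,
      (wtD P q.1 - wtD P q.2.1 - (wtD P q.2.2.1 - wtD P q.2.2.2)) s ≠ 0}
    obtain ⟨s₀, hs₀, h1⟩ := Module.Dual.exists_forall_mem_ne_zero_of_forall_exists (ι := T) S
      (fun q => wtD P q.1.1 - wtD P q.1.2.1 - (wtD P q.1.2.2.1 - wtD P q.1.2.2.2))
      (fun q => q.2)
    refine ⟨s₀, hs₀, fun i j k l h2 s hs => ?_⟩
    by_contra h3
    have h4 := h1 ⟨(i, j, k, l), s, hs, by
      simp only [LinearMap.sub_apply]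
      exact sub_ne_zero.2 h3⟩
    apply h4
    simp only [LinearMap.sub_apply]
    exact sub_eq_zero.2 h2
  have h5 := Submodule.eq_iSup_inf_genEigenspace (p := 𝔤) (f := wtAd s₀) 1
    (fun x hx => h𝔤.lie s₀ (hS hs₀) x hx) (wtAd_iSup (hsp s₀ hs₀))
  have h6 : (⨆ μ, 𝔤 ⊓ (wtAd s₀).genEigenspace μ 1) ≤
      Submodule.span ℚ {Y | Y ∈ 𝔤 ∧ ∃ α : Matrix ι ι ℚ →ₗ[ℚ] ℚ, IsWt S α Y} := by
    refine iSup_le fun μ => ?_
    rintro Y ⟨hY1, hY2⟩
    refine Submodule.subset_span ⟨hY1, ?_⟩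
    have hY3 : s₀ * Y - Y * s₀ = μ • Y := by
      have := (Module.End.mem_genEigenspace_one).1 hY2
      rwa [wtAd_apply] at this
    by_cases hY0 : ∃ i j, wtC P Y i j ≠ 0
    · obtain ⟨i, j, hij⟩ := hY0
      have hμ : ∀ k l, wtC P Y k l ≠ 0 → wtD P k s₀ - wtD P l s₀ = μ := by
        intro k l hkl
        have h7 := wt_bracket_apply (hsp s₀ hs₀) Y k l
        rw [hY3, map_smul, Matrix.smul_apply, smul_eq_mul] at h7
        exact (mul_right_cancel₀ hkl h7).symm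
      refine ⟨wtD P i - wtD P j, fun s hs => ?_⟩
      apply wtC_inj P
      ext k l
      rw [wt_bracket_apply (hsp s hs), map_smul, Matrix.smul_apply, smul_eq_mul]
      by_cases hkl : wtC P Y k l = 0
      · rw [hkl, mul_zero, mul_zero]
      · rw [LinearMap.sub_apply,
          hreg k l i j ((hμ k l hkl).trans (hμ i j hij).symm) s hs]
    · push Not at hY0
      have hY : Y = 0 := by
        apply wtC_inj P
        ext i j
        rw [hY0 i j, map_zero]; rfl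
      refine ⟨0, fun s _ => ?_⟩
      rw [hY]; simp
  exact h6 (h5 ▸ hX)

/-- A weight vector for `S` is an eigenvector of `ad e` for `e` in the real span of `S`. Moreover the
eigenvalue only depends on the weight and is additive in it: there is an additive function `w`
of the weight. -/
theorem exists_wt_real {S : Submodule ℚ (Matrix ι ι ℚ)} {e : Matrix ι ι ℝ}
    (he : e ∈ realSpan S) :
    ∃ w : (Matrix ι ι ℚ →ₗ[ℚ] ℚ) → ℝ,
      (∀ α β, w (α + β) = w α + w β) ∧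
      ∀ (α : Matrix ι ι ℚ →ₗ[ℚ] ℚ) (Y : Matrix ι ι ℚ), IsWt S α Y →
        e * toR Y - toR Y * e = w α • toR Y := by
  refine Submodule.span_induction (p := fun e _ => ∃ w : (Matrix ι ι ℚ →ₗ[ℚ] ℚ) → ℝ,
      (∀ α β, w (α + β) = w α + w β) ∧
      ∀ (α : Matrix ι ι ℚ →ₗ[ℚ] ℚ) (Y : Matrix ι ι ℚ), IsWt S α Y →
        e * toR Y - toR Y * e = w α • toR Y) ?_ ?_ ?_ ?_ he
  · rintro _ ⟨s, hs, rfl⟩
    refine ⟨fun α => ((α s : ℚ) : ℝ), fun α β => ?_, fun α Y hY => ?_⟩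
    · simp only [LinearMap.add_apply]; push_cast; rfl
    · rw [← toR_mul, ← toR_mul, ← toR_sub, hY s hs, toR_smul]
  · exact ⟨fun _ => 0, fun _ _ => by simp, fun α Y _ => by simp⟩
  · rintro x y _ _ ⟨w1, h1, h2⟩ ⟨w2, h3, h4⟩
    refine ⟨fun α => w1 α + w2 α, fun α β => ?_, fun α Y hY => ?_⟩
    · simp only [h1, h3]; ring
    · rw [add_mul, mul_add, add_smul, ← h2 α Y hY, ← h4 α Y hY]; abel
  · rintro c x _ ⟨w1, h1, h2⟩
    refine ⟨fun α => c * w1 α, fun α β => ?_, fun α Y hY => ?_⟩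
    · simp only [h1]; ring
    · rw [Algebra.smul_mul_assoc, Algebra.mul_smul_comm, ← smul_sub, h2 α Y hY, smul_smul]

/-- Brackets of weight vectors are weight vectors. -/
theorem IsWt.bracket {S : Submodule ℚ (Matrix ι ι ℚ)} {α β : Matrix ι ι ℚ →ₗ[ℚ] ℚ}
    {X Y : Matrix ι ι ℚ} (hX : IsWt S α X) (hY : IsWt S β Y) :
    IsWt S (α + β) (X * Y - Y * X) := by
  intro s hs
  have h1 := hX s hs
  have h2 := hY s hs
  have h3 : s * (X * Y - Y * X) - (X * Y - Y * X) * s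
      = (s * X - X * s) * Y + X * (s * Y - Y * s) - (s * Y - Y * s) * X
        - Y * (s * X - X * s) := by
    noncomm_ring
  rw [h3, h1, h2, LinearMap.add_apply, Algebra.smul_mul_assoc, Algebra.mul_smul_comm,
    Algebra.smul_mul_assoc, Algebra.mul_smul_comm, add_smul, smul_sub, smul_sub]
  abel

/-- If `dim E < dim S` there is `e ≠ 0` in the real span of `S` orthogonal to `E`. -/
theorem exists_e (S : Submodule ℚ (Matrix ι ι ℚ)) (E : Submodule ℝ (Matrix ι ι ℝ))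
    (h : Module.finrank ℝ E < Module.finrank ℚ S) :
    ∃ e ∈ realSpan S, e ≠ 0 ∧ ∀ z ∈ E, (e * z).trace = 0 := by
  let F : realSpan S →ₗ[ℝ] (E →ₗ[ℝ] ℝ) := LinearMap.mk₂ ℝ
    (fun (e : realSpan S) (z : E) => ((e : Matrix ι ι ℝ) * (z : Matrix ι ι ℝ)).trace)
    (fun a b z => by
      simp only [Submodule.coe_add, add_mul, Matrix.trace_add])
    (fun c a z => by
      simp only [Submodule.coe_smul, Algebra.smul_mul_assoc, Matrix.trace_smul])
    (fun a z w => by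
      simp only [Submodule.coe_add, mul_add, Matrix.trace_add])
    (fun c a z => by
      simp only [Submodule.coe_smul, Algebra.mul_smul_comm, Matrix.trace_smul])
  have h1 : Module.finrank ℝ (E →ₗ[ℝ] ℝ) < Module.finrank ℝ (realSpan S) := by
    rw [finrank_realSpan]
    have h2 : Module.finrank ℝ (E →ₗ[ℝ] ℝ) = Module.finrank ℝ E := Subspace.dual_finrank_eq
    rw [h2]; exact h
  have h3 : LinearMap.ker F ≠ ⊥ := LinearMap.ker_ne_bot_of_finrank_lt h1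
  obtain ⟨e, he, he0⟩ := Submodule.exists_mem_ne_zero_of_ne_bot h3
  refine ⟨(e : Matrix ι ι ℝ), e.2, fun h4 => he0 (Subtype.ext h4), fun z hz => ?_⟩
  exact LinearMap.congr_fun (LinearMap.mem_ker.1 he) ⟨z, hz⟩

end Pool.Agent.W_MP_bb6588_G
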