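import Mathlib
import Pool.Agent.W_MP_bb6588_G.Wt

set_option autoImplicit false

/-!
# The weight vectors not commuting with `e` generate
-/

namespace Pool.Agent.W_MP_bb6588_G

open Matrix Filter Topology
open Pool.Agent.W_MP_bb6588_an (SLR SLZ nrm Dig step expo dlt val)

variable {ι : Type} [Fintype ι] [DecidableEq ι]

/-- The weight vectors of `𝔤` for `S` which do not commute with `e`. -/
def Al (𝔤 S : Submodule ℚ (Matrix ι ι ℚ)) (e : Matrix ι ι ℝ) : Set (Matrix ι ι ℚ) :=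
  {X | X ∈ 𝔤 ∧ (∃ α : Matrix ι ι ℚ →ₗ[ℚ] ℚ, IsWt S α X) ∧
    ∃ c : ℝ, c ≠ 0 ∧ e * toR X - toR X * e = c • toR X}

theorem allow_toR_zero : toR (0 : Matrix ι ι ℚ) = 0 := by
  ext i j
  simp [toR]

theorem allow_toR_one : toR (1 : Matrix ι ι ℚ) = 1 := by
  unfold toR
  exact Matrix.map_one _ (by simp) (by simp)

theorem allow_toR_pow (X : Matrix ι ι ℚ) (k : ℕ) : toR (X ^ k) = toR X ^ k := by
  induction k with
  | zero => rw [pow_zero, pow_zero, allow_toR_one]
  | succ k ih => rw [pow_succ, pow_succ, toR_mul, ih]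

/-- There is a nonzero rational weight vector not commuting with `e`.

Proof. Otherwise by `mem_span_wt` and `exists_wt_real` all of `𝔤` commutes with `e`, so `e` is
central in `realSpan 𝔤` and `e = 0` by `center_eq_zero` (`nondeg_realSpan` applies: `S ≠ 0`
because `e ≠ 0` is in its real span). -/
theorem exists_mem_Al {𝔤 S : Submodule ℚ (Matrix ι ι ℚ)} (h𝔤 : IsSimpleLie 𝔤) (hS : S ≤ 𝔤)
    (hSD : SDgQ S) {e : Matrix ι ι ℝ} (he : e ∈ realSpan S) (he0 : e ≠ 0) :
    ∃ X ∈ Al 𝔤 S e, X ≠ 0 := by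
  by_contra hcon
  push Not at hcon
  obtain ⟨w, hwa, hw⟩ := exists_wt_real he
  apply he0
  -- a nonzero element of `S`
  have hs : ∃ s ∈ S, s ≠ 0 := by
    by_contra h
    push Not at h
    apply he0
    have h1 : ∀ z ∈ realSpan S, z = 0 := by
      intro z hz
      refine Submodule.span_induction (p := fun z _ => z = 0) ?_ rfl ?_ ?_ hz
      · rintro _ ⟨s, hs, rfl⟩
        rw [h s hs]
        exact allow_toR_zero
      · intro x y _ _ hx hy
        rw [hx, hy, add_zero]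
      · intro a x _ hx
        rw [hx, smul_zero]
    exact h1 e he
  obtain ⟨s, hs, hs0⟩ := hs
  have hsD : Dg (toR s) :=
    Dg_of_mem (SDg_realSpan hSD) (Submodule.subset_span ⟨s, hs, rfl⟩)
  have hN := nondeg_realSpan h𝔤 s (hS hs) hs0 hsD
  -- weight vectors commute with `e`
  have h1 : ∀ Y : Matrix ι ι ℚ, Y ∈ 𝔤 → (∃ α : Matrix ι ι ℚ →ₗ[ℚ] ℚ, IsWt S α Y) →
      e * toR Y = toR Y * e := by
    rintro Y hY ⟨α, hα⟩
    have h2 := hw α Y hα
    by_cases hc : w α = 0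
    · rw [hc, zero_smul] at h2
      exact sub_eq_zero.1 h2
    · have h3 := hcon Y ⟨hY, ⟨α, hα⟩, w α, hc, h2⟩
      rw [h3, allow_toR_zero, mul_zero, zero_mul]
  have h2 : ∀ Y ∈ 𝔤, e * toR Y = toR Y * e := by
    intro Y hY
    have h3 := mem_span_wt h𝔤 hS hSD hY
    refine Submodule.span_induction (p := fun Y _ => e * toR Y = toR Y * e) ?_ ?_ ?_ ?_ h3
    · rintro x ⟨hx, hα⟩
      exact h1 x hx hα
    · rw [allow_toR_zero, mul_zero, zero_mul]
    · intro x y _ _ hx hy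
      rw [toR_add, mul_add, add_mul, hx, hy]
    · intro a x _ hx
      rw [toR_smul, mul_smul_comm, smul_mul_assoc, hx]
  refine center_eq_zero hN (realSpan_le_span_bracket h𝔤) (realSpan_mono hS he) ?_
  intro y hy
  refine Submodule.span_induction (p := fun y _ => e * y = y * e) ?_ ?_ ?_ ?_ hy
  · rintro _ ⟨Y, hY, rfl⟩
    exact h2 Y hY
  · rw [mul_zero, zero_mul]
  · intro x y _ _ hx hy
    rw [mul_add, add_mul, hx, hy]
  · intro a x _ hx
    rw [mul_smul_comm, smul_mul_assoc, hx]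

/-- `𝔤` is spanned by `Al` and the brackets of elements of `Al`.

Proof. Let `L` be the span of `Al` and of the brackets `[X, X']`, `X, X' ∈ Al`. It is an ideal: let
`Y ∈ 𝔤` be a weight vector (`mem_span_wt`), so `Y ∈ Al` or `Y` commutes with `e` (or both, if
`Y = 0`) by `exists_wt_real`. For `X ∈ Al`: if `Y ∈ Al`, `[Y, X] ∈ L` by definition; if `Y` commutes
with `e` then `[Y, X] ∈ Al` (weights add, `exists_wt_real`). For `[X, X']`: if `Y` commutes with `e`,
`[Y, [X, X']] = [[Y, X], X'] + [X, [Y, X']]` is a sum of brackets of elements of `Al`; if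
`Y ∈ Al`: `[X, X']` is a weight vector, which lies in `Al`, and then `[Y, [X, X']] ∈ L`, or
commutes with `e`, and then `[Y, [X, X']] ∈ Al`. `L ≠ 0` by `exists_mem_Al`. -/
theorem mem_span_Al {𝔤 S : Submodule ℚ (Matrix ι ι ℚ)} (h𝔤 : IsSimpleLie 𝔤) (hS : S ≤ 𝔤)
    (hSD : SDgQ S) {e : Matrix ι ι ℝ} (he : e ∈ realSpan S) (he0 : e ≠ 0)
    {Y : Matrix ι ι ℚ} (hY : Y ∈ 𝔤) :
    Y ∈ Submodule.span ℚ (Al 𝔤 S e ∪
      {Z | ∃ X ∈ Al 𝔤 S e, ∃ X' ∈ Al 𝔤 S e, Z = X * X' - X' * X}) := by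
  obtain ⟨w, hwa, hw⟩ := exists_wt_real he
  -- the weight vectors on which `w` does not vanish
  let A : Set (Matrix ι ι ℚ) :=
    {X | X ∈ 𝔤 ∧ ∃ α : Matrix ι ι ℚ →ₗ[ℚ] ℚ, IsWt S α X ∧ w α ≠ 0}
  let G : Set (Matrix ι ι ℚ) := A ∪ {Z | ∃ X ∈ A, ∃ X' ∈ A, Z = X * X' - X' * X}
  have hAAl : A ⊆ Al 𝔤 S e := by
    rintro X ⟨hX, α, hα, hc⟩
    exact ⟨hX, ⟨α, hα⟩, w α, hc, hw α X hα⟩
  have hGsub : Submodule.span ℚ G ≤ Submodule.span ℚ (Al 𝔤 S e ∪
      {Z | ∃ X ∈ Al 𝔤 S e, ∃ X' ∈ Al 𝔤 S e, Z = X * X' - X' * X}) := by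
    refine Submodule.span_mono (Set.union_subset_union hAAl ?_)
    rintro Z ⟨X, hX, X', hX', rfl⟩
    exact ⟨X, hAAl hX, X', hAAl hX', rfl⟩
  apply hGsub
  have hle : Submodule.span ℚ G ≤ 𝔤 := by
    refine Submodule.span_le.2 ?_
    rintro Z (hZ | ⟨X, hX, X', hX', rfl⟩)
    · exact hZ.1
    · exact h𝔤.lie X hX.1 X' hX'.1
  have hA1 : ∀ X ∈ A, X ∈ Submodule.span ℚ G := fun X hX => Submodule.subset_span (Or.inl hX)
  have hA2 : ∀ X ∈ A, ∀ X' ∈ A, X * X' - X' * X ∈ Submodule.span ℚ G := fun X hX X' hX' =>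
    Submodule.subset_span (Or.inr ⟨X, hX, X', hX', rfl⟩)
  -- the bracket of a weight vector commuting with `e` and an element of `A`
  have hA3 : ∀ (β : Matrix ι ι ℚ →ₗ[ℚ] ℚ) (Y : Matrix ι ι ℚ), Y ∈ 𝔤 → IsWt S β Y → w β = 0 →
      ∀ X ∈ A, Y * X - X * Y ∈ A := by
    rintro β Y hY hβ hwβ X ⟨hX, α, hα, hc⟩
    refine ⟨h𝔤.lie Y hY X hX, β + α, hβ.bracket hα, ?_⟩
    rw [hwa, hwβ, zero_add]
    exact hc
  have hkey : ∀ (β : Matrix ι ι ℚ →ₗ[ℚ] ℚ) (Y : Matrix ι ι ℚ), Y ∈ 𝔤 → IsWt S β Y →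
      ∀ Z ∈ G, Y * Z - Z * Y ∈ Submodule.span ℚ G := by
    intro β Y hY hβ Z hZ
    by_cases hwβ : w β = 0
    · rcases hZ with hZ | ⟨X, hX, X', hX', rfl⟩
      · exact hA1 _ (hA3 β Y hY hβ hwβ Z hZ)
      · have h1 : Y * (X * X' - X' * X) - (X * X' - X' * X) * Y =
            ((Y * X - X * Y) * X' - X' * (Y * X - X * Y)) +
            (X * (Y * X' - X' * Y) - (Y * X' - X' * Y) * X) := by
          noncomm_ring
        rw [h1]
        exact add_mem (hA2 _ (hA3 β Y hY hβ hwβ X hX) _ hX')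
          (hA2 _ hX _ (hA3 β Y hY hβ hwβ X' hX'))
    · have hYA : Y ∈ A := ⟨hY, β, hβ, hwβ⟩
      rcases hZ with hZ | ⟨X, hX, X', hX', rfl⟩
      · exact hA2 _ hYA _ hZ
      · obtain ⟨hXg, α, hα, hc⟩ := hX
        obtain ⟨hXg', α', hα', hc'⟩ := hX'
        have hb : IsWt S (α + α') (X * X' - X' * X) := hα.bracket hα'
        have hbg : X * X' - X' * X ∈ 𝔤 := h𝔤.lie X hXg X' hXg'
        by_cases hww : w (α + α') = 0
        · apply hA1
          refine ⟨h𝔤.lie Y hY _ hbg, β + (α + α'), hβ.bracket hb, ?_⟩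
          rw [hwa, hww, add_zero]
          exact hwβ
        · exact hA2 _ hYA _ ⟨hbg, α + α', hb, hww⟩
  have hideal : ∀ x ∈ 𝔤, ∀ y ∈ Submodule.span ℚ G, x * y - y * x ∈ Submodule.span ℚ G := by
    intro x hx y hy
    refine Submodule.span_induction (p := fun y _ => x * y - y * x ∈ Submodule.span ℚ G)
      ?_ ?_ ?_ ?_ hy
    · intro Z hZ
      have h3 := mem_span_wt h𝔤 hS hSD hx
      refine Submodule.span_induction (p := fun x _ => x * Z - Z * x ∈ Submodule.span ℚ G)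
        ?_ ?_ ?_ ?_ h3
      · rintro x ⟨hx, α, hα⟩
        exact hkey α x hx hα Z hZ
      · rw [zero_mul, mul_zero, sub_zero]
        exact zero_mem _
      · intro a b _ _ ha hb
        have h4 : (a + b) * Z - Z * (a + b) = (a * Z - Z * a) + (b * Z - Z * b) := by
          noncomm_ring
        rw [h4]
        exact add_mem ha hb
      · intro c a _ ha
        have h4 : (c • a) * Z - Z * (c • a) = c • (a * Z - Z * a) := by
          rw [smul_mul_assoc, mul_smul_comm, smul_sub]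
        rw [h4]
        exact Submodule.smul_mem _ _ ha
    · rw [zero_mul, mul_zero, sub_zero]
      exact zero_mem _
    · intro a b _ _ ha hb
      have h4 : x * (a + b) - (a + b) * x = (x * a - a * x) + (x * b - b * x) := by
        noncomm_ring
      rw [h4]
      exact add_mem ha hb
    · intro c a _ ha
      have h4 : x * (c • a) - (c • a) * x = c • (x * a - a * x) := by
        rw [smul_mul_assoc, mul_smul_comm, smul_sub]
      rw [h4]
      exact Submodule.smul_mem _ _ ha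
  rcases h𝔤.ideal _ hle hideal with h | h
  · exfalso
    obtain ⟨X, ⟨hX, ⟨α, hα⟩, c, hc, hXc⟩, hX0⟩ := exists_mem_Al h𝔤 hS hSD he he0
    have h1 := hw α X hα
    rw [hXc] at h1
    have hX0' : toR X ≠ 0 := by
      intro h2
      exact hX0 (toR_inj (h2.trans allow_toR_zero.symm))
    have h2 : c = w α := smul_left_injective ℝ hX0' h1
    have h3 : X ∈ Submodule.span ℚ G := hA1 X ⟨hX, α, hα, h2 ▸ hc⟩
    rw [h] at h3
    exact hX0 ((Submodule.mem_bot ℚ).1 h3)
  · rw [h]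
    exact hY

/-- Elements of `Al` are nilpotent: `[e, X] = c X`, `c ≠ 0`, `e` diagonalizable. -/
theorem isNilpotent_of_mem_Al {𝔤 S : Submodule ℚ (Matrix ι ι ℚ)} (hSD : SDgQ S)
    {e : Matrix ι ι ℝ} (he : e ∈ realSpan S) {X : Matrix ι ι ℚ} (hX : X ∈ Al 𝔤 S e) :
    IsNilpotent X := by
  obtain ⟨_, _, c, hc, hXc⟩ := hX
  by_contra hnil
  have hpow : ∀ k : ℕ, toR X ^ k ≠ 0 := by
    intro k h1
    apply hnil
    refine ⟨k, toR_inj ?_⟩
    rw [allow_toR_pow, h1, allow_toR_zero]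
  let T : Module.End ℝ (Matrix ι ι ℝ) := LinearMap.mulLeft ℝ e - LinearMap.mulRight ℝ e
  have hT : ∀ k : ℕ, T (toR X ^ k) = ((k : ℝ) * c) • toR X ^ k := by
    intro k
    have h1 : e * toR X ^ k - toR X ^ k * e = ((k : ℝ) * c) • toR X ^ k := by
      induction k with
      | zero => simp
      | succ k ih =>
        have h2 : e * toR X ^ (k + 1) - toR X ^ (k + 1) * e =
            (e * toR X ^ k - toR X ^ k * e) * toR X + toR X ^ k * (e * toR X - toR X * e) := by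
          rw [pow_succ]
          noncomm_ring
        rw [h2, ih, hXc, smul_mul_assoc, mul_smul_comm, ← pow_succ, ← add_smul]
        push_cast
        ring_nf
    exact h1
  have hev : ∀ k : ℕ, T.HasEigenvalue ((k : ℝ) * c) := by
    intro k
    exact Module.End.hasEigenvalue_of_hasEigenvector
      ⟨Module.End.mem_eigenspace_iff.2 (hT k), hpow k⟩
  have hfin : Set.Finite {μ : ℝ | T.HasEigenvalue μ} := Module.End.finite_hasEigenvalue T
  have hinj : Function.Injective (fun k : ℕ => (k : ℝ) * c) := by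
    intro a b hab
    have h1 : (a : ℝ) = b := mul_right_cancel₀ hc hab
    exact_mod_cast h1
  exact Set.infinite_of_injective_forall_mem hinj hev hfin

end Pool.Agent.W_MP_bb6588_G
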