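import Mathlib
import Pool.Agent.W_MP_bb6588_G.Wt

set_option autoImplicit false

/-!
# The choice of the coordinate subspace
-/

namespace Pool.Agent.W_MP_bb6588_G

open Matrix Filter Topology
open Pool.Agent.W_MP_bb6588_an (SLR SLZ nrm Dig step expo dlt val)

variable {ι : Type} [Fintype ι] [DecidableEq ι]

theorem thr_aux {κ : Type} [DecidableEq κ] (h y : κ → ℝ) (s : Finset κ) :
    ∀ m : ℝ, (∀ i ∈ s, m ≤ h i) →
      (∀ τ, m < τ → 0 ≤ ∑ i ∈ s.filter (fun i => τ ≤ h i), y i) →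
      0 ≤ ∑ i ∈ s, (h i - m) * y i := by
  induction s using Finset.induction_on_min_value h with
  | empty => intro m _ _; simp
  | insert a s ha hmin ih =>
    intro m hm hF
    have hma : m ≤ h a := hm a (Finset.mem_insert_self a s)
    have h1 : 0 ≤ ∑ i ∈ s, (h i - h a) * y i := by
      refine ih (h a) (fun i hi => hmin i hi) (fun τ hτ => ?_)
      have h2 := hF τ (lt_of_le_of_lt hma hτ)
      rwa [Finset.filter_insert, if_neg (not_le.mpr hτ)] at h2
    have h3 : ∑ i ∈ insert a s, (h i - m) * y i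
        = ∑ i ∈ s, (h i - h a) * y i + (h a - m) * ∑ i ∈ insert a s, y i := by
      rw [Finset.sum_insert ha, Finset.sum_insert ha, mul_add, Finset.mul_sum]
      have : ∑ i ∈ s, (h i - m) * y i
          = ∑ i ∈ s, (h i - h a) * y i + ∑ i ∈ s, (h a - m) * y i := by
        rw [← Finset.sum_add_distrib]
        exact Finset.sum_congr rfl (fun i _ => by ring)
      rw [this]; ring
    rw [h3]
    rcases hma.eq_or_lt with h4 | h4
    · rw [h4, sub_self, zero_mul, add_zero]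
      exact h1
    · have h5 := hF (h a) h4
      have h6 : (insert a s).filter (fun i => h a ≤ h i) = insert a s := by
        refine Finset.filter_true_of_mem (fun i hi => ?_)
        rcases Finset.mem_insert.mp hi with rfl | hi
        · exact le_rfl
        · exact hmin i hi
      rw [h6] at h5
      exact add_nonneg h1 (mul_nonneg (sub_nonneg.mpr hma) h5)

/-- Proof. Suppose `F(τ) = ∑_{τ ≤ h i} y i ≥ 0` for all `τ`. With `a ≤ h i ≤ b` for all `i`,
`0 ≤ ∫_a^b F = ∑ y i (h i - a) = ∑ h i y i < 0`, a contradiction. (Or Abel summation, or induction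
on the number of values of `h`.) -/
theorem exists_threshold (h y : ι → ℝ) (h0 : ∑ i, y i = 0) (h1 : ∑ i, h i * y i < 0) :
    ∃ τ : ℝ, ∑ i ∈ Finset.univ.filter (fun i => τ ≤ h i), y i < 0 := by
  by_contra hcon
  push Not at hcon
  have h2 := thr_aux h y Finset.univ (-∑ i, |h i|) (fun i _ => by
    have h3 : |h i| ≤ ∑ i, |h i| :=
      Finset.single_le_sum (f := fun i => |h i|) (fun i _ => abs_nonneg _) (Finset.mem_univ i)
    have h4 := neg_abs_le (h i)
    linarith) (fun τ _ => hcon τ)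
  have h5 : ∑ i, (h i - (-∑ i, |h i|)) * y i = ∑ i, h i * y i + (∑ i, |h i|) * ∑ i, y i := by
    rw [Finset.mul_sum, ← Finset.sum_add_distrib]
    exact Finset.sum_congr rfl (fun i _ => by ring)
  rw [h5, h0, mul_zero, add_zero] at h2
  exact absurd h1 (not_lt.mpr h2)

theorem thr_toR_eq (X : Matrix ι ι ℚ) : toR X = (Rat.castHom ℝ).mapMatrix X := rfl

theorem thr_toR_mul (X Y : Matrix ι ι ℚ) : toR (X * Y) = toR X * toR Y := by
  simp only [thr_toR_eq, map_mul]

theorem thr_toR_inv (P : (Matrix ι ι ℚ)ˣ) :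
    toR ((P⁻¹ : (Matrix ι ι ℚ)ˣ) : Matrix ι ι ℚ) = (toR (P : Matrix ι ι ℚ))⁻¹ := by
  refine (Matrix.inv_eq_right_inv ?_).symm
  rw [← thr_toR_mul, Units.mul_inv, thr_toR_eq, map_one]

theorem thr_PP (P : (Matrix ι ι ℚ)ˣ) :
    toR (P : Matrix ι ι ℚ) * (toR (P : Matrix ι ι ℚ))⁻¹ = 1 := by
  rw [← thr_toR_inv, ← thr_toR_mul, Units.mul_inv, thr_toR_eq, map_one]

theorem thr_PP' (P : (Matrix ι ι ℚ)ˣ) :
    (toR (P : Matrix ι ι ℚ))⁻¹ * toR (P : Matrix ι ι ℚ) = 1 := by
  rw [← thr_toR_inv, ← thr_toR_mul, Units.inv_mul, thr_toR_eq, map_one]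

/-- Elements of the real span are diagonal in the basis `P`. -/
theorem thr_diag (S : Submodule ℚ (Matrix ι ι ℚ)) (P : (Matrix ι ι ℚ)ˣ)
    (hP : ∀ s ∈ S, ∃ d : ι → ℚ,
      s = (P : Matrix ι ι ℚ) * Matrix.diagonal d * ((P⁻¹ : (Matrix ι ι ℚ)ˣ) : Matrix ι ι ℚ))
    (x : Matrix ι ι ℝ) (hx : x ∈ realSpan S) :
    ∃ d : ι → ℝ, (toR (P : Matrix ι ι ℚ))⁻¹ * x * toR (P : Matrix ι ι ℚ) = Matrix.diagonal d := by
  induction hx using Submodule.span_induction with
  | mem x h =>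
    obtain ⟨s, hs, rfl⟩ := h
    obtain ⟨d, hd⟩ := hP s hs
    refine ⟨fun i => (d i : ℝ), ?_⟩
    have h1 : toR (Matrix.diagonal d) = Matrix.diagonal (fun i => (d i : ℝ)) := by
      ext i j
      by_cases hij : i = j
      · subst hij; simp [toR]
      · simp [toR, Matrix.diagonal_apply_ne _ hij]
    have h2 : toR s = toR (P : Matrix ι ι ℚ) * toR (Matrix.diagonal d) *
        (toR (P : Matrix ι ι ℚ))⁻¹ := by
      conv_lhs => rw [hd]
      rw [thr_toR_mul, thr_toR_mul, thr_toR_inv]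
    rw [h2, h1]
    calc _ = ((toR (P : Matrix ι ι ℚ))⁻¹ * toR (P : Matrix ι ι ℚ)) *
          Matrix.diagonal (fun i => (d i : ℝ)) *
          ((toR (P : Matrix ι ι ℚ))⁻¹ * toR (P : Matrix ι ι ℚ)) := by noncomm_ring
      _ = _ := by rw [thr_PP', one_mul, mul_one]
  | zero => exact ⟨0, by simp⟩
  | add x y _ _ hx hy =>
    obtain ⟨d, hd⟩ := hx
    obtain ⟨d', hd'⟩ := hy
    refine ⟨d + d', ?_⟩
    rw [mul_add, add_mul, hd, hd', Matrix.diagonal_add]
    rfl
  | smul a x _ hx =>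
    obtain ⟨d, hd⟩ := hx
    refine ⟨a • d, ?_⟩
    rw [Matrix.mul_smul, Matrix.smul_mul, hd, Matrix.diagonal_smul]

/-- Real multiples and sums. -/
theorem thr_comm (S : Submodule ℚ (Matrix ι ι ℚ)) (z : Matrix ι ι ℝ)
    (hz : ∀ s ∈ S, z * toR s = toR s * z) (x : Matrix ι ι ℝ) (hx : x ∈ realSpan S) :
    z * x = x * z := by
  induction hx using Submodule.span_induction with
  | mem x h => obtain ⟨s, hs, rfl⟩ := h; exact hz s hs
  | zero => simp
  | add x y _ _ hx hy => rw [mul_add, add_mul, hx, hy]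
  | smul a x _ hx => rw [Matrix.mul_smul, Matrix.smul_mul, hx]

/-- Choice of the coordinate subspace. Let `S ∋ s = P diag(d s) P⁻¹`, and let `X` be a weight vector
for `S` with `[e, X] = c X`, `c ≠ 0`, `e` in the real span of `S` and orthogonal to `E`, where `E`
commutes with `S`, and let `z ∈ E` be not orthogonal to `S`.

Proof. Replacing `e` by `-e` we may assume `c > 0`. Let `s ∈ S` with `tr(s z) < 0` (replace `s` by
`-s`), `α` the weight of `X`, and `h = s + t e`, `t ≥ 0` with `α s + t c ≥ 0`. So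
`h = P diag(h i) P⁻¹`, `[h, X] = (α s + t c) X`, `tr(h z) = tr(s z) < 0`. In the basis `P`:
`X i j ≠ 0` implies `h i - h j = α s + t c ≥ 0`; `z' i j ≠ 0` for `z' ∈ E` implies `h i = h j`;
`∑ z i i = tr z = 0`, `∑ h i z i i = tr(h z) < 0`. Take `C = {i | τ ≤ h i}` with `τ` from
`exists_threshold`. -/
theorem exists_C (S : Submodule ℚ (Matrix ι ι ℚ)) (P : (Matrix ι ι ℚ)ˣ)
    (hP : ∀ s ∈ S, ∃ d : ι → ℚ,
      s = (P : Matrix ι ι ℚ) * Matrix.diagonal d * ((P⁻¹ : (Matrix ι ι ℚ)ˣ) : Matrix ι ι ℚ))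
    (e : Matrix ι ι ℝ) (he : e ∈ realSpan S) (X : Matrix ι ι ℚ) (α : Matrix ι ι ℚ →ₗ[ℚ] ℚ)
    (hX : IsWt S α X) (c : ℝ) (hc : c ≠ 0) (heX : e * toR X - toR X * e = c • toR X)
    (E : Submodule ℝ (Matrix ι ι ℝ)) (hcomm : ∀ z ∈ E, ∀ s ∈ S, z * toR s = toR s * z)
    (hT : TrZ E) (hperp : ∀ z ∈ E, (e * z).trace = 0)
    (z : Matrix ι ι ℝ) (hz : z ∈ E) (s : Matrix ι ι ℚ) (hs : s ∈ S)
    (hsz : (toR s * z).trace ≠ 0) :
    ∃ C : Finset ι, Blk C ((toR (P : Matrix ι ι ℚ))⁻¹ * toR X * toR (P : Matrix ι ι ℚ)) ∧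
      (∀ z' ∈ E, Blk C ((toR (P : Matrix ι ι ℚ))⁻¹ * z' * toR (P : Matrix ι ι ℚ))) ∧
      ∑ i ∈ C, ((toR (P : Matrix ι ι ℚ))⁻¹ * z * toR (P : Matrix ι ι ℚ)) i i < 0 := by
  -- an element `g` of the real span with nonnegative weight on `X` and negative pairing with `z`
  obtain ⟨g, hg, κ, hκ, hgX, hgz⟩ : ∃ g ∈ realSpan S, ∃ κ : ℝ, 0 ≤ κ ∧
      g * toR X - toR X * g = κ • toR X ∧ (g * z).trace < 0 := by
    -- the sign of `s`
    obtain ⟨a, haz⟩ : ∃ a : ℝ, a * (toR s * z).trace < 0 := by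
      rcases lt_or_gt_of_ne hsz with h | h
      · exact ⟨1, by simpa using h⟩
      · exact ⟨-1, by simpa using h⟩
    have hsX : toR s * toR X - toR X * toR s = (α s : ℝ) • toR X := by
      have h1 := hX s hs
      have h2 : toR (s * X - X * s) = toR (α s • X) := by rw [h1]
      have h3 : toR (s * X - X * s) = toR s * toR X - toR X * toR s := by
        rw [← thr_toR_mul, ← thr_toR_mul, thr_toR_eq, thr_toR_eq, thr_toR_eq, map_sub]
      have h4 : toR (α s • X) = (α s : ℝ) • toR X := by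
        ext i j
        simp [toR]
      rw [← h3, h2, h4]
    obtain ⟨t, ht⟩ : ∃ t : ℝ, 0 ≤ a * (α s : ℝ) + t * c := by
      refine ⟨-(a * (α s : ℝ)) / c, ?_⟩
      rw [div_mul_cancel₀ _ hc]
      simp
    refine ⟨a • toR s + t • e, ?_, a * (α s : ℝ) + t * c, ht, ?_, ?_⟩
    · exact Submodule.add_mem _ (Submodule.smul_mem _ _
        (Submodule.subset_span ⟨s, hs, rfl⟩)) (Submodule.smul_mem _ _ he)
    · calc (a • toR s + t • e) * toR X - toR X * (a • toR s + t • e)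
          = a • (toR s * toR X - toR X * toR s) + t • (e * toR X - toR X * e) := by
            rw [add_mul, mul_add, smul_mul_assoc, smul_mul_assoc, mul_smul_comm, mul_smul_comm,
              smul_sub, smul_sub]
            abel
        _ = (a * (α s : ℝ) + t * c) • toR X := by
            rw [hsX, heX, smul_smul, smul_smul, add_smul]
    · rw [add_mul, smul_mul_assoc, smul_mul_assoc, Matrix.trace_add, Matrix.trace_smul,
        Matrix.trace_smul, hperp z hz, smul_zero, add_zero, smul_eq_mul]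
      exact haz
  obtain ⟨d, hd⟩ := thr_diag S P hP g hg
  set Q := toR (P : Matrix ι ι ℚ) with hQ
  have hQQ : Q * Q⁻¹ = 1 := thr_PP P
  have hQQ' : Q⁻¹ * Q = 1 := thr_PP' P
  -- the matrix of a bracket with `g`
  have key : ∀ (Y : Matrix ι ι ℝ) (μ : ℝ), g * Y - Y * g = μ • Y → ∀ i j,
      (d i - d j) * (Q⁻¹ * Y * Q) i j = μ * (Q⁻¹ * Y * Q) i j := by
    intro Y μ hY i j
    have h1 : (Matrix.diagonal d) * (Q⁻¹ * Y * Q) - (Q⁻¹ * Y * Q) * (Matrix.diagonal d)
        = μ • (Q⁻¹ * Y * Q) := by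
      rw [← hd]
      calc Q⁻¹ * g * Q * (Q⁻¹ * Y * Q) - Q⁻¹ * Y * Q * (Q⁻¹ * g * Q)
          = Q⁻¹ * g * (Q * Q⁻¹) * Y * Q - Q⁻¹ * Y * (Q * Q⁻¹) * g * Q := by noncomm_ring
        _ = Q⁻¹ * (g * Y - Y * g) * Q := by rw [hQQ]; noncomm_ring
        _ = μ • (Q⁻¹ * Y * Q) := by rw [hY, Matrix.mul_smul, Matrix.smul_mul]
    have h2 := congrFun (congrFun h1 i) j
    rw [Matrix.sub_apply, Matrix.diagonal_mul, Matrix.mul_diagonal, Matrix.smul_apply,
      smul_eq_mul] at h2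
    rw [← h2]; ring
  have htr0 : ∑ i, (Q⁻¹ * z * Q) i i = 0 := by
    have h1 : (Q⁻¹ * z * Q).trace = z.trace := by
      rw [Matrix.trace_mul_comm, ← mul_assoc, hQQ, one_mul]
    have h2 := hT z hz
    rw [h2] at h1
    exact h1
  have htr1 : ∑ i, d i * (Q⁻¹ * z * Q) i i < 0 := by
    have h1 : (Matrix.diagonal d * (Q⁻¹ * z * Q)).trace = (g * z).trace := by
      rw [← hd]
      have : Q⁻¹ * g * Q * (Q⁻¹ * z * Q) = Q⁻¹ * (g * z) * Q := by
        calc Q⁻¹ * g * Q * (Q⁻¹ * z * Q) = Q⁻¹ * g * (Q * Q⁻¹) * z * Q := by noncomm_ring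
          _ = _ := by rw [hQQ]; noncomm_ring
      rw [this, Matrix.trace_mul_comm, ← mul_assoc, hQQ, one_mul]
    have h2 : (Matrix.diagonal d * (Q⁻¹ * z * Q)).trace = ∑ i, d i * (Q⁻¹ * z * Q) i i := by
      rw [Matrix.trace]
      refine Finset.sum_congr rfl (fun i _ => ?_)
      rw [Matrix.diag_apply, Matrix.diagonal_mul]
    rw [← h2, h1]
    exact hgz
  obtain ⟨τ, hτ⟩ := exists_threshold d (fun i => (Q⁻¹ * z * Q) i i) htr0 htr1
  refine ⟨Finset.univ.filter (fun i => τ ≤ d i), ?_, ?_, hτ⟩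
  · intro i hi j hj
    simp only [Finset.mem_filter, Finset.mem_univ, true_and, not_le] at hi hj
    by_contra hne
    have h1 := mul_right_cancel₀ hne (key (toR X) κ hgX i j)
    linarith
  · intro z' hz' i hi j hj
    simp only [Finset.mem_filter, Finset.mem_univ, true_and, not_le] at hi hj
    by_contra hne
    have h2 : g * z' - z' * g = (0 : ℝ) • z' := by
      rw [thr_comm S z' (hcomm z' hz') g hg, sub_self, zero_smul]
    have h1 := mul_right_cancel₀ hne (key z' 0 h2 i j)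
    linarith

end Pool.Agent.W_MP_bb6588_G
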