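import Mathlib
import Pool.Agent.W_MP_bb6588_G.Allow
import Pool.Agent.W_MP_bb6588_G.Thr
import Pool.Agent.W_MP_bb6588_G.CoreA
import Pool.Agent.W_MP_bb6588_G.ExpB
import Pool.Agent.W_MP_bb6588_G.UniInt

set_option autoImplicit false

/-!
# The family of unipotent one-parameter groups
-/

namespace Pool.Agent.W_MP_bb6588_G

open Matrix Filter Topology
open Pool.Agent.W_MP_bb6588_an (SLR SLZ nrm Dig step expo dlt val)

variable {ι : Type} [Fintype ι] [DecidableEq ι]

/-- A common denominator of a finite family of rational numbers. -/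
theorem Fam_den {α : Type} [Fintype α] (q : α → ℚ) :
    ∃ d : ℕ, 0 < d ∧ ∀ a, ∃ z : ℤ, (d : ℚ) * q a = (z : ℚ) := by
  classical
  refine ⟨∏ a, (q a).den, Finset.prod_pos fun a _ => (q a).den_pos, fun a => ?_⟩
  refine ⟨(∏ b ∈ Finset.univ.erase a, ((q b).den : ℤ)) * (q a).num, ?_⟩
  rw [← Finset.mul_prod_erase Finset.univ (fun b => (q b).den) (Finset.mem_univ a)]
  push_cast
  have h1 : ((q a).den : ℚ) * q a = (q a).num := by
    rw [mul_comm]; exact Rat.mul_den_eq_num (q a)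
  calc ((q a).den : ℚ) * (∏ b ∈ Finset.univ.erase a, ((q b).den : ℚ)) * q a
      = (∏ b ∈ Finset.univ.erase a, ((q b).den : ℚ)) * (((q a).den : ℚ) * q a) := by ring
    _ = _ := by rw [h1]

omit [DecidableEq ι] in
/-- A positive integral multiple of a rational matrix is integral. -/
theorem Fam_int (X : Matrix ι ι ℚ) :
    ∃ (d : ℕ) (Z : Matrix ι ι ℤ), 0 < d ∧ zR Z = (d : ℝ) • toR X := by
  obtain ⟨d, hd, h⟩ := Fam_den (fun p : ι × ι => X p.1 p.2)
  choose z hz using h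
  refine ⟨d, Matrix.of fun i j => z (i, j), hd, ?_⟩
  ext i j
  have h1 := hz (i, j)
  have h2 : ((z (i, j) : ℤ) : ℝ) = (d : ℝ) * ((X i j : ℚ) : ℝ) := by
    have h3 := congrArg (fun x : ℚ => (x : ℝ)) h1
    simp only at h3
    push_cast at h3
    exact h3.symm
  simpa [zR, toR] using h2

theorem Fam_zR_det (A : Matrix ι ι ℤ) : (zR A).det = (A.det : ℝ) := by
  have h := (Int.castRingHom ℝ).map_det A
  rw [uniInt_zR_eq]
  rw [← h]
  rfl

theorem Fam_toR_det (A : Matrix ι ι ℚ) : (toR A).det = (A.det : ℝ) := by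
  have h := (algebraMap ℚ ℝ).map_det A
  rw [toR_eq_mapMatrix]
  rw [← h]
  rfl

omit [Fintype ι] [DecidableEq ι] in
theorem Fam_blk_smul {C : Finset ι} {Y : Matrix ι ι ℝ} (hY : Blk C Y) (r : ℝ) :
    Blk C (r • Y) := by
  intro i hi j hj
  rw [Matrix.smul_apply, hY i hi j hj, smul_zero]

/-- Conjugation by a nonzero multiple. -/
theorem Fam_conj (P : Matrix ι ι ℝ) (c : ℝ) (hc : c ≠ 0) (z : Matrix ι ι ℝ) :
    (c • P)⁻¹ * z * (c • P) = P⁻¹ * z * P := by
  by_cases hP : IsUnit P.det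
  · have h1 : (c • P)⁻¹ = c⁻¹ • P⁻¹ := by
      apply Matrix.inv_eq_right_inv
      rw [Matrix.smul_mul, Matrix.mul_smul, smul_smul, Matrix.mul_nonsing_inv _ hP,
        mul_inv_cancel₀ hc, one_smul]
    rw [h1, Matrix.smul_mul, Matrix.smul_mul, Matrix.mul_smul, smul_smul, inv_mul_cancel₀ hc,
      one_smul]
  · have h2 : ¬ IsUnit (c • P).det := by
      rw [Matrix.det_smul]
      intro h
      exact hP (isUnit_of_mul_isUnit_right h)
    rw [Matrix.nonsing_inv_apply_not_isUnit _ hP, Matrix.nonsing_inv_apply_not_isUnit _ h2]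
    simp only [zero_mul]

/-- Brackets of elements of a span. -/
theorem Fam_bracket {T : Set (Matrix ι ι ℝ)} {x y : Matrix ι ι ℝ}
    (hx : x ∈ Submodule.span ℝ T) (hy : y ∈ Submodule.span ℝ T) :
    x * y - y * x ∈ Submodule.span ℝ {Z | ∃ Y ∈ T, ∃ Y' ∈ T, Z = Y * Y' - Y' * Y} := by
  refine Submodule.span_induction₂
    (p := fun x y _ _ => x * y - y * x ∈
      Submodule.span ℝ {Z | ∃ Y ∈ T, ∃ Y' ∈ T, Z = Y * Y' - Y' * Y})
    ?_ ?_ ?_ ?_ ?_ ?_ ?_ hx hy
  · intro x y hx hy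
    exact Submodule.subset_span ⟨x, hx, y, hy, rfl⟩
  · intro y _
    rw [zero_mul, mul_zero, sub_zero]
    exact Submodule.zero_mem _
  · intro y _
    rw [zero_mul, mul_zero, sub_zero]
    exact Submodule.zero_mem _
  · intro x y z _ _ _ h1 h2
    have h3 : (x + y) * z - z * (x + y) = (x * z - z * x) + (y * z - z * y) := by
      rw [add_mul, mul_add]; abel
    rw [h3]
    exact Submodule.add_mem _ h1 h2
  · intro x y z _ _ _ h1 h2
    have h3 : x * (y + z) - (y + z) * x = (x * y - y * x) + (x * z - z * x) := by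
      rw [add_mul, mul_add]; abel
    rw [h3]
    exact Submodule.add_mem _ h1 h2
  · intro r x y _ _ h1
    have h3 : r • x * y - y * r • x = r • (x * y - y * x) := by
      rw [smul_mul_assoc, mul_smul_comm, smul_sub]
    rw [h3]
    exact Submodule.smul_mem _ _ h1
  · intro r x y _ _ h1
    have h3 : x * r • y - r • y * x = r • (x * y - y * x) := by
      rw [smul_mul_assoc, mul_smul_comm, smul_sub]
    rw [h3]
    exact Submodule.smul_mem _ _ h1

/-- The real matrix of an element of a rational span. -/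
theorem Fam_toR_span {T : Set (Matrix ι ι ℚ)} (W : Submodule ℝ (Matrix ι ι ℝ))
    (hT : ∀ X ∈ T, toR X ∈ W) {X : Matrix ι ι ℚ} (hX : X ∈ Submodule.span ℚ T) : toR X ∈ W := by
  refine Submodule.span_induction (p := fun X _ => toR X ∈ W) hT ?_ ?_ ?_ hX
  · rw [toR_zero']; exact W.zero_mem
  · intro x y _ _ h1 h2
    rw [toR_add]; exact W.add_mem h1 h2
  · intro c x _ h1
    rw [toR_smul]; exact W.smul_mem _ h1

/-- Finitely many nilpotent integral matrices in `𝔤`.

Proof. Let `e` be as in `exists_e`. `span Al` is finite-dimensional, so it is spanned by a finite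
subset `{X_1, …, X_n}` of `Al 𝔤 S e` (finite-dimensional space spanned by a set:
`Submodule.exists_finset_span_eq...`/`exists_linearIndependent`); multiply each by a positive
integer to make it integral (`Al` is stable under nonzero rational multiples). Brackets of elements
of `Al` are combinations of the `[X_i, X_j]`, so `mem_span_Al` gives the spanning statement. Take
`N` with all `X_k^{N+1} = 0` (`isNilpotent_of_mem_Al`). `P₀` is a positive integral multiple of
`P`, where `P` diagonalizes `S`; conjugation by `P₀` and by `P` is the same. The sets `C` are given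
by `exists_C`. -/
theorem exists_family {𝔤 S : Submodule ℚ (Matrix ι ι ℚ)} (h𝔤 : IsSimpleLie 𝔤) (hS : S ≤ 𝔤)
    (hSD : SDgQ S) (E : Submodule ℝ (Matrix ι ι ℝ)) (hE : E ≤ realSpan 𝔤)
    (hcomm : ∀ z ∈ E, ∀ s ∈ S, z * toR s = toR s * z)
    (hinj : ∀ z ∈ E, z ≠ 0 → ∃ s ∈ S, (toR s * z).trace ≠ 0)
    (hdim : Module.finrank ℝ E < Module.finrank ℚ S) :
    ∃ (n N : ℕ) (X : Fin n → Matrix ι ι ℤ) (P₀ : Matrix ι ι ℤ), 0 < n ∧ P₀.det ≠ 0 ∧
      (∀ k, X k ^ (N + 1) = 0) ∧ (∀ k, zR (X k) ∈ realSpan 𝔤) ∧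
      realSpan 𝔤 ≤ Submodule.span ℝ ({Z | ∃ k, Z = zR (X k)} ∪
        {Z | ∃ Y ∈ {Z | ∃ k, Z = zR (X k)}, ∃ Y' ∈ {Z | ∃ k, Z = zR (X k)},
          Z = Y * Y' - Y' * Y}) ∧
      ∀ k, ∀ z ∈ E, z ≠ 0 → ∃ C : Finset ι, (Blk C (cz P₀ (zR (X k))) ∧
        ∀ z' ∈ E, Blk C (cz P₀ z')) ∧ ∑ i ∈ C, cz P₀ z i i < 0 := by
  classical
  obtain ⟨e, he, he0, hperp⟩ := exists_e S E hdim
  obtain ⟨P, hP⟩ := hSD
  have hSD' : SDgQ S := ⟨P, hP⟩
  -- finitely many elements of `Al` spanning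
  have hfg : (Submodule.span ℚ (Al 𝔤 S e)).FG := IsNoetherian.noetherian _
  obtain ⟨t, htA, htspan⟩ := (Submodule.fg_span_iff_fg_span_finset_subset (Al 𝔤 S e)).1 hfg
  have htne : t.Nonempty := by
    rw [Finset.nonempty_iff_ne_empty]
    rintro rfl
    obtain ⟨X, hX, hX0⟩ := exists_mem_Al h𝔤 hS hSD' he he0
    have h1 : X ∈ Submodule.span ℚ (Al 𝔤 S e) := Submodule.subset_span hX
    rw [htspan, Finset.coe_empty, Submodule.span_empty, Submodule.mem_bot] at h1
    exact hX0 h1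
  -- integral multiples
  choose dd Zi hdd hZi using (Fam_int : ∀ X : Matrix ι ι ℚ,
    ∃ (d : ℕ) (Z : Matrix ι ι ℤ), 0 < d ∧ zR Z = (d : ℝ) • toR X)
  -- nilpotency
  have hnil : ∀ X : t, ∃ m : ℕ, (X : Matrix ι ι ℚ) ^ m = 0 := fun X =>
    isNilpotent_of_mem_Al hSD' he (htA X.2)
  choose mm hmm using hnil
  obtain ⟨dP₀, P₀, hdP, hP₀⟩ := Fam_int (P : Matrix ι ι ℚ)
  have hdP' : (dP₀ : ℝ) ≠ 0 := by exact_mod_cast hdP.ne'
  have hcz : ∀ z : Matrix ι ι ℝ, cz P₀ z =
      (toR (P : Matrix ι ι ℚ))⁻¹ * z * toR (P : Matrix ι ι ℚ) := by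
    intro z
    unfold cz
    rw [hP₀]
    exact Fam_conj _ _ hdP' z
  set eq := t.equivFin with heq
  refine ⟨t.card, ∑ X : t, mm X, fun k => Zi (eq.symm k : Matrix ι ι ℚ), P₀, htne.card_pos,
    ?_, ?_, ?_, ?_, ?_⟩
  · intro h0
    have h1 : (zR P₀).det = 0 := by rw [Fam_zR_det, h0, Int.cast_zero]
    rw [hP₀, Matrix.det_smul, Fam_toR_det] at h1
    have h2 : (P : Matrix ι ι ℚ).det ≠ 0 := by
      have h3 : IsUnit (P : Matrix ι ι ℚ).det := (Matrix.isUnit_iff_isUnit_det _).1 P.isUnit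
      exact h3.ne_zero
    rcases mul_eq_zero.1 h1 with h3 | h3
    · exact pow_ne_zero _ hdP' h3
    · exact h2 (by exact_mod_cast h3)
  · intro k
    set X : t := eq.symm k with hX
    have h1 : (X : Matrix ι ι ℚ) ^ (∑ Y : t, mm Y + 1) = 0 := by
      refine pow_eq_zero_of_le ?_ (hmm X)
      exact (Finset.single_le_sum (f := mm) (fun _ _ => Nat.zero_le _)
        (Finset.mem_univ X)).trans (Nat.le_succ _)
    have h2 : zR (Zi (X : Matrix ι ι ℚ) ^ (∑ Y : t, mm Y + 1)) = 0 := by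
      rw [uniInt_zR_pow, hZi, smul_pow]
      have h3 : toR (X : Matrix ι ι ℚ) ^ (∑ Y : t, mm Y + 1) = 0 := by
        rw [toR_eq_mapMatrix, ← map_pow, h1, map_zero]
      rw [h3, smul_zero]
    ext i j
    have h4 := congrFun (congrFun h2 i) j
    simp only [zR, Matrix.map_apply, Matrix.zero_apply] at h4
    rw [Matrix.zero_apply]
    exact_mod_cast h4
  · intro k
    rw [hZi]
    exact Submodule.smul_mem _ _ (Submodule.subset_span ⟨_, (htA (eq.symm k).2).1, rfl⟩)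
  · -- spanning
    set T : Set (Matrix ι ι ℝ) :=
      {Z | ∃ k : Fin t.card, Z = zR (Zi (eq.symm k : Matrix ι ι ℚ))} with hTdef
    have hA1 : ∀ X ∈ Al 𝔤 S e, toR X ∈ Submodule.span ℝ T := by
      intro X hX
      have h1 : X ∈ Submodule.span ℚ (t : Set (Matrix ι ι ℚ)) := by
        rw [← htspan]; exact Submodule.subset_span hX
      refine Fam_toR_span _ ?_ h1
      intro Y hY
      have hYt : Y ∈ t := hY
      have hd0 : (dd Y : ℝ) ≠ 0 := by exact_mod_cast (hdd Y).ne'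
      have h2 : toR Y = (dd Y : ℝ)⁻¹ • zR (Zi Y) := by
        rw [hZi, smul_smul, inv_mul_cancel₀ hd0, one_smul]
      rw [h2]
      refine Submodule.smul_mem _ _ (Submodule.subset_span ⟨eq ⟨Y, hYt⟩, ?_⟩)
      rw [Equiv.symm_apply_apply]
    refine Submodule.span_le.2 ?_
    rintro _ ⟨Y, hY, rfl⟩
    refine Fam_toR_span _ ?_ (mem_span_Al h𝔤 hS hSD' he he0 hY)
    rintro X (hX | ⟨X₁, hX₁, X₂, hX₂, rfl⟩)
    · exact Submodule.span_mono Set.subset_union_left (hA1 X hX)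
    · rw [toR_sub, toR_mul, toR_mul]
      exact Submodule.span_mono Set.subset_union_right (Fam_bracket (hA1 _ hX₁) (hA1 _ hX₂))
  · intro k z hz hz0
    obtain ⟨s, hs, hsz⟩ := hinj z hz hz0
    obtain ⟨-, ⟨α, hα⟩, c, hc, hcX⟩ := htA (eq.symm k).2
    obtain ⟨C, hC1, hC2, hC3⟩ := exists_C S P hP e he _ α hα c hc hcX E hcomm
      (fun x hx => trZ_realSpan h𝔤 x (hE hx)) hperp z hz s hs hsz
    refine ⟨C, ⟨?_, ?_⟩, ?_⟩
    · rw [hcz, hZi, Matrix.mul_smul, Matrix.smul_mul]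
      exact Fam_blk_smul hC1 _
    · intro z' hz'
      rw [hcz]
      exact hC2 z' hz'
    · rw [hcz]
      exact hC3

/-- The condition `Stab` for the one-parameter groups attached to `X`.

Proof. `Y = exp(t N! cz P₀ (zR X))`; use `blk_exp`, `det_blk_exp`, `sum_diag_eq_zero_of_pow`
(`cz P₀ (zR X)` is nilpotent). -/
theorem stab_of_blk (P₀ : Matrix ι ι ℤ) (hP₀ : P₀.det ≠ 0) (X : Matrix ι ι ℤ) (N : ℕ)
    (hX : X ^ (N + 1) = 0) (C : Finset ι) (hC : Blk C (cz P₀ (zR X))) (q : SLR ι) (r : ℝ)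
    (hq : (q : Matrix ι ι ℝ) = NormedSpace.exp (r • zR X)) : Stab C P₀ q := by
  have hdet : IsUnit (zR P₀).det := by
    rw [Fam_zR_det]
    exact isUnit_iff_ne_zero.2 (by exact_mod_cast hP₀)
  have hU : IsUnit (zR P₀) := (Matrix.isUnit_iff_isUnit_det _).2 hdet
  have hB : Blk C (r • cz P₀ (zR X)) := Fam_blk_smul hC r
  refine ⟨NormedSpace.exp (r • cz P₀ (zR X)), ?_, (blk_exp hB).1, ?_⟩
  · have h1 : r • cz P₀ (zR X) = (zR P₀)⁻¹ * (r • zR X) * zR P₀ := by
      unfold cz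
      rw [Matrix.mul_smul, Matrix.smul_mul]
    rw [hq, h1, Matrix.exp_conj' _ _ hU, ← mul_assoc, ← mul_assoc,
      Matrix.mul_nonsing_inv _ hdet, one_mul]
  · rw [det_blk_exp hB]
    have h2 : (cz P₀ (zR X)) ^ (N + 1) = 0 := by
      have h3 : ∀ m : ℕ, (cz P₀ (zR X)) ^ m = (zR P₀)⁻¹ * (zR X) ^ m * zR P₀ := by
        intro m
        induction m with
        | zero => rw [pow_zero, pow_zero, mul_one, Matrix.nonsing_inv_mul _ hdet]
        | succ m ih =>
          rw [pow_succ, ih]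
          unfold cz
          calc (zR P₀)⁻¹ * zR X ^ m * zR P₀ * ((zR P₀)⁻¹ * zR X * zR P₀)
              = (zR P₀)⁻¹ * zR X ^ m * (zR P₀ * (zR P₀)⁻¹) * zR X * zR P₀ := by
                simp only [mul_assoc]
            _ = (zR P₀)⁻¹ * zR X ^ (m + 1) * zR P₀ := by
                rw [Matrix.mul_nonsing_inv _ hdet, mul_one, pow_succ]
                simp only [mul_assoc]
      rw [h3, ← uniInt_zR_pow, hX]
      have h4 : zR (0 : Matrix ι ι ℤ) = 0 := by
        ext i j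
        simp [zR]
      rw [h4, mul_zero, zero_mul]
    have h5 := sum_diag_eq_zero_of_pow hC h2
    have h6 : ∑ i ∈ C, (r • cz P₀ (zR X)) i i = 0 := by
      simp only [Matrix.smul_apply, smul_eq_mul]
      rw [← Finset.mul_sum, h5, mul_zero]
    rw [h6, Real.exp_zero]

end Pool.Agent.W_MP_bb6588_G
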