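import Mathlib
import Pool.Agent.W_MP_bb6588_G.Exp
import Pool.Agent.W_MP_bb6588_an.ExpSum

set_option autoImplicit false

/-!
# The closed condition equivalent to contraction
-/

namespace Pool.Agent.W_MP_bb6588_G

open Matrix Filter Topology
open Pool.Agent.W_MP_bb6588_an (SLR SLZ nrm Dig step expo dlt val)

variable {ι : Type} [Fintype ι] [DecidableEq ι]

/-- Left multiplication of the matrix of variables by a constant matrix. -/
theorem exists_leftMul (Q : MvPolynomial (ι × ι) ℝ) (B : Matrix ι ι ℝ) :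
    ∃ Q' : MvPolynomial (ι × ι) ℝ, ∀ M : Matrix ι ι ℝ, val Q' M = val Q (B * M) := by
  refine ⟨MvPolynomial.bind₁ (fun q : ι × ι =>
    ∑ k, MvPolynomial.C (B q.1 k) * MvPolynomial.X (k, q.2)) Q, fun M => ?_⟩
  have h1 : (fun q : ι × ι => (B * M) q.1 q.2) = fun q : ι × ι =>
      MvPolynomial.eval (fun q : ι × ι => M q.1 q.2)
        (∑ k, MvPolynomial.C (B q.1 k) * MvPolynomial.X (k, q.2)) := by
    funext q
    rw [Matrix.mul_apply, map_sum]
    refine Finset.sum_congr rfl fun k _ => ?_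
    rw [map_mul, MvPolynomial.eval_C, MvPolynomial.eval_X]
  have h2 : val Q (B * M) = MvPolynomial.eval (fun q : ι × ι => (B * M) q.1 q.2) Q := rfl
  rw [h2, h1]
  exact MvPolynomial.eval₂Hom_bind₁ (RingHom.id ℝ) (fun q : ι × ι => M q.1 q.2) _ Q

/-- The exponential of a diagonalizable matrix. -/
theorem annG_exp (R : (Matrix ι ι ℝ)ˣ) (d : ι → ℝ) (t : ℝ) :
    NormedSpace.exp (t • ((R : Matrix ι ι ℝ) * Matrix.diagonal d *
      ((R⁻¹ : (Matrix ι ι ℝ)ˣ) : Matrix ι ι ℝ))) =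
      (R : Matrix ι ι ℝ) * Pool.Agent.W_MP_bb6588_an.dg t d *
        ((R⁻¹ : (Matrix ι ι ℝ)ˣ) : Matrix ι ι ℝ) := by
  have h1 : t • ((R : Matrix ι ι ℝ) * Matrix.diagonal d *
      ((R⁻¹ : (Matrix ι ι ℝ)ˣ) : Matrix ι ι ℝ)) =
      (R : Matrix ι ι ℝ) * Matrix.diagonal (fun i => t * d i) *
        ((R⁻¹ : (Matrix ι ι ℝ)ˣ) : Matrix ι ι ℝ) := by
    have h2 : Matrix.diagonal (fun i => t * d i) = t • Matrix.diagonal d := by
      ext i j
      rw [Matrix.smul_apply, Matrix.diagonal_apply, Matrix.diagonal_apply]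
      split_ifs <;> simp
    rw [h2, Matrix.mul_smul, Matrix.smul_mul]
  rw [h1, Matrix.exp_units_conj, Matrix.exp_diagonal]
  congr 2
  unfold Pool.Agent.W_MP_bb6588_an.dg
  congr 1
  funext i
  rw [Pi.coe_exp, Real.exp_eq_exp_ℝ]

/-- For a finite family `Q` of polynomials and a diagonalizable `η` there is a finite family `R` of
polynomials such that the common zeros of `R` are exactly the matrices `M` with
`Q a (exp(k η) M) → 0` for all `a`; convergence along a subsequence is sufficient.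

Proof. `η = B diag(d) B⁻¹`, `exp(t η) M = B dg(t, d) (B⁻¹ M)` (`dg` from `W_MP_bb6588_an.ExpSum`).
Apply `W_MP_bb6588_an.exists_ann` to the polynomials `M' ↦ Q a (B M')` (`exists_leftMul`) and `d`,
and compose the resulting polynomials with `M ↦ B⁻¹ M` (`exists_leftMul`). -/
theorem exists_annG {r : ℕ} (Q : Fin r → MvPolynomial (ι × ι) ℝ) (η : Matrix ι ι ℝ) (hη : Dg η) :
    ∃ (s : ℕ) (R : Fin s → MvPolynomial (ι × ι) ℝ), ∀ M : Matrix ι ι ℝ,
      (∀ φ : ℕ → ℕ, StrictMono φ →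
        (∀ a, Tendsto (fun k => val (Q a) (NormedSpace.exp ((φ k : ℝ) • η) * M)) atTop (𝓝 0)) →
        ∀ j, val (R j) M = 0) ∧
      ((∀ j, val (R j) M = 0) →
        ∀ a, Tendsto (fun k : ℕ => val (Q a) (NormedSpace.exp ((k : ℝ) • η) * M))
          atTop (𝓝 0)) := by
  obtain ⟨R, d, rfl⟩ := hη
  choose Q' hQ' using fun a => exists_leftMul (Q a) (R : Matrix ι ι ℝ)
  obtain ⟨s, T, hT⟩ := Pool.Agent.W_MP_bb6588_an.exists_ann Q' d
  choose T' hT' using fun j => exists_leftMul (T j) ((R⁻¹ : (Matrix ι ι ℝ)ˣ) : Matrix ι ι ℝ)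
  refine ⟨s, T', fun M => ?_⟩
  obtain ⟨h1, h2⟩ := hT (((R⁻¹ : (Matrix ι ι ℝ)ˣ) : Matrix ι ι ℝ) * M)
  have key : ∀ (a : Fin r) (t : ℝ), val (Q a) (NormedSpace.exp (t • ((R : Matrix ι ι ℝ) *
      Matrix.diagonal d * ((R⁻¹ : (Matrix ι ι ℝ)ˣ) : Matrix ι ι ℝ))) * M) =
      val (Q' a) (Pool.Agent.W_MP_bb6588_an.dg t d *
        (((R⁻¹ : (Matrix ι ι ℝ)ˣ) : Matrix ι ι ℝ) * M)) := by
    intro a t
    rw [annG_exp, hQ']
    simp only [mul_assoc]
  constructor
  · intro φ hφ h j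
    rw [hT']
    refine h1 φ hφ (fun a => ?_) j
    have h3 := h a
    simp only [key] at h3
    exact h3
  · intro h a
    simp only [key]
    refine h2 (fun j => ?_) a
    have h3 := h j
    rw [hT'] at h3
    exact h3

end Pool.Agent.W_MP_bb6588_G
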