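import Mathlib
import Pool.Agent.W_MP_bb6588_G.UniLim

set_option autoImplicit false

/-!
# Replacing real parameters by digits

Compare `Pool/Agent/W_MP_bb6588_an/Grid.lean`, where the same is done for the matrices `tv q t`.
-/

namespace Pool.Agent.W_MP_bb6588_G

open Matrix Filter Topology
open Pool.Agent.W_MP_bb6588_an (SLR SLZ nrm Dig step expo dlt val)

variable {ι : Type} [Fintype ι] [DecidableEq ι] {κ : Type}

/-- Evaluation of a polynomial in polynomials of one variable. -/
theorem gridU_eval_aeval {σ : Type} (g : σ → Polynomial ℝ) (R : MvPolynomial σ ℝ) (t : ℝ) :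
    (MvPolynomial.aeval g R).eval t = MvPolynomial.eval (fun p => (g p).eval t) R := by
  induction R using MvPolynomial.induction_on with
  | C a => simp
  | add p q hp hq => simp [hp, hq]
  | mul_X p n hp => simp [hp]

/-- For a polynomial `R` and `A, B ∈ SL`, the function `t ↦ R(A * u k t * B)` is a polynomial in
`t` of degree at most `N` times the total degree of `R`.

Proof. The entries of `A * u k t * B` are polynomials in `t` of degree `≤ N` (`U.poly`); substitute
them into `R` (`MvPolynomial.aeval_natDegree_le` or as in `W_MP_bb6588_an.exists_poly`). -/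
theorem exists_polyU (U : UniFam κ ι) (R : MvPolynomial (ι × ι) ℝ) (A B : SLR ι) (k : κ) :
    ∃ f : Polynomial ℝ, f.natDegree ≤ R.totalDegree * U.N ∧
      ∀ t : ℝ, f.eval t = val R ((A * U.u k t * B : SLR ι) : Matrix ι ι ℝ) := by
  let g : ι × ι → Polynomial ℝ := fun p => ∑ j ∈ Finset.range (U.N + 1),
    Polynomial.C (((A : Matrix ι ι ℝ) * zR (U.M k j) * (B : Matrix ι ι ℝ)) p.1 p.2) *
      Polynomial.X ^ j
  refine ⟨MvPolynomial.aeval g R, ?_, fun t => ?_⟩
  · refine MvPolynomial.aeval_natDegree_le (m := R.totalDegree) (n := U.N) R le_rfl g ?_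
    intro p
    refine Polynomial.natDegree_sum_le_of_forall_le _ _ fun j hj => ?_
    exact (Polynomial.natDegree_C_mul_X_pow_le _ _).trans
      (Nat.lt_succ_iff.1 (Finset.mem_range.1 hj))
  · rw [gridU_eval_aeval]
    unfold val
    congr 2
    funext p
    rw [Matrix.SpecialLinearGroup.coe_mul, Matrix.SpecialLinearGroup.coe_mul, U.poly,
      Finset.mul_sum, Finset.sum_mul, Matrix.sum_apply]
    simp only [g, Polynomial.eval_finsetSum, Polynomial.eval_mul, Polynomial.eval_C,
      Polynomial.eval_pow, Polynomial.eval_X]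
    refine Finset.sum_congr rfl fun j _ => ?_
    rw [Matrix.mul_smul, Matrix.smul_mul, Matrix.smul_apply, smul_eq_mul, mul_comm]

/-- One step: a real parameter is replaced by a digit. -/
theorem gridU_step_digit (U : UniFam κ ι) (p : ℕ → κ) (q : κ)
    (hq : ∀ L : ℕ, ∃ l, L ≤ l ∧ p l = q)
    (b : Dig) (L : ℕ) (R : MvPolynomial (ι × ι) ℝ) (A : SLR ι) (t : ℝ)
    (h : val R ((A * U.u q t * partU U p b L : SLR ι) : Matrix ι ι ℝ) ≠ 0) :
    ∃ (b' : Dig) (L' : ℕ), L ≤ L' ∧ (∀ l, l < L → b' l = b l) ∧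
      val R ((A * partU U p b' L' : SLR ι) : Matrix ι ι ℝ) ≠ 0 := by
  obtain ⟨f, hf1, hf2⟩ := exists_polyU U R A (partU U p b L) q
  have hf0 : f ≠ 0 := by
    rintro rfl
    apply h
    rw [← hf2 t, Polynomial.eval_zero]
  obtain ⟨l, hl, hpl⟩ := hq (max L (R.totalDegree * U.N))
  have hLl : L ≤ l := (le_max_left _ _).trans hl
  have hDl : R.totalDegree * U.N ≤ l := (le_max_right _ _).trans hl
  have hβ : ∃ β : Fin (l + 1), f.eval (((β : ℕ) : ℝ) / 2 ^ (l + 1).factorial) ≠ 0 := by
    by_contra hcon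
    push Not at hcon
    apply hf0
    refine Polynomial.eq_zero_of_natDegree_lt_card_of_eval_eq_zero f (ι := Fin (l + 1)) ?_ hcon ?_
    · intro β β' hββ
      have h2 : (2 : ℝ) ^ (l + 1).factorial ≠ 0 := pow_ne_zero _ two_ne_zero
      have h3 : ((β : ℕ) : ℝ) = ((β' : ℕ) : ℝ) := by
        have h4 := congrArg (fun z => z * (2 : ℝ) ^ (l + 1).factorial) hββ
        simpa [div_mul_cancel₀ _ h2] using h4
      exact Fin.ext (by exact_mod_cast h3)
    · rw [Fintype.card_fin]
      omega
  obtain ⟨β, hβ⟩ := hβ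
  let b0 : Dig := fun i => if i < L then b i else 0
  let b1 : Dig := Function.update b0 l β
  have hb1l : b1 l = β := Function.update_self _ _ _
  have hb1 : ∀ i, i ≠ l → b1 i = b0 i := fun i hi => Function.update_of_ne hi _ _
  have hb1L : ∀ i, i < L → b1 i = b i := by
    intro i hi
    rw [hb1 i (by omega)]
    exact if_pos hi
  refine ⟨b1, l + 1, by omega, hb1L, ?_⟩
  have h1 : partU U p b1 l = partU U p b L := by
    rw [partU_eq_of_zero U p b1 L l hLl, partU_congr U p b b1 L hb1L]
    intro i hi1 hi2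
    rw [hb1 i (by omega)]
    have : b0 i = 0 := if_neg (by omega)
    rw [this]
    rfl
  have h2 : partU U p b1 (l + 1) = U.u q (((β : ℕ) : ℝ) / 2 ^ (l + 1).factorial) *
      partU U p b L := by
    rw [partU, h1, hpl, step, hb1l]
  rw [h2, ← mul_assoc, ← hf2]
  exact hβ

/-- If `R` does not vanish on the orbit `KU U * partU p b L`, it does not vanish at `limU p b'` for
some `b'` with the same first `L` digits as `b`.

Proof. As `W_MP_bb6588_an.exists_digits`: every element of `KU U` is a product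
`u k_m t_m ⋯ u k_1 t_1` (`u k (-t) = (u k t)⁻¹`). Induction on `m`, for all `b`, `L`.
`m = 0`: take `b' l = b l` for `l < L` and `0` for `l ≥ L`; use `limU_eq_partU`, `partU_congr`.
Step: by `exists_polyU` the function `t ↦ R(A * u k_1 t * partU p b L)` is a polynomial of degree
`≤ D = R.totalDegree * N`, not zero at `t = t_1`. Choose `l ≥ max L D` with `p l = k_1`. Among the
`l + 1 > D` numbers `β / 2^{(l+1)!}`, `β = 0, …, l`, there is one which is not a root. Let `b''`
agree with `b` below `L`, be `0` at the places `L ≤ i < l`, and `β` at `l`; apply the induction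
hypothesis to `b''`, `l + 1`. -/
theorem exists_digitsU [Finite κ] (U : UniFam κ ι) (p : ℕ → κ)
    (hinf : ∀ (k : κ) (L : ℕ), ∃ l, L ≤ l ∧ p l = k) (b : Dig) (L : ℕ)
    (R : MvPolynomial (ι × ι) ℝ)
    (h : ∃ k ∈ KU U, val R ((k * partU U p b L : SLR ι) : Matrix ι ι ℝ) ≠ 0) :
    ∃ b' : Dig, (∀ l, l < L → b' l = b l) ∧
      val R ((limU U p b' : SLR ι) : Matrix ι ι ℝ) ≠ 0 := by
  obtain ⟨k, hk, hv⟩ := h
  revert b L
  refine Subgroup.closure_induction_right (p := fun k _ => ∀ (b : Dig) (L : ℕ),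
    val R ((k * partU U p b L : SLR ι) : Matrix ι ι ℝ) ≠ 0 →
    ∃ b' : Dig, (∀ l, l < L → b' l = b l) ∧
      val R ((limU U p b' : SLR ι) : Matrix ι ι ℝ) ≠ 0) ?_ ?_ ?_ hk
  · intro b L hv
    rw [one_mul] at hv
    have hb' : ∀ l, l < L → (fun i => if i < L then b i else 0 : Dig) l = b l :=
      fun l hl => if_pos hl
    refine ⟨fun i => if i < L then b i else 0, hb', ?_⟩
    rw [limU_eq_partU U p _ L (fun l hl => by rw [if_neg (by omega)]; rfl),
      partU_congr U p b _ L hb']
    exact hv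
  · rintro k' - g ⟨q, t, rfl⟩ ih b L hv
    obtain ⟨b1, L1, hL, hb1, hv1⟩ := gridU_step_digit U p q (hinf q) b L R k' t hv
    obtain ⟨b', hb', hv'⟩ := ih b1 L1 hv1
    exact ⟨b', fun l hl => (hb' l (hl.trans_le hL)).trans (hb1 l hl), hv'⟩
  · rintro k' - g ⟨q, t, rfl⟩ ih b L hv
    rw [← u_neg] at hv
    obtain ⟨b1, L1, hL, hb1, hv1⟩ := gridU_step_digit U p q (hinf q) b L R k' (-t) hv
    obtain ⟨b', hb', hv'⟩ := ih b1 L1 hv1
    exact ⟨b', fun l hl => (hb' l (hl.trans_le hL)).trans (hb1 l hl), hv'⟩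

/-- For a nonempty finite type there is a sequence in which every element occurs infinitely
often. -/
theorem exists_seq (κ : Type) [Finite κ] [Nonempty κ] :
    ∃ p : ℕ → κ, ∀ (k : κ) (L : ℕ), ∃ l, L ≤ l ∧ p l = k := by
  obtain ⟨g, hg⟩ := exists_surjective_nat κ
  refine ⟨fun l => g (Nat.unpair l).1, fun k L => ?_⟩
  obtain ⟨m, hm⟩ := hg k
  refine ⟨Nat.pair m L, Nat.right_le_pair m L, ?_⟩
  simp only [Nat.unpair_pair]
  exact hm

end Pool.Agent.W_MP_bb6588_G
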