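import Mathlib
import Pool.Agent.W_MP_bb6588_G.AnnG
import Pool.Agent.W_MP_bb6588_G.GridU

set_option autoImplicit false

/-!
# A digit sequence for which no rational vector is contracted

Compare `Pool/Agent/W_MP_bb6588_an/Generic.lean`.
-/

namespace Pool.Agent.W_MP_bb6588_G

open Matrix Filter Topology
open Pool.Agent.W_MP_bb6588_an (SLR SLZ nrm Dig step expo dlt val)

variable {ι : Type} [Fintype ι] [DecidableEq ι] {κ : Type}

/-- The `a`-th coordinate of `P(M) v`, as a real polynomial. -/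
noncomputable def coordP {m : ℕ} (P : Fin m → Fin m → MvPolynomial (ι × ι) ℚ) (v : Fin m → ℚ)
    (a : Fin m) : MvPolynomial (ι × ι) ℝ :=
  ∑ c : Fin m, pR (P a c * MvPolynomial.C (v c))

/-- If `P` describes `ρ`, then `val (coordP P v a) g = (ρ g v)_a`. -/
theorem val_coordP {G : Subgroup (SLR ι)} {m : ℕ} (ρ : G →* GL (Fin m) ℝ)
    (P : Fin m → Fin m → MvPolynomial (ι × ι) ℚ)
    (hP : ∀ (g : G) (a b : Fin m), (ρ g : Matrix (Fin m) (Fin m) ℝ) a b =
        MvPolynomial.aeval (fun p : ι × ι => ((g : SLR ι) : Matrix ι ι ℝ) p.1 p.2) (P a b))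
    (v : Fin m → ℚ) (g : G) (a : Fin m) :
    val (coordP P v a) ((g : SLR ι) : Matrix ι ι ℝ) =
      ((ρ g : Matrix (Fin m) (Fin m) ℝ) *ᵥ fun c => (v c : ℝ)) a := by
  unfold val coordP pR
  rw [map_sum]
  simp only [Matrix.mulVec, dotProduct]
  refine Finset.sum_congr rfl fun c _ => ?_
  rw [hP g a c, map_mul, MvPolynomial.map_C, map_mul, MvPolynomial.eval_C,
    MvPolynomial.eval_map, MvPolynomial.aeval_def]
  rfl

theorem genU_KU_le (G : Subgroup (SLR ι)) (U : UniFam κ ι) (hUG : ∀ k t, U.u k t ∈ G) :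
    KU U ≤ G := by
  unfold KU
  rw [Subgroup.closure_le]
  rintro g ⟨k, t, rfl⟩
  exact hUG k t

theorem genU_partU_mem (G : Subgroup (SLR ι)) (U : UniFam κ ι) (hUG : ∀ k t, U.u k t ∈ G)
    (p : ℕ → κ) (b : Dig) (L : ℕ) : partU U p b L ∈ G := by
  induction L with
  | zero => exact G.one_mem
  | succ l ih => exact G.mul_mem (hUG _ _) ih

theorem genU_coe (η : Matrix ι ι ℝ) (htr : η.trace = 0) (t : ℝ) (M : SLR ι) :
    NormedSpace.exp (t • η) * (M : Matrix ι ι ℝ) = ((eS (t • η) * M : SLR ι) : Matrix ι ι ℝ) := by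
  rw [Matrix.SpecialLinearGroup.coe_mul, coe_eS (by rw [Matrix.trace_smul, htr, smul_zero])]

/-- For one representation: the polynomials `R` of `exists_annG` (for `Q = coordP P v`) do not all
vanish on `KU U * partU U p b L`, if `v ≠ 0`. -/
theorem genU_exists_ne (G : Subgroup (SLR ι))
    (U : UniFam κ ι) (hUG : ∀ k t, U.u k t ∈ G) (p : ℕ → κ)
    (η : Matrix ι ι ℝ) (htr : η.trace = 0) (hηG : ∀ t : ℝ, eS (t • η) ∈ G)
    (H : ∀ (m : ℕ) (ρ : G →* GL (Fin m) ℝ), IsRationalRep ρ → ∀ w : Fin m → ℝ,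
      (∀ k : G, (k : SLR ι) ∈ KU U → Tendsto (fun n : ℕ =>
        (ρ (⟨eS ((n : ℝ) • η), hηG n⟩ * k) : Matrix (Fin m) (Fin m) ℝ) *ᵥ w) atTop (𝓝 0)) →
      w = 0) {m : ℕ} (ρ : G →* GL (Fin m) ℝ)
    (P : Fin m → Fin m → MvPolynomial (ι × ι) ℚ)
    (hP : ∀ (g : G) (a b : Fin m), (ρ g : Matrix (Fin m) (Fin m) ℝ) a b =
        MvPolynomial.aeval (fun p : ι × ι => ((g : SLR ι) : Matrix ι ι ℝ) p.1 p.2) (P a b))
    (v : Fin m → ℚ) (hv : v ≠ 0) (s : ℕ) (R : Fin s → MvPolynomial (ι × ι) ℝ)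
    (hR : ∀ M : Matrix ι ι ℝ, (∀ j, val (R j) M = 0) →
        ∀ a, Tendsto (fun k : ℕ => val (coordP P v a) (NormedSpace.exp ((k : ℝ) • η) * M))
          atTop (𝓝 0)) (b : Dig) (L : ℕ) :
    ∃ j, ∃ k ∈ KU U, val (R j) ((k * partU U p b L : SLR ι) : Matrix ι ι ℝ) ≠ 0 := by
  by_contra hcon
  push Not at hcon
  have hL : partU U p b L ∈ G := genU_partU_mem G U hUG p b L
  have hw : ((ρ ⟨partU U p b L, hL⟩ : Matrix (Fin m) (Fin m) ℝ) *ᵥ fun c => (v c : ℝ)) = 0 := by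
    refine H m ρ ⟨P, hP⟩ _ ?_
    intro k hk
    have h1 := hR (((k : SLR ι) * partU U p b L : SLR ι) : Matrix ι ι ℝ) (fun j => hcon j k hk)
    rw [tendsto_pi_nhds]
    intro a
    refine (h1 a).congr fun n => ?_
    have h2 := val_coordP ρ P hP v
      (⟨eS ((n : ℝ) • η), hηG n⟩ * k * ⟨partU U p b L, hL⟩ : G) a
    rw [genU_coe η htr, Matrix.mulVec_mulVec, ← Units.val_mul, ← map_mul ρ, ← h2]
    congr 2
    rw [← mul_assoc]
    rfl
  apply hv
  have h2 : (((ρ ⟨partU U p b L, hL⟩)⁻¹ : GL (Fin m) ℝ) : Matrix (Fin m) (Fin m) ℝ) *ᵥ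
      ((ρ ⟨partU U p b L, hL⟩ : Matrix (Fin m) (Fin m) ℝ) *ᵥ fun c => (v c : ℝ)) = 0 := by
    rw [hw, Matrix.mulVec_zero]
  rw [Matrix.mulVec_mulVec, ← Units.val_mul, inv_mul_cancel, Units.val_one,
    Matrix.one_mulVec] at h2
  funext a
  have := congrFun h2 a
  simpa using this

omit [DecidableEq ι] in
theorem genU_countable : Countable (MvPolynomial (ι × ι) ℚ) := by
  rw [← Cardinal.mk_le_aleph0_iff]
  refine (MvPolynomial.cardinalMk_le_max (σ := ι × ι) (R := ℚ)).trans ?_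
  exact max_le (max_le Cardinal.mk_le_aleph0 Cardinal.mk_le_aleph0) le_rfl

theorem genU_continuous [Finite κ] (U : UniFam κ ι) (p : ℕ → κ) (R : MvPolynomial (ι × ι) ℝ) :
    Continuous fun b => val R (limU U p b : Matrix ι ι ℝ) := by
  unfold val
  refine (MvPolynomial.continuous_eval R).comp ?_
  refine continuous_pi fun q => ?_
  exact (Continuous.matrix_elem (continuous_subtype_val.comp (continuous_limU U p)) q.1 q.2)

/-- Some digit sequence `b` works for all rational representations of `G` and all nonzero rational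
vectors.

Proof (Baire). `Dig` is a nonempty compact Hausdorff space, hence a Baire space. The triples
`τ = (m, P, v)` with `m : ℕ`, `P : Fin m → Fin m → MvPolynomial (ι × ι) ℚ`, `v : Fin m → ℚ` form a
countable set. For such `τ` with `v ≠ 0` for which some homomorphism `ρ : G → GL_m(ℝ)` is described
by `P`, take `R` from `exists_annG` for `Q a = coordP P v a` and let
`Z_τ = {b | ∀ j, val (R j) (limU U p b) = 0}`, a closed set (`continuous_limU`); for other `τ` let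
`Z_τ = ∅`. `Z_τ` has empty interior: otherwise it contains all `b'` which agree with some `b ∈ Z_τ`
in the first `L` digits, for some `L`; by `exists_digitsU` (contraposition)
`val (R j) (k * partU U p b L) = 0` for all `j` and all `k ∈ KU U`. By the second part of
`exists_annG`, `ρ(exp(nη) k partU) v → 0` for all `k ∈ KU U` (`partU U p b L ∈ G`, `k ∈ G`), i.e.
`ρ(exp(nη) k) w → 0` with `w = ρ(partU U p b L) v`. By the hypothesis `H`, `w = 0`, so `v = 0`, a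
contradiction. So there is `b` outside all `Z_τ`. For this `b`, if
`ρ(exp(φ_k η) limU U p b) v → 0` along a strictly increasing `φ`, then the first part of
`exists_annG` gives `b ∈ Z_τ`. -/
theorem exists_genericU [Finite κ] (G : Subgroup (SLR ι)) (hGc : IsClosed (G : Set (SLR ι)))
    (U : UniFam κ ι) (hUG : ∀ k t, U.u k t ∈ G) (p : ℕ → κ)
    (hinf : ∀ (k : κ) (L : ℕ), ∃ l, L ≤ l ∧ p l = k)
    (η : Matrix ι ι ℝ) (hη : Dg η) (htr : η.trace = 0) (hηG : ∀ t : ℝ, eS (t • η) ∈ G)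
    (H : ∀ (m : ℕ) (ρ : G →* GL (Fin m) ℝ), IsRationalRep ρ → ∀ w : Fin m → ℝ,
      (∀ k : G, (k : SLR ι) ∈ KU U → Tendsto (fun n : ℕ =>
        (ρ (⟨eS ((n : ℝ) • η), hηG n⟩ * k) : Matrix (Fin m) (Fin m) ℝ) *ᵥ w) atTop (𝓝 0)) →
      w = 0) :
    ∃ b : Dig, ∀ hb : limU U p b ∈ G, ∀ (m : ℕ) (ρ : G →* GL (Fin m) ℝ), IsRationalRep ρ →
      ∀ v : Fin m → ℚ, v ≠ 0 → ∀ φ : ℕ → ℕ, StrictMono φ →
        ¬ Tendsto (fun k => (ρ (⟨eS ((φ k : ℝ) • η), hηG (φ k)⟩ * ⟨limU U p b, hb⟩) :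
          Matrix (Fin m) (Fin m) ℝ) *ᵥ (fun a => (v a : ℝ))) atTop (𝓝 0) := by
  classical
  by_contra hcon
  push Not at hcon
  let T : Type := {t : (Σ m : ℕ, (Fin m → Fin m → MvPolynomial (ι × ι) ℚ) × (Fin m → ℚ)) //
    t.2.2 ≠ 0 ∧ ∃ ρ : G →* GL (Fin t.1) ℝ, ∀ (g : G) (a b : Fin t.1),
      (ρ g : Matrix (Fin t.1) (Fin t.1) ℝ) a b =
        MvPolynomial.aeval (fun p : ι × ι => ((g : SLR ι) : Matrix ι ι ℝ) p.1 p.2) (t.2.1 a b)}
  have hcount : Countable (MvPolynomial (ι × ι) ℚ) := genU_countable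
  have hT : Countable T := by
    infer_instance
  choose s R hR using fun t : T => exists_annG (fun a => coordP t.1.2.1 t.1.2.2 a) η hη
  let Z : T → Set Dig := fun t => {b | ∀ j, val (R t j) (limU U p b : Matrix ι ι ℝ) = 0}
  have hZ : ∀ t, IsClosed (Z t) := by
    intro t
    have : Z t = ⋂ j, (fun b => val (R t j) (limU U p b : Matrix ι ι ℝ)) ⁻¹' {0} := by
      ext b
      simp [Z]
    rw [this]
    exact isClosed_iInter fun j => (isClosed_singleton).preimage (genU_continuous U p (R t j))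
  have hU : ⋃ t, Z t = Set.univ := by
    rw [Set.eq_univ_iff_forall]
    intro b
    obtain ⟨hb, m, ρ, ⟨P, hP⟩, v, hv, φ, hφ, hlim⟩ := hcon b
    refine Set.mem_iUnion.mpr ⟨⟨⟨m, P, v⟩, hv, ρ, hP⟩, ?_⟩
    refine (hR ⟨⟨m, P, v⟩, hv, ρ, hP⟩ (limU U p b : Matrix ι ι ℝ)).1 φ hφ ?_
    intro a
    rw [tendsto_pi_nhds] at hlim
    refine (hlim a).congr fun k => ?_
    change _ = val (coordP P v a) _
    rw [genU_coe η htr, ← val_coordP ρ P hP v]
    rfl
  obtain ⟨t, b, hb⟩ := nonempty_interior_of_iUnion_of_closed hZ hU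
  obtain ⟨I, u, hIu, hsub⟩ := isOpen_pi_iff.mp (isOpen_interior (s := Z t)) b hb
  obtain ⟨⟨⟨m, P, v⟩, hv, ρ, hP⟩, rfl⟩ : ∃ t', t' = t := ⟨t, rfl⟩
  obtain ⟨j, hj⟩ := genU_exists_ne G U hUG p η htr hηG H ρ P hP v hv _ _
    (fun M => (hR ⟨⟨m, P, v⟩, hv, ρ, hP⟩ M).2) b (I.sup id + 1)
  obtain ⟨b', hb', hne⟩ := exists_digitsU U p hinf b (I.sup id + 1) _ hj
  apply hne
  have hmem : b' ∈ interior (Z ⟨⟨m, P, v⟩, hv, ρ, hP⟩) := by
    apply hsub
    intro l hl
    have hl' : l < I.sup id + 1 := Nat.lt_succ_of_le (Finset.le_sup (f := id) hl)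
    rw [hb' l hl']
    exact (hIu l hl).2
  exact interior_subset hmem j

end Pool.Agent.W_MP_bb6588_G
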