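import Mathlib
import Pool.Agent.W_MP_bb6588_G.Fam
import Pool.Agent.W_MP_bb6588_G.CoreC
import Pool.Agent.W_MP_bb6588_G.ContrB
import Pool.Agent.W_MP_bb6588_G.GenU
import Pool.Agent.W_MP_bb6588_G.Cpt

set_option autoImplicit false

/-!
# Subspaces in good position
-/

namespace Pool.Agent.W_MP_bb6588_G

open Matrix Filter Topology
open Pool.Agent.W_MP_bb6588_an (SLR SLZ nrm Dig step expo dlt val)

variable {ι : Type} [Fintype ι] [DecidableEq ι]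

/-- The case of a subspace `E` in good position.

Proof. Take `X, P₀, N` from `exists_family`, `U` from `exists_uniFam`, `p` from `exists_seq`.
`hU : ∀ k t, U.u k t ∈ G` as `U.u k t = eS ((t N!) • zR (X k))` (`eq_eS`). Let `η ∈ E`, `η ≠ 0`. The
hypothesis `H` of `exists_genericU` holds by `eq_zero_of_contract` with `V = realSpan 𝔤`,
`X₀ = {zR (X k)}`, `K = KU U`. Let `b` be the digit sequence from `exists_genericU`,
`g = limU U p b ∈ G` (`limU_mem`). The first statement is `short_all` with `limU_bound` and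
`stab_of_blk`. -/
theorem main_good {𝔤 S : Submodule ℚ (Matrix ι ι ℚ)} (h𝔤 : IsSimpleLie 𝔤) (hS : S ≤ 𝔤)
    (hSD : SDgQ S) (G : Subgroup (SLR ι)) (hGc : IsClosed (G : Set (SLR ι)))
    (hG : ∀ x ∈ realSpan 𝔤, eS x ∈ G)
    (E : Submodule ℝ (Matrix ι ι ℝ)) (hE : E ≤ realSpan 𝔤) (hED : SDg E)
    (hcomm : ∀ z ∈ E, ∀ s ∈ S, z * toR s = toR s * z)
    (hinj : ∀ z ∈ E, z ≠ 0 → ∃ s ∈ S, (toR s * z).trace ≠ 0)
    (hdim : Module.finrank ℝ E < Module.finrank ℚ S)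
    (η : Matrix ι ι ℝ) (hη : η ∈ E) (hη0 : η ≠ 0) :
    ∃ g : G, (∀ ε : ℝ, 0 < ε → ∃ T : ℝ, ∀ z ∈ E, T ≤ nrm z →
        ShortW (NormedSpace.exp z * ((g : SLR ι) : Matrix ι ι ℝ)) ε) ∧
      ∀ (m : ℕ) (ρ : G →* GL (Fin m) ℝ), IsRationalRep ρ →
        ∀ v : Fin m → ℚ, v ≠ 0 → ∀ φ : ℕ → ℕ, StrictMono φ →
          ¬ Tendsto (fun k => (ρ (⟨eS ((φ k : ℝ) • η), hG _ ((realSpan 𝔤).smul_mem _ (hE hη))⟩ * g) :
            Matrix (Fin m) (Fin m) ℝ) *ᵥ (fun a => (v a : ℝ))) atTop (𝓝 0) := by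
  obtain ⟨n, N, X, P₀, hn, hP₀, hXN, hXg, hgen, hC⟩ :=
    exists_family h𝔤 hS hSD E hE hcomm hinj hdim
  obtain ⟨U, hU⟩ := exists_uniFam X N hXN
  have : Nonempty (Fin n) := ⟨⟨0, hn⟩⟩
  obtain ⟨p, hp⟩ := exists_seq (Fin n)
  have hTr : TrZ (realSpan 𝔤) := trZ_realSpan h𝔤
  have hUG : ∀ k t, U.u k t ∈ G := by
    intro k t
    rw [eq_eS (hU k t)]
    exact hG _ ((realSpan 𝔤).smul_mem _ (hXg k))
  have hηV : η ∈ realSpan 𝔤 := hE hη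
  have hηT : η.trace = 0 := hTr η hηV
  have hηD : Dg η := by
    obtain ⟨R, hR⟩ := hED
    obtain ⟨d, hd⟩ := hR η hη
    exact ⟨R, d, hd⟩
  have hηG : ∀ t : ℝ, eS (t • η) ∈ G := fun t => hG _ ((realSpan 𝔤).smul_mem _ hηV)
  have H : ∀ (m : ℕ) (ρ : G →* GL (Fin m) ℝ), IsRationalRep ρ → ∀ w : Fin m → ℝ,
      (∀ k : G, (k : SLR ι) ∈ KU U → Tendsto (fun n : ℕ =>
        (ρ (⟨eS ((n : ℝ) • η), hηG n⟩ * k) : Matrix (Fin m) (Fin m) ℝ) *ᵥ w) atTop (𝓝 0)) →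
      w = 0 := by
    intro m ρ hρ w hw
    obtain ⟨P, hP⟩ := hρ
    refine eq_zero_of_contract ρ (fun a b => pR (P a b)) ?_ (realSpan 𝔤) (isLie_realSpan h𝔤) hTr hG
      (realSpan_le_span_bracket h𝔤) {Z | ∃ k, Z = zR (X k)} ?_ hgen (KU U) ?_ η hηV w hw
    · intro g a b
      rw [hP g a b]
      unfold val pR
      rw [MvPolynomial.eval_map, MvPolynomial.aeval_def]
    · rintro _ ⟨k, rfl⟩
      exact hXg k
    · rintro _ ⟨k, rfl⟩ t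
      refine Subgroup.subset_closure ⟨k, t / (N.factorial : ℝ), ?_⟩
      rw [eq_eS (hU k _)]
      congr 1
      rw [div_mul_cancel₀ _ (by exact_mod_cast N.factorial_ne_zero)]
  obtain ⟨b, hb⟩ := exists_genericU G hGc U hUG p hp η hηD hηT hηG H
  have hmem : limU U p b ∈ G := limU_mem U p b G hGc hUG
  refine ⟨⟨limU U p b, hmem⟩, ?_, ?_⟩
  · obtain ⟨K, hK, hKb⟩ := limU_bound U p
    have hst : ∀ k, ∀ z ∈ E, z ≠ 0 → ∃ C : Finset ι,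
        ((∀ t, Stab C P₀ (U.u k t)) ∧ ∀ z' ∈ E, Blk C (cz P₀ z')) ∧
          ∑ i ∈ C, cz P₀ z i i < 0 := by
      intro k z hz hz0
      obtain ⟨C, ⟨h1, h2⟩, h3⟩ := hC k z hz hz0
      exact ⟨C, ⟨fun t => stab_of_blk P₀ hP₀ (X k) N (hXN k) C h1 _ _ (hU k t), h2⟩, h3⟩
    exact short_all U p b (limU U p b) K hK (hKb b) P₀ hP₀ E hst
  · intro m ρ hρ v hv φ hφ
    exact hb hmem m ρ hρ v hv φ hφ

end Pool.Agent.W_MP_bb6588_G
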