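import Mathlib
import Pool.Agent.W_MP_bb6588_G.Lev

set_option autoImplicit false

/-!
# Multiplicative properties of the level filtration
-/

namespace Pool.Agent.W_MP_bb6588_G

open Matrix Filter Topology
open Pool.Agent.W_MP_bb6588_an (SLR SLZ nrm Dig step expo dlt val)

variable {ι : Type} [Fintype ι] [DecidableEq ι]

theorem Up_le_Upe (R : (Matrix ι ι ℝ)ˣ) (d : ι → ℝ) (μ : ℝ) : Up R d μ ≤ Upe R d μ := by
  intro x hx i j h
  exact hx i j h.le

theorem Upe_le_Up (R : (Matrix ι ι ℝ)ˣ) (d : ι → ℝ) {μ ν : ℝ} (h : μ < ν) :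
    Upe R d ν ≤ Up R d μ := by
  intro x hx i j h1
  exact hx i j (h1.trans_lt h)

theorem Up_mono (R : (Matrix ι ι ℝ)ˣ) (d : ι → ℝ) {μ ν : ℝ} (h : μ ≤ ν) :
    Up R d ν ≤ Up R d μ := by
  intro x hx i j h1
  exact hx i j (h1.trans h)

theorem Upe_mul_Upe {R : (Matrix ι ι ℝ)ˣ} {d : ι → ℝ} {μ ν : ℝ} {x y : Matrix ι ι ℝ}
    (hx : x ∈ Upe R d μ) (hy : y ∈ Upe R d ν) : x * y ∈ Upe R d (μ + ν) := by
  intro i j h
  rw [cj_mul, Matrix.mul_apply]
  refine Finset.sum_eq_zero fun k _ => ?_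
  rcases lt_or_ge (d i - d k) μ with h1 | h1
  · rw [hx i k h1, zero_mul]
  · rw [hy k j (by linarith), mul_zero]

theorem Up_mul_Upe {R : (Matrix ι ι ℝ)ˣ} {d : ι → ℝ} {μ ν : ℝ} {x y : Matrix ι ι ℝ}
    (hx : x ∈ Up R d μ) (hy : y ∈ Upe R d ν) : x * y ∈ Up R d (μ + ν) := by
  intro i j h
  rw [cj_mul, Matrix.mul_apply]
  refine Finset.sum_eq_zero fun k _ => ?_
  rcases le_or_gt (d i - d k) μ with h1 | h1
  · rw [hx i k h1, zero_mul]
  · rw [hy k j (by linarith), mul_zero]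

theorem Upe_mul_Up {R : (Matrix ι ι ℝ)ˣ} {d : ι → ℝ} {μ ν : ℝ} {x y : Matrix ι ι ℝ}
    (hx : x ∈ Upe R d μ) (hy : y ∈ Up R d ν) : x * y ∈ Up R d (μ + ν) := by
  intro i j h
  rw [cj_mul, Matrix.mul_apply]
  refine Finset.sum_eq_zero fun k _ => ?_
  rcases lt_or_ge (d i - d k) μ with h1 | h1
  · rw [hx i k h1, zero_mul]
  · rw [hy k j (by linarith), mul_zero]

theorem one_mem_Upe (R : (Matrix ι ι ℝ)ˣ) (d : ι → ℝ) : (1 : Matrix ι ι ℝ) ∈ Upe R d 0 := by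
  intro i j h
  rw [cj_one]
  refine Matrix.one_apply_ne fun hij => ?_
  rw [hij, sub_self] at h
  exact lt_irrefl _ h

theorem mkD_mem_Upe (R : (Matrix ι ι ℝ)ˣ) (d : ι → ℝ) : mkD R d ∈ Upe R d 0 := by
  intro i j h
  rw [cj_mkD]
  refine Matrix.diagonal_apply_ne _ fun hij => ?_
  rw [hij, sub_self] at h
  exact lt_irrefl _ h

theorem mem_Upe_of_bracket {R : (Matrix ι ι ℝ)ˣ} {d : ι → ℝ} {μ : ℝ} {x : Matrix ι ι ℝ}
    (h : mkD R d * x - x * mkD R d = μ • x) : x ∈ Upe R d μ := by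
  intro i j h1
  have h2 := congrArg (fun z => cj R z i j) h
  simp only [cj_sub, cj_mul, cj_mkD, cj_smul, Matrix.sub_apply, Matrix.smul_apply, smul_eq_mul,
    Matrix.diagonal_mul, Matrix.mul_diagonal] at h2
  have h3 : (d i - d j - μ) * cj R x i j = 0 := by linarith
  exact (mul_eq_zero.1 h3).resolve_left (by linarith)

/-- An element of `Up R d 0` has zero diagonal in the basis `R`. -/
theorem trace_eq_zero_of_mem_Up {R : (Matrix ι ι ℝ)ˣ} {d : ι → ℝ} {x : Matrix ι ι ℝ}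
    (hx : x ∈ Up R d 0) : x.trace = 0 := by
  rw [← trace_cj R x, Matrix.trace]
  exact Finset.sum_eq_zero fun i _ => hx i i (sub_self _).le

theorem pow_mem_Upe {R : (Matrix ι ι ℝ)ˣ} {d : ι → ℝ} {μ : ℝ} {x : Matrix ι ι ℝ}
    (hx : x ∈ Upe R d μ) (k : ℕ) : x ^ k ∈ Upe R d (k * μ) := by
  induction k with
  | zero =>
    rw [pow_zero, Nat.cast_zero, zero_mul]
    exact one_mem_Upe R d
  | succ k ih =>
    rw [pow_succ, Nat.cast_succ, add_mul, one_mul]
    exact Upe_mul_Upe ih hx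

/-- Proof. Let `δ > 0` be smaller than all positive differences `d i - d j`; then `x ∈ Upe R d δ`,
`x ^ k ∈ Upe R d (k δ)` and this is `0` for large `k`. -/
theorem isNilpotent_of_mem_Up {R : (Matrix ι ι ℝ)ˣ} {d : ι → ℝ} {x : Matrix ι ι ℝ}
    (hx : x ∈ Up R d 0) : IsNilpotent x := by
  classical
  obtain ⟨δ, hδ, hδ1⟩ : ∃ δ : ℝ, 0 < δ ∧ ∀ i j, 0 < d i - d j → δ ≤ d i - d j := by
    let F : Finset ℝ := (Finset.univ.image fun q : ι × ι => d q.1 - d q.2).filter (0 < ·)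
    by_cases hF : F.Nonempty
    · refine ⟨F.min' hF, (Finset.mem_filter.1 (F.min'_mem hF)).2, fun i j h => ?_⟩
      exact F.min'_le _ (Finset.mem_filter.2 ⟨Finset.mem_image.2 ⟨(i, j), Finset.mem_univ _, rfl⟩, h⟩)
    · refine ⟨1, one_pos, fun i j h => absurd ⟨d i - d j, ?_⟩ hF⟩
      exact Finset.mem_filter.2 ⟨Finset.mem_image.2 ⟨(i, j), Finset.mem_univ _, rfl⟩, h⟩
  obtain ⟨B, hB⟩ : ∃ B : ℝ, ∀ i j, d i - d j < B := by
    obtain ⟨B, hB⟩ := (Set.finite_range fun q : ι × ι => d q.1 - d q.2).bddAbove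
    exact ⟨B + 1, fun i j => (hB ⟨(i, j), rfl⟩).trans_lt (lt_add_one B)⟩
  have hxδ : x ∈ Upe R d δ := fun i j h =>
    hx i j (not_lt.1 fun h1 => absurd (hδ1 i j h1) (not_le.2 h))
  obtain ⟨k, hk⟩ := exists_nat_gt (B / δ)
  refine ⟨k, cj_inj R ?_⟩
  ext i j
  rw [pow_mem_Upe hxδ k i j ((hB i j).trans ((div_lt_iff₀ hδ).1 hk))]
  simp [cj]

/-- On `Upe R d 0` the component in level `0` is multiplicative. -/
theorem lev_zero_mul {R : (Matrix ι ι ℝ)ˣ} {d : ι → ℝ} {x y : Matrix ι ι ℝ}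
    (hx : x ∈ Upe R d 0) (hy : y ∈ Upe R d 0) :
    lev R d 0 (x * y) = lev R d 0 x * lev R d 0 y := by
  refine cj_inj R ?_
  ext i j
  rw [cj_mul, cj_lev, cj_lev, cj_lev, Matrix.mul_apply, Matrix.of_apply, cj_mul, Matrix.mul_apply]
  by_cases hij : d i - d j = 0
  · rw [if_pos hij]
    refine Finset.sum_congr rfl fun k _ => ?_
    rw [Matrix.of_apply, Matrix.of_apply]
    rcases lt_trichotomy (d i - d k) 0 with h1 | h1 | h1
    · rw [if_neg h1.ne, hx i k h1, zero_mul, zero_mul]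
    · rw [if_pos h1, if_pos (by linarith)]
    · rw [if_neg h1.ne', hy k j (by linarith), mul_zero, zero_mul]
  · rw [if_neg hij]
    symm
    refine Finset.sum_eq_zero fun k _ => ?_
    rw [Matrix.of_apply, Matrix.of_apply]
    by_cases h1 : d i - d k = 0
    · have h3 : ¬ d k - d j = 0 := fun h2 => hij (by linarith)
      rw [if_neg h3, mul_zero]
    · rw [if_neg h1, zero_mul]

/-- Proof. `y₀ = lev 0 y` is nilpotent (`lev_zero_mul`) and commutes with `a = mkD R d`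
(`bracket_lev`), so `y₀ a` is nilpotent and has trace `0`; `(y - y₀) a` has zero diagonal in the
basis `R`. -/
theorem trace_mul_mkD_eq_zero {R : (Matrix ι ι ℝ)ˣ} {d : ι → ℝ} {y : Matrix ι ι ℝ}
    (hy : y ∈ Upe R d 0) (hn : IsNilpotent y) : (mkD R d * y).trace = 0 := by
  have h0 : lev R d 0 (0 : Matrix ι ι ℝ) = 0 := by
    have h := lev_smul R d 0 0 (0 : Matrix ι ι ℝ)
    rwa [zero_smul, zero_smul] at h
  have hp : ∀ k : ℕ, lev R d 0 (y ^ (k + 1)) = lev R d 0 y ^ (k + 1) ∧ y ^ (k + 1) ∈ Upe R d 0 := by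
    intro k
    induction k with
    | zero => exact ⟨by rw [zero_add, pow_one, pow_one], by rwa [zero_add, pow_one]⟩
    | succ k ih =>
      refine ⟨?_, ?_⟩
      · rw [pow_succ y (k + 1), lev_zero_mul ih.2 hy, ih.1, ← pow_succ]
      · rw [pow_succ y (k + 1)]
        have h := Upe_mul_Upe ih.2 hy
        rwa [add_zero] at h
  have hn0 : IsNilpotent (lev R d 0 y) := by
    obtain ⟨n, hn⟩ := hn
    refine ⟨n + 1, ?_⟩
    rw [← (hp n).1, pow_succ, hn, zero_mul, h0]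
  have hc : Commute (mkD R d) (lev R d 0 y) := by
    have h := bracket_lev R d 0 y
    rw [zero_smul] at h
    exact sub_eq_zero.1 h
  have h1 : (mkD R d * lev R d 0 y).trace = 0 :=
    (Matrix.isNilpotent_trace_of_isNilpotent (hc.isNilpotent_mul_left hn0)).eq_zero
  have h2 : (mkD R d * (y - lev R d 0 y)).trace = 0 := by
    rw [← trace_cj R, cj_mul, cj_sub, cj_mkD, cj_lev, Matrix.trace]
    refine Finset.sum_eq_zero fun i _ => ?_
    rw [Matrix.diag_apply, Matrix.diagonal_mul, Matrix.sub_apply, Matrix.of_apply,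
      if_pos (sub_self _), sub_self, mul_zero]
  rw [mul_sub, Matrix.trace_sub, h1, sub_zero] at h2
  exact h2

/-- `exp(w) ∈ 1 + w + Up μ` for `w` of level `μ > 0`.

Proof. `w ^ k ∈ Upe (k μ) ≤ Up μ` for `k ≥ 2`; the exponential series; `Up` is closed (finite
dimension). -/
theorem exp_sub_mem_Up {R : (Matrix ι ι ℝ)ˣ} {d : ι → ℝ} {μ : ℝ} (hμ : 0 < μ)
    {w : Matrix ι ι ℝ} (h : mkD R d * w - w * mkD R d = μ • w) :
    NormedSpace.exp w - 1 - w ∈ Up R d μ := by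
  have hw := mem_Upe_of_bracket h
  obtain ⟨n, hn⟩ := isNilpotent_of_mem_Up (Upe_le_Up R d hμ hw)
  have hexp : NormedSpace.exp w = ∑ k ∈ Finset.range (n + 2), ((k.factorial : ℝ)⁻¹) • w ^ k := by
    rw [NormedSpace.exp_eq_tsum ℝ]
    refine tsum_eq_sum fun k hk => ?_
    have h1 : n ≤ k := by
      rw [Finset.mem_range, not_lt] at hk
      omega
    rw [pow_eq_zero_of_le h1 hn, smul_zero]
  rw [hexp, Finset.sum_range_succ', Finset.sum_range_succ']
  have h2 : ∀ z : Matrix ι ι ℝ, z + (((0 + 1).factorial : ℝ)⁻¹) • w ^ (0 + 1) +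
      ((Nat.factorial 0 : ℝ)⁻¹) • w ^ 0 - 1 - w = z := by
    intro z
    simp
  rw [h2]
  refine Submodule.sum_mem _ fun k _ => Submodule.smul_mem _ _ ?_
  refine Upe_le_Up R d ?_ (pow_mem_Upe hw (k + 1 + 1))
  have h3 : (0 : ℝ) ≤ k := Nat.cast_nonneg k
  push_cast
  nlinarith

end Pool.Agent.W_MP_bb6588_G
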