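import Mathlib
import Pool.Agent.W_MP_bb6588_G.LevB

set_option autoImplicit false

/-!
# Orthogonality, and the intersection of `a + (V ∩ Up_a 0)` with `Upe_b 0`
-/

namespace Pool.Agent.W_MP_bb6588_G

open Matrix Filter Topology
open Pool.Agent.W_MP_bb6588_an (SLR SLZ nrm Dig step expo dlt val)

variable {ι : Type} [Fintype ι] [DecidableEq ι]

/-- the trace form -/
noncomputable def commA_form : Matrix ι ι ℝ →ₗ[ℝ] Matrix ι ι ℝ →ₗ[ℝ] ℝ :=
  LinearMap.mk₂ ℝ (fun x y => (x * y).trace)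
    (fun x x' y => by rw [add_mul, Matrix.trace_add])
    (fun c x y => by rw [Matrix.smul_mul, Matrix.trace_smul])
    (fun x y y' => by rw [mul_add, Matrix.trace_add])
    (fun c x y => by rw [Matrix.mul_smul, Matrix.trace_smul])

/-- Duality for a nondegenerate form on a finite-dimensional space: a vector `a ∈ V` outside the
subspace `W ≤ V` is detected by some `y ∈ V` orthogonal to `W`. -/
theorem exists_perp {V W : Submodule ℝ (Matrix ι ι ℝ)} (hN : Nondeg V) (hWV : W ≤ V)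
    {a : Matrix ι ι ℝ} (ha : a ∈ V) (haW : a ∉ W) :
    ∃ y ∈ V, (∀ w ∈ W, (w * y).trace = 0) ∧ (a * y).trace ≠ 0 := by
  obtain ⟨f, hfa, hfW⟩ := Submodule.exists_le_ker_of_notMem haW
  let Φ : V →ₗ[ℝ] Module.Dual ℝ V := commA_form.compl₁₂ V.subtype V.subtype
  have hΦ : ∀ y x : V, Φ y x = ((y : Matrix ι ι ℝ) * (x : Matrix ι ι ℝ)).trace := fun y x => rfl
  have hinj : Function.Injective Φ := by
    refine (injective_iff_map_eq_zero _).2 fun y hy => ?_
    apply Subtype.ext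
    refine hN y y.2 fun x hx => ?_
    have h1 := congrArg (fun g : Module.Dual ℝ V => g ⟨x, hx⟩) hy
    exact h1
  have hsurj : Function.Surjective Φ :=
    (LinearMap.injective_iff_surjective_of_finrank_eq_finrank
      (Subspace.dual_finrank_eq (K := ℝ) (V := V)).symm).1 hinj
  obtain ⟨y, hy⟩ := hsurj (f.comp V.subtype)
  have key : ∀ x ∈ V, (x * (y : Matrix ι ι ℝ)).trace = f x := by
    intro x hx
    have h1 := congrArg (fun g : Module.Dual ℝ V => g ⟨x, hx⟩) hy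
    have h2 : ((y : Matrix ι ι ℝ) * x).trace = f x := h1
    rw [← h2, Matrix.trace_mul_comm]
  refine ⟨y, y.2, fun w hw => ?_, ?_⟩
  · rw [key w (hWV hw)]
    exact hfW hw
  · rw [key a ha]
    exact hfa

/-- the trace form pairs the level `μ` with the level `-μ` -/
theorem commA_trace_lev (R : (Matrix ι ι ℝ)ˣ) (d : ι → ℝ) (μ : ℝ) (x y : Matrix ι ι ℝ) :
    (lev R d μ x * y).trace = (x * lev R d (-μ) y).trace := by
  rw [← trace_cj R, ← trace_cj R (x * _), cj_mul, cj_mul, cj_lev, cj_lev]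
  simp only [Matrix.trace, Matrix.diag_apply, Matrix.mul_apply, Matrix.of_apply]
  refine Finset.sum_congr rfl fun i _ => Finset.sum_congr rfl fun j _ => ?_
  by_cases h : d i - d j = μ
  · rw [if_pos h, if_pos (by linarith)]
  · rw [if_neg h, if_neg (fun h' => h (by linarith)), zero_mul, mul_zero]

/-- Proof. Let `μ ≤ 0` and `x_μ = lev μ x ∈ V` (`lev_mem`). For `y ∈ V`,
`tr(x_μ y) = tr(x_μ lev (-μ) y) = tr(x lev (-μ) y) = 0`, because `lev (-μ) y ∈ V ∩ Upe 0`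
(`tr(lev μ x * lev ν y) = 0` if `μ + ν ≠ 0`). So `x_μ = 0`. -/
theorem mem_Up_of_perp {V : Submodule ℝ (Matrix ι ι ℝ)} (hN : Nondeg V)
    (R : (Matrix ι ι ℝ)ˣ) (d : ι → ℝ) (hV : ∀ x ∈ V, mkD R d * x - x * mkD R d ∈ V)
    {x : Matrix ι ι ℝ} (hx : x ∈ V)
    (h : ∀ y ∈ V, y ∈ Upe R d 0 → (x * y).trace = 0) : x ∈ Up R d 0 := by
  rw [mem_Up_iff]
  intro μ hμ
  refine hN _ (lev_mem V R d hV hx μ) fun y hy => ?_
  rw [commA_trace_lev]
  refine h _ (lev_mem V R d hV hy (-μ)) ?_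
  intro i j hij
  rw [cj_lev, Matrix.of_apply, if_neg]
  intro h'
  linarith

/-- The same proof with `μ < 0`. -/
theorem mem_Upe_of_perp {V : Submodule ℝ (Matrix ι ι ℝ)} (hN : Nondeg V)
    (R : (Matrix ι ι ℝ)ˣ) (d : ι → ℝ) (hV : ∀ x ∈ V, mkD R d * x - x * mkD R d ∈ V)
    {x : Matrix ι ι ℝ} (hx : x ∈ V)
    (h : ∀ y ∈ V, y ∈ Up R d 0 → (x * y).trace = 0) : x ∈ Upe R d 0 := by
  rw [mem_Upe_iff]
  intro μ hμ
  refine hN _ (lev_mem V R d hV hx μ) fun y hy => ?_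
  rw [commA_trace_lev]
  refine h _ (lev_mem V R d hV hy (-μ)) ?_
  intro i j hij
  rw [cj_lev, Matrix.of_apply, if_neg]
  intro h'
  linarith

/-- Let `a = mkD R d`, `b = mkD R' d'` be elements of the Lie algebra `V` with nondegenerate trace
form. There is `x ∈ V ∩ Up_a 0` with `a + x ∈ Upe_b 0`.

Proof. Otherwise `a ∉ W = (V ∩ Upe_b 0) + (V ∩ Up_a 0)`, and by `exists_perp` there is `y ∈ V`
orthogonal to `W` with `tr(a y) ≠ 0`. By `mem_Up_of_perp` (for `b`) `y ∈ Up_b 0`, so `y` is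
nilpotent (`isNilpotent_of_mem_Up`); by `mem_Upe_of_perp` (for `a`) `y ∈ Upe_a 0`. By
`trace_mul_mkD_eq_zero`, `tr(a y) = 0`, a contradiction. -/
theorem exists_meet {V : Submodule ℝ (Matrix ι ι ℝ)} (hV : IsLie V) (hN : Nondeg V)
    (R R' : (Matrix ι ι ℝ)ˣ) (d d' : ι → ℝ) (ha : mkD R d ∈ V) (hb : mkD R' d' ∈ V) :
    ∃ x ∈ V, x ∈ Up R d 0 ∧ mkD R d + x ∈ Upe R' d' 0 := by
  have hVa : ∀ x ∈ V, mkD R d * x - x * mkD R d ∈ V := fun x hx => hV _ ha x hx
  have hVb : ∀ x ∈ V, mkD R' d' * x - x * mkD R' d' ∈ V := fun x hx => hV _ hb x hx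
  have key : mkD R d ∈ (V ⊓ Upe R' d' 0) ⊔ (V ⊓ Up R d 0) := by
    by_contra hcon
    obtain ⟨y, hy, hW, hne⟩ := exists_perp hN (sup_le inf_le_left inf_le_left) ha hcon
    have h1 : y ∈ Up R' d' 0 := by
      refine mem_Up_of_perp hN R' d' hVb hy fun z hz hz' => ?_
      rw [Matrix.trace_mul_comm]
      exact hW z (Submodule.mem_sup_left ⟨hz, hz'⟩)
    have h2 : y ∈ Upe R d 0 := by
      refine mem_Upe_of_perp hN R d hVa hy fun z hz hz' => ?_
      rw [Matrix.trace_mul_comm]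
      exact hW z (Submodule.mem_sup_right ⟨hz, hz'⟩)
    exact hne (trace_mul_mkD_eq_zero h2 (isNilpotent_of_mem_Up h1))
  obtain ⟨u, hu, v, hv, huv⟩ := Submodule.mem_sup.1 key
  refine ⟨-v, V.neg_mem hv.1, (Up R d 0).neg_mem hv.2, ?_⟩
  have h1 : mkD R d + -v = u := by
    rw [← huv]
    abel
  rw [h1]
  exact hu.2

end Pool.Agent.W_MP_bb6588_G
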