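import Mathlib
import Pool.Agent.W_MP_bb6588_G.LevB
import Pool.Agent.W_MP_bb6588_G.ExpC

set_option autoImplicit false

/-!
# The orbit of `a` under the unipotent group `NN V a` is `a + (V ∩ Up 0)`
-/

namespace Pool.Agent.W_MP_bb6588_G

open Matrix Filter Topology
open Pool.Agent.W_MP_bb6588_an (SLR SLZ nrm Dig step expo dlt val)

variable {ι : Type} [Fintype ι] [DecidableEq ι]

/-- One step. Let `a = mkD R d ∈ V`, `y ∈ a + (V ∩ Up 0)`, `μ > 0`, and `x₁ ∈ V` of level `μ`. Then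
for `w = - μ⁻¹ x₁`, `exp(w) y exp(-w) - y - x₁ ∈ V ∩ Up μ`.

Proof. `[w, a] = - [a, w] = - μ w = x₁`. With `exp(± w) ∈ 1 ± w + Up μ` (`exp_sub_mem_Up`) and
`y = a + y₊`, `y₊ ∈ Up 0`: `exp(w) y exp(-w) ∈ y + (w y - y w) - w y w + Up μ`,
`w y₊, y₊ w ∈ Up μ`, `w y w ∈ Upe (2 μ) ≤ Up μ`. Membership in `V`: `conj_mem_of_bracket`. -/
theorem orbit_step {V : Submodule ℝ (Matrix ι ι ℝ)} (hV : IsLie V)
    (R : (Matrix ι ι ℝ)ˣ) (d : ι → ℝ) (ha : mkD R d ∈ V) {μ : ℝ} (hμ : 0 < μ)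
    {y x₁ : Matrix ι ι ℝ} (hy : y - mkD R d ∈ V) (hyU : y - mkD R d ∈ Up R d 0)
    (hx : x₁ ∈ V) (hx₁ : mkD R d * x₁ - x₁ * mkD R d = μ • x₁) :
    NormedSpace.exp (-(μ⁻¹ • x₁)) * y * NormedSpace.exp (μ⁻¹ • x₁) - y - x₁ ∈ V ∧
    NormedSpace.exp (-(μ⁻¹ • x₁)) * y * NormedSpace.exp (μ⁻¹ • x₁) - y - x₁ ∈ Up R d μ := by
  obtain ⟨u, hu⟩ : ∃ u : Matrix ι ι ℝ, u = μ⁻¹ • x₁ := ⟨_, rfl⟩
  rw [← hu]
  have hμ0 : μ ≠ 0 := hμ.ne'
  have hxu : x₁ = μ • u := by rw [hu, smul_smul, mul_inv_cancel₀ hμ0, one_smul]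
  have hau : mkD R d * u - u * mkD R d = μ • u := by
    rw [hu, mul_smul_comm, smul_mul_assoc, ← smul_sub, hx₁]
    rw [smul_comm]
  have haw : mkD R d * (-u) - (-u) * mkD R d = μ • (-u) := by
    rw [mul_neg, neg_mul, smul_neg, ← hau]
    abel
  have huV : u ∈ V := by
    rw [hu]
    exact V.smul_mem _ hx
  have hwV : -u ∈ V := V.neg_mem huV
  have hyV : y ∈ V := by
    have h := V.add_mem hy ha
    rwa [sub_add_cancel] at h
  constructor
  · have h := conj_mem_of_bracket V (-u) (fun z hz => hV (-u) hwV z hz) y hyV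
    rw [neg_neg] at h
    exact V.sub_mem (V.sub_mem h hyV) hx
  · have e1 := exp_sub_mem_Up hμ haw
    have e2 := exp_sub_mem_Up hμ hau
    obtain ⟨E1, hE1⟩ : ∃ E1 : Matrix ι ι ℝ, E1 = NormedSpace.exp (-u) := ⟨_, rfl⟩
    obtain ⟨E2, hE2⟩ : ∃ E2 : Matrix ι ι ℝ, E2 = NormedSpace.exp u := ⟨_, rfl⟩
    rw [← hE1] at e1
    rw [← hE2] at e2
    rw [← hE1, ← hE2]
    have hwU : -u ∈ Upe R d μ := mem_Upe_of_bracket haw
    have huU : u ∈ Upe R d μ := mem_Upe_of_bracket hau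
    have hU0 : ∀ z, z ∈ Upe R d μ → z ∈ Upe R d 0 := fun z hz =>
      Up_le_Upe R d 0 (Upe_le_Up R d hμ hz)
    have hUp0 : ∀ z, z ∈ Up R d μ → z ∈ Upe R d 0 := fun z hz =>
      hU0 z (Up_le_Upe R d μ hz)
    have hy0 : y ∈ Upe R d 0 := by
      have h := (Upe R d 0).add_mem (Up_le_Upe R d 0 hyU) (mkD_mem_Upe R d)
      rwa [sub_add_cancel] at h
    have hE20 : E2 ∈ Upe R d 0 := by
      have h := (Upe R d 0).add_mem (hUp0 _ e2)
        ((Upe R d 0).add_mem (one_mem_Upe R d) (hU0 _ huU))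
      have h2 : E2 - 1 - u + (1 + u) = E2 := by abel
      rwa [h2] at h
    have h1 : (-u) * (y - mkD R d) ∈ Up R d μ := by
      have h := Upe_mul_Up hwU hyU
      rwa [add_zero] at h
    have h2 : (y - mkD R d) * (-u) ∈ Up R d μ := by
      have h := Up_mul_Upe hyU hwU
      rwa [zero_add] at h
    have h3 : (-u) * y * (-u) ∈ Up R d μ := by
      have h := Upe_mul_Upe (Upe_mul_Upe hwU hy0) hwU
      refine Upe_le_Up R d ?_ h
      linarith
    have h4 : (E1 - 1 - (-u)) * (y * E2) ∈ Up R d μ := by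
      have h := Upe_mul_Upe hy0 hE20
      rw [add_zero] at h
      have h' := Up_mul_Upe e1 h
      rwa [add_zero] at h'
    have h5 : ((1 + (-u)) * y) * (E2 - 1 - u) ∈ Up R d μ := by
      have h := Upe_mul_Upe ((Upe R d 0).add_mem (one_mem_Upe R d) (hU0 _ hwU)) hy0
      rw [add_zero] at h
      have h' := Upe_mul_Up h e2
      rwa [zero_add] at h'
    have h6 := (Up R d μ).add_mem ((Up R d μ).add_mem ((Up R d μ).sub_mem
      ((Up R d μ).sub_mem h1 h2) h3) h4) h5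
    have h7 : E1 * y * E2 - y - x₁ = (-u) * (y - mkD R d) - (y - mkD R d) * (-u) -
        (-u) * y * (-u) + (E1 - 1 - (-u)) * (y * E2) + ((1 + (-u)) * y) * (E2 - 1 - u) := by
      rw [hxu, ← hau]
      noncomm_ring
    rw [h7]
    exact h6

/-- For `a = mkD R d ∈ V` and `x ∈ V ∩ Up 0` there is `n ∈ NN V a` with `n a n⁻¹ = a + x`.

Proof. More generally: for all `μ ≥ 0`, `y ∈ a + (V ∩ Up 0)` and `x ∈ V ∩ Up μ` there is
`n ∈ NN V a` with `n y n⁻¹ = y + x`. Downward induction over `{0} ∪ {d i - d j > 0}`: for `μ` at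
least the largest difference, `Up μ = 0`. For the step from `μ'` (the smallest positive difference
`> μ`) to `μ`: `x = x₁ + x₂`, `x₁ = lev μ' x ∈ V` (`lev_mem`), `x₂ ∈ V ∩ Up μ'`. By
`orbit_step`, `y₁ = exp(w) y exp(-w) = y + x₁ + x'`, `x' ∈ V ∩ Up μ'`, `exp w ∈ NN V a`. Apply the
induction hypothesis to `y₁` and `x₂ - x'`. (Use induction on the number of pairs
`(i, j)` with `μ < d i - d j`.) -/
theorem orbit {V : Submodule ℝ (Matrix ι ι ℝ)} (hV : IsLie V) (hT : TrZ V)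
    (R : (Matrix ι ι ℝ)ˣ) (d : ι → ℝ) (ha : mkD R d ∈ V) {x : Matrix ι ι ℝ}
    (hx : x ∈ V) (hxU : x ∈ Up R d 0) :
    ∃ n ∈ NN V (mkD R d),
      (n : Matrix ι ι ℝ) * mkD R d * ((n⁻¹ : SLR ι) : Matrix ι ι ℝ) = mkD R d + x := by
  classical
  set a := mkD R d with ha'
  let S : ℝ → Finset (ι × ι) := fun μ => Finset.univ.filter fun q : ι × ι => μ < d q.1 - d q.2
  have hS : ∀ μ (q : ι × ι), q ∈ S μ ↔ μ < d q.1 - d q.2 := by
    intro μ q
    simp only [S, Finset.mem_filter, Finset.mem_univ, true_and]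
  have main : ∀ N : ℕ, ∀ μ : ℝ, (S μ).card = N → 0 ≤ μ → ∀ y x : Matrix ι ι ℝ,
      y - a ∈ V → y - a ∈ Up R d 0 → x ∈ V → x ∈ Up R d μ →
      ∃ n ∈ NN V a, (n : Matrix ι ι ℝ) * y * ((n⁻¹ : SLR ι) : Matrix ι ι ℝ) = y + x := by
    intro N
    induction N using Nat.strong_induction_on with
    | _ N ih =>
    intro μ hN hμ y x hyV hyU hxV hxU
    rcases (S μ).eq_empty_or_nonempty with hem | hne
    · have hx0 : x = 0 := by
        apply cj_inj R
        ext i j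
        have h1 : d i - d j ≤ μ := by
          by_contra h
          have h2 : (i, j) ∈ S μ := (hS μ (i, j)).2 (not_le.1 h)
          rw [hem] at h2
          exact absurd h2 (Finset.notMem_empty _)
        rw [hxU i j h1]
        simp [cj]
      refine ⟨1, (NN V a).one_mem, ?_⟩
      rw [hx0, add_zero, inv_one]
      simp
    · obtain ⟨q, hq, hqmin⟩ := Finset.exists_min_image (S μ) (fun q : ι × ι => d q.1 - d q.2) hne
      set ν : ℝ := d q.1 - d q.2 with hν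
      have hμν : μ < ν := (hS μ q).1 hq
      have hν0 : 0 < ν := lt_of_le_of_lt hμ hμν
      have hcard : (S ν).card < N := by
        rw [← hN]
        apply Finset.card_lt_card
        refine ⟨fun p hp => ?_, fun h => ?_⟩
        · exact (hS μ p).2 (hμν.trans ((hS ν p).1 hp))
        · exact lt_irrefl _ ((hS ν q).1 (h hq))
      set x₁ : Matrix ι ι ℝ := lev R d ν x with hx₁
      have hx₁V : x₁ ∈ V := lev_mem V R d (fun z hz => hV _ ha _ hz) hxV ν
      have hbr : mkD R d * x₁ - x₁ * mkD R d = ν • x₁ := bracket_lev R d ν x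
      have hx₂U : x - x₁ ∈ Up R d ν := by
        intro i j hij
        rw [cj_sub, hx₁, cj_lev, Matrix.sub_apply, Matrix.of_apply]
        by_cases h : d i - d j = ν
        · rw [if_pos h, sub_self]
        · rw [if_neg h, sub_zero]
          apply hxU
          by_contra h2
          have h3 := hqmin (i, j) ((hS μ (i, j)).2 (not_le.1 h2))
          exact h (le_antisymm hij h3)
      have hx₂V : x - x₁ ∈ V := V.sub_mem hxV hx₁V
      obtain ⟨hsV, hsU⟩ := orbit_step hV R d ha hν0 hyV hyU hx₁V hbr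
      set w : Matrix ι ι ℝ := -(ν⁻¹ • x₁) with hw
      have hwV : w ∈ V := V.neg_mem (V.smul_mem _ hx₁V)
      have hnw : ν⁻¹ • x₁ = -w := by rw [hw, neg_neg]
      rw [hnw] at hsV hsU
      set y₁ : Matrix ι ι ℝ := NormedSpace.exp w * y * NormedSpace.exp (-w) with hy₁
      have hle : Up R d ν ≤ Up R d 0 := Up_mono R d hν0.le
      have hx₁U : x₁ ∈ Up R d 0 := Upe_le_Up R d hν0 (mem_Upe_of_bracket hbr)
      have hy1e : y₁ - a = (y₁ - y - x₁) + (y - a) + x₁ := by abel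
      have hy₁V : y₁ - a ∈ V := by
        rw [hy1e]
        exact V.add_mem (V.add_mem hsV hyV) hx₁V
      have hy₁U : y₁ - a ∈ Up R d 0 := by
        rw [hy1e]
        exact (Up R d 0).add_mem ((Up R d 0).add_mem (hle hsU) hyU) hx₁U
      obtain ⟨n, hn, hne'⟩ := ih _ hcard ν rfl hν0.le y₁ ((x - x₁) - (y₁ - y - x₁)) hy₁V hy₁U
        (V.sub_mem hx₂V hsV) ((Up R d ν).sub_mem hx₂U hsU)
      have hwbr : a * w - w * a = ν • w := by
        have h1 : a * w - w * a = -(ν⁻¹ • (mkD R d * x₁ - x₁ * mkD R d)) := by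
          rw [hw, ha', mul_neg, neg_mul, mul_smul_comm, smul_mul_assoc, smul_sub]
          abel
        rw [h1, hbr, hw, smul_neg, smul_comm]
      refine ⟨n * eS w, (NN V a).mul_mem hn (Subgroup.subset_closure
        ⟨w, hwV, ν, hν0, hwbr, rfl⟩), ?_⟩
      have hwn : (-w).trace = 0 := by rw [Matrix.trace_neg, hT w hwV, neg_zero]
      have e1 : ((n * eS w : SLR ι) : Matrix ι ι ℝ) =
          (n : Matrix ι ι ℝ) * NormedSpace.exp w := by
        rw [← coe_eS (hT w hwV)]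
        exact Matrix.SpecialLinearGroup.coe_mul n (eS w)
      have e2 : (((n * eS w)⁻¹ : SLR ι) : Matrix ι ι ℝ) =
          NormedSpace.exp (-w) * ((n⁻¹ : SLR ι) : Matrix ι ι ℝ) := by
        rw [_root_.mul_inv_rev, ← eS_neg (hT w hwV), ← coe_eS hwn]
        exact Matrix.SpecialLinearGroup.coe_mul (eS (-w)) n⁻¹
      rw [e1, e2]
      have e3 : (n : Matrix ι ι ℝ) * NormedSpace.exp w * y *
          (NormedSpace.exp (-w) * ((n⁻¹ : SLR ι) : Matrix ι ι ℝ)) =
          (n : Matrix ι ι ℝ) * y₁ * ((n⁻¹ : SLR ι) : Matrix ι ι ℝ) := by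
        rw [hy₁]
        simp only [mul_assoc]
      rw [e3, hne']
      abel
  refine main _ 0 rfl le_rfl a x ?_ ?_ hx hxU
  · rw [sub_self]
    exact V.zero_mem
  · rw [sub_self]
    exact (Up R d 0).zero_mem

end Pool.Agent.W_MP_bb6588_G
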