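import Mathlib
import Pool.Agent.W_MP_bb6588_G.CommA
import Pool.Agent.W_MP_bb6588_G.Orbit

set_option autoImplicit false

/-!
# Two diagonalizable elements commute after conjugation
-/

namespace Pool.Agent.W_MP_bb6588_G

open Matrix Filter Topology
open Pool.Agent.W_MP_bb6588_an (SLR SLZ nrm Dig step expo dlt val)

variable {ι : Type} [Fintype ι] [DecidableEq ι]

/-- Let `a' ∈ V ∩ Upe_b 0` be diagonalizable, `b = mkD R' d' ∈ V`. There is `x ∈ V ∩ Up_b 0` such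
that `b + x` commutes with `a'`.

Proof. `T = ad a'` preserves `V`, `V ∩ Upe_b 0`, `V ∩ Up_b 0`, so these contain the components (for
`a'`, `lev_mem`) of their elements. Write `a' = mkD R'' d''`, `b_λ = lev R'' d'' λ b`; these lie in
`V ∩ Upe_b 0`. `T b = ∑ λ b_λ = - [b, a'] ∈ V ∩ Up_b 0` (the level-zero component of `a'` commutes
with `b`); its components are `λ b_λ`, so `b_λ ∈ V ∩ Up_b 0` for `λ ≠ 0`. Take
`x = - ∑_{λ ≠ 0} b_λ`; `b + x = b_0` commutes with `a'`. -/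
theorem exists_commuting {V : Submodule ℝ (Matrix ι ι ℝ)} (hV : IsLie V)
    (R' : (Matrix ι ι ℝ)ˣ) (d' : ι → ℝ) (hb : mkD R' d' ∈ V) {a' : Matrix ι ι ℝ}
    (ha' : a' ∈ V) (haD : Dg a') (haU : a' ∈ Upe R' d' 0) :
    ∃ x ∈ V, x ∈ Up R' d' 0 ∧ (mkD R' d' + x) * a' = a' * (mkD R' d' + x) := by
  obtain ⟨R'', d'', rfl⟩ := haD
  change mkD R'' d'' ∈ V at ha'
  change mkD R'' d'' ∈ Upe R' d' 0 at haU
  change ∃ x ∈ V, x ∈ Up R' d' 0 ∧
    (mkD R' d' + x) * mkD R'' d'' = mkD R'' d'' * (mkD R' d' + x)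
  set b := mkD R' d' with hbdef
  have hW0 : ∀ x ∈ V ⊓ Upe R' d' 0,
      mkD R'' d'' * x - x * mkD R'' d'' ∈ V ⊓ Upe R' d' 0 := by
    rintro x ⟨hx1, hx2⟩
    refine ⟨hV _ ha' _ hx1, ?_⟩
    have h1 := Upe_mul_Upe haU hx2
    have h2 := Upe_mul_Upe hx2 haU
    rw [add_zero] at h1 h2
    exact Submodule.sub_mem _ h1 h2
  have hW1 : ∀ x ∈ V ⊓ Up R' d' 0,
      mkD R'' d'' * x - x * mkD R'' d'' ∈ V ⊓ Up R' d' 0 := by
    rintro x ⟨hx1, hx2⟩
    refine ⟨hV _ ha' _ hx1, ?_⟩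
    have h1 := Upe_mul_Up haU hx2
    have h2 := Up_mul_Upe hx2 haU
    rw [add_zero] at h1 h2
    exact Submodule.sub_mem _ h1 h2
  -- `T b ∈ V ∩ Up 0`
  have hTb : mkD R'' d'' * b - b * mkD R'' d'' ∈ V ⊓ Up R' d' 0 := by
    refine ⟨hV _ ha' _ hb, ?_⟩
    intro i j hij
    rw [cj_sub, cj_mul, cj_mul, hbdef, cj_mkD, Matrix.sub_apply, Matrix.mul_diagonal,
      Matrix.diagonal_mul]
    rcases hij.lt_or_eq with h | h
    · rw [haU i j h]; ring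
    · have : d' i = d' j := by linarith
      rw [this]; ring
  -- the components of `T b`
  have hlev : ∀ μ : ℝ, lev R'' d'' μ (mkD R'' d'' * b - b * mkD R'' d'') =
      μ • lev R'' d'' μ b := by
    intro μ
    apply cj_inj R''
    rw [cj_lev, cj_smul, cj_lev, cj_sub, cj_mul, cj_mul, cj_mkD]
    ext i j
    simp only [Matrix.of_apply, Matrix.smul_apply, Matrix.sub_apply, Matrix.mul_diagonal,
      Matrix.diagonal_mul, smul_eq_mul]
    split_ifs with h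
    · rw [← h]; ring
    · ring
  have hmem : ∀ μ : ℝ, μ ≠ 0 → lev R'' d'' μ b ∈ V ⊓ Up R' d' 0 := by
    intro μ hμ
    have h1 := lev_mem (V ⊓ Up R' d' 0) R'' d'' hW1 hTb μ
    rw [hlev μ] at h1
    have h2 := Submodule.smul_mem _ μ⁻¹ h1
    rwa [smul_smul, inv_mul_cancel₀ hμ, one_smul] at h2
  have hcomm : lev R'' d'' 0 b * mkD R'' d'' = mkD R'' d'' * lev R'' d'' 0 b := by
    have h1 := bracket_lev R'' d'' 0 b
    rw [zero_smul] at h1
    exact (sub_eq_zero.mp h1).symm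
  have hx : lev R'' d'' 0 b - b ∈ V ⊓ Up R' d' 0 := by
    rcases isEmpty_or_nonempty ι with hι | hι
    · have : lev R'' d'' 0 b - b = 0 := Subsingleton.elim _ _
      rw [this]
      exact Submodule.zero_mem _
    · have h0 : (0 : ℝ) ∈ Finset.univ.image (fun q : ι × ι => d'' q.1 - d'' q.2) := by
        obtain ⟨i⟩ := hι
        exact Finset.mem_image.mpr ⟨(i, i), Finset.mem_univ _, sub_self _⟩
      have h1 := sum_lev R'' d'' b
      rw [← Finset.add_sum_erase _ _ h0] at h1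
      have h2 : lev R'' d'' 0 b - b =
          - ∑ μ ∈ (Finset.univ.image (fun q : ι × ι => d'' q.1 - d'' q.2)).erase 0,
            lev R'' d'' μ b := by
        rw [eq_neg_iff_add_eq_zero, sub_add_eq_add_sub, sub_eq_zero]
        exact h1.symm
      rw [h2]
      refine Submodule.neg_mem _ (Submodule.sum_mem _ fun μ hμ => ?_)
      exact hmem μ (Finset.ne_of_mem_erase hμ)
  refine ⟨lev R'' d'' 0 b - b, hx.1, hx.2, ?_⟩
  rw [add_sub_cancel]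
  exact hcomm

/-- Let `a, b` be diagonalizable elements of the Lie algebra `V` with nondegenerate trace form. There
are `n ∈ NN V a`, `m ∈ NN V b` such that `(m n) a (m n)⁻¹` commutes with `b`.

Proof. `exists_meet` gives `x` with `a' = a + x ∈ Upe_b 0`; by `orbit`, `a' = n a n⁻¹`, `n ∈ NN V a`,
so `a'` is diagonalizable. `exists_commuting` gives `x'` such that `b + x'` commutes with `a'`, and
by `orbit`, `b + x' = m' b m'⁻¹`, `m' ∈ NN V b`. So `m'⁻¹ a' m'` commutes with `b`;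
`m = m'⁻¹`. -/
theorem comm_lemma {V : Submodule ℝ (Matrix ι ι ℝ)} (hV : IsLie V) (hT : TrZ V) (hN : Nondeg V)
    {a b : Matrix ι ι ℝ} (ha : a ∈ V) (hb : b ∈ V) (haD : Dg a) (hbD : Dg b) :
    ∃ n ∈ NN V a, ∃ m ∈ NN V b,
      ((m * n : SLR ι) : Matrix ι ι ℝ) * a * (((m * n)⁻¹ : SLR ι) : Matrix ι ι ℝ) * b =
        b * (((m * n : SLR ι) : Matrix ι ι ℝ) * a * (((m * n)⁻¹ : SLR ι) : Matrix ι ι ℝ)) := by
  obtain ⟨R, d, rfl⟩ := haD
  obtain ⟨R', d', rfl⟩ := hbD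
  change mkD R d ∈ V at ha
  change mkD R' d' ∈ V at hb
  obtain ⟨x, hx, hxU, hxe⟩ := exists_meet hV hN R R' d d' ha hb
  obtain ⟨n, hn, hna⟩ := orbit hV hT R d ha hx hxU
  have hinv : ∀ g : SLR ι, (g : Matrix ι ι ℝ) * ((g⁻¹ : SLR ι) : Matrix ι ι ℝ) = 1 := by
    intro g
    rw [← Matrix.SpecialLinearGroup.coe_mul, mul_inv_cancel, Matrix.SpecialLinearGroup.coe_one]
  have hinv' : ∀ g : SLR ι, ((g⁻¹ : SLR ι) : Matrix ι ι ℝ) * (g : Matrix ι ι ℝ) = 1 := by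
    intro g
    rw [← Matrix.SpecialLinearGroup.coe_mul, inv_mul_cancel, Matrix.SpecialLinearGroup.coe_one]
  have ha'D : Dg (mkD R d + x) := by
    refine ⟨⟨(n : Matrix ι ι ℝ), ((n⁻¹ : SLR ι) : Matrix ι ι ℝ), hinv n, hinv' n⟩ * R, d, ?_⟩
    rw [← hna, _root_.mul_inv_rev, Units.val_mul, Units.val_mul, mkD]
    change _ = (n : Matrix ι ι ℝ) * (R : Matrix ι ι ℝ) * Matrix.diagonal d *
      (((R⁻¹ : (Matrix ι ι ℝ)ˣ) : Matrix ι ι ℝ) * ((n⁻¹ : SLR ι) : Matrix ι ι ℝ))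
    simp only [mul_assoc]
  obtain ⟨x', hx', hxU', hc⟩ := exists_commuting hV R' d' hb (V.add_mem ha hx) ha'D hxe
  obtain ⟨m, hm, hmb⟩ := orbit hV hT R' d' hb hx' hxU'
  refine ⟨n, hn, m⁻¹, (NN V (mkD R' d')).inv_mem hm, ?_⟩
  change (((m⁻¹ * n : SLR ι)) : Matrix ι ι ℝ) * mkD R d * (((m⁻¹ * n)⁻¹ : SLR ι) : Matrix ι ι ℝ) *
      mkD R' d' = mkD R' d' *
      (((m⁻¹ * n : SLR ι)) * mkD R d * (((m⁻¹ * n)⁻¹ : SLR ι) : Matrix ι ι ℝ))
  have e1 : (((m⁻¹ * n : SLR ι)) : Matrix ι ι ℝ) * mkD R d *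
      (((m⁻¹ * n)⁻¹ : SLR ι) : Matrix ι ι ℝ) =
      ((m⁻¹ : SLR ι) : Matrix ι ι ℝ) * (mkD R d + x) * (m : Matrix ι ι ℝ) := by
    rw [← hna, _root_.mul_inv_rev, inv_inv, Matrix.SpecialLinearGroup.coe_mul,
      Matrix.SpecialLinearGroup.coe_mul]
    simp only [mul_assoc]
  rw [e1]
  have e2 : (m : Matrix ι ι ℝ) * mkD R' d' = (mkD R' d' + x') * (m : Matrix ι ι ℝ) := by
    rw [← hmb, mul_assoc _ _ (m : Matrix ι ι ℝ), hinv', mul_one]
  have e3 : mkD R' d' * ((m⁻¹ : SLR ι) : Matrix ι ι ℝ) =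
      ((m⁻¹ : SLR ι) : Matrix ι ι ℝ) * (mkD R' d' + x') := by
    rw [← hmb, ← mul_assoc, ← mul_assoc, hinv', one_mul]
  calc ((m⁻¹ : SLR ι) : Matrix ι ι ℝ) * (mkD R d + x) * (m : Matrix ι ι ℝ) * mkD R' d'
      = ((m⁻¹ : SLR ι) : Matrix ι ι ℝ) * ((mkD R d + x) *
        ((m : Matrix ι ι ℝ) * mkD R' d')) := by simp only [mul_assoc]
    _ = ((m⁻¹ : SLR ι) : Matrix ι ι ℝ) * ((mkD R d + x) * (mkD R' d' + x')) *
        (m : Matrix ι ι ℝ) := by rw [e2]; simp only [mul_assoc]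
    _ = ((m⁻¹ : SLR ι) : Matrix ι ι ℝ) * (mkD R' d' + x') * (mkD R d + x) *
        (m : Matrix ι ι ℝ) := by rw [← hc]; simp only [mul_assoc]
    _ = mkD R' d' * (((m⁻¹ : SLR ι) : Matrix ι ι ℝ) * (mkD R d + x) *
        (m : Matrix ι ι ℝ)) := by rw [← e3]; simp only [mul_assoc]

end Pool.Agent.W_MP_bb6588_G
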