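import Mathlib
import Pool.Agent.W_MP_bb6588_G.SimD

set_option autoImplicit false

/-!
# Maximal simultaneously diagonalizable subspaces
-/

namespace Pool.Agent.W_MP_bb6588_G

open Matrix Filter Topology
open Pool.Agent.W_MP_bb6588_an (SLR SLZ nrm Dig step expo dlt val)

variable {ι : Type} [Fintype ι] [DecidableEq ι]

/-- A space of matrices with a spanning set of joint eigenvectors is simultaneously
diagonalizable. -/
theorem SDg_of_span {E : Submodule ℝ (Matrix ι ι ℝ)} (S : Set (ι → ℝ))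
    (hS : Submodule.span ℝ S = ⊤) (h : ∀ v ∈ S, ∀ z ∈ E, ∃ c : ℝ, z *ᵥ v = c • v) : SDg E := by
  classical
  let b := Module.Basis.ofSpan (K := ℝ) (s := S) hS.ge
  have hb : ∀ i, b i ∈ S := fun i => Module.Basis.ofSpan_subset hS.ge ⟨i, rfl⟩
  have hfin := Module.Finite.finite_basis b
  have hft := Fintype.ofFinite ((linearIndepOn_empty ℝ (id : (ι → ℝ) → ι → ℝ)).extend
    (Set.empty_subset S))
  have hcard : Fintype.card ι = Fintype.card ((linearIndepOn_empty ℝ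
      (id : (ι → ℝ) → ι → ℝ)).extend (Set.empty_subset S)) := by
    rw [← Module.finrank_eq_card_basis b, Module.finrank_fintype_fun_eq_card]
  let e := Fintype.equivOfCardEq hcard
  let A : Matrix ι ι ℝ := Matrix.of fun i j => b (e j) i
  have hA : IsUnit A := by
    rw [← Matrix.linearIndependent_cols_iff_isUnit]
    exact b.linearIndependent.comp e e.injective
  obtain ⟨R, hR⟩ := hA
  refine ⟨R, fun z hz => ?_⟩
  choose d hd using fun j => h (b (e j)) (hb _) z hz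
  refine ⟨d, ?_⟩
  have h1 : z * A = A * Matrix.diagonal d := by
    ext i j
    have h2 := congrFun (hd j) i
    rw [Matrix.mul_diagonal]
    rw [Pi.smul_apply, smul_eq_mul, mul_comm] at h2
    exact h2
  rw [hR, ← h1, mul_assoc, ← hR, Units.mul_inv, mul_one]

/-- What commutes with `Q diag(q) Q⁻¹` commutes with its spectral projections. -/
theorem commute_proj (Q : (Matrix ι ι ℝ)ˣ) (q : ι → ℝ) (z : Matrix ι ι ℝ)
    (hz : z * ((Q : Matrix ι ι ℝ) * Matrix.diagonal q * ((Q⁻¹ : (Matrix ι ι ℝ)ˣ) : Matrix ι ι ℝ)) =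
      ((Q : Matrix ι ι ℝ) * Matrix.diagonal q * ((Q⁻¹ : (Matrix ι ι ℝ)ˣ) : Matrix ι ι ℝ)) * z)
    (μ : ℝ) :
    z * ((Q : Matrix ι ι ℝ) * Matrix.diagonal (fun i => if q i = μ then (1 : ℝ) else 0) *
        ((Q⁻¹ : (Matrix ι ι ℝ)ˣ) : Matrix ι ι ℝ)) =
      ((Q : Matrix ι ι ℝ) * Matrix.diagonal (fun i => if q i = μ then (1 : ℝ) else 0) *
        ((Q⁻¹ : (Matrix ι ι ℝ)ˣ) : Matrix ι ι ℝ)) * z := by
  obtain ⟨z', rfl⟩ : ∃ z', z = (Q : Matrix ι ι ℝ) * z' * ((Q⁻¹ : (Matrix ι ι ℝ)ˣ) : Matrix ι ι ℝ) :=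
    ⟨((Q⁻¹ : (Matrix ι ι ℝ)ˣ) : Matrix ι ι ℝ) * z * (Q : Matrix ι ι ℝ), by
      simp only [mul_assoc, Units.mul_inv_cancel_left, Units.mul_inv, mul_one]⟩
  have key : ∀ D D' : Matrix ι ι ℝ,
      ((Q : Matrix ι ι ℝ) * D * ((Q⁻¹ : (Matrix ι ι ℝ)ˣ) : Matrix ι ι ℝ)) *
        ((Q : Matrix ι ι ℝ) * D' * ((Q⁻¹ : (Matrix ι ι ℝ)ˣ) : Matrix ι ι ℝ)) =
      (Q : Matrix ι ι ℝ) * (D * D') * ((Q⁻¹ : (Matrix ι ι ℝ)ˣ) : Matrix ι ι ℝ) := by
    intro D D'
    simp only [mul_assoc, Units.inv_mul_cancel_left]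
  rw [key, key] at hz
  rw [key, key]
  have h1 : z' * Matrix.diagonal q = Matrix.diagonal q * z' := by
    have h2 := congrArg (fun M => ((Q⁻¹ : (Matrix ι ι ℝ)ˣ) : Matrix ι ι ℝ) * M * (Q : Matrix ι ι ℝ)) hz
    simpa only [mul_assoc, Units.inv_mul_cancel_left, Units.inv_mul, mul_one] using h2
  have h3 : z' * Matrix.diagonal (fun i => if q i = μ then (1 : ℝ) else 0) =
      Matrix.diagonal (fun i => if q i = μ then (1 : ℝ) else 0) * z' := by
    ext i j
    have h4 := congrFun (congrFun h1 i) j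
    rw [Matrix.mul_diagonal, Matrix.diagonal_mul] at h4
    rw [Matrix.mul_diagonal, Matrix.diagonal_mul]
    by_cases hij : q i = q j
    · rw [hij, mul_comm]
    · have h5 : z' i j = 0 := by
        by_contra hne
        apply hij
        have h6 : (q i - q j) * z' i j = 0 := by linarith
        rcases mul_eq_zero.1 h6 with h7 | h7
        · linarith
        · exact absurd h7 hne
      rw [h5, zero_mul, mul_zero]
  rw [h3]

/-- A simultaneously diagonalizable space and a diagonalizable matrix commuting with it are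
simultaneously diagonalizable.

Proof. The joint eigenspaces of `𝔞` and `b` span: take a spanning finite set `z_1, …, z_r` of `𝔞`
and `b`; these are commuting endomorphisms of `ι → ℝ` each of whose eigenspaces span, so
`Module.End.iSup_iInf_maxGenEigenspace_eq_top_of_iSup_maxGenEigenspace_eq_top_of_commute` applies
(for a diagonalizable endomorphism generalized eigenspaces are eigenspaces). So the joint
eigenvectors span `ι → ℝ`; choose a basis among them and let its vectors be the columns of the new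
matrix `R`. (Alternatively: it suffices to treat a regular element `a` of `𝔞` and `b`, since every
`z ∈ 𝔞` is a polynomial in `a`.) -/
theorem SDg_sup {𝔞 : Submodule ℝ (Matrix ι ι ℝ)} (h : SDg 𝔞) {b : Matrix ι ι ℝ} (hb : Dg b)
    (hc : ∀ z ∈ 𝔞, z * b = b * z) : SDg (𝔞 ⊔ Submodule.span ℝ {b}) := by
  classical
  obtain ⟨R, hR⟩ := h
  obtain ⟨Q, q, rfl⟩ := hb
  let P : ℝ → Matrix ι ι ℝ := fun μ => (Q : Matrix ι ι ℝ) *
    Matrix.diagonal (fun i => if q i = μ then (1 : ℝ) else 0) *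
    ((Q⁻¹ : (Matrix ι ι ℝ)ˣ) : Matrix ι ι ℝ)
  have hP1 : ∑ μ ∈ Finset.univ.image q, P μ = 1 := by
    have h1 : ∑ μ ∈ Finset.univ.image q,
        Matrix.diagonal (fun i => if q i = μ then (1 : ℝ) else 0) = (1 : Matrix ι ι ℝ) := by
      ext i j
      rw [Matrix.sum_apply]
      by_cases hij : i = j
      · subst hij
        simp only [Matrix.diagonal_apply_eq, Matrix.one_apply_eq]
        rw [Finset.sum_ite_eq]
        simp
      · simp only [Matrix.diagonal_apply_ne _ hij, Matrix.one_apply_ne hij, Finset.sum_const_zero]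
    calc ∑ μ ∈ Finset.univ.image q, P μ
        = (Q : Matrix ι ι ℝ) * (∑ μ ∈ Finset.univ.image q,
            Matrix.diagonal (fun i => if q i = μ then (1 : ℝ) else 0)) *
            ((Q⁻¹ : (Matrix ι ι ℝ)ˣ) : Matrix ι ι ℝ) := by
          rw [Finset.mul_sum, Finset.sum_mul]
      _ = 1 := by rw [h1, mul_one, Units.mul_inv]
  have hPb : ∀ μ, ((Q : Matrix ι ι ℝ) * Matrix.diagonal q *
      ((Q⁻¹ : (Matrix ι ι ℝ)ˣ) : Matrix ι ι ℝ)) * P μ = μ • P μ := by
    intro μ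
    have h1 : Matrix.diagonal q * Matrix.diagonal (fun i => if q i = μ then (1 : ℝ) else 0) =
        μ • Matrix.diagonal (fun i => if q i = μ then (1 : ℝ) else 0) := by
      rw [Matrix.diagonal_mul_diagonal, ← Matrix.diagonal_smul]
      congr 1
      funext i
      simp only [Pi.smul_apply, smul_eq_mul]
      split_ifs with h
      · rw [h]
      · simp
    show ((Q : Matrix ι ι ℝ) * Matrix.diagonal q *
      ((Q⁻¹ : (Matrix ι ι ℝ)ˣ) : Matrix ι ι ℝ)) * ((Q : Matrix ι ι ℝ) *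
      Matrix.diagonal (fun i => if q i = μ then (1 : ℝ) else 0) *
      ((Q⁻¹ : (Matrix ι ι ℝ)ˣ) : Matrix ι ι ℝ)) = μ • ((Q : Matrix ι ι ℝ) *
      Matrix.diagonal (fun i => if q i = μ then (1 : ℝ) else 0) *
      ((Q⁻¹ : (Matrix ι ι ℝ)ˣ) : Matrix ι ι ℝ))
    have h2 : ((Q : Matrix ι ι ℝ) * Matrix.diagonal q *
      ((Q⁻¹ : (Matrix ι ι ℝ)ˣ) : Matrix ι ι ℝ)) * ((Q : Matrix ι ι ℝ) *
      Matrix.diagonal (fun i => if q i = μ then (1 : ℝ) else 0) *
      ((Q⁻¹ : (Matrix ι ι ℝ)ˣ) : Matrix ι ι ℝ)) = (Q : Matrix ι ι ℝ) * (Matrix.diagonal q *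
      Matrix.diagonal (fun i => if q i = μ then (1 : ℝ) else 0)) *
      ((Q⁻¹ : (Matrix ι ι ℝ)ˣ) : Matrix ι ι ℝ) := by
      simp only [mul_assoc, Units.inv_mul_cancel_left]
    rw [h2, h1, Matrix.mul_smul, Matrix.smul_mul]
  apply SDg_of_span {v : ι → ℝ | ∃ (i : ι) (μ : ℝ), v = P μ *ᵥ (fun k => (R : Matrix ι ι ℝ) k i)}
  · rw [eq_top_iff]
    intro v _
    have hcol : ∀ i, (fun k => (R : Matrix ι ι ℝ) k i) ∈ Submodule.span ℝ
        {v : ι → ℝ | ∃ (i : ι) (μ : ℝ), v = P μ *ᵥ (fun k => (R : Matrix ι ι ℝ) k i)} := by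
      intro i
      have h1 : (fun k => (R : Matrix ι ι ℝ) k i) =
          ∑ μ ∈ Finset.univ.image q, P μ *ᵥ (fun k => (R : Matrix ι ι ℝ) k i) := by
        rw [← Matrix.sum_mulVec, hP1, Matrix.one_mulVec]
      rw [h1]
      exact Submodule.sum_mem _ fun μ _ => Submodule.subset_span ⟨i, μ, rfl⟩
    have h2 : v = ∑ i, (((R⁻¹ : (Matrix ι ι ℝ)ˣ) : Matrix ι ι ℝ) *ᵥ v) i •
        (fun k => (R : Matrix ι ι ℝ) k i) := by
      have h3 : v = (R : Matrix ι ι ℝ) *ᵥ (((R⁻¹ : (Matrix ι ι ℝ)ˣ) : Matrix ι ι ℝ) *ᵥ v) := by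
        rw [Matrix.mulVec_mulVec, Units.mul_inv, Matrix.one_mulVec]
      conv_lhs => rw [h3]
      funext k
      rw [Finset.sum_apply]
      simp only [Matrix.mulVec, dotProduct, Pi.smul_apply, smul_eq_mul]
      exact Finset.sum_congr rfl fun i _ => mul_comm _ _
    rw [h2]
    exact Submodule.sum_mem _ fun i _ => Submodule.smul_mem _ _ (hcol i)
  · rintro v ⟨i, μ, rfl⟩ z hz
    rw [Submodule.mem_sup] at hz
    obtain ⟨y, hy, w, hw, rfl⟩ := hz
    rw [Submodule.mem_span_singleton] at hw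
    obtain ⟨t, rfl⟩ := hw
    obtain ⟨d, hd⟩ := hR y hy
    refine ⟨d i + t * μ, ?_⟩
    have hyR : y * (R : Matrix ι ι ℝ) = (R : Matrix ι ι ℝ) * Matrix.diagonal d := by
      rw [hd, mul_assoc, Units.inv_mul, mul_one]
    have h1 : y *ᵥ (fun k => (R : Matrix ι ι ℝ) k i) = d i • (fun k => (R : Matrix ι ι ℝ) k i) := by
      funext k
      have h2 := congrFun (congrFun hyR k) i
      rw [Matrix.mul_diagonal, mul_comm] at h2
      exact h2
    have hPc : y * P μ = P μ * y := commute_proj Q q y (hc y hy) μ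
    rw [Matrix.add_mulVec, Matrix.mulVec_mulVec, hPc, ← Matrix.mulVec_mulVec, h1,
      Matrix.mulVec_smul, Matrix.smul_mulVec, Matrix.mulVec_mulVec, hPb, Matrix.smul_mulVec,
      smul_smul, ← add_smul]

/-- A simultaneously diagonalizable subspace of `V` is contained in a maximal one.

Proof. Take one of maximal dimension among those between `S` and `V`; use `SDg_sup`. -/
theorem exists_max_SDg (V S : Submodule ℝ (Matrix ι ι ℝ)) (hSV : S ≤ V) (hS : SDg S) :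
    ∃ 𝔞 : Submodule ℝ (Matrix ι ι ℝ), S ≤ 𝔞 ∧ 𝔞 ≤ V ∧ SDg 𝔞 ∧
      ∀ b ∈ V, Dg b → (∀ z ∈ 𝔞, z * b = b * z) → b ∈ 𝔞 := by
  have hwf : WellFounded ((· > ·) : Submodule ℝ (Matrix ι ι ℝ) → Submodule ℝ (Matrix ι ι ℝ) → Prop) :=
    wellFounded_gt
  obtain ⟨𝔞, ⟨h1, h2, h3⟩, hmax⟩ := hwf.has_min
    {𝔞 : Submodule ℝ (Matrix ι ι ℝ) | S ≤ 𝔞 ∧ 𝔞 ≤ V ∧ SDg 𝔞} ⟨S, le_rfl, hSV, hS⟩
  refine ⟨𝔞, h1, h2, h3, fun b hbV hb hc => ?_⟩
  by_contra hcon
  refine hmax (𝔞 ⊔ Submodule.span ℝ {b}) ⟨h1.trans le_sup_left, sup_le h2 ?_, SDg_sup h3 hb hc⟩ ?_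
  · rw [Submodule.span_le]
    intro x hx
    rw [Set.mem_singleton_iff.1 hx]
    exact hbV
  · refine lt_of_le_of_ne le_sup_left fun heq => hcon ?_
    rw [heq]
    exact (le_sup_right : Submodule.span ℝ {b} ≤ 𝔞 ⊔ Submodule.span ℝ {b})
      (Submodule.mem_span_singleton_self b)

end Pool.Agent.W_MP_bb6588_G
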