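import Mathlib
import Pool.Agent.W_MP_bb6588_G.SimD

set_option autoImplicit false

/-!
# Weight vectors span
-/

namespace Pool.Agent.W_MP_bb6588_G

open Matrix Filter Topology
open Pool.Agent.W_MP_bb6588_an (SLR SLZ nrm Dig step expo dlt val)

variable {ι : Type} [Fintype ι] [DecidableEq ι]

/-- The linear functional `z ↦ (cj R z) i i - (cj R z) j j`. -/
noncomputable def SimF_dif (R : (Matrix ι ι ℝ)ˣ) (i j : ι) : Matrix ι ι ℝ →ₗ[ℝ] ℝ where
  toFun z := cj R z i i - cj R z j j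
  map_add' z w := by
    rw [cj_add, Matrix.add_apply, Matrix.add_apply]
    ring
  map_smul' c z := by
    rw [cj_smul, Matrix.smul_apply, Matrix.smul_apply, RingHom.id_apply, smul_eq_mul, smul_eq_mul,
      smul_eq_mul]
    ring

theorem SimF_dif_apply (R : (Matrix ι ι ℝ)ˣ) (i j : ι) (z : Matrix ι ι ℝ) :
    SimF_dif R i j z = cj R z i i - cj R z j j := rfl

/-- Weight vectors span: if `[𝔞, V] ⊆ V` then `V` is spanned by its weight vectors for `𝔞`.

Proof. Let `a = mkD R d` be a regular element of `𝔞` (`exists_regular`), where `R` diagonalizes all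
of `𝔞`: `x = ∑ lev R d μ x`, and `lev R d μ x ∈ V` by `lev_mem`. If `a` is chosen such that
moreover `d a i - d a j = d a k - d a l` only if `d z i - d z j = d z k - d z l` for all `z ∈ 𝔞`
(again `Module.Dual.exists_forall_mem_ne_zero_of_forall_exists`), `lev R d μ x` is a weight vector
for `𝔞`. The weight, a linear functional on `𝔞`, extends to a linear functional on all matrices. -/
theorem mem_span_weight {𝔞 : Submodule ℝ (Matrix ι ι ℝ)} (h : SDg 𝔞)
    (V : Submodule ℝ (Matrix ι ι ℝ)) (hV : ∀ z ∈ 𝔞, ∀ x ∈ V, z * x - x * z ∈ V)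
    {x : Matrix ι ι ℝ} (hx : x ∈ V) :
    x ∈ Submodule.span ℝ {y | y ∈ V ∧ ∃ β : Matrix ι ι ℝ →ₗ[ℝ] ℝ,
      ∀ z ∈ 𝔞, z * y - y * z = β z • y} := by
  classical
  obtain ⟨R, hR⟩ := h
  -- the coordinates of the elements of `𝔞`
  have hdiag : ∀ z ∈ 𝔞, z = mkD R (fun i => cj R z i i) := by
    intro z hz
    obtain ⟨d, hd⟩ := hR z hz
    have h1 : z = mkD R d := hd
    have h2 : cj R z = Matrix.diagonal d := by rw [h1, cj_mkD]
    have h3 : (fun i => cj R z i i) = d := by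
      funext i
      rw [h2, Matrix.diagonal_apply_eq]
    rw [h3]
    exact h1
  -- a very regular element
  obtain ⟨a, ha, hreg⟩ : ∃ a ∈ 𝔞, ∀ q : {q : (ι × ι) × (ι × ι) //
      ∃ z ∈ 𝔞, (SimF_dif R q.1.1 q.1.2 - SimF_dif R q.2.1 q.2.2) z ≠ 0},
      (SimF_dif R q.1.1.1 q.1.1.2 - SimF_dif R q.1.2.1 q.1.2.2) a ≠ 0 :=
    Module.Dual.exists_forall_mem_ne_zero_of_forall_exists 𝔞
      (fun q : {q : (ι × ι) × (ι × ι) //
        ∃ z ∈ 𝔞, (SimF_dif R q.1.1 q.1.2 - SimF_dif R q.2.1 q.2.2) z ≠ 0} =>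
        (SimF_dif R q.1.1.1 q.1.1.2 - SimF_dif R q.1.2.1 q.1.2.2))
      (fun q => q.2)
  have hreg' : ∀ i j k l : ι, SimF_dif R i j a = SimF_dif R k l a →
      ∀ z ∈ 𝔞, SimF_dif R i j z = SimF_dif R k l z := by
    intro i j k l h1 z hz
    by_contra h2
    refine hreg ⟨((i, j), (k, l)), z, hz, ?_⟩ ?_
    · rw [LinearMap.sub_apply]
      exact sub_ne_zero.2 h2
    · rw [LinearMap.sub_apply]
      exact sub_eq_zero.2 h1
  set d : ι → ℝ := fun i => cj R a i i with hd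
  have hVa : ∀ x ∈ V, mkD R d * x - x * mkD R d ∈ V := by
    intro y hy
    rw [← hdiag a ha]
    exact hV a ha y hy
  rw [sum_lev R d x]
  refine Submodule.sum_mem _ fun μ hμ => Submodule.subset_span ?_
  refine ⟨lev_mem V R d hVa hx μ, ?_⟩
  obtain ⟨⟨i0, j0⟩, -, hij⟩ := Finset.mem_image.1 hμ
  refine ⟨SimF_dif R i0 j0, fun z hz => cj_inj R ?_⟩
  have hz1 : cj R z = Matrix.diagonal (fun i => cj R z i i) := by
    conv_lhs => rw [hdiag z hz, cj_mkD]
  rw [cj_sub, cj_mul, cj_mul, cj_smul, cj_lev, hz1]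
  ext i j
  rw [Matrix.sub_apply, Matrix.diagonal_mul, Matrix.mul_diagonal, Matrix.smul_apply, smul_eq_mul,
    Matrix.of_apply]
  by_cases hc : d i - d j = μ
  · rw [if_pos hc]
    have h3 := hreg' i j i0 j0 (by rw [SimF_dif_apply, SimF_dif_apply]; exact hc.trans hij.symm) z hz
    rw [← h3, SimF_dif_apply]
    ring
  · rw [if_neg hc]
    ring

end Pool.Agent.W_MP_bb6588_G
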