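import Mathlib
import Pool.Agent.W_MP_bb6588_G.CommB
import Pool.Agent.W_MP_bb6588_G.SimE
import Pool.Agent.W_MP_bb6588_G.SimF
import Pool.Agent.W_MP_bb6588_G.RealF

set_option autoImplicit false

/-!
# Moving `E` into a maximal split subalgebra, and commuting eigenvectors
-/

namespace Pool.Agent.W_MP_bb6588_G

open Matrix Filter Topology
open Pool.Agent.W_MP_bb6588_an (SLR SLZ nrm Dig step expo dlt val)

variable {ι : Type} [Fintype ι] [DecidableEq ι]

/-- Let `𝔞` be a maximal simultaneously diagonalizable subspace of `V`. A simultaneously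
diagonalizable subspace `E` of `V` is conjugate to a subspace of `𝔞`.

Proof. Let `a ∈ E`, `b ∈ 𝔞` be regular elements (`exists_regular`). By `comm_lemma` there is
`g ∈ GG V` (`NN_le_GG`) such that `g a g⁻¹` commutes with `b`, hence with `𝔞`. For `z' ∈ 𝔞`,
`g⁻¹ z' g` commutes with `a`, hence with `E`. So for `z ∈ E`, `g z g⁻¹` commutes with `𝔞`; it is
in `V` (`conj_mem`) and diagonalizable, so in `𝔞`. -/
theorem exists_conj_le {V 𝔞 E : Submodule ℝ (Matrix ι ι ℝ)} (hV : IsLie V) (hT : TrZ V)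
    (hN : Nondeg V) (h𝔞V : 𝔞 ≤ V) (h𝔞 : SDg 𝔞)
    (hmax : ∀ b ∈ V, Dg b → (∀ z ∈ 𝔞, z * b = b * z) → b ∈ 𝔞) (hEV : E ≤ V) (hE : SDg E) :
    ∃ g ∈ GG V, ∀ z ∈ E, (g : Matrix ι ι ℝ) * z * ((g⁻¹ : SLR ι) : Matrix ι ι ℝ) ∈ 𝔞 := by
  obtain ⟨a, haE, hareg⟩ := exists_regular hE
  obtain ⟨b, hb, hbreg⟩ := exists_regular h𝔞
  obtain ⟨n, hn, m, hm, hc⟩ := comm_lemma hV hT hN (hEV haE) (h𝔞V hb) (Dg_of_mem hE haE)
    (Dg_of_mem h𝔞 hb)
  have hgG : m * n ∈ GG V := (GG V).mul_mem (NN_le_GG V b hm) (NN_le_GG V a hn)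
  generalize m * n = g at hc hgG
  refine ⟨g, hgG, fun z hz => ?_⟩
  have hGH : (g : Matrix ι ι ℝ) * ((g⁻¹ : SLR ι) : Matrix ι ι ℝ) = 1 := by
    rw [← Matrix.SpecialLinearGroup.coe_mul, mul_inv_cancel, Matrix.SpecialLinearGroup.coe_one]
  have hHG : ((g⁻¹ : SLR ι) : Matrix ι ι ℝ) * (g : Matrix ι ι ℝ) = 1 := by
    rw [← Matrix.SpecialLinearGroup.coe_mul, inv_mul_cancel, Matrix.SpecialLinearGroup.coe_one]
  refine hmax _ (conj_mem hV hT hgG (hEV hz)) ((Dg_of_mem hE hz).conj g) fun z' hz' => ?_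
  generalize ((g⁻¹ : SLR ι) : Matrix ι ι ℝ) = H at *
  generalize (g : Matrix ι ι ℝ) = G at *
  have h1 : G * a * H * z' = z' * (G * a * H) := hbreg _ hc z' hz'
  have h2 : H * z' * G * a = a * (H * z' * G) := by
    have h3 : H * (G * a * H * z') * G = H * (z' * (G * a * H)) * G := by rw [h1]
    have h4 : H * (G * a * H * z') * G = a * (H * z' * G) := by
      calc H * (G * a * H * z') * G = (H * G) * a * H * z' * G := by simp only [mul_assoc]
        _ = a * (H * z' * G) := by rw [hHG]; simp only [mul_assoc, one_mul]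
    have h5 : H * (z' * (G * a * H)) * G = H * z' * G * a := by
      calc H * (z' * (G * a * H)) * G = H * z' * G * a * (H * G) := by simp only [mul_assoc]
        _ = H * z' * G * a := by rw [hHG, mul_one]
    rw [← h5, ← h3, h4]
  have h6 : H * z' * G * z = z * (H * z' * G) := hareg _ h2 z hz
  calc z' * (G * z * H) = (G * H) * z' * G * z * H := by rw [hGH]; simp only [mul_assoc, one_mul]
    _ = G * (H * z' * G * z) * H := by simp only [mul_assoc]
    _ = G * (z * (H * z' * G)) * H := by rw [h6]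
    _ = G * z * H * z' * (G * H) := by simp only [mul_assoc]
    _ = G * z * H * z' := by rw [hGH, mul_one]

/-- An eigenvector of `ad e`, `e ∈ 𝔞`, with nonzero eigenvalue is a combination of weight vectors
whose weight does not vanish at `e`. -/
theorem mem_span_weight_ne {V 𝔞 : Submodule ℝ (Matrix ι ι ℝ)} (hV : IsLie V)
    (h𝔞V : 𝔞 ≤ V) (h𝔞 : SDg 𝔞) {e : Matrix ι ι ℝ} (he : e ∈ 𝔞)
    {x : Matrix ι ι ℝ} {lam : ℝ} (hx : x ∈ V) (hlam : lam ≠ 0)
    (hxe : e * x - x * e = lam • x) :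
    x ∈ Submodule.span ℝ {y | y ∈ V ∧ ∃ β : Matrix ι ι ℝ →ₗ[ℝ] ℝ,
      (∀ z ∈ 𝔞, z * y - y * z = β z • y) ∧ β e ≠ 0} := by
  have h1 := mem_span_weight h𝔞 V (fun z hz x hx => hV z (h𝔞V hz) x hx) hx
  have h2 : ∀ u ∈ Submodule.span ℝ {y | y ∈ V ∧ ∃ β : Matrix ι ι ℝ →ₗ[ℝ] ℝ,
      ∀ z ∈ 𝔞, z * y - y * z = β z • y}, e * u - u * e ∈ Submodule.span ℝ {y | y ∈ V ∧
        ∃ β : Matrix ι ι ℝ →ₗ[ℝ] ℝ, (∀ z ∈ 𝔞, z * y - y * z = β z • y) ∧ β e ≠ 0} := by
    intro u hu
    induction hu using Submodule.span_induction with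
    | mem y hy =>
      obtain ⟨hyV, β, hβ⟩ := hy
      rw [hβ e he]
      by_cases hb : β e = 0
      · rw [hb, zero_smul]
        exact Submodule.zero_mem _
      · exact Submodule.smul_mem _ _ (Submodule.subset_span ⟨hyV, β, hβ, hb⟩)
    | zero => simp
    | add y z _ _ h1 h2 =>
      have h3 : e * (y + z) - (y + z) * e = (e * y - y * e) + (e * z - z * e) := by
        noncomm_ring
      rw [h3]
      exact Submodule.add_mem _ h1 h2
    | smul c y _ h1 =>
      have h3 : e * (c • y) - (c • y) * e = c • (e * y - y * e) := by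
        rw [mul_smul_comm, smul_mul_assoc, smul_sub]
      rw [h3]
      exact Submodule.smul_mem _ _ h1
  have h3 : x = lam⁻¹ • (e * x - x * e) := by
    rw [hxe, smul_smul, inv_mul_cancel₀ hlam, one_smul]
  rw [h3]
  exact Submodule.smul_mem _ _ (h2 x h1)

/-- Let `e, z₀ ∈ 𝔞` and suppose that every weight vector of `𝔞` in `V` commutes with `e` or with
`z₀`. Then eigenvectors of `ad e` with nonzero eigenvalue commute with eigenvectors of `ad z₀` with
nonzero eigenvalue.

Proof. Let `[e, x] = λ x`, `λ ≠ 0`. By `mem_span_weight` `x` is a combination of weight vectors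
`x_i`, with weights `γ_i`; `x = λ⁻¹ [e, x]` is a combination of the `γ_i(e) x_i`, i.e. of weight
vectors with `γ_i(e) ≠ 0`. In the same way `y` is a combination of weight vectors `y_j` with
weights `δ_j`, `δ_j(z₀) ≠ 0`. By hypothesis `x_i` commutes with `z₀` (it does not commute with `e`
unless it is `0`), so `γ_i(z₀) = 0` or `x_i = 0`, and `δ_j(e) = 0` or `y_j = 0`. `[x_i, y_j]` is a
weight vector, with `[e, ·] = γ_i(e) ·` and `[z₀, ·] = δ_j(z₀) ·`; by hypothesis it is `0`. -/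
theorem commute_of_weights {V 𝔞 : Submodule ℝ (Matrix ι ι ℝ)} (hV : IsLie V)
    (h𝔞V : 𝔞 ≤ V) (h𝔞 : SDg 𝔞) {e z₀ : Matrix ι ι ℝ} (he : e ∈ 𝔞) (hz₀ : z₀ ∈ 𝔞)
    (h : ∀ y ∈ V, ∀ β : Matrix ι ι ℝ →ₗ[ℝ] ℝ, (∀ z ∈ 𝔞, z * y - y * z = β z • y) →
      e * y = y * e ∨ z₀ * y = y * z₀)
    {x y : Matrix ι ι ℝ} {lam μ : ℝ} (hx : x ∈ V) (hy : y ∈ V) (hlam : lam ≠ 0) (hμ : μ ≠ 0)
    (hxe : e * x - x * e = lam • x) (hyz : z₀ * y - y * z₀ = μ • y) : x * y = y * x := by
  have hxs := mem_span_weight_ne hV h𝔞V h𝔞 he hx hlam hxe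
  have hys := mem_span_weight_ne hV h𝔞V h𝔞 hz₀ hy hμ hyz
  have key : ∀ u ∈ V, ∀ γ : Matrix ι ι ℝ →ₗ[ℝ] ℝ, (∀ z ∈ 𝔞, z * u - u * z = γ z • u) →
      γ e ≠ 0 → ∀ v ∈ V, ∀ δ : Matrix ι ι ℝ →ₗ[ℝ] ℝ, (∀ z ∈ 𝔞, z * v - v * z = δ z • v) →
      δ z₀ ≠ 0 → u * v = v * u := by
    intro u hu γ hγ hγe v hv δ hδ hδz
    -- `u` commutes with `z₀`
    have hu0 : z₀ * u = u * z₀ := by
      rcases h u hu γ hγ with h1 | h1
      · have h2 : γ e • u = 0 := by rw [← hγ e he, h1, sub_self]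
        rcases smul_eq_zero.1 h2 with h3 | h3
        · exact absurd h3 hγe
        · rw [h3, mul_zero, zero_mul]
      · exact h1
    have hv0 : e * v = v * e := by
      rcases h v hv δ hδ with h1 | h1
      · exact h1
      · have h2 : δ z₀ • v = 0 := by rw [← hδ z₀ hz₀, h1, sub_self]
        rcases smul_eq_zero.1 h2 with h3 | h3
        · exact absurd h3 hδz
        · rw [h3, mul_zero, zero_mul]
    have hw : ∀ z ∈ 𝔞, z * (u * v - v * u) - (u * v - v * u) * z =
        (γ + δ) z • (u * v - v * u) := by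
      intro z hz
      have h1 : z * (u * v - v * u) - (u * v - v * u) * z =
          ((z * u - u * z) * v - v * (z * u - u * z)) +
            (u * (z * v - v * z) - (z * v - v * z) * u) := by noncomm_ring
      rw [h1, hγ z hz, hδ z hz, LinearMap.add_apply, add_smul, smul_mul_assoc, mul_smul_comm,
        mul_smul_comm, smul_mul_assoc, ← smul_sub, ← smul_sub]
    have hwe : e * (u * v - v * u) - (u * v - v * u) * e = γ e • (u * v - v * u) := by
      have h1 : e * (u * v - v * u) - (u * v - v * u) * e =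
          ((e * u - u * e) * v - v * (e * u - u * e)) +
            (u * (e * v - v * e) - (e * v - v * e) * u) := by noncomm_ring
      rw [h1, hγ e he, hv0, sub_self, mul_zero, zero_mul, sub_self, add_zero, smul_mul_assoc,
        mul_smul_comm, ← smul_sub]
    have hwz : z₀ * (u * v - v * u) - (u * v - v * u) * z₀ = δ z₀ • (u * v - v * u) := by
      have h1 : z₀ * (u * v - v * u) - (u * v - v * u) * z₀ =
          ((z₀ * u - u * z₀) * v - v * (z₀ * u - u * z₀)) +
            (u * (z₀ * v - v * z₀) - (z₀ * v - v * z₀) * u) := by noncomm_ring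
      rw [h1, hδ z₀ hz₀, hu0, sub_self, mul_zero, zero_mul, sub_self, zero_add, smul_mul_assoc,
        mul_smul_comm, ← smul_sub]
    have hw0 : u * v - v * u = 0 := by
      rcases h (u * v - v * u) (hV u hu v hv) (γ + δ) hw with h1 | h1
      · rw [h1, sub_self] at hwe
        exact (smul_eq_zero.1 hwe.symm).resolve_left hγe
      · rw [h1, sub_self] at hwz
        exact (smul_eq_zero.1 hwz.symm).resolve_left hδz
    exact sub_eq_zero.1 hw0
  clear hy hyz hx hxe
  have key2 : ∀ u ∈ V, ∀ γ : Matrix ι ι ℝ →ₗ[ℝ] ℝ, (∀ z ∈ 𝔞, z * u - u * z = γ z • u) →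
      γ e ≠ 0 → u * y = y * u := by
    intro u hu γ hγ hγe
    induction hys using Submodule.span_induction with
    | mem v hv =>
      obtain ⟨hvV, δ, hδ, hδz⟩ := hv
      exact key u hu γ hγ hγe v hvV δ hδ hδz
    | zero => rw [mul_zero, zero_mul]
    | add v w _ _ h1 h2 => rw [mul_add, add_mul, h1, h2]
    | smul c v _ h1 => rw [mul_smul_comm, smul_mul_assoc, h1]
  clear hys key
  induction hxs using Submodule.span_induction with
  | mem u hu =>
    obtain ⟨huV, γ, hγ, hγe⟩ := hu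
    exact key2 u huV γ hγ hγe
  | zero => rw [mul_zero, zero_mul]
  | add v w _ _ h1 h2 => rw [mul_add, add_mul, h1, h2]
  | smul c v _ h1 => rw [mul_smul_comm, smul_mul_assoc, h1]

/-- The eigenvectors of `ad z₀` with nonzero eigenvalue: their centralizer in `V` is an ideal.

Proof. Let `x` centralize them and `w ∈ V`. `w` is a sum of eigenvectors `w_μ ∈ V` of `ad z₀`
(`lev_mem`, `sum_lev`). If `μ ≠ 0`, `[w_μ, x] = 0`. `w_0` commutes with `z₀`, so for `y` with
`[z₀, y] = ν y`, `ν ≠ 0`, also `[w_0, y]` is such an eigenvector, and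
`[[w_0, x], y] = [w_0, [x, y]] - [x, [w_0, y]] = 0`. -/
theorem centralizer_ideal {V : Submodule ℝ (Matrix ι ι ℝ)} (hV : IsLie V) {z₀ : Matrix ι ι ℝ}
    (hz₀ : z₀ ∈ V) (hD : Dg z₀) {x w : Matrix ι ι ℝ} (hx : x ∈ V) (hw : w ∈ V)
    (h : ∀ y ∈ V, ∀ μ : ℝ, μ ≠ 0 → z₀ * y - y * z₀ = μ • y → x * y = y * x) :
    ∀ y ∈ V, ∀ μ : ℝ, μ ≠ 0 → z₀ * y - y * z₀ = μ • y →
      (w * x - x * w) * y = y * (w * x - x * w) := by
  obtain ⟨R, d, hRd⟩ := hD
  change z₀ = mkD R d at hRd
  subst hRd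
  intro y hy μ hμ hyμ
  have hxy : x * y = y * x := h y hy μ hμ hyμ
  have hlev : ∀ ν : ℝ, lev R d ν w ∈ V := fun ν =>
    lev_mem V R d (fun x hx => hV _ hz₀ x hx) hw ν
  have key : ∀ ν : ℝ, (lev R d ν w * x - x * lev R d ν w) * y =
      y * (lev R d ν w * x - x * lev R d ν w) := by
    intro ν
    have hb := bracket_lev R d ν w
    have hm := hlev ν
    generalize lev R d ν w = u at hb hm
    by_cases hν : ν = 0
    · rw [hν, zero_smul] at hb
      have hbV : u * y - y * u ∈ V := hV u hm y hy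
      have h1 : mkD R d * (u * y - y * u) - (u * y - y * u) * mkD R d =
          ((mkD R d * u - u * mkD R d) * y - y * (mkD R d * u - u * mkD R d)) +
            (u * (mkD R d * y - y * mkD R d) - (mkD R d * y - y * mkD R d) * u) := by
        noncomm_ring
      rw [hb, hyμ, zero_mul, mul_zero, sub_self, zero_add, mul_smul_comm, smul_mul_assoc,
        ← smul_sub] at h1
      have h2 := h _ hbV μ hμ h1
      have h3 : (u * x - x * u) * y - y * (u * x - x * u) =
          u * (x * y - y * x) - (x * y - y * x) * u -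
            (x * (u * y - y * u) - (u * y - y * u) * x) := by noncomm_ring
      rw [hxy, h2, sub_self, sub_self, mul_zero, zero_mul, sub_self, sub_self] at h3
      exact sub_eq_zero.1 h3
    · have h1 := h u hm ν hν hb
      rw [h1, sub_self, zero_mul, mul_zero]
  have hsum := sum_lev R d w
  have h1 : w * x - x * w = ∑ μ ∈ Finset.univ.image (fun q : ι × ι => d q.1 - d q.2),
      (lev R d μ w * x - x * lev R d μ w) := by
    rw [Finset.sum_sub_distrib, ← Finset.sum_mul, ← Finset.mul_sum, ← hsum]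
  rw [h1, Finset.sum_mul, Finset.mul_sum]
  exact Finset.sum_congr rfl fun ν _ => key ν

end Pool.Agent.W_MP_bb6588_G
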