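import Mathlib
import Pool.Agent.W_MP_bb6588_G.Defs

set_option autoImplicit false

/-!
# The part of `E` orthogonal to `S`
-/

namespace Pool.Agent.W_MP_bb6588_G

open Matrix Filter Topology
open Pool.Agent.W_MP_bb6588_an (SLR SLZ nrm Dig step expo dlt val)

variable {ι : Type} [Fintype ι] [DecidableEq ι]

/-- The elements of `E` orthogonal to `S`. -/
def perpIn (E : Submodule ℝ (Matrix ι ι ℝ)) (S : Submodule ℝ (Matrix ι ι ℝ)) :
    Submodule ℝ (Matrix ι ι ℝ) where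
  carrier := {z | z ∈ E ∧ ∀ s ∈ S, (s * z).trace = 0}
  add_mem' := by
    rintro x y ⟨hx, hx'⟩ ⟨hy, hy'⟩
    exact ⟨E.add_mem hx hy, fun s hs => by
      rw [mul_add, Matrix.trace_add, hx' s hs, hy' s hs, add_zero]⟩
  zero_mem' := ⟨E.zero_mem, fun s _ => by simp⟩
  smul_mem' := by
    rintro c x ⟨hx, hx'⟩
    exact ⟨E.smul_mem c hx, fun s hs => by
      rw [Algebra.mul_smul_comm, Matrix.trace_smul, hx' s hs, smul_zero]⟩

/-- The conjugate `g E g⁻¹`. -/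
def conjS (g : SLR ι) (E : Submodule ℝ (Matrix ι ι ℝ)) : Submodule ℝ (Matrix ι ι ℝ) where
  carrier := {w | ∃ z ∈ E, w = (g : Matrix ι ι ℝ) * z * ((g⁻¹ : SLR ι) : Matrix ι ι ℝ)}
  add_mem' := by
    rintro _ _ ⟨x, hx, rfl⟩ ⟨y, hy, rfl⟩
    exact ⟨x + y, E.add_mem hx hy, by rw [mul_add, add_mul]⟩
  zero_mem' := ⟨0, E.zero_mem, by simp⟩
  smul_mem' := by
    rintro c _ ⟨x, hx, rfl⟩
    exact ⟨c • x, E.smul_mem c hx, by rw [Algebra.mul_smul_comm, Algebra.smul_mul_assoc]⟩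

theorem posA_coe_inv_mul (g : SLR ι) :
    ((g⁻¹ : SLR ι) : Matrix ι ι ℝ) * (g : Matrix ι ι ℝ) = 1 := by
  rw [← Matrix.SpecialLinearGroup.coe_mul, inv_mul_cancel, Matrix.SpecialLinearGroup.coe_one]

theorem posA_coe_mul_inv (g : SLR ι) :
    (g : Matrix ι ι ℝ) * ((g⁻¹ : SLR ι) : Matrix ι ι ℝ) = 1 := by
  rw [← Matrix.SpecialLinearGroup.coe_mul, mul_inv_cancel, Matrix.SpecialLinearGroup.coe_one]

/-- conjugation as a linear equivalence -/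
def conjE (g : SLR ι) : Matrix ι ι ℝ ≃ₗ[ℝ] Matrix ι ι ℝ where
  toFun z := (g : Matrix ι ι ℝ) * z * ((g⁻¹ : SLR ι) : Matrix ι ι ℝ)
  invFun z := ((g⁻¹ : SLR ι) : Matrix ι ι ℝ) * z * (g : Matrix ι ι ℝ)
  map_add' x y := by rw [mul_add, add_mul]
  map_smul' c x := by
    rw [Algebra.mul_smul_comm, Algebra.smul_mul_assoc]
    rfl
  left_inv z := by
    change ((g⁻¹ : SLR ι) : Matrix ι ι ℝ) * ((g : Matrix ι ι ℝ) * z *
      ((g⁻¹ : SLR ι) : Matrix ι ι ℝ)) * (g : Matrix ι ι ℝ) = z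
    calc _ = (((g⁻¹ : SLR ι) : Matrix ι ι ℝ) * (g : Matrix ι ι ℝ)) * z *
          (((g⁻¹ : SLR ι) : Matrix ι ι ℝ) * (g : Matrix ι ι ℝ)) := by
          simp only [mul_assoc]
      _ = z := by rw [posA_coe_inv_mul, one_mul, mul_one]
  right_inv z := by
    change (g : Matrix ι ι ℝ) * (((g⁻¹ : SLR ι) : Matrix ι ι ℝ) * z * (g : Matrix ι ι ℝ)) *
      ((g⁻¹ : SLR ι) : Matrix ι ι ℝ) = z
    calc _ = ((g : Matrix ι ι ℝ) * ((g⁻¹ : SLR ι) : Matrix ι ι ℝ)) * z *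
          ((g : Matrix ι ι ℝ) * ((g⁻¹ : SLR ι) : Matrix ι ι ℝ)) := by
          simp only [mul_assoc]
      _ = z := by rw [posA_coe_mul_inv, one_mul, mul_one]

theorem conjS_eq_map (g : SLR ι) (E : Submodule ℝ (Matrix ι ι ℝ)) :
    conjS g E = E.map (conjE g : Matrix ι ι ℝ →ₗ[ℝ] Matrix ι ι ℝ) := by
  ext w
  rw [Submodule.mem_map]
  constructor
  · rintro ⟨z, hz, rfl⟩
    exact ⟨z, hz, rfl⟩
  · rintro ⟨z, hz, rfl⟩
    exact ⟨z, hz, rfl⟩

theorem finrank_conjS (g : SLR ι) (E : Submodule ℝ (Matrix ι ι ℝ)) :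
    Module.finrank ℝ (conjS g E) = Module.finrank ℝ E := by
  rw [conjS_eq_map]
  exact LinearEquiv.finrank_map_eq (conjE g) E

theorem conjS_mul (g h : SLR ι) (E : Submodule ℝ (Matrix ι ι ℝ)) :
    conjS (g * h) E = conjS g (conjS h E) := by
  have key : ∀ z : Matrix ι ι ℝ, ((g * h : SLR ι) : Matrix ι ι ℝ) * z *
      (((g * h)⁻¹ : SLR ι) : Matrix ι ι ℝ) = (g : Matrix ι ι ℝ) * ((h : Matrix ι ι ℝ) * z *
      ((h⁻¹ : SLR ι) : Matrix ι ι ℝ)) * ((g⁻¹ : SLR ι) : Matrix ι ι ℝ) := by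
    intro z
    rw [_root_.mul_inv_rev, Matrix.SpecialLinearGroup.coe_mul, Matrix.SpecialLinearGroup.coe_mul]
    simp only [mul_assoc]
  ext w
  constructor
  · rintro ⟨z, hz, rfl⟩
    exact ⟨_, ⟨z, hz, rfl⟩, key z⟩
  · rintro ⟨_, ⟨z, hz, rfl⟩, rfl⟩
    exact ⟨z, hz, (key z).symm⟩

/-- A reflection lowers the dimension of `perpIn E S`: let `g` act on `𝔞` as the reflection in `t`,
`E ≤ 𝔞`, `β z = tr(t z)`, and suppose that `β` does not vanish on `perpIn E S` and there is no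
`z ∈ E` with `tr(s t) = tr(s z)` for all `s ∈ S`.

Proof. For `z ∈ E`, `g z g⁻¹ = z - c β(z) t`, `c = 2 / β t ≠ 0`. If it is orthogonal to `S` then
`tr(s z) = c β(z) tr(s t)` for all `s ∈ S`; if `β z ≠ 0` then `(c β(z))⁻¹ z` contradicts the
hypothesis; so `β z = 0` and `z` is orthogonal to `S`. So `perpIn (g E g⁻¹) S` is the image
of `perpIn E S ∩ ker β`, a proper subspace of `perpIn E S`. -/
theorem finrank_perpIn_lt {𝔞 E S : Submodule ℝ (Matrix ι ι ℝ)} (hE : E ≤ 𝔞)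
    {t : Matrix ι ι ℝ} {g : SLR ι} {c : ℝ} (hc : c ≠ 0)
    (hg : ∀ z ∈ 𝔞, (g : Matrix ι ι ℝ) * z * ((g⁻¹ : SLR ι) : Matrix ι ι ℝ) =
      z - (c * (t * z).trace) • t)
    (h1 : ∃ z ∈ perpIn E S, (t * z).trace ≠ 0)
    (h2 : ¬ ∃ z ∈ E, ∀ s ∈ S, (s * t).trace = (s * z).trace) :
    Module.finrank ℝ (perpIn (conjS g E) S) < Module.finrank ℝ (perpIn E S) := by
  have key : ∀ w ∈ perpIn (conjS g E) S, w ∈ perpIn E S ∧ (t * w).trace = 0 := by
    rintro w ⟨⟨z, hz, rfl⟩, hw⟩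
    have e1 := hg z (hE hz)
    have e2 : (t * z).trace = 0 := by
      by_contra hne
      apply h2
      have hne' : c * (t * z).trace ≠ 0 := mul_ne_zero hc hne
      refine ⟨(c * (t * z).trace)⁻¹ • z, E.smul_mem _ hz, fun s hs => ?_⟩
      have e3 := hw s hs
      rw [e1, mul_sub, Matrix.trace_sub, Algebra.mul_smul_comm, Matrix.trace_smul,
        smul_eq_mul, sub_eq_zero] at e3
      rw [Algebra.mul_smul_comm, Matrix.trace_smul, smul_eq_mul, e3, ← mul_assoc,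
        inv_mul_cancel₀ hne', one_mul]
    rw [e2, mul_zero, zero_smul, sub_zero] at e1
    rw [e1] at hw ⊢
    exact ⟨⟨hz, hw⟩, e2⟩
  apply Submodule.finrank_lt_finrank_of_lt
  refine lt_of_le_of_ne (fun w hw => (key w hw).1) ?_
  intro heq
  obtain ⟨z, hz, hne⟩ := h1
  rw [← heq] at hz
  exact hne (key z hz).2

end Pool.Agent.W_MP_bb6588_G
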