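import Mathlib
import Pool.Agent.W_MP_bb6588_G.SimD
import Pool.Agent.W_MP_bb6588_G.SimF

set_option autoImplicit false

/-!
# The centralizer of the kernel of a weight, and negative weights
-/

namespace Pool.Agent.W_MP_bb6588_G

open Matrix Filter Topology
open Pool.Agent.W_MP_bb6588_an (SLR SLZ nrm Dig step expo dlt val)

variable {ι : Type} [Fintype ι] [DecidableEq ι]

/-- The elements of `V` commuting with all `z ∈ 𝔞` with `β z = 0`. -/
def kerCent (V 𝔞 : Submodule ℝ (Matrix ι ι ℝ)) (β : Matrix ι ι ℝ →ₗ[ℝ] ℝ) :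
    Submodule ℝ (Matrix ι ι ℝ) where
  carrier := {x | x ∈ V ∧ ∀ z ∈ 𝔞, β z = 0 → x * z = z * x}
  add_mem' := by
    rintro x y ⟨hx, hx'⟩ ⟨hy, hy'⟩
    exact ⟨V.add_mem hx hy, fun z hz h0 => by rw [add_mul, mul_add, hx' z hz h0, hy' z hz h0]⟩
  zero_mem' := ⟨V.zero_mem, fun z _ _ => by simp⟩
  smul_mem' := by
    rintro c x ⟨hx, hx'⟩
    exact ⟨V.smul_mem c hx, fun z hz h0 => by
      rw [Algebra.smul_mul_assoc, Algebra.mul_smul_comm, hx' z hz h0]⟩

/-- `kerCent V 𝔞 β` is a Lie algebra with nondegenerate trace form.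

Proof (nondegeneracy). Let `z₀` be a regular element of `𝔞 ∩ ker β` (`exists_regular`), so that
`kerCent` is the centralizer of `z₀` in `V`; `z₀ = mkD R d`. If `x ∈ kerCent` is orthogonal to
`kerCent` and `y ∈ V`, then `tr(x y) = tr(x lev 0 y)` (as `x = lev 0 x`, `lev_of_bracket`) and
`lev 0 y ∈ V` (`lev_mem`) commutes with `z₀`, so lies in `kerCent`; so `tr(x y) = 0`. -/
theorem kerCent_props {V 𝔞 : Submodule ℝ (Matrix ι ι ℝ)} (hV : IsLie V) (hT : TrZ V)
    (hN : Nondeg V) (h𝔞V : 𝔞 ≤ V) (h𝔞 : SDg 𝔞) (β : Matrix ι ι ℝ →ₗ[ℝ] ℝ) :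
    IsLie (kerCent V 𝔞 β) ∧ TrZ (kerCent V 𝔞 β) ∧ Nondeg (kerCent V 𝔞 β) := by
  refine ⟨?_, fun x hx => hT x hx.1, ?_⟩
  · rintro x ⟨hx, hx'⟩ y ⟨hy, hy'⟩
    refine ⟨hV x hx y hy, fun z hz h0 => ?_⟩
    have e1 := hx' z hz h0
    have e2 := hy' z hz h0
    have c1 : x * y * z = z * (x * y) := by
      rw [mul_assoc, e2, ← mul_assoc, e1, mul_assoc]
    have c2 : y * x * z = z * (y * x) := by
      rw [mul_assoc, e1, ← mul_assoc, e2, mul_assoc]
    rw [sub_mul, mul_sub, c1, c2]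
  · intro x hx hort
    obtain ⟨hxV, hxc⟩ := hx
    have hS : SDg (𝔞 ⊓ LinearMap.ker β) := SDg.mono h𝔞 inf_le_left
    obtain ⟨z₀, hz₀, hreg⟩ := exists_regular hS
    obtain ⟨hz₀a, hz₀b⟩ := Submodule.mem_inf.1 hz₀
    have hz₀b' : β z₀ = 0 := by simpa using hz₀b
    obtain ⟨R, d, hRd⟩ := Dg_of_mem h𝔞 hz₀a
    have hmk : mkD R d = z₀ := hRd.symm
    apply hN x hxV
    intro y hy
    have hlevV : ∀ μ, lev R d μ y ∈ V := fun μ =>
      lev_mem V R d (fun w hw => by rw [hmk]; exact hV _ (h𝔞V hz₀a) _ hw) hy μ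
    have hterm : ∀ μ, (x * lev R d μ y).trace = 0 := by
      intro μ
      have hb := bracket_lev R d μ y
      rw [hmk] at hb
      by_cases hμ : μ = 0
      · apply hort
        refine ⟨hlevV μ, fun z hz h0 => ?_⟩
        apply hreg
        · rw [hμ, zero_smul] at hb
          rw [hμ]
          exact (sub_eq_zero.1 hb).symm
        · exact Submodule.mem_inf.2 ⟨hz, by simpa using h0⟩
      · have hcx := hxc z₀ hz₀a hz₀b'
        have h1 : (x * (z₀ * lev R d μ y - lev R d μ y * z₀)).trace = 0 := by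
          rw [mul_sub, Matrix.trace_sub, ← mul_assoc, ← mul_assoc,
            Matrix.trace_mul_comm (x * lev R d μ y) z₀, ← mul_assoc, hcx, sub_self]
        rw [hb, Algebra.mul_smul_comm, Matrix.trace_smul, smul_eq_mul] at h1
        exact (mul_eq_zero.1 h1).resolve_left hμ
    have hsum := sum_lev R d y
    rw [hsum, Finset.mul_sum, Matrix.trace_sum]
    exact Finset.sum_eq_zero fun μ _ => hterm μ

/-- If `X ∈ V` is a nonzero weight vector of weight `β` there is a nonzero weight vector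
`Y ∈ V` of weight `-β`.

Proof. `tr(X y) ≠ 0` for some `y ∈ V`, so (by `mem_span_weight`) for some weight vector `y`, of weight
`γ`; `β z tr(X y) = tr([z, X] y) = - tr(X [z, y]) = - γ z tr(X y)`. -/
theorem exists_neg_weight {V 𝔞 : Submodule ℝ (Matrix ι ι ℝ)} (hV : IsLie V)
    (hN : Nondeg V) (h𝔞V : 𝔞 ≤ V) (h𝔞 : SDg 𝔞) (β : Matrix ι ι ℝ →ₗ[ℝ] ℝ) {X : Matrix ι ι ℝ}
    (hX : X ∈ V) (hX0 : X ≠ 0) (hw : ∀ z ∈ 𝔞, z * X - X * z = β z • X) :
    ∃ Y ∈ V, Y ≠ 0 ∧ ∀ z ∈ 𝔞, z * Y - Y * z = -(β z • Y) := by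
  obtain ⟨y, ⟨hyV, γ, hγ⟩, hne⟩ : ∃ y ∈ {y | y ∈ V ∧ ∃ β : Matrix ι ι ℝ →ₗ[ℝ] ℝ,
      ∀ z ∈ 𝔞, z * y - y * z = β z • y}, (X * y).trace ≠ 0 := by
    by_contra hcon
    push Not at hcon
    apply hX0
    apply hN X hX
    intro y hy
    have hsp := mem_span_weight h𝔞 V (fun z hz x hx => hV z (h𝔞V hz) x hx) hy
    clear hy
    induction hsp using Submodule.span_induction with
    | mem w hw => exact hcon w hw
    | zero => simp
    | add u v _ _ hu hv => rw [mul_add, Matrix.trace_add, hu, hv, add_zero]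
    | smul c u _ hu => rw [Algebra.mul_smul_comm, Matrix.trace_smul, hu, smul_zero]
  refine ⟨y, hyV, ?_, ?_⟩
  · rintro rfl
    simp at hne
  · intro z hz
    have h1 := congrArg (fun M => (M * y).trace) (hw z hz)
    have h2 := congrArg (fun M => (X * M).trace) (hγ z hz)
    simp only [sub_mul, mul_sub, Matrix.trace_sub, Algebra.mul_smul_comm,
      Algebra.smul_mul_assoc, Matrix.trace_smul, smul_eq_mul] at h1 h2
    have h3 : (X * (y * z)).trace = (z * X * y).trace := by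
      rw [← mul_assoc, Matrix.trace_mul_comm (X * y) z, ← mul_assoc]
    have h4 : (X * (z * y)).trace = (X * z * y).trace := by rw [mul_assoc]
    have h5 : (β z + γ z) * (X * y).trace = 0 := by
      rw [add_mul, ← h1, ← h2, h3, h4]
      ring
    have h6 : γ z = - β z := by
      have := (mul_eq_zero.1 h5).resolve_right hne
      linarith
    rw [hγ z hz, h6, neg_smul]

end Pool.Agent.W_MP_bb6588_G
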