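import Mathlib
import Pool.Agent.W_MP_bb6588_G.LevB
import Pool.Agent.W_MP_bb6588_G.ExpC

set_option autoImplicit false

/-!
# Lower unipotent elements
-/

namespace Pool.Agent.W_MP_bb6588_G

open Matrix Filter Topology
open Pool.Agent.W_MP_bb6588_an (SLR SLZ nrm Dig step expo dlt val)

variable {ι : Type} [Fintype ι] [DecidableEq ι]

/-- The exponential of an element of positive level lies in `Upe 0`. -/
theorem reflB_exp_mem {R : (Matrix ι ι ℝ)ˣ} {d : ι → ℝ} {μ : ℝ} (hμ : 0 < μ)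
    {w : Matrix ι ι ℝ} (h : mkD R d * w - w * mkD R d = μ • w) :
    NormedSpace.exp w ∈ Upe R d 0 := by
  have h1 := Up_le_Upe R d 0 (Up_mono R d hμ.le (exp_sub_mem_Up hμ h))
  have h2 : w ∈ Upe R d 0 := Up_le_Upe R d 0 (Upe_le_Up R d hμ (mem_Upe_of_bracket h))
  have h3 := (Upe R d 0).add_mem ((Upe R d 0).add_mem h1 h2) (one_mem_Upe R d)
  have h4 : NormedSpace.exp w - 1 - w + w + 1 = NormedSpace.exp w := by abel
  rwa [h4] at h3

omit [DecidableEq ι] in
theorem reflB_bracket_neg {a x : Matrix ι ι ℝ} {μ : ℝ} (h : a * x - x * a = μ • x) :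
    a * (-x) - (-x) * a = μ • (-x) := by
  rw [smul_neg, ← h, mul_neg, neg_mul]
  abel

/-- `NN V t` lies in `Upe 0`. -/
theorem reflB_NN {V : Submodule ℝ (Matrix ι ι ℝ)} (hT : TrZ V) (R : (Matrix ι ι ℝ)ˣ)
    (d : ι → ℝ) {m : SLR ι} (hm : m ∈ NN V (mkD R d)) : (m : Matrix ι ι ℝ) ∈ Upe R d 0 := by
  unfold NN at hm
  induction hm using Subgroup.closure_induction'' with
  | mem g hg =>
    obtain ⟨x, hx, μ, hμ, hb, rfl⟩ := hg
    rw [coe_eS (hT x hx)]
    exact reflB_exp_mem hμ hb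
  | inv_mem g hg =>
    obtain ⟨x, hx, μ, hμ, hb, rfl⟩ := hg
    rw [← eS_neg (hT x hx), coe_eS (by rw [Matrix.trace_neg, hT x hx, neg_zero])]
    exact reflB_exp_mem hμ (reflB_bracket_neg hb)
  | one =>
    rw [Matrix.SpecialLinearGroup.coe_one]
    exact one_mem_Upe R d
  | mul g h _ _ ihg ihh =>
    rw [Matrix.SpecialLinearGroup.coe_mul]
    have := Upe_mul_Upe ihg ihh
    rwa [add_zero] at this

theorem reflB_mkD_neg (R : (Matrix ι ι ℝ)ˣ) (d : ι → ℝ) : mkD R (-d) = -mkD R d := by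
  unfold mkD
  have h1 : Matrix.diagonal (-d) = -Matrix.diagonal d := by
    exact (Matrix.diagonal_neg d).symm
  rw [h1, mul_neg, neg_mul]

/-- Let `t = mkD R d`, and `Y ≠ 0` of level `μ < 0`. Then `exp(-Y)` is not of the form
`m⁻¹ g n⁻¹` with `m, n ∈ NN V t` and `g` commuting with `t`.

Proof. In the basis `R`: `m⁻¹, n⁻¹ ∈ Upe 0` (the generators `exp x` of `NN V t` and their inverses
lie in `1 + Up 0`), `g ∈ Upe 0`, so `exp(-Y) ∈ Upe 0`. But `exp(-Y) - 1` has only levels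
`≤ μ < 0`, and its component in level `μ` is `-Y` (levels `k μ`, `k ≥ 1`, for `Y ^ k`;
compare `exp_sub_mem_Up` with `d` replaced by `-d`). So `Y = 0`. -/
theorem exp_ne {V : Submodule ℝ (Matrix ι ι ℝ)} (hT : TrZ V) (R : (Matrix ι ι ℝ)ˣ) (d : ι → ℝ)
    {Y : Matrix ι ι ℝ} (hYT : Y.trace = 0) (hY0 : Y ≠ 0) {μ : ℝ} (hμ : μ < 0)
    (hY : mkD R d * Y - Y * mkD R d = μ • Y) {m n g : SLR ι} (hm : m ∈ NN V (mkD R d))
    (hn : n ∈ NN V (mkD R d)) (hg : (g : Matrix ι ι ℝ) * mkD R d = mkD R d * (g : Matrix ι ι ℝ)) :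
    (eS Y)⁻¹ ≠ m⁻¹ * g * n⁻¹ := by
  intro heq
  have hm' := reflB_NN hT R d ((NN V (mkD R d)).inv_mem hm)
  have hn' := reflB_NN hT R d ((NN V (mkD R d)).inv_mem hn)
  have hg' : (g : Matrix ι ι ℝ) ∈ Upe R d 0 := by
    apply mem_Upe_of_bracket
    rw [hg, sub_self, zero_smul]
  have hprod : ((m⁻¹ * g * n⁻¹ : SLR ι) : Matrix ι ι ℝ) ∈ Upe R d 0 := by
    rw [Matrix.SpecialLinearGroup.coe_mul, Matrix.SpecialLinearGroup.coe_mul]
    have h1 := Upe_mul_Upe (Upe_mul_Upe hm' hg') hn'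
    rwa [add_zero, add_zero] at h1
  rw [← heq, ← eS_neg hYT, coe_eS (by rw [Matrix.trace_neg, hYT, neg_zero])] at hprod
  have hw := reflB_bracket_neg hY
  have hw' : mkD R (-d) * (-Y) - (-Y) * mkD R (-d) = (-μ) • (-Y) := by
    rw [reflB_mkD_neg, neg_smul, ← hw]
    noncomm_ring
  have hup := exp_sub_mem_Up (R := R) (d := -d) (μ := -μ) (by linarith) hw'
  apply hY0
  have hz : -Y = 0 := by
    apply cj_inj R
    have hlev := congrArg (cj R) (lev_of_bracket R d μ (-Y) hw)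
    rw [cj_lev] at hlev
    have h0 : cj R (0 : Matrix ι ι ℝ) = 0 := by simp [cj]
    rw [h0]
    ext i j
    by_cases hij : d i - d j = μ
    · have h1 := hup i j (by simp only [Pi.neg_apply]; linarith)
      rw [cj_sub, cj_sub, cj_one] at h1
      have h2 := hprod i j (by linarith)
      have hne : i ≠ j := by
        rintro rfl
        linarith
      simp only [Matrix.sub_apply] at h1
      rw [h2, Matrix.one_apply_ne hne] at h1
      rw [Matrix.zero_apply]
      linarith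
    · rw [← hlev]
      change (if d i - d j = μ then cj R (-Y) i j else 0) = _
      rw [if_neg hij]
      rfl
  exact neg_eq_zero.1 hz

end Pool.Agent.W_MP_bb6588_G
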