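import Mathlib
import Pool.Agent.W_MP_bb6588_G.ReflA
import Pool.Agent.W_MP_bb6588_G.ReflB
import Pool.Agent.W_MP_bb6588_G.CommB

set_option autoImplicit false

/-!
# Reflections
-/

namespace Pool.Agent.W_MP_bb6588_G

open Matrix Filter Topology
open Pool.Agent.W_MP_bb6588_an (SLR SLZ nrm Dig step expo dlt val)

variable {ι : Type} [Fintype ι] [DecidableEq ι]

/-- conjugation -/
def rfc (g : SLR ι) (x : Matrix ι ι ℝ) : Matrix ι ι ℝ :=
  (g : Matrix ι ι ℝ) * x * ((g⁻¹ : SLR ι) : Matrix ι ι ℝ)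

theorem rf_inv_mul (g : SLR ι) :
    ((g⁻¹ : SLR ι) : Matrix ι ι ℝ) * (g : Matrix ι ι ℝ) = 1 := by
  rw [← Matrix.SpecialLinearGroup.coe_mul, inv_mul_cancel, Matrix.SpecialLinearGroup.coe_one]

theorem rf_mul_inv (g : SLR ι) :
    (g : Matrix ι ι ℝ) * ((g⁻¹ : SLR ι) : Matrix ι ι ℝ) = 1 := by
  rw [← Matrix.SpecialLinearGroup.coe_mul, mul_inv_cancel, Matrix.SpecialLinearGroup.coe_one]

theorem rfc_mul (g : SLR ι) (x y : Matrix ι ι ℝ) : rfc g (x * y) = rfc g x * rfc g y := by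
  unfold rfc
  calc (g : Matrix ι ι ℝ) * (x * y) * ((g⁻¹ : SLR ι) : Matrix ι ι ℝ)
      = (g : Matrix ι ι ℝ) * x * 1 * y * ((g⁻¹ : SLR ι) : Matrix ι ι ℝ) := by
        rw [mul_one]; simp only [mul_assoc]
    _ = _ := by rw [← rf_inv_mul g]; simp only [mul_assoc]

theorem rfc_comp (g h : SLR ι) (x : Matrix ι ι ℝ) : rfc (g * h) x = rfc g (rfc h x) := by
  unfold rfc
  rw [_root_.mul_inv_rev, Matrix.SpecialLinearGroup.coe_mul, Matrix.SpecialLinearGroup.coe_mul]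
  simp only [mul_assoc]

theorem rfc_one (x : Matrix ι ι ℝ) : rfc (1 : SLR ι) x = x := by
  unfold rfc
  rw [inv_one, Matrix.SpecialLinearGroup.coe_one, one_mul, mul_one]

theorem rfc_add (g : SLR ι) (x y : Matrix ι ι ℝ) : rfc g (x + y) = rfc g x + rfc g y := by
  unfold rfc
  rw [mul_add, add_mul]

theorem rfc_sub (g : SLR ι) (x y : Matrix ι ι ℝ) : rfc g (x - y) = rfc g x - rfc g y := by
  unfold rfc
  rw [mul_sub, sub_mul]

theorem rfc_smul (g : SLR ι) (c : ℝ) (x : Matrix ι ι ℝ) : rfc g (c • x) = c • rfc g x := by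
  unfold rfc
  rw [Algebra.mul_smul_comm, Algebra.smul_mul_assoc]

theorem rfc_trace (g : SLR ι) (x : Matrix ι ι ℝ) : (rfc g x).trace = x.trace := by
  unfold rfc
  rw [mul_assoc, Matrix.trace_mul_comm, mul_assoc, rf_inv_mul, mul_one]

/-- elements commuting with the group element are fixed -/
theorem rfc_of_comm {g : SLR ι} {x : Matrix ι ι ℝ}
    (h : (g : Matrix ι ι ℝ) * x = x * (g : Matrix ι ι ℝ)) : rfc g x = x := by
  unfold rfc
  rw [h, mul_assoc, rf_mul_inv, mul_one]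

theorem comm_of_rfc {g : SLR ι} {x : Matrix ι ι ℝ} (h : rfc g x = x) :
    (g : Matrix ι ι ℝ) * x = x * (g : Matrix ι ι ℝ) := by
  unfold rfc at h
  calc (g : Matrix ι ι ℝ) * x
      = (g : Matrix ι ι ℝ) * x * (((g⁻¹ : SLR ι) : Matrix ι ι ℝ) * (g : Matrix ι ι ℝ)) := by
        rw [rf_inv_mul, mul_one]
    _ = ((g : Matrix ι ι ℝ) * x * ((g⁻¹ : SLR ι) : Matrix ι ι ℝ)) * (g : Matrix ι ι ℝ) := by
        simp only [mul_assoc]
    _ = x * (g : Matrix ι ι ℝ) := by rw [h]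

/-- conjugation of the group `NN` -/
theorem rf_NN {L : Submodule ℝ (Matrix ι ι ℝ)} (hLL : IsLie L) (hLT : TrZ L)
    {u : SLR ι} (hu : u ∈ GG L) (t : Matrix ι ι ℝ) {m : SLR ι} (hm : m ∈ NN L (rfc u t)) :
    u⁻¹ * m * u ∈ NN L t := by
  have hgen : ∀ x ∈ L, ∀ μ : ℝ, 0 < μ → rfc u t * x - x * rfc u t = μ • x →
      u⁻¹ * eS x * u ∈ NN L t := by
    intro x hx μ hμ hb
    have h1 : rfc u⁻¹ x ∈ L := conj_mem hLL hLT (GG L |>.inv_mem hu) hx
    have h2 : u⁻¹ * eS x * u = eS (rfc u⁻¹ x) := by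
      have := conj_eS (hLT x hx) u⁻¹
      rw [inv_inv] at this
      rw [this]
      unfold rfc
      rw [inv_inv]
    rw [h2]
    refine Subgroup.subset_closure ⟨rfc u⁻¹ x, h1, μ, hμ, ?_, rfl⟩
    have h3 : t = rfc u⁻¹ (rfc u t) := by
      rw [← rfc_comp, inv_mul_cancel, rfc_one]
    nth_rewrite 1 2 [h3]
    rw [← rfc_mul, ← rfc_mul, ← rfc_sub, hb, rfc_smul]
  unfold NN at hm
  induction hm using Subgroup.closure_induction with
  | mem g hg =>
    obtain ⟨x, hx, μ, hμ, hb, rfl⟩ := hg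
    exact hgen x hx μ hμ hb
  | one =>
    rw [mul_one, inv_mul_cancel]
    exact Subgroup.one_mem _
  | mul g h _ _ ihg ihh =>
    have : u⁻¹ * (g * h) * u = (u⁻¹ * g * u) * (u⁻¹ * h * u) := by group
    rw [this]
    exact Subgroup.mul_mem _ ihg ihh
  | inv g _ ih =>
    have : u⁻¹ * g⁻¹ * u = (u⁻¹ * g * u)⁻¹ := by group
    rw [this]
    exact Subgroup.inv_mem _ ih

/-- Let `𝔞` be a maximal simultaneously diagonalizable subspace of `V`, `X ∈ V` a nonzero weight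
vector with weight `β ≠ 0` on `𝔞`, and `t ∈ 𝔞` the element representing `β`. There is `g ∈ GG V`
which acts on `𝔞` as the reflection in `t`.

Proof. `β t = tr(t t) > 0`. Let `L = kerCent V 𝔞 β` (`kerCent_props`); `t ∈ L` and, with `Y` from
`exists_neg_weight`, `Y ∈ L`, `u = eS Y`. `[t, Y] = - β t Y`. Apply `comm_lemma` to `L`, `t` and
`b = u t u⁻¹ ∈ L` (`conj_mem` for `L`): there are `n ∈ NN L t`, `m ∈ NN L b` such that
`(m n) t (m n)⁻¹` commutes with `b`. Conjugation by `u⁻¹` maps `NN L b` to `NN L t`: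
`m = u m' u⁻¹`, `m' ∈ NN L t` (`conj_eS`, `conj_mem`). Put `g = u⁻¹ m n = m' u⁻¹ n ∈ GG L`. Then
`a₂ = g t g⁻¹` commutes with `t`, and `g` commutes with the `z ∈ 𝔞` with `β z = 0`
(`commute_of_mem_GG` for `L`); so `a₂` commutes with these `z` and with `t`, hence with `𝔞`
(`z = (z - (β z / β t) t) + (β z / β t) t`). `a₂ ∈ V` is diagonalizable, so `a₂ ∈ 𝔞` by maximality.
For `z ∈ 𝔞`, `β z = 0`: `tr(a₂ z) = tr(t g⁻¹ z g) = tr(t z) = 0`. So `a₂ = c t` (the trace form is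
positive definite on `𝔞`), and `tr(a₂²) = tr(t²)` gives `c = 1` or `c = -1`. If `c = 1` then `g`
commutes with `t` and `u⁻¹ = m'⁻¹ g n⁻¹` contradicts `exp_ne`. So `g t g⁻¹ = - t` and
`g z g⁻¹ = z` if `β z = 0`. -/
theorem reflection {V 𝔞 : Submodule ℝ (Matrix ι ι ℝ)} (hV : IsLie V) (hT : TrZ V)
    (hN : Nondeg V) (h𝔞V : 𝔞 ≤ V) (h𝔞 : SDg 𝔞)
    (hmax : ∀ b ∈ V, Dg b → (∀ z ∈ 𝔞, z * b = b * z) → b ∈ 𝔞)
    (β : Matrix ι ι ℝ →ₗ[ℝ] ℝ) {X : Matrix ι ι ℝ} (hX : X ∈ V) (hX0 : X ≠ 0)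
    (hw : ∀ z ∈ 𝔞, z * X - X * z = β z • X) {t : Matrix ι ι ℝ} (ht : t ∈ 𝔞)
    (htβ : ∀ z ∈ 𝔞, (t * z).trace = β z) (ht0 : t ≠ 0) :
    ∃ g ∈ GG V, ∀ z ∈ 𝔞, (g : Matrix ι ι ℝ) * z * ((g⁻¹ : SLR ι) : Matrix ι ι ℝ) =
      z - (2 * β z / β t) • t := by
  obtain ⟨hLL, hLT, hLN⟩ := kerCent_props hV hT hN h𝔞V h𝔞 β
  obtain ⟨Y, hYV, hY0, hYw⟩ := exists_neg_weight hV hN h𝔞V h𝔞 β hX hX0 hw
  have hβt : 0 < β t := by
    rw [← htβ t ht]
    exact trace_sq_pos (Dg_of_mem h𝔞 ht) ht0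
  set L := kerCent V 𝔞 β with hL
  have htL : t ∈ L := ⟨h𝔞V ht, fun z hz _ => h𝔞.commute ht hz⟩
  have hYL : Y ∈ L := by
    refine ⟨hYV, fun z hz h0 => ?_⟩
    have h1 := hYw z hz
    rw [h0, zero_smul, neg_zero, sub_eq_zero] at h1
    exact h1.symm
  have hLV : L ≤ V := fun x hx => hx.1
  set u : SLR ι := eS Y with hu
  have huL : u ∈ GG L := Subgroup.subset_closure ⟨Y, hYL, rfl⟩
  have hbL : rfc u t ∈ L := conj_mem hLL hLT huL htL
  have htD : Dg t := Dg_of_mem h𝔞 ht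
  obtain ⟨n, hn, m, hm, hcomm⟩ := comm_lemma hLL hLT hLN htL hbL htD (htD.conj u)
  have hcomm' : rfc (m * n) t * rfc u t = rfc u t * rfc (m * n) t := hcomm
  have hm' : u⁻¹ * m * u ∈ NN L t := rf_NN hLL hLT huL t hm
  have hgL : u⁻¹ * (m * n) ∈ GG L :=
    Subgroup.mul_mem _ (Subgroup.inv_mem _ huL)
      (Subgroup.mul_mem _ (NN_le_GG _ _ hm) (NN_le_GG _ _ hn))
  set g : SLR ι := u⁻¹ * (m * n) with hg
  have hgV : g ∈ GG V := by
    refine (Subgroup.closure_mono ?_) hgL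
    rintro x ⟨y, hy, rfl⟩
    exact ⟨y, hLV hy, rfl⟩
  -- the conjugate commutes with `t`
  have ha2t : rfc g t * t = t * rfc g t := by
    have h1 : t = rfc u⁻¹ (rfc u t) := by
      rw [← rfc_comp, inv_mul_cancel, rfc_one]
    have h2 : rfc g t = rfc u⁻¹ (rfc (m * n) t) := by
      rw [hg, rfc_comp]
    rw [h2]
    nth_rewrite 2 3 [h1]
    rw [← rfc_mul, ← rfc_mul, hcomm']
  have hfix : ∀ z ∈ 𝔞, β z = 0 → rfc g z = z := by
    intro z hz h0
    apply rfc_of_comm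
    exact commute_of_mem_GG hLT (fun x hx => hx.2 z hz h0) hgL
  -- decomposition of the elements of `𝔞`
  have hdec : ∀ z ∈ 𝔞, z - (β z / β t) • t ∈ 𝔞 ∧ β (z - (β z / β t) • t) = 0 := by
    intro z hz
    refine ⟨Submodule.sub_mem _ hz (Submodule.smul_mem _ _ ht), ?_⟩
    rw [map_sub, map_smul, smul_eq_mul, div_mul_cancel₀ _ hβt.ne', sub_self]
  have ha2z : ∀ z ∈ 𝔞, β z = 0 → z * rfc g t = rfc g t * z := by
    intro z hz h0
    calc z * rfc g t = rfc g z * rfc g t := by rw [hfix z hz h0]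
      _ = rfc g t * rfc g z := by rw [← rfc_mul, ← rfc_mul, h𝔞.commute hz ht]
      _ = rfc g t * z := by rw [hfix z hz h0]
  have ha2all : ∀ z ∈ 𝔞, z * rfc g t = rfc g t * z := by
    intro z hz
    obtain ⟨h1, h2⟩ := hdec z hz
    have h3 := ha2z _ h1 h2
    have h4 : z = (z - (β z / β t) • t) + (β z / β t) • t := by abel
    rw [h4, add_mul, mul_add, h3, Algebra.smul_mul_assoc, Algebra.mul_smul_comm, ha2t]
  have ha2L : rfc g t ∈ L := conj_mem hLL hLT hgL htL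
  have ha2a : rfc g t ∈ 𝔞 := hmax _ (hLV ha2L) (htD.conj g) ha2all
  have htr : ∀ z ∈ 𝔞, β z = 0 → (rfc g t * z).trace = 0 := by
    intro z hz h0
    have h1 : rfc g t * z = rfc g (t * z) := by rw [rfc_mul, hfix z hz h0]
    rw [h1, rfc_trace, htβ z hz, h0]
  -- `rfc g t = c t`
  set c : ℝ := β (rfc g t) / β t with hc
  obtain ⟨hw1, hw2⟩ := hdec _ ha2a
  rw [← hc] at hw1 hw2
  have hwz : rfc g t - c • t = 0 := by
    by_contra hne
    have h1 := trace_sq_pos (Dg_of_mem h𝔞 hw1) hne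
    have h2 : ((rfc g t - c • t) * (rfc g t - c • t)).trace =
        (rfc g t * (rfc g t - c • t)).trace - c * (t * (rfc g t - c • t)).trace := by
      rw [sub_mul, Matrix.trace_sub, Algebra.smul_mul_assoc, Matrix.trace_smul, smul_eq_mul]
    rw [h2, htr _ hw1 hw2, htβ _ hw1, hw2, mul_zero, sub_zero] at h1
    exact lt_irrefl _ h1
  have hgt : rfc g t = c • t := sub_eq_zero.1 hwz
  have hc2 : c * c = 1 := by
    have h1 : (rfc g t * rfc g t).trace = (t * t).trace := by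
      rw [← rfc_mul, rfc_trace]
    rw [hgt, Algebra.smul_mul_assoc, Algebra.mul_smul_comm, Matrix.trace_smul, Matrix.trace_smul,
      smul_eq_mul, smul_eq_mul, htβ t ht, ← mul_assoc] at h1
    exact mul_right_cancel₀ hβt.ne' (by rw [h1, one_mul])
  have hcne : c ≠ 1 := by
    intro hc1
    rw [hc1, one_smul] at hgt
    obtain ⟨R, d, hRd⟩ := htD
    have hRd' : t = mkD R d := hRd
    have hYt := hYw t ht
    rw [← neg_smul] at hYt
    have hYT : Y.trace = 0 := hLT Y hYL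
    rw [hRd'] at hYt hm' hn
    refine exp_ne hLT R d hYT hY0 (μ := -(β (mkD R d))) ?_ hYt hm' hn (g := g) ?_ ?_
    · rw [← hRd']
      linarith
    · rw [← hRd']
      exact comm_of_rfc hgt
    · rw [hg, ← hu]
      group
  have hcm : c = -1 := by
    rcases mul_self_eq_one_iff.1 hc2 with h | h
    · exact absurd h hcne
    · exact h
  refine ⟨g, hgV, fun z hz => ?_⟩
  obtain ⟨h1, h2⟩ := hdec z hz
  change rfc g z = _
  have h3 : z = (z - (β z / β t) • t) + (β z / β t) • t := by abel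
  nth_rewrite 1 [h3]
  rw [rfc_add, hfix _ h1 h2, rfc_smul, hgt, hcm, smul_smul, mul_neg_one, neg_smul, mul_div_assoc,
    two_mul, add_smul]
  abel

end Pool.Agent.W_MP_bb6588_G
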