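import Mathlib
import Pool.Agent.W_MP_bb6588_G.PosA
import Pool.Agent.W_MP_bb6588_G.Pos
import Pool.Agent.W_MP_bb6588_G.Refl
import Pool.Agent.W_MP_bb6588_G.Allow

set_option autoImplicit false

/-!
# General position
-/

namespace Pool.Agent.W_MP_bb6588_G

open Matrix Filter Topology
open Pool.Agent.W_MP_bb6588_an (SLR SLZ nrm Dig step expo dlt val)

variable {ι : Type} [Fintype ι] [DecidableEq ι]

/-- General position. `S` is a rational split subspace, `𝔞 ⊇ S` maximal split in `V = realSpan 𝔤`,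
`E ≤ 𝔞`, `dim E < dim S`. If no conjugate `g E g⁻¹ ≤ 𝔞`, `g ∈ GG V`, has smaller
`perpIn`, then `perpIn E S = 0`.

Proof. Suppose `z₀ ∈ perpIn E S`, `z₀ ≠ 0`, and let `e` be as in `exists_e`. Let `y ∈ V` be a weight
vector of `𝔞`, with weight `β`. Claim: `y` commutes with `e` or with `z₀`. We may assume `y ≠ 0` and
`β z₀ ≠ 0`. Let `t ∈ 𝔞` represent `β` (`exists_dual`), `t ≠ 0`. `reflection` gives `g ∈ GG V`
preserving `𝔞`; by hypothesis and `finrank_perpIn_lt` there is `z ∈ E` with `tr(s t) = tr(s z)`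
for all `s ∈ S`, so `β e = tr(t e) = tr(e z) = 0`, that is, `y` commutes with `e`.
By `commute_of_weights` eigenvectors of `ad e` in `V` with nonzero eigenvalue commute with
eigenvectors of `ad z₀` with nonzero eigenvalue. Let `X ∈ Al 𝔤 S e` be nonzero (`exists_mem_Al`).
`toR X` lies in the set `Z` of the `x ∈ V` which commute with all eigenvectors of `ad z₀` in `V`
with nonzero eigenvalue, and `Z` is an ideal by `centralizer_ideal`; so `Z = V` by `le_of_ideal`.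
So all eigenvectors `y ∈ V` of `ad z₀` with nonzero eigenvalue are central, and so `0`
(`center_eq_zero`); as `V` is spanned by eigenvectors of `ad z₀` (`lev_mem`, `sum_lev`),
`z₀` is central in `V`, `z₀ = 0`, a contradiction. -/
theorem perpIn_eq_bot {𝔤 S : Submodule ℚ (Matrix ι ι ℚ)} (h𝔤 : IsSimpleLie 𝔤) (hS : S ≤ 𝔤)
    (hSD : SDgQ S) {𝔞 E : Submodule ℝ (Matrix ι ι ℝ)} (hS𝔞 : realSpan S ≤ 𝔞)
    (h𝔞V : 𝔞 ≤ realSpan 𝔤) (h𝔞 : SDg 𝔞)
    (hmax : ∀ b ∈ realSpan 𝔤, Dg b → (∀ z ∈ 𝔞, z * b = b * z) → b ∈ 𝔞) (hE : E ≤ 𝔞)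
    (hdim : Module.finrank ℝ E < Module.finrank ℚ S)
    (hmin : ∀ g ∈ GG (realSpan 𝔤), conjS g E ≤ 𝔞 →
      Module.finrank ℝ (perpIn E (realSpan S)) ≤
        Module.finrank ℝ (perpIn (conjS g E) (realSpan S))) :
    perpIn E (realSpan S) = ⊥ := by
  set V := realSpan 𝔤 with hVdef
  have hV : IsLie V := isLie_realSpan h𝔤
  have hT : TrZ V := trZ_realSpan h𝔤
  have hperf := realSpan_le_span_bracket h𝔤
  by_contra hne
  obtain ⟨z₀, hz₀, hz₀0⟩ := Submodule.exists_mem_ne_zero_of_ne_bot hne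
  have hz₀E : z₀ ∈ E := hz₀.1
  have hz₀a : z₀ ∈ 𝔞 := hE hz₀E
  have hz₀V : z₀ ∈ V := h𝔞V hz₀a
  have hz₀D : Dg z₀ := Dg_of_mem h𝔞 hz₀a
  obtain ⟨e, he, he0, heE⟩ := exists_e S E hdim
  have hea : e ∈ 𝔞 := hS𝔞 he
  have hSne : S ≠ ⊥ := by
    intro h0
    rw [h0, finrank_bot] at hdim
    omega
  obtain ⟨s, hs, hs0⟩ := Submodule.exists_mem_ne_zero_of_ne_bot hSne
  have hN : Nondeg V := nondeg_realSpan h𝔤 s (hS hs) hs0
    (Dg_of_mem (SDg_realSpan hSD) (Submodule.subset_span (Set.mem_image_of_mem toR hs)))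
  -- weight vectors commute with `e` or with `z₀`
  have claim : ∀ y ∈ V, ∀ β : Matrix ι ι ℝ →ₗ[ℝ] ℝ, (∀ z ∈ 𝔞, z * y - y * z = β z • y) →
      e * y = y * e ∨ z₀ * y = y * z₀ := by
    intro y hy β hw
    by_cases hy0 : y = 0
    · left
      rw [hy0, mul_zero, zero_mul]
    by_cases hβ : β z₀ = 0
    · right
      have h1 := hw z₀ hz₀a
      rw [hβ, zero_smul] at h1
      exact sub_eq_zero.mp h1
    left
    obtain ⟨t, ht, htβ⟩ := exists_dual h𝔞 β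
    have ht0 : t ≠ 0 := by
      intro h0
      apply hβ
      rw [← htβ z₀ hz₀a, h0, zero_mul, Matrix.trace_zero]
    obtain ⟨g, hgG, hg⟩ := reflection hV hT hN h𝔞V h𝔞 hmax β hy hy0 hw ht htβ ht0
    have hβt : 0 < β t := by
      rw [← htβ t ht]
      exact trace_sq_pos (Dg_of_mem h𝔞 ht) ht0
    have hc : (2 / β t : ℝ) ≠ 0 := (div_pos two_pos hβt).ne'
    have hg' : ∀ z ∈ 𝔞, (g : Matrix ι ι ℝ) * z * ((g⁻¹ : SLR ι) : Matrix ι ι ℝ) =
        z - ((2 / β t) * (t * z).trace) • t := by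
      intro z hz
      rw [hg z hz, htβ z hz]
      congr 2
      ring
    have hconj : conjS g E ≤ 𝔞 := by
      rintro w ⟨z, hz, rfl⟩
      rw [hg' z (hE hz)]
      exact 𝔞.sub_mem (hE hz) (𝔞.smul_mem _ ht)
    have h2 : ∃ z ∈ E, ∀ s ∈ realSpan S, (s * t).trace = (s * z).trace := by
      by_contra hcon
      have h3 := finrank_perpIn_lt hE hc hg' ⟨z₀, hz₀, by rw [htβ z₀ hz₀a]; exact hβ⟩ hcon
      exact absurd (hmin g hgG hconj) (not_le.mpr h3)
    obtain ⟨z, hz, hzt⟩ := h2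
    have h4 : β e = 0 := by
      rw [← htβ e hea, Matrix.trace_mul_comm, hzt e he]
      exact heE z hz
    have h5 := hw e hea
    rw [h4, zero_smul] at h5
    exact sub_eq_zero.mp h5
  have hcomm := fun (x y : Matrix ι ι ℝ) (lam μ : ℝ) (hx : x ∈ V) (hy : y ∈ V) (hlam : lam ≠ 0)
    (hμ : μ ≠ 0) (hxe : e * x - x * e = lam • x) (hyz : z₀ * y - y * z₀ = μ • y) =>
    commute_of_weights hV h𝔞V h𝔞 hea hz₀a claim hx hy hlam hμ hxe hyz
  obtain ⟨X, hX, hX0⟩ := exists_mem_Al h𝔤 hS hSD he he0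
  obtain ⟨hX𝔤, -, c, hc0, hXe⟩ := hX
  let Z : Submodule ℝ (Matrix ι ι ℝ) :=
    { carrier := {x | x ∈ V ∧ ∀ y ∈ V, ∀ μ : ℝ, μ ≠ 0 → z₀ * y - y * z₀ = μ • y → x * y = y * x}
      add_mem' := by
        rintro a b ⟨ha, ha'⟩ ⟨hb, hb'⟩
        exact ⟨V.add_mem ha hb, fun y hy μ hμ h => by
          rw [add_mul, mul_add, ha' y hy μ hμ h, hb' y hy μ hμ h]⟩
      zero_mem' := ⟨V.zero_mem, fun y _ μ _ _ => by rw [zero_mul, mul_zero]⟩
      smul_mem' := by
        rintro r a ⟨ha, ha'⟩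
        exact ⟨V.smul_mem r ha, fun y hy μ hμ h => by
          rw [Algebra.smul_mul_assoc, Algebra.mul_smul_comm, ha' y hy μ hμ h]⟩ }
  have hXV : toR X ∈ V := Submodule.subset_span (Set.mem_image_of_mem toR hX𝔤)
  have hXZ : toR X ∈ Z :=
    ⟨hXV, fun y hy μ hμ h => hcomm (toR X) y c μ hXV hy hc0 hμ hXe h⟩
  have hVZ : V ≤ Z := by
    refine le_of_ideal h𝔤 Z ?_ hX𝔤 hX0 hXZ
    intro w hw x hx
    exact ⟨hV w hw x hx.1, centralizer_ideal hV hz₀V hz₀D hx.1 hw hx.2⟩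
  have hzero : ∀ y ∈ V, ∀ μ : ℝ, μ ≠ 0 → z₀ * y - y * z₀ = μ • y → y = 0 := by
    intro y hy μ hμ h
    refine center_eq_zero hN hperf hy fun x hx => ?_
    exact ((hVZ hx).2 y hy μ hμ h).symm
  apply hz₀0
  refine center_eq_zero hN hperf hz₀V fun x hx => ?_
  obtain ⟨R, d, hRd⟩ := hz₀D
  have hRd' : z₀ = mkD R d := hRd
  have hlev : ∀ μ : ℝ, z₀ * lev R d μ x = lev R d μ x * z₀ := by
    intro μ
    have hb : z₀ * lev R d μ x - lev R d μ x * z₀ = μ • lev R d μ x := by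
      rw [hRd']
      exact bracket_lev R d μ x
    have hmem : lev R d μ x ∈ V := by
      refine lev_mem V R d ?_ hx μ
      intro w hw
      rw [← hRd']
      exact hV z₀ hz₀V w hw
    by_cases hμ : μ = 0
    · rw [hμ, zero_smul] at hb
      rw [hμ]
      exact sub_eq_zero.mp hb
    · rw [hzero _ hmem μ hμ hb, mul_zero, zero_mul]
  have hsum := sum_lev R d x
  rw [hsum, Finset.mul_sum, Finset.sum_mul]
  exact Finset.sum_congr rfl fun μ _ => hlev μ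

end Pool.Agent.W_MP_bb6588_G
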