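import Mathlib
import Pool.Agent.W_MP_bb6588_G.PosB

set_option autoImplicit false

/-!
# General position for split subspaces
-/

namespace Pool.Agent.W_MP_bb6588_G

open Matrix Filter Topology
open Pool.Agent.W_MP_bb6588_an (SLR SLZ nrm Dig step expo dlt val)

variable {ι : Type} [Fintype ι] [DecidableEq ι]

theorem PosC_toR_mem {W : Submodule ℚ (Matrix ι ι ℚ)} {s : Matrix ι ι ℚ} (hs : s ∈ W) :
    toR s ∈ realSpan W := Submodule.subset_span ⟨s, hs, rfl⟩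

/-- General position for a split subspace `E` of `realSpan 𝔤`, `dim E < dim S`.

Proof. `S ≠ 0`. Take `𝔞` from `exists_max_SDg` (for `V = realSpan 𝔤` and `realSpan S`,
`SDg_realSpan`), `g₀ ∈ GG V` from `exists_conj_le`, and among all `g ∈ GG V` with
`conjS g E ≤ 𝔞` one for which `finrank (perpIn (conjS g E) (realSpan S))` is minimal. Apply
`perpIn_eq_bot` to `conjS g E` (`conjS_mul`, `finrank_conjS`). -/
theorem position {𝔤 S : Submodule ℚ (Matrix ι ι ℚ)} (h𝔤 : IsSimpleLie 𝔤) (hS : S ≤ 𝔤)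
    (hSD : SDgQ S) (E : Submodule ℝ (Matrix ι ι ℝ)) (hE : E ≤ realSpan 𝔤) (hED : SDg E)
    (hdim : Module.finrank ℝ E < Module.finrank ℚ S) :
    ∃ g ∈ GG (realSpan 𝔤), conjS g E ≤ realSpan 𝔤 ∧
      (∀ z ∈ conjS g E, ∀ s ∈ S, z * toR s = toR s * z) ∧
      ∀ z ∈ conjS g E, z ≠ 0 → ∃ s ∈ S, (toR s * z).trace ≠ 0 := by
  have hSpos : 0 < Module.finrank ℚ S := lt_of_le_of_lt (Nat.zero_le _) hdim
  have hSne : S ≠ ⊥ := by
    rintro rfl
    simp at hSpos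
  obtain ⟨s, hs, hs0⟩ := (Submodule.ne_bot_iff S).1 hSne
  have hSDR := SDg_realSpan hSD
  have hsD : Dg (toR s) := Dg_of_mem hSDR (PosC_toR_mem hs)
  have hN : Nondeg (realSpan 𝔤) := nondeg_realSpan h𝔤 s (hS hs) hs0 hsD
  have hV := isLie_realSpan h𝔤
  have hT := trZ_realSpan h𝔤
  obtain ⟨𝔞, hS𝔞, h𝔞V, h𝔞, hmax⟩ :=
    exists_max_SDg (realSpan 𝔤) (realSpan S) (realSpan_mono hS) hSDR
  obtain ⟨g₀, hg₀, hg₀E⟩ := exists_conj_le hV hT hN h𝔞V h𝔞 hmax hE hED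
  let T : Set (SLR ι) := {g | g ∈ GG (realSpan 𝔤) ∧ conjS g E ≤ 𝔞}
  have hTne : T.Nonempty := ⟨g₀, hg₀, by
    rintro _ ⟨z, hz, rfl⟩
    exact hg₀E z hz⟩
  obtain ⟨g, ⟨hg, hgE⟩, hgmin⟩ := WellFounded.has_min
    (measure (fun g : SLR ι => Module.finrank ℝ (perpIn (conjS g E) (realSpan S)))).wf T hTne
  have hbot : perpIn (conjS g E) (realSpan S) = ⊥ := by
    refine perpIn_eq_bot h𝔤 hS hSD hS𝔞 h𝔞V h𝔞 hmax hgE ?_ ?_
    · rw [finrank_conjS]; exact hdim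
    · intro g' hg' hg'E
      rw [← conjS_mul] at hg'E ⊢
      exact not_lt.1 (hgmin (g' * g) ⟨(GG (realSpan 𝔤)).mul_mem hg' hg, hg'E⟩)
  refine ⟨g, hg, hgE.trans h𝔞V, ?_, ?_⟩
  · intro z hz s' hs'
    exact SDg.commute h𝔞 (hgE hz) (hS𝔞 (PosC_toR_mem hs'))
  · intro z hz hz0
    by_contra hcon
    push_neg at hcon
    apply hz0
    have hmem : z ∈ perpIn (conjS g E) (realSpan S) := by
      refine ⟨hz, fun w hw => ?_⟩
      unfold realSpan at hw
      induction hw using Submodule.span_induction with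
      | mem x hx =>
        obtain ⟨s', hs', rfl⟩ := hx
        exact hcon s' hs'
      | zero => simp
      | add x y _ _ hx hy => rw [add_mul, Matrix.trace_add, hx, hy, add_zero]
      | smul c x _ hx => rw [Algebra.smul_mul_assoc, Matrix.trace_smul, hx, smul_zero]
    rw [hbot] at hmem
    exact (Submodule.mem_bot ℝ).1 hmem

end Pool.Agent.W_MP_bb6588_G
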