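import Mathlib
import Pool.Agent.W_MP_bb6588_G.PosC
import Pool.Agent.W_MP_bb6588_G.MainA

set_option autoImplicit false

/-!
# The main theorem
-/

namespace Pool.Agent.W_MP_bb6588_G

open Matrix Filter Topology
open Pool.Agent.W_MP_bb6588_an (SLR SLZ nrm Dig step expo dlt val)

variable {ι : Type} [Fintype ι] [DecidableEq ι]

theorem Main_coe_inv_mul (g : SLR ι) :
    ((g⁻¹ : SLR ι) : Matrix ι ι ℝ) * (g : Matrix ι ι ℝ) = 1 := by
  rw [← Matrix.SpecialLinearGroup.coe_mul, inv_mul_cancel]; rfl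

theorem Main_abs_le_nrm (M : Matrix ι ι ℝ) (i j : ι) : |M i j| ≤ nrm M := by
  unfold nrm
  exact (Finset.single_le_sum (f := fun j => |M i j|) (fun _ _ => abs_nonneg _)
    (Finset.mem_univ j)).trans
    (Finset.single_le_sum (f := fun i => ∑ j, |M i j|)
      (fun _ _ => Finset.sum_nonneg fun _ _ => abs_nonneg _) (Finset.mem_univ i))

/-- multiples of a nonzero matrix leave every compact set -/
theorem Main_tendsto_smul {η : Matrix ι ι ℝ} (hη : η ≠ 0) :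
    Tendsto (fun k : ℕ => (k : ℝ) • η) atTop (cocompact (Matrix ι ι ℝ)) := by
  obtain ⟨i, j, hij⟩ : ∃ i j, η i j ≠ 0 := by
    by_contra hcon
    apply hη
    ext i j
    by_contra h
    exact hcon ⟨i, j, h⟩
  have hcont : Continuous (fun M : Matrix ι ι ℝ => M i j) :=
    (continuous_apply j).comp (continuous_apply i)
  have h1 : Tendsto (fun k : ℕ => ((k : ℝ) • η) i j) atTop (cocompact ℝ) := by
    have h2 : Tendsto (fun k : ℕ => ‖(k : ℝ) * η i j‖) atTop atTop := by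
      have h3 : Tendsto (fun k : ℕ => (k : ℝ) * |η i j|) atTop atTop :=
        tendsto_natCast_atTop_atTop.atTop_mul_const (abs_pos.2 hij)
      refine h3.congr fun k => ?_
      rw [norm_mul, Real.norm_eq_abs, Real.norm_eq_abs, Nat.abs_cast]
    have h5 : cocompact ℝ = comap (fun x : ℝ => ‖x‖) atTop := by
      rw [← Metric.cobounded_eq_cocompact, comap_norm_atTop]
    rw [h5, tendsto_comap_iff]
    exact h2
  have h4 : Tendsto (fun k : ℕ => (k : ℝ) • η) atTop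
      (comap (fun M : Matrix ι ι ℝ => M i j) (cocompact ℝ)) := tendsto_comap_iff.2 h1
  exact h4.mono_right (Filter.comap_cocompact_le hcont)

/-- Main theorem.

Proof. `eS x ∈ G` for `x ∈ realSpan 𝔤` (`eq_eS`), so `GG (realSpan 𝔤) ≤ G`. Let `g₀` be as in
`position`, `E' = conjS g₀ E` (split by `SDg.conj`; `finrank_conjS`), `0 ≠ η₀ ∈ E`,
`η = g₀ η₀ g₀⁻¹`. Apply `main_good` to `E'`, `η`: this gives `g₁ ∈ G`. Let `g = g₀⁻¹ g₁`.
Divergence: let `K` be compact and `ε` as in `not_shortW_of_mem_compact`; for `z ∈ E`,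
`exp(z) g = g₀⁻¹ exp(z') g₁`, `z' = g₀ z g₀⁻¹ ∈ E'`, and `exp(z') g₁` is `ε'`-short for
`nrm z' ≥ T(ε')`; by `ShortW.of_mul` (with `k = g₀`) `exp(z) g` is `ε`-short if `ε'` is small enough.
So `exp(z) g Γ ∈ K` implies `nrm z' < T(ε')`, and `z = g₀⁻¹ z' g₀` has bounded entries.
Not obvious: apply obviousness to `z_k = k η₀`, `d_k = eS (k η₀)`; `d_k g = g₀⁻¹ exp(k η) g₁`. -/
theorem main {𝔤 S : Submodule ℚ (Matrix ι ι ℚ)} (h𝔤 : IsSimpleLie 𝔤) (hS : S ≤ 𝔤)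
    (hSD : SDgQ S) (G : Subgroup (SLR ι)) (hGc : IsClosed (G : Set (SLR ι)))
    (hG : ∀ x ∈ realSpan 𝔤, ∃ g ∈ G, (g : Matrix ι ι ℝ) = NormedSpace.exp x)
    (Γ : Subgroup G) (hΓ : Subgroup.Commensurable Γ ((SLZ ι).subgroupOf G))
    (E : Submodule ℝ (Matrix ι ι ℝ)) (hE : E ≤ realSpan 𝔤) (hED : SDg E)
    (h1 : 0 < Module.finrank ℝ E) (h2 : Module.finrank ℝ E < Module.finrank ℚ S) :
    ∃ g : G, IsDivergent G Γ E g ∧ ¬ IsObvious G E g := by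
  have hSpos : 0 < Module.finrank ℚ S := h1.trans h2
  have hT := trZ_realSpan h𝔤
  have heS : ∀ x ∈ realSpan 𝔤, eS x ∈ G := by
    intro x hx
    obtain ⟨g, hg, hgx⟩ := hG x hx
    rw [← eq_eS hgx]
    exact hg
  have hGG : GG (realSpan 𝔤) ≤ G := by
    unfold GG
    rw [Subgroup.closure_le]
    rintro g ⟨x, hx, rfl⟩
    exact heS x hx
  obtain ⟨g₀, hg₀, hE'V, hcomm, hinj⟩ := position h𝔤 hS hSD E hE hED h2
  have hEne : E ≠ ⊥ := by
    rintro rfl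
    simp at h1
  obtain ⟨η₀, hη₀, hη₀0⟩ := (Submodule.ne_bot_iff E).1 hEne
  set η : Matrix ι ι ℝ := (g₀ : Matrix ι ι ℝ) * η₀ * ((g₀⁻¹ : SLR ι) : Matrix ι ι ℝ) with hηdef
  have hη : η ∈ conjS g₀ E := ⟨η₀, hη₀, rfl⟩
  have hback : ∀ z : Matrix ι ι ℝ, ((g₀⁻¹ : SLR ι) : Matrix ι ι ℝ) *
      ((g₀ : Matrix ι ι ℝ) * z * ((g₀⁻¹ : SLR ι) : Matrix ι ι ℝ)) * (g₀ : Matrix ι ι ℝ) = z := by
    intro z
    have e : ((g₀⁻¹ : SLR ι) : Matrix ι ι ℝ) *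
      ((g₀ : Matrix ι ι ℝ) * z * ((g₀⁻¹ : SLR ι) : Matrix ι ι ℝ)) * (g₀ : Matrix ι ι ℝ) =
      (((g₀⁻¹ : SLR ι) : Matrix ι ι ℝ) * (g₀ : Matrix ι ι ℝ)) * z *
        (((g₀⁻¹ : SLR ι) : Matrix ι ι ℝ) * (g₀ : Matrix ι ι ℝ)) := by
      simp only [mul_assoc]
    rw [e, Main_coe_inv_mul, one_mul, mul_one]
  have hη0 : η ≠ 0 := by
    intro h
    apply hη₀0
    have := hback η₀
    rw [← hηdef, h] at this
    rw [← this]
    simp
  have hED' : SDg (conjS g₀ E) := hED.conj g₀ _ (fun w hw => hw)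
  have hdim' : Module.finrank ℝ (conjS g₀ E) < Module.finrank ℚ S := by
    rw [finrank_conjS]; exact h2
  obtain ⟨g₁, hg₁, hno⟩ := main_good h𝔤 hS hSD G hGc heS (conjS g₀ E) hE'V hED' hcomm hinj hdim'
    η hη hη0
  have hg₀G : g₀ ∈ G := hGG hg₀
  set γ : G := ⟨g₀, hg₀G⟩ with hγ
  have hexp : ∀ z ∈ E, ∀ d : SLR ι, (d : Matrix ι ι ℝ) = NormedSpace.exp z →
      g₀ * (d * (g₀⁻¹ * (g₁ : SLR ι))) =
        eS ((g₀ : Matrix ι ι ℝ) * z * ((g₀⁻¹ : SLR ι) : Matrix ι ι ℝ)) * (g₁ : SLR ι) := by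
    intro z hz d hd
    rw [eq_eS hd, ← conj_eS (hT z (hE hz)) g₀]
    simp only [mul_assoc]
  refine ⟨γ⁻¹ * g₁, ?_, ?_⟩
  · -- divergence
    intro K hK
    obtain ⟨ε, hε, hnot⟩ := not_shortW_of_mem_compact G Γ hΓ K hK
    have hn0 : 0 ≤ nrm ((g₀⁻¹ : SLR ι) : Matrix ι ι ℝ) :=
      Pool.Agent.W_MP_bb6588_an.nrm_nonneg _
    have hn1 : 0 ≤ nrm (g₀ : Matrix ι ι ℝ) := Pool.Agent.W_MP_bb6588_an.nrm_nonneg _
    set B : ℝ := 1 + nrm ((g₀⁻¹ : SLR ι) : Matrix ι ι ℝ) with hBdef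
    have hB : 1 ≤ B := by linarith
    have hBp : 0 < B ^ Fintype.card ι := pow_pos (zero_lt_one.trans_le hB) _
    obtain ⟨T, hTs⟩ := hg₁ (ε / B ^ Fintype.card ι) (div_pos hε hBp)
    refine ⟨nrm ((g₀⁻¹ : SLR ι) : Matrix ι ι ℝ) * max T 0 * nrm (g₀ : Matrix ι ι ℝ), ?_⟩
    intro z hz d hd hmem i j
    set z' : Matrix ι ι ℝ := (g₀ : Matrix ι ι ℝ) * z * ((g₀⁻¹ : SLR ι) : Matrix ι ι ℝ) with hz'
    have hz'E : z' ∈ conjS g₀ E := ⟨z, hz, rfl⟩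
    have hlt : nrm z' < T := by
      by_contra hge
      have hS := hTs z' hz'E (not_lt.1 hge)
      have hS' : ShortW ((g₀ * ((d : SLR ι) * (g₀⁻¹ * (g₁ : SLR ι))) : SLR ι) : Matrix ι ι ℝ)
          (ε / B ^ Fintype.card ι) := by
        rw [hexp z hz (d : SLR ι) hd, Matrix.SpecialLinearGroup.coe_mul,
          coe_eS (hT z' (hE'V hz'E))]
        exact hS
      have hS2 := ShortW.of_mul (div_pos hε hBp) hS' hB (by linarith)
      rw [mul_div_cancel₀ _ hBp.ne'] at hS2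
      exact hnot (d * (γ⁻¹ * g₁)) hmem hS2
    calc |z i j| ≤ nrm z := Main_abs_le_nrm z i j
      _ = nrm (((g₀⁻¹ : SLR ι) : Matrix ι ι ℝ) * z' * (g₀ : Matrix ι ι ℝ)) := by
          rw [hz', hback z]
      _ ≤ nrm (((g₀⁻¹ : SLR ι) : Matrix ι ι ℝ) * z') * nrm (g₀ : Matrix ι ι ℝ) :=
          Pool.Agent.W_MP_bb6588_an.nrm_mul_le _ _
      _ ≤ (nrm ((g₀⁻¹ : SLR ι) : Matrix ι ι ℝ) * nrm z') * nrm (g₀ : Matrix ι ι ℝ) :=
          mul_le_mul_of_nonneg_right (Pool.Agent.W_MP_bb6588_an.nrm_mul_le _ _) hn1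
      _ ≤ nrm ((g₀⁻¹ : SLR ι) : Matrix ι ι ℝ) * max T 0 * nrm (g₀ : Matrix ι ι ℝ) :=
          mul_le_mul_of_nonneg_right (mul_le_mul_of_nonneg_left
            (hlt.le.trans (le_max_left _ _)) hn0) hn1
  · -- not obvious
    rintro ⟨l, m, ρ, v, hρ, hv, hob⟩
    have hmemE : ∀ k : ℕ, (k : ℝ) • η₀ ∈ E := fun k => E.smul_mem _ hη₀
    set d : ℕ → G := fun k => ⟨eS ((k : ℝ) • η₀), heS _ (hE (hmemE k))⟩ with hd
    have hdexp : ∀ k, ((d k : SLR ι) : Matrix ι ι ℝ) = NormedSpace.exp ((k : ℝ) • η₀) := by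
      intro k
      exact coe_eS (hT _ (hE (hmemE k)))
    obtain ⟨i, φ, hφ, hlim⟩ := hob (fun k => (k : ℝ) • η₀) d hmemE hdexp (Main_tendsto_smul hη₀0)
    refine hno (m i) (ρ i) (hρ i) (v i) (hv i) φ hφ ?_
    have key : ∀ k, (⟨eS ((φ k : ℝ) • η), heS _ ((realSpan 𝔤).smul_mem _ (hE'V hη))⟩ * g₁ : G) =
        γ * (d (φ k) * (γ⁻¹ * g₁)) := by
      intro k
      apply Subtype.ext
      have e1 := hexp _ (hmemE (φ k)) (d (φ k) : SLR ι) (hdexp (φ k))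
      have e2 : (g₀ : Matrix ι ι ℝ) * ((φ k : ℝ) • η₀) * ((g₀⁻¹ : SLR ι) : Matrix ι ι ℝ) =
          (φ k : ℝ) • η := by
        rw [hηdef, Algebra.mul_smul_comm, Algebra.smul_mul_assoc]
      rw [e2] at e1
      exact e1.symm
    have hlim2 : Tendsto (fun k => (ρ i γ : Matrix (Fin (m i)) (Fin (m i)) ℝ) *ᵥ
        ((ρ i (d (φ k) * (γ⁻¹ * g₁)) : Matrix (Fin (m i)) (Fin (m i)) ℝ) *ᵥ
          (fun a => (v i a : ℝ)))) atTop (𝓝 0) := by
      have hc : Continuous fun w : Fin (m i) → ℝ =>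
          (ρ i γ : Matrix (Fin (m i)) (Fin (m i)) ℝ) *ᵥ w := by
        exact (Matrix.mulVecLin (ρ i γ : Matrix (Fin (m i)) (Fin (m i)) ℝ)).continuous_of_finiteDimensional
      have h3 := (hc.tendsto 0).comp hlim
      rw [Matrix.mulVec_zero] at h3
      exact h3
    refine hlim2.congr fun k => ?_
    rw [key k, map_mul (ρ i) γ, Matrix.mulVec_mulVec]
    rfl

end Pool.Agent.W_MP_bb6588_G
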