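import Mathlib
import Pool.Agent.W_MP_bb6588_G.Defs
import Pool.Agent.W_MP_bb6588_G.Simple

set_option autoImplicit false

/-!
# The example `SL₂(ℝ) × SL₂(ℝ)`
-/

namespace Pool.Agent.W_MP_bb6588_G

open Matrix Filter Topology
open Pool.Agent.W_MP_bb6588_an (SLR SLZ nrm Dig step expo dlt val)

/-- A space `𝔤` of rational matrices is a semisimple Lie algebra over `ℚ`: it is closed under the
bracket and has no nonzero abelian ideal. -/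
structure IsSemisimpleLie {ι : Type} [Fintype ι] [DecidableEq ι]
    (𝔤 : Submodule ℚ (Matrix ι ι ℚ)) : Prop where
  lie : ∀ x ∈ 𝔤, ∀ y ∈ 𝔤, x * y - y * x ∈ 𝔤
  ideal : ∀ I : Submodule ℚ (Matrix ι ι ℚ), I ≤ 𝔤 →
    (∀ x ∈ 𝔤, ∀ y ∈ I, x * y - y * x ∈ I) → (∀ x ∈ I, ∀ y ∈ I, x * y = y * x) → I = ⊥

/-- The group `SL₂(ℝ) × SL₂(ℝ)` of block diagonal matrices with blocks of determinant `1`. -/
def G22 : Subgroup (SLR (Fin 2 ⊕ Fin 2)) where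
  carrier := {g | ∃ A B : Matrix (Fin 2) (Fin 2) ℝ, A.det = 1 ∧ B.det = 1 ∧
    (g : Matrix (Fin 2 ⊕ Fin 2) (Fin 2 ⊕ Fin 2) ℝ) = Matrix.fromBlocks A 0 0 B}
  mul_mem' := by
    rintro g h ⟨A, B, hA, hB, hg⟩ ⟨A', B', hA', hB', hh⟩
    refine ⟨A * A', B * B', by rw [Matrix.det_mul, hA, hA', mul_one],
      by rw [Matrix.det_mul, hB, hB', mul_one], ?_⟩
    rw [Matrix.SpecialLinearGroup.coe_mul, hg, hh, Matrix.fromBlocks_multiply]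
    simp
  one_mem' := ⟨1, 1, Matrix.det_one, Matrix.det_one, by
    rw [Matrix.SpecialLinearGroup.coe_one, Matrix.fromBlocks_one]⟩
  inv_mem' := by
    rintro g ⟨A, B, hA, hB, hg⟩
    refine ⟨A⁻¹, B⁻¹, by rw [Matrix.det_nonsing_inv, hA]; simp,
      by rw [Matrix.det_nonsing_inv, hB]; simp, ?_⟩
    have h1 : ((g⁻¹ : SLR (Fin 2 ⊕ Fin 2)) : Matrix (Fin 2 ⊕ Fin 2) (Fin 2 ⊕ Fin 2) ℝ) *
        (g : Matrix (Fin 2 ⊕ Fin 2) (Fin 2 ⊕ Fin 2) ℝ) = 1 := by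
      rw [← Matrix.SpecialLinearGroup.coe_mul, inv_mul_cancel, Matrix.SpecialLinearGroup.coe_one]
    have h2 : (g : Matrix (Fin 2 ⊕ Fin 2) (Fin 2 ⊕ Fin 2) ℝ) *
        Matrix.fromBlocks A⁻¹ 0 0 B⁻¹ = 1 := by
      rw [hg, Matrix.fromBlocks_multiply, Matrix.mul_nonsing_inv _ (by rw [hA]; exact isUnit_one),
        Matrix.mul_nonsing_inv _ (by rw [hB]; exact isUnit_one)]
      simp
    calc ((g⁻¹ : SLR (Fin 2 ⊕ Fin 2)) : Matrix (Fin 2 ⊕ Fin 2) (Fin 2 ⊕ Fin 2) ℝ)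
        = ((g⁻¹ : SLR (Fin 2 ⊕ Fin 2)) : Matrix (Fin 2 ⊕ Fin 2) (Fin 2 ⊕ Fin 2) ℝ) *
          ((g : Matrix (Fin 2 ⊕ Fin 2) (Fin 2 ⊕ Fin 2) ℝ) *
            Matrix.fromBlocks A⁻¹ 0 0 B⁻¹) := by rw [h2, mul_one]
      _ = Matrix.fromBlocks A⁻¹ 0 0 B⁻¹ := by rw [← mul_assoc, h1, one_mul]

/-- The diagonal matrix `diag(1, -1, 0, 0)`. -/
def eta22 : Matrix (Fin 2 ⊕ Fin 2) (Fin 2 ⊕ Fin 2) ℝ :=
  Matrix.diagonal (Sum.elim ![1, -1] ![0, 0])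

/-- The line spanned by `diag(1, -1, 0, 0)`: the Lie algebra of the diagonal subgroup
`D = {(diag(e^t, e^{-t}), 1)}` of the first factor. -/
def E22 : Submodule ℝ (Matrix (Fin 2 ⊕ Fin 2) (Fin 2 ⊕ Fin 2) ℝ) := Submodule.span ℝ {eta22}

/-- The Lie algebra `sl₂(ℚ) × sl₂(ℚ)`. -/
def g22 : Submodule ℚ (Matrix (Fin 2 ⊕ Fin 2) (Fin 2 ⊕ Fin 2) ℚ) where
  carrier := {x | ∃ A B : Matrix (Fin 2) (Fin 2) ℚ, A.trace = 0 ∧ B.trace = 0 ∧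
    x = Matrix.fromBlocks A 0 0 B}
  add_mem' := by
    rintro _ _ ⟨A, B, hA, hB, rfl⟩ ⟨A', B', hA', hB', rfl⟩
    exact ⟨A + A', B + B', by rw [Matrix.trace_add, hA, hA', add_zero],
      by rw [Matrix.trace_add, hB, hB', add_zero], by rw [Matrix.fromBlocks_add]; simp⟩
  zero_mem' := ⟨0, 0, by simp, by simp, by rw [Matrix.fromBlocks_zero]⟩
  smul_mem' := by
    rintro c _ ⟨A, B, hA, hB, rfl⟩
    exact ⟨c • A, c • B, by rw [Matrix.trace_smul, hA, smul_zero],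
      by rw [Matrix.trace_smul, hB, smul_zero], by rw [Matrix.fromBlocks_smul]; simp⟩

/-- The diagonal matrices in `sl₂(ℚ) × sl₂(ℚ)`. -/
def S22 : Submodule ℚ (Matrix (Fin 2 ⊕ Fin 2) (Fin 2 ⊕ Fin 2) ℚ) :=
  Submodule.span ℚ {Matrix.diagonal (Sum.elim ![1, -1] ![0, 0]),
    Matrix.diagonal (Sum.elim ![0, 0] ![1, -1])}

end Pool.Agent.W_MP_bb6588_G
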