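import Mathlib
import Pool.Agent.W_MP_bb6588_G.ProdDefs
import Pool.Agent.W_MP_bb6588_G.Exp

set_option autoImplicit false

/-!
# Algebraic facts on the example
-/

namespace Pool.Agent.W_MP_bb6588_G

open Matrix Filter Topology
open Pool.Agent.W_MP_bb6588_an (SLR SLZ nrm Dig step expo dlt val)

/-- The ring homomorphism `(A, B) ↦ fromBlocks A 0 0 B`. -/
def blkHom : Matrix (Fin 2) (Fin 2) ℝ × Matrix (Fin 2) (Fin 2) ℝ →+*
    Matrix (Fin 2 ⊕ Fin 2) (Fin 2 ⊕ Fin 2) ℝ where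
  toFun p := Matrix.fromBlocks p.1 0 0 p.2
  map_one' := Matrix.fromBlocks_one
  map_mul' p q := by
    rw [Matrix.fromBlocks_multiply]
    simp
  map_zero' := Matrix.fromBlocks_zero
  map_add' p q := by
    rw [Matrix.fromBlocks_add]
    simp

set_option backward.isDefEq.respectTransparency false in
theorem exp_fromBlocks22 (A B : Matrix (Fin 2) (Fin 2) ℝ) :
    NormedSpace.exp (Matrix.fromBlocks A 0 0 B) =
      Matrix.fromBlocks (NormedSpace.exp A) 0 0 (NormedSpace.exp B) := by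
  let i1 : NormedRing (Matrix (Fin 2) (Fin 2) ℝ) := Matrix.linftyOpNormedRing
  let i2 : NormedAlgebra ℚ (Matrix (Fin 2) (Fin 2) ℝ) := Matrix.linftyOpNormedAlgebra
  let i3 : NormedRing (Matrix (Fin 2 ⊕ Fin 2) (Fin 2 ⊕ Fin 2) ℝ) := Matrix.linftyOpNormedRing
  have hf : Continuous blkHom := by
    show Continuous fun p : Matrix (Fin 2) (Fin 2) ℝ × Matrix (Fin 2) (Fin 2) ℝ =>
      Matrix.fromBlocks p.1 0 0 p.2
    exact Continuous.matrix_fromBlocks continuous_fst continuous_const continuous_const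
      continuous_snd
  have h := NormedSpace.map_exp blkHom hf (A, B)
  have h1 := Prod.fst_exp (A, B)
  have h2 := Prod.snd_exp (A, B)
  calc NormedSpace.exp (Matrix.fromBlocks A 0 0 B) = NormedSpace.exp (blkHom (A, B)) := rfl
    _ = blkHom (NormedSpace.exp (A, B)) := h.symm
    _ = Matrix.fromBlocks (NormedSpace.exp (A, B)).1 0 0 (NormedSpace.exp (A, B)).2 := rfl
    _ = _ := by rw [h1, h2]

theorem isClosed_G22 : IsClosed (G22 : Set (SLR (Fin 2 ⊕ Fin 2))) := by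
  have h1 : (G22 : Set (SLR (Fin 2 ⊕ Fin 2))) =
      (fun g : SLR (Fin 2 ⊕ Fin 2) => (g : Matrix (Fin 2 ⊕ Fin 2) (Fin 2 ⊕ Fin 2) ℝ)) ⁻¹'
        {M | M.toBlocks₁₂ = 0 ∧ M.toBlocks₂₁ = 0 ∧ M.toBlocks₁₁.det = 1 ∧
          M.toBlocks₂₂.det = 1} := by
    ext g
    constructor
    · rintro ⟨A, B, hA, hB, hg⟩
      show (g : Matrix (Fin 2 ⊕ Fin 2) (Fin 2 ⊕ Fin 2) ℝ).toBlocks₁₂ = 0 ∧
        (g : Matrix (Fin 2 ⊕ Fin 2) (Fin 2 ⊕ Fin 2) ℝ).toBlocks₂₁ = 0 ∧
        (g : Matrix (Fin 2 ⊕ Fin 2) (Fin 2 ⊕ Fin 2) ℝ).toBlocks₁₁.det = 1 ∧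
        (g : Matrix (Fin 2 ⊕ Fin 2) (Fin 2 ⊕ Fin 2) ℝ).toBlocks₂₂.det = 1
      rw [hg]
      simp [hA, hB]
    · rintro ⟨h12, h21, h11, h22⟩
      refine ⟨_, _, h11, h22, ?_⟩
      have h3 := Matrix.fromBlocks_toBlocks (g : Matrix (Fin 2 ⊕ Fin 2) (Fin 2 ⊕ Fin 2) ℝ)
      rw [h12, h21] at h3
      exact h3.symm
  rw [h1]
  refine IsClosed.preimage continuous_subtype_val ?_
  have hc : Continuous fun M : Matrix (Fin 2 ⊕ Fin 2) (Fin 2 ⊕ Fin 2) ℝ => M := continuous_id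
  have c12 : Continuous fun M : Matrix (Fin 2 ⊕ Fin 2) (Fin 2 ⊕ Fin 2) ℝ => M.toBlocks₁₂ :=
    hc.matrix_submatrix _ _
  have c21 : Continuous fun M : Matrix (Fin 2 ⊕ Fin 2) (Fin 2 ⊕ Fin 2) ℝ => M.toBlocks₂₁ :=
    hc.matrix_submatrix _ _
  have c11 : Continuous fun M : Matrix (Fin 2 ⊕ Fin 2) (Fin 2 ⊕ Fin 2) ℝ => M.toBlocks₁₁ :=
    hc.matrix_submatrix _ _
  have c22 : Continuous fun M : Matrix (Fin 2 ⊕ Fin 2) (Fin 2 ⊕ Fin 2) ℝ => M.toBlocks₂₂ :=
    hc.matrix_submatrix _ _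
  exact (isClosed_eq c12 continuous_const).inter ((isClosed_eq c21 continuous_const).inter
    ((isClosed_eq c11.matrix_det continuous_const).inter
      (isClosed_eq c22.matrix_det continuous_const)))

/-- The real span of `g22` consists of the matrices `fromBlocks A 0 0 B` with `A`, `B` of trace
zero; `exp` of such a matrix is `fromBlocks (exp A) 0 0 (exp B)`, and `det_exp`. -/
theorem exp_mem_G22 : ∀ x ∈ realSpan g22, ∃ g ∈ G22,
    ((g : SLR (Fin 2 ⊕ Fin 2)) : Matrix (Fin 2 ⊕ Fin 2) (Fin 2 ⊕ Fin 2) ℝ) =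
      NormedSpace.exp x := by
  intro x hx
  have key : ∃ A B : Matrix (Fin 2) (Fin 2) ℝ, A.trace = 0 ∧ B.trace = 0 ∧
      x = Matrix.fromBlocks A 0 0 B := by
    unfold realSpan at hx
    induction hx using Submodule.span_induction with
    | mem x hx =>
      obtain ⟨y, ⟨A, B, hA, hB, rfl⟩, rfl⟩ := hx
      refine ⟨A.map fun q : ℚ => (q : ℝ), B.map fun q : ℚ => (q : ℝ), ?_, ?_, ?_⟩
      · rw [Matrix.trace_fin_two] at hA ⊢
        simp only [Matrix.map_apply]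
        exact_mod_cast hA
      · rw [Matrix.trace_fin_two] at hB ⊢
        simp only [Matrix.map_apply]
        exact_mod_cast hB
      · unfold toR
        rw [Matrix.fromBlocks_map]
        congr 1 <;> (ext i j; simp)
    | zero => exact ⟨0, 0, by simp, by simp, by rw [Matrix.fromBlocks_zero]⟩
    | add x y _ _ ihx ihy =>
      obtain ⟨A, B, hA, hB, rfl⟩ := ihx
      obtain ⟨A', B', hA', hB', rfl⟩ := ihy
      exact ⟨A + A', B + B', by rw [Matrix.trace_add, hA, hA', add_zero],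
        by rw [Matrix.trace_add, hB, hB', add_zero], by rw [Matrix.fromBlocks_add]; simp⟩
    | smul c x _ ih =>
      obtain ⟨A, B, hA, hB, rfl⟩ := ih
      exact ⟨c • A, c • B, by rw [Matrix.trace_smul, hA, smul_zero],
        by rw [Matrix.trace_smul, hB, smul_zero], by rw [Matrix.fromBlocks_smul]; simp⟩
  obtain ⟨A, B, hA, hB, rfl⟩ := key
  have dA : (NormedSpace.exp A).det = 1 := by rw [det_exp, hA, Real.exp_zero]
  have dB : (NormedSpace.exp B).det = 1 := by rw [det_exp, hB, Real.exp_zero]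
  have dM : (Matrix.fromBlocks (NormedSpace.exp A) 0 0 (NormedSpace.exp B)).det = 1 := by
    rw [Matrix.det_fromBlocks_zero₂₁, dA, dB, mul_one]
  refine ⟨⟨Matrix.fromBlocks (NormedSpace.exp A) 0 0 (NormedSpace.exp B), dM⟩,
    ⟨_, _, dA, dB, rfl⟩, ?_⟩
  rw [exp_fromBlocks22]

theorem S22_le : S22 ≤ g22 := by
  unfold S22
  rw [Submodule.span_le]
  rintro x (rfl | rfl)
  · refine ⟨Matrix.diagonal ![1, -1], 0, by simp, by simp, ?_⟩
    rw [← Matrix.fromBlocks_diagonal]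
    congr 1
    ext i j
    fin_cases i <;> fin_cases j <;> simp
  · refine ⟨0, Matrix.diagonal ![1, -1], by simp, by simp, ?_⟩
    rw [← Matrix.fromBlocks_diagonal]
    congr 1
    ext i j
    fin_cases i <;> fin_cases j <;> simp

theorem SDgQ_S22 : SDgQ S22 := by
  refine ⟨1, fun s hs => ?_⟩
  have key : ∃ d : Fin 2 ⊕ Fin 2 → ℚ, s = Matrix.diagonal d := by
    unfold S22 at hs
    induction hs using Submodule.span_induction with
    | mem x hx =>
      rcases hx with rfl | rfl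
      · exact ⟨_, rfl⟩
      · exact ⟨_, rfl⟩
    | zero => exact ⟨0, by rw [← Matrix.diagonal_zero]; rfl⟩
    | add x y _ _ ihx ihy =>
      obtain ⟨a, rfl⟩ := ihx
      obtain ⟨b, rfl⟩ := ihy
      exact ⟨fun i => a i + b i, by rw [Matrix.diagonal_add]⟩
    | smul c x _ ih =>
      obtain ⟨a, rfl⟩ := ih
      exact ⟨c • a, by rw [Matrix.diagonal_smul]⟩
  obtain ⟨d, rfl⟩ := key
  exact ⟨d, by simp⟩

theorem finrank_S22 : Module.finrank ℚ S22 = 2 := by
  have hli : LinearIndependent ℚ ![(Matrix.diagonal (Sum.elim ![1, -1] ![0, 0]) :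
      Matrix (Fin 2 ⊕ Fin 2) (Fin 2 ⊕ Fin 2) ℚ),
      Matrix.diagonal (Sum.elim ![0, 0] ![1, -1])] := by
    rw [LinearIndependent.pair_iff]
    intro s t h
    have h1 := congrFun (congrFun h (Sum.inl 0)) (Sum.inl 0)
    have h2 := congrFun (congrFun h (Sum.inr 0)) (Sum.inr 0)
    simp [Matrix.add_apply, Matrix.smul_apply] at h1 h2
    exact ⟨h1, h2⟩
  have h := finrank_span_eq_card hli
  rw [Fintype.card_fin] at h
  have h2 : Set.range ![(Matrix.diagonal (Sum.elim ![1, -1] ![0, 0]) :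
      Matrix (Fin 2 ⊕ Fin 2) (Fin 2 ⊕ Fin 2) ℚ),
      Matrix.diagonal (Sum.elim ![0, 0] ![1, -1])] =
      {Matrix.diagonal (Sum.elim ![1, -1] ![0, 0]),
    Matrix.diagonal (Sum.elim ![0, 0] ![1, -1])} := by
    rw [Matrix.range_cons, Matrix.range_cons, Matrix.range_empty, Set.union_empty,
      Set.singleton_union]
  rw [h2] at h
  exact h

theorem E22_le : E22 ≤ realSpan g22 := by
  unfold E22 realSpan
  rw [Submodule.span_le, Set.singleton_subset_iff]
  refine Submodule.subset_span ⟨Matrix.diagonal (Sum.elim ![1, -1] ![0, 0]),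
    S22_le (Submodule.subset_span (Or.inl rfl)), ?_⟩
  unfold toR eta22
  rw [Matrix.diagonal_map (by simp)]
  congr 1
  ext i
  rcases i with i | i <;> fin_cases i <;> simp

theorem SDg_E22 : SDg E22 := by
  refine ⟨1, fun z hz => ?_⟩
  unfold E22 at hz
  rw [Submodule.mem_span_singleton] at hz
  obtain ⟨a, rfl⟩ := hz
  refine ⟨a • Sum.elim ![1, -1] ![0, 0], ?_⟩
  rw [Matrix.diagonal_smul]
  simp [eta22]

theorem finrank_E22 : Module.finrank ℝ E22 = 1 := by
  unfold E22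
  refine finrank_span_singleton ?_
  intro h
  have h1 := congrFun (congrFun h (Sum.inl 0)) (Sum.inl 0)
  simp [eta22] at h1

end Pool.Agent.W_MP_bb6588_G
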