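import Mathlib

set_option autoImplicit false

/-!
# Cusps of `SL₂(ℝ)/SL₂(ℤ)`
-/

namespace Pool.Agent.W_MP_bb6588_G

open Matrix Filter Topology

/-- If at all large times `t` there is a nonzero integral vector `u` with `e^t |p u|` and
`e^{-t} |q u|` small, then `p` vanishes at some nonzero integral vector.

Proof. Take `ε = 1/4`, `T` and for `n : ℕ` let `u_n` be a vector as in the hypothesis for
`t_n = T + n log 2`. `det(u_n, u_{n+1}) = ± ((p u_n)(q u_{n+1}) - (p u_{n+1})(q u_n))` is in absolute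
value at most `2 * 2 * ε² < 1` (at time `t_{n+1}`: `e^{t_{n+1}} |p u_n| < 2 ε`,
`e^{-t_{n+1}} |q u_n| < ε`), so it is `0`: all `u_n` are parallel, i.e. multiples `k_n u` of one
primitive vector `u`, `k_n ≠ 0`. So `e^{t_n} |p u| ≤ e^{t_n} |p u_n| < ε` for all `n`, and
`p u = 0`. -/
theorem cusp (p q : Fin 2 → ℝ) (hpq : |p 0 * q 1 - p 1 * q 0| = 1)
    (h : ∀ ε : ℝ, 0 < ε → ∃ T : ℝ, ∀ t : ℝ, T ≤ t → ∃ u : Fin 2 → ℤ, u ≠ 0 ∧
      Real.exp t * |p 0 * u 0 + p 1 * u 1| < ε ∧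
      Real.exp (-t) * |q 0 * u 0 + q 1 * u 1| < ε) :
    ∃ u : Fin 2 → ℤ, u ≠ 0 ∧ p 0 * u 0 + p 1 * u 1 = 0 := by
  obtain ⟨T, hT⟩ := h (1 / 4) (by norm_num)
  have hn : ∀ n : ℕ, ∃ u : Fin 2 → ℤ, u ≠ 0 ∧
      (Real.exp T * 2 ^ n) * |p 0 * u 0 + p 1 * u 1| < 1 / 4 ∧
      |q 0 * u 0 + q 1 * u 1| < 1 / 4 * (Real.exp T * 2 ^ n) := by
    intro n
    have hlog : 0 ≤ Real.log 2 := Real.log_nonneg (by norm_num)
    obtain ⟨u, hu0, h1, h2⟩ := hT (T + n * Real.log 2)
      (le_add_of_nonneg_right (mul_nonneg (Nat.cast_nonneg n) hlog))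
    have hexp : Real.exp (T + n * Real.log 2) = Real.exp T * 2 ^ n := by
      rw [Real.exp_add, Real.exp_nat_mul, Real.exp_log (by norm_num)]
    have hpos : 0 < Real.exp T * 2 ^ n := by positivity
    refine ⟨u, hu0, by rw [← hexp]; exact h1, ?_⟩
    rw [Real.exp_neg, hexp] at h2
    have h3 := mul_lt_mul_of_pos_left h2 hpos
    rw [← mul_assoc, mul_inv_cancel₀ hpos.ne', one_mul] at h3
    linarith
  choose u hu0 hup huq using hn
  have hE : ∀ n : ℕ, 0 < Real.exp T * 2 ^ n := fun n => by positivity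
  -- consecutive vectors are parallel
  have hdet : ∀ n : ℕ, u n 0 * u (n + 1) 1 = u n 1 * u (n + 1) 0 := by
    intro n
    set E := Real.exp T * 2 ^ n with hEdef
    have hEpos : 0 < E := hE n
    have hE1 : Real.exp T * 2 ^ (n + 1) = 2 * E := by rw [hEdef]; ring
    set a := p 0 * (u n 0 : ℝ) + p 1 * (u n 1 : ℝ) with ha
    set b := p 0 * (u (n + 1) 0 : ℝ) + p 1 * (u (n + 1) 1 : ℝ) with hb
    set c := q 0 * (u n 0 : ℝ) + q 1 * (u n 1 : ℝ) with hc
    set d := q 0 * (u (n + 1) 0 : ℝ) + q 1 * (u (n + 1) 1 : ℝ) with hd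
    have k1 : E * |a| < 1 / 4 := hup n
    have k2 : |c| < 1 / 4 * E := huq n
    have k3 : 2 * E * |b| < 1 / 4 := by have := hup (n + 1); rwa [hE1] at this
    have k4 : |d| < 1 / 4 * (2 * E) := by have := huq (n + 1); rwa [hE1] at this
    have e1 : (p 0 * q 1 - p 1 * q 0) *
        ((u n 0 : ℝ) * (u (n + 1) 1 : ℝ) - (u n 1 : ℝ) * (u (n + 1) 0 : ℝ)) = a * d - b * c := by
      rw [ha, hb, hc, hd]; ring
    have e2 : |(u n 0 : ℝ) * (u (n + 1) 1 : ℝ) - (u n 1 : ℝ) * (u (n + 1) 0 : ℝ)| =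
        |a * d - b * c| := by
      rw [← e1, abs_mul, hpq, one_mul]
    have e3 : |a * d| ≤ 1 / 8 := by
      rw [abs_mul]
      have : |a| * |d| ≤ |a| * (1 / 4 * (2 * E)) :=
        mul_le_mul_of_nonneg_left k4.le (abs_nonneg _)
      nlinarith
    have e4 : |b * c| ≤ 1 / 8 := by
      rw [abs_mul]
      have : |b| * |c| ≤ |b| * (1 / 4 * E) :=
        mul_le_mul_of_nonneg_left k2.le (abs_nonneg _)
      nlinarith
    have e5 : |a * d - b * c| < 1 := by
      have := abs_sub (a * d) (b * c)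
      linarith
    rw [← e2] at e5
    have e6 : |u n 0 * u (n + 1) 1 - u n 1 * u (n + 1) 0| < 1 := by
      exact_mod_cast e5
    have e7 := Int.abs_lt_one_iff.1 e6
    linarith
  -- all vectors are parallel to the first
  have hpar : ∀ n : ℕ, u 0 0 * u n 1 = u 0 1 * u n 0 := by
    intro n
    induction n with
    | zero => ring
    | succ n ih =>
      have h1 := hdet n
      by_cases hz : u n 0 = 0
      · have hz1 : u n 1 ≠ 0 := by
          intro h2
          apply hu0 n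
          funext i
          fin_cases i <;> simp [hz, h2]
        apply mul_left_cancel₀ hz1
        linear_combination (u (n + 1) 1) * ih + (u 0 1) * h1
      · apply mul_left_cancel₀ hz
        linear_combination (u 0 0) * h1 + (u (n + 1) 0) * ih
  obtain ⟨i, hi⟩ : ∃ i, u 0 i ≠ 0 := by
    by_contra hcon
    push Not at hcon
    exact hu0 0 (funext hcon)
  have hpar' : ∀ n k, u 0 i * u n k = u n i * u 0 k := by
    intro n k
    have := hpar n
    fin_cases i <;> fin_cases k <;> simp <;> linarith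
  have hni : ∀ n, u n i ≠ 0 := by
    intro n h0
    apply hu0 n
    funext k
    have := hpar' n k
    rw [h0, zero_mul] at this
    exact (mul_eq_zero.1 this).resolve_left hi
  refine ⟨u 0, hu0 0, ?_⟩
  set a := p 0 * (u 0 0 : ℝ) + p 1 * (u 0 1 : ℝ) with ha
  have hb : ∀ n : ℕ, |a| ≤ (|(u 0 i : ℝ)| * (1 / 4) / Real.exp T) * (1 / 2) ^ n := by
    intro n
    have e1 : (u 0 i : ℝ) * (p 0 * (u n 0 : ℝ) + p 1 * (u n 1 : ℝ)) = (u n i : ℝ) * a := by
      have h0 : (u 0 i : ℝ) * (u n 0 : ℝ) = (u n i : ℝ) * (u 0 0 : ℝ) := by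
        exact_mod_cast hpar' n 0
      have h1 : (u 0 i : ℝ) * (u n 1 : ℝ) = (u n i : ℝ) * (u 0 1 : ℝ) := by
        exact_mod_cast hpar' n 1
      rw [ha]
      linear_combination p 0 * h0 + p 1 * h1
    have e2 : |a| ≤ |(u n i : ℝ)| * |a| := by
      have : (1 : ℝ) ≤ |(u n i : ℝ)| := by
        exact_mod_cast Int.one_le_abs (hni n)
      nlinarith [abs_nonneg a]
    rw [← abs_mul, ← e1, abs_mul] at e2
    refine e2.trans ?_
    have e3 : |p 0 * (u n 0 : ℝ) + p 1 * (u n 1 : ℝ)| ≤ (1 / 4) / (Real.exp T * 2 ^ n) := by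
      rw [le_div_iff₀ (hE n), mul_comm]
      exact (hup n).le
    calc |(u 0 i : ℝ)| * |p 0 * (u n 0 : ℝ) + p 1 * (u n 1 : ℝ)|
        ≤ |(u 0 i : ℝ)| * ((1 / 4) / (Real.exp T * 2 ^ n)) :=
          mul_le_mul_of_nonneg_left e3 (abs_nonneg _)
      _ = _ := by
        rw [_root_.one_div_pow]
        field_simp
  have hlim : Tendsto (fun n : ℕ => (|(u 0 i : ℝ)| * (1 / 4) / Real.exp T) * (1 / 2 : ℝ) ^ n)
      atTop (𝓝 0) := by
    have := (tendsto_pow_atTop_nhds_zero_of_lt_one (r := (1 / 2 : ℝ)) (by norm_num)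
      (by norm_num)).const_mul (|(u 0 i : ℝ)| * (1 / 4) / Real.exp T)
    simpa using this
  have hle : |a| ≤ 0 := ge_of_tendsto' hlim hb
  exact abs_nonpos_iff.1 hle

end Pool.Agent.W_MP_bb6588_G
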