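import Mathlib
import Pool.Agent.W_MP_bb6588_G.ProdDefs

set_option autoImplicit false

/-!
# Obvious orbits in the example
-/

namespace Pool.Agent.W_MP_bb6588_G

open Matrix Filter Topology
open Pool.Agent.W_MP_bb6588_an (SLR SLZ nrm Dig step expo dlt val)

/-- `exp(t eta22) = diag(e^t, e^{-t}, 1, 1)`. -/
theorem exp_smul_eta22 (t : ℝ) : NormedSpace.exp (t • eta22) =
    Matrix.diagonal (Sum.elim ![Real.exp t, Real.exp (-t)] ![1, 1]) := by
  rw [eta22, ← Matrix.diagonal_smul, Matrix.exp_diagonal]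
  congr 1
  funext i
  rw [Pi.coe_exp, ← Real.exp_eq_exp_ℝ]
  rcases i with i | i
  · fin_cases i <;> simp
  · fin_cases i <;> simp

/-- The projection to the first factor is a rational representation. -/
theorem exists_proj : ∃ ρ : G22 →* GL (Fin 2) ℝ, IsRationalRep ρ ∧
    ∀ g : G22, (ρ g : Matrix (Fin 2) (Fin 2) ℝ) =
      (((g : SLR (Fin 2 ⊕ Fin 2)) : Matrix (Fin 2 ⊕ Fin 2) (Fin 2 ⊕ Fin 2) ℝ)).toBlocks₁₁ := by
  let f : G22 →* Matrix (Fin 2) (Fin 2) ℝ :=
    { toFun := fun g =>
        (((g : SLR (Fin 2 ⊕ Fin 2)) : Matrix (Fin 2 ⊕ Fin 2) (Fin 2 ⊕ Fin 2) ℝ)).toBlocks₁₁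
      map_one' := by
        rw [OneMemClass.coe_one, Matrix.SpecialLinearGroup.coe_one, ← Matrix.fromBlocks_one,
          Matrix.toBlocks_fromBlocks₁₁]
      map_mul' := by
        rintro ⟨g, A, B, hA, hB, hg⟩ ⟨g', A', B', hA', hB', hg'⟩
        rw [Subgroup.coe_mul, Matrix.SpecialLinearGroup.coe_mul]
        simp only [hg, hg', Matrix.fromBlocks_multiply, Matrix.toBlocks_fromBlocks₁₁, mul_zero,
          add_zero] }
  refine ⟨f.toHomUnits, ⟨fun a b => MvPolynomial.X (Sum.inl a, Sum.inl b), fun g a b => ?_⟩,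
    fun g => rfl⟩
  rw [MvPolynomial.aeval_X]
  rfl

theorem tendsto_abs_coef {t : ℕ → ℝ}
    (h : Tendsto (fun k => t k • eta22) atTop
      (cocompact (Matrix (Fin 2 ⊕ Fin 2) (Fin 2 ⊕ Fin 2) ℝ))) :
    Tendsto (fun k => |t k|) atTop atTop := by
  refine tendsto_atTop.2 fun R => ?_
  have hK : IsCompact ((fun s : ℝ => s • eta22) '' Set.Icc (-R) R) :=
    isCompact_Icc.image (continuous_id.smul continuous_const)
  filter_upwards [h hK.compl_mem_cocompact] with k hk
  by_contra hc
  exact hk ⟨t k, abs_le.1 (not_le.1 hc).le, rfl⟩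

theorem block_mulVec (t : ℝ) (A B : Matrix (Fin 2) (Fin 2) ℝ) (w : Fin 2 → ℝ) :
    (NormedSpace.exp (t • eta22) * Matrix.fromBlocks A 0 0 B).toBlocks₁₁ *ᵥ w =
      ![Real.exp t * (A 0 0 * w 0 + A 0 1 * w 1), Real.exp (-t) * (A 1 0 * w 0 + A 1 1 * w 1)] := by
  have h1 : (NormedSpace.exp (t • eta22) * Matrix.fromBlocks A 0 0 B).toBlocks₁₁ =
      Matrix.diagonal ![Real.exp t, Real.exp (-t)] * A := by
    rw [exp_smul_eta22, ← Matrix.fromBlocks_diagonal, Matrix.fromBlocks_multiply,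
      Matrix.toBlocks_fromBlocks₁₁, mul_zero, add_zero]
  rw [h1]
  funext i
  fin_cases i <;> simp [Matrix.mulVec, dotProduct, Fin.sum_univ_two, Matrix.diagonal_mul] <;> ring

/-- If `A u` has first coordinate `0` and `A v` second coordinate `0` for nonzero integral
`u`, `v`, the orbit is obvious.

Proof. Take `ρ` from `exists_proj` twice, and the vectors `u`, `v`. Elements of `E22` are `t eta22`. For
`z k = t_k eta22 → ∞` there is a subsequence with `t_k → +∞` or one with `t_k → -∞`. In the first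
case `ρ(d_k g) u = diag(e^{t_k}, e^{-t_k}) A u = (0, e^{-t_k} (A u)_1) → 0`, in the second
`ρ(d_k g) v → 0`. -/
theorem isObvious22 (g : G22) (A B : Matrix (Fin 2) (Fin 2) ℝ)
    (hg : ((g : SLR (Fin 2 ⊕ Fin 2)) : Matrix (Fin 2 ⊕ Fin 2) (Fin 2 ⊕ Fin 2) ℝ) =
      Matrix.fromBlocks A 0 0 B)
    (u v : Fin 2 → ℤ) (hu : u ≠ 0) (hv : v ≠ 0)
    (hAu : A 0 0 * u 0 + A 0 1 * u 1 = 0) (hAv : A 1 0 * v 0 + A 1 1 * v 1 = 0) :
    IsObvious G22 E22 g := by
  obtain ⟨ρ, hρ, hρ1⟩ := exists_proj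
  refine ⟨2, fun _ => 2, fun _ => ρ, ![fun a => (u a : ℚ), fun a => (v a : ℚ)], fun _ => hρ, ?_, ?_⟩
  · intro i hi
    fin_cases i
    · refine hu (funext fun a => ?_)
      have h := congrFun hi a
      simpa using h
    · refine hv (funext fun a => ?_)
      have h := congrFun hi a
      simpa using h
  · intro z d hz hd hinf
    choose t ht using fun k => Submodule.mem_span_singleton.1 (hz k)
    have htz : (fun k => t k • eta22) = z := funext ht
    have habs : Tendsto (fun k => |t k|) atTop atTop := by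
      refine tendsto_abs_coef ?_
      rw [htz]
      exact hinf
    have hval : ∀ k (w : Fin 2 → ℝ),
        (ρ (d k * g) : Matrix (Fin 2) (Fin 2) ℝ) *ᵥ w =
          ![Real.exp (t k) * (A 0 0 * w 0 + A 0 1 * w 1),
            Real.exp (-t k) * (A 1 0 * w 0 + A 1 1 * w 1)] := by
      intro k w
      rw [hρ1, Subgroup.coe_mul, Matrix.SpecialLinearGroup.coe_mul, hd, hg, ← ht k]
      exact block_mulVec (t k) A B w
    by_cases hf : ∃ᶠ k in atTop, 0 ≤ t k
    · obtain ⟨φ, hφ, hφ1⟩ := extraction_of_frequently_atTop hf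
      refine ⟨0, φ, hφ, ?_⟩
      have h1 : Tendsto (fun k => Real.exp (-t (φ k))) atTop (𝓝 0) := by
        refine Real.tendsto_exp_neg_atTop_nhds_zero.comp ?_
        refine (habs.comp hφ.tendsto_atTop).congr fun k => ?_
        exact abs_of_nonneg (hφ1 k)
      have h2 : Tendsto (fun k => (![(0 : ℝ), Real.exp (-t (φ k)) *
          (A 1 0 * u 0 + A 1 1 * u 1)] : Fin 2 → ℝ)) atTop (𝓝 0) := by
        refine tendsto_pi_nhds.2 fun i => ?_
        fin_cases i
        · exact tendsto_const_nhds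
        · have h3 := h1.mul_const (A 1 0 * u 0 + A 1 1 * u 1)
          rw [zero_mul] at h3
          exact h3
      refine h2.congr fun k => ?_
      refine Eq.trans ?_ (hval (φ k) (fun a => ((u a : ℚ) : ℝ))).symm
      simp only [Rat.cast_intCast]
      rw [hAu, mul_zero]
    · have hf' : ∀ᶠ k in atTop, t k < 0 := by
        refine (not_frequently.1 hf).mono fun k hk => ?_
        exact not_le.1 hk
      refine ⟨1, id, strictMono_id, ?_⟩
      have h1 : Tendsto (fun k => Real.exp (t k)) atTop (𝓝 0) := by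
        refine Real.tendsto_exp_atBot.comp ?_
        refine (tendsto_neg_atTop_atBot.comp habs).congr' ?_
        filter_upwards [hf'] with k hk
        show -|t k| = t k
        rw [abs_of_neg hk, neg_neg]
      have h2 : Tendsto (fun k => (![Real.exp (t k) * (A 0 0 * v 0 + A 0 1 * v 1), (0 : ℝ)] :
          Fin 2 → ℝ)) atTop (𝓝 0) := by
        refine tendsto_pi_nhds.2 fun i => ?_
        fin_cases i
        · have h3 := h1.mul_const (A 0 0 * v 0 + A 0 1 * v 1)
          rw [zero_mul] at h3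
          exact h3
        · exact tendsto_const_nhds
      refine h2.congr fun k => ?_
      refine Eq.trans ?_ (hval k (fun a => ((v a : ℚ) : ℝ))).symm
      simp only [Rat.cast_intCast]
      rw [hAv, mul_zero]

end Pool.Agent.W_MP_bb6588_G
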