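import Mathlib

set_option autoImplicit false

/-!
# Reduction theory for `SL₂(ℤ)`
-/

namespace Pool.Agent.W_MP_bb6588_G

open Matrix Filter Topology

/-- A nonzero integral vector minimizing a unimodular form. -/
theorem reduction_min (a b c d : ℝ) (hdet : a * d - b * c = 1) :
    ∃ u : Fin 2 → ℤ, u ≠ 0 ∧ ∀ v : Fin 2 → ℤ, v ≠ 0 →
      (a * u 0 + b * u 1) ^ 2 + (c * u 0 + d * u 1) ^ 2 ≤
        (a * v 0 + b * v 1) ^ 2 + (c * v 0 + d * v 1) ^ 2 := by
  set N : (Fin 2 → ℤ) → ℝ := fun v => (a * v 0 + b * v 1) ^ 2 + (c * v 0 + d * v 1) ^ 2 with hN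
  let e : Fin 2 → ℤ := ![1, 0]
  have he : e ≠ 0 := by
    intro h
    have := congrFun h 0
    simp [e] at this
  set M : ℝ := (a ^ 2 + b ^ 2 + c ^ 2 + d ^ 2) * N e with hM
  have hbd : ∀ v : Fin 2 → ℤ, N v ≤ N e → ∀ i, |v i| ≤ ⌈M⌉ := by
    intro v hv
    have hS : 0 ≤ a ^ 2 + b ^ 2 + c ^ 2 + d ^ 2 := by positivity
    have hMv : (a ^ 2 + b ^ 2 + c ^ 2 + d ^ 2) * N v ≤ M :=
      mul_le_mul_of_nonneg_left hv hS
    have h0 : ((v 0 : ℤ) : ℝ) ^ 2 ≤ (a ^ 2 + b ^ 2 + c ^ 2 + d ^ 2) * N v := by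
      have e0 : ((v 0 : ℤ) : ℝ) = d * (a * v 0 + b * v 1) - b * (c * v 0 + d * v 1) := by
        linear_combination (-(v 0 : ℝ)) * hdet
      have hq : (d * (a * v 0 + b * v 1) - b * (c * v 0 + d * v 1)) ^ 2 ≤
          (d ^ 2 + b ^ 2) * N v := by
        simp only [hN]
        nlinarith [sq_nonneg (d * (c * v 0 + d * v 1) + b * (a * v 0 + b * v 1))]
      have hNv : 0 ≤ N v := by simp only [hN]; positivity
      rw [e0]
      refine hq.trans (mul_le_mul_of_nonneg_right ?_ hNv)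
      nlinarith [sq_nonneg a, sq_nonneg c]
    have h1 : ((v 1 : ℤ) : ℝ) ^ 2 ≤ (a ^ 2 + b ^ 2 + c ^ 2 + d ^ 2) * N v := by
      have e1 : ((v 1 : ℤ) : ℝ) = a * (c * v 0 + d * v 1) - c * (a * v 0 + b * v 1) := by
        linear_combination (-(v 1 : ℝ)) * hdet
      have hq : (a * (c * v 0 + d * v 1) - c * (a * v 0 + b * v 1)) ^ 2 ≤
          (a ^ 2 + c ^ 2) * N v := by
        simp only [hN]
        nlinarith [sq_nonneg (a * (a * v 0 + b * v 1) + c * (c * v 0 + d * v 1))]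
      have hNv : 0 ≤ N v := by simp only [hN]; positivity
      rw [e1]
      refine hq.trans (mul_le_mul_of_nonneg_right ?_ hNv)
      nlinarith [sq_nonneg b, sq_nonneg d]
    have hint : ∀ n : ℤ, ((n : ℤ) : ℝ) ^ 2 ≤ (a ^ 2 + b ^ 2 + c ^ 2 + d ^ 2) * N v → |n| ≤ ⌈M⌉ := by
      intro n hn
      have h3 : |n| ≤ n ^ 2 := by
        rcases le_or_gt 0 n with h | h
        · rw [abs_of_nonneg h]; nlinarith
        · rw [abs_of_neg h]; nlinarith
      have h4 : ((|n| : ℤ) : ℝ) ≤ M := by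
        calc ((|n| : ℤ) : ℝ) ≤ ((n ^ 2 : ℤ) : ℝ) := by exact_mod_cast h3
          _ = (n : ℝ) ^ 2 := by push_cast; ring
          _ ≤ M := hn.trans hMv
      exact_mod_cast h4.trans (Int.le_ceil M)
    intro i
    fin_cases i
    · exact hint _ h0
    · exact hint _ h1
  have hfin : {v : Fin 2 → ℤ | v ≠ 0 ∧ N v ≤ N e}.Finite := by
    refine (Set.finite_Icc (fun _ : Fin 2 => -⌈M⌉) (fun _ => ⌈M⌉)).subset ?_
    rintro v ⟨_, hv⟩
    exact ⟨fun i => (abs_le.1 (hbd v hv i)).1, fun i => (abs_le.1 (hbd v hv i)).2⟩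
  obtain ⟨u, hu, hmin⟩ := Set.exists_min_image _ N hfin ⟨e, he, le_rfl⟩
  refine ⟨u, hu.1, fun v hv => ?_⟩
  rcases le_or_gt (N v) (N e) with h | h
  · exact hmin v ⟨hv, h⟩
  · exact (hu.2.trans_lt h).le

/-- If no nonzero integral vector is mapped by `f` to a vector with both coordinates `< ε` in absolute
value then `f γ` is bounded for some `γ ∈ SL₂(ℤ)`, with a bound depending only on `ε`.

Proof. Let `|·|` be the Euclidean norm. There is a nonzero integral vector `u₁` with `|f u₁|` minimal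
(only finitely many integral vectors have bounded image, as `f` is invertible). Its coordinates are
coprime, so there is `u₂` with `det(u₁, u₂) = 1`; adding a multiple of `u₁` to `u₂` we may assume
`|⟨f u₁, f u₂⟩| ≤ |f u₁|² / 2`. By Lagrange's identity `|f u₁|² |f u₂|² = 1 + ⟨f u₁, f u₂⟩²
≤ 1 + |f u₁|⁴ / 4`. With `|f u₂| ≥ |f u₁|`: `|f u₁|⁴ ≤ 4/3`; with `|f u₁| ≥ ε`:
`|f u₂|² ≤ 1/ε² + |f u₁|²/4 ≤ 1/ε² + 1`. Take `γ` with columns `u₁, u₂` and
`C = 2 + 1/ε`. -/
theorem reduction (ε : ℝ) (hε : 0 < ε) : ∃ C : ℝ, ∀ f : Matrix (Fin 2) (Fin 2) ℝ, f.det = 1 →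
    (∀ u : Fin 2 → ℤ, u ≠ 0 → ¬ (|f 0 0 * u 0 + f 0 1 * u 1| < ε ∧
      |f 1 0 * u 0 + f 1 1 * u 1| < ε)) →
    ∃ γ : Matrix (Fin 2) (Fin 2) ℤ, γ.det = 1 ∧
      ∀ i j, |(f * γ.map fun n : ℤ => (n : ℝ)) i j| ≤ C := by
  refine ⟨2 + 1 / ε, fun f hf hshort => ?_⟩
  set a := f 0 0 with ha
  set b := f 0 1 with hb
  set c := f 1 0 with hc
  set d := f 1 1 with hd
  have hdet : a * d - b * c = 1 := by
    rw [Matrix.det_fin_two] at hf
    exact hf
  obtain ⟨u, hu0, hmin⟩ := reduction_min a b c d hdet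
  set x := u 0 with hx
  set y := u 1 with hy
  set N1 : ℝ := (a * x + b * y) ^ 2 + (c * x + d * y) ^ 2 with hN1
  -- lower bound
  have hlow : ε ^ 2 ≤ N1 := by
    have h := hshort u hu0
    rw [not_and_or, not_lt, not_lt] at h
    rcases h with h | h
    · have h2 : ε ^ 2 ≤ (a * x + b * y) ^ 2 := by
        rw [← sq_abs (a * x + b * y)]
        exact pow_le_pow_left₀ hε.le h 2
      exact h2.trans (le_add_of_nonneg_right (sq_nonneg _))
    · have h2 : ε ^ 2 ≤ (c * x + d * y) ^ 2 := by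
        rw [← sq_abs (c * x + d * y)]
        exact pow_le_pow_left₀ hε.le h 2
      exact h2.trans (le_add_of_nonneg_left (sq_nonneg _))
  have hN1pos : 0 < N1 := lt_of_lt_of_le (by positivity) hlow
  -- coprimality
  have hcop : IsCoprime x y := by
    rw [Int.isCoprime_iff_gcd_eq_one]
    obtain ⟨x', hx'⟩ := Int.gcd_dvd_left x y
    obtain ⟨y', hy'⟩ := Int.gcd_dvd_right x y
    set g : ℤ := (Int.gcd x y : ℤ) with hg
    have hw0 : (![x', y'] : Fin 2 → ℤ) ≠ 0 := by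
      intro h
      apply hu0
      have h0 := congrFun h 0
      have h1 := congrFun h 1
      simp only [Matrix.cons_val_zero, Matrix.cons_val_one, Pi.zero_apply] at h0 h1
      funext i
      fin_cases i
      · show u 0 = 0
        rw [← hx, hx', h0, mul_zero]
      · show u 1 = 0
        rw [← hy, hy', h1, mul_zero]
    have h := hmin _ hw0
    simp only [Matrix.cons_val_zero, Matrix.cons_val_one] at h
    have hxr : (x : ℝ) = g * x' := by exact_mod_cast congrArg (fun n : ℤ => (n : ℝ)) hx'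
    have hyr : (y : ℝ) = g * y' := by exact_mod_cast congrArg (fun n : ℤ => (n : ℝ)) hy'
    have hN1' : N1 = (g : ℝ) ^ 2 * ((a * x' + b * y') ^ 2 + (c * x' + d * y') ^ 2) := by
      rw [hN1, hxr, hyr]
      ring
    have hle : N1 ≤ (a * x' + b * y') ^ 2 + (c * x' + d * y') ^ 2 := h
    have hg2 : (g : ℝ) ^ 2 ≤ 1 := by
      by_contra hcon
      push Not at hcon
      nlinarith
    have hg3 : g ^ 2 ≤ 1 := by exact_mod_cast hg2
    have hg0 : 0 ≤ g := by positivity
    have hgne : g ≠ 0 := by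
      intro h0
      rw [h0] at hN1'
      simp at hN1'
      exact hN1pos.ne' hN1'
    have h5 : g = 1 := by
      have h6 : 1 ≤ g := lt_of_le_of_ne hg0 hgne.symm
      nlinarith
    rw [hg] at h5
    exact_mod_cast h5
  obtain ⟨s, t, hst⟩ := hcop
  -- the second vector before and after reduction
  set B0 : ℝ := (a * x + b * y) * (a * (-t) + b * s) + (c * x + d * y) * (c * (-t) + d * s) with hB0
  set k : ℤ := round (B0 / N1) with hk
  set x2 : ℤ := -t - k * x with hx2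
  set y2 : ℤ := s - k * y with hy2
  have hdet2 : x * y2 - x2 * y = 1 := by
    rw [hx2, hy2]
    linear_combination hst
  set B : ℝ := (a * x + b * y) * (a * x2 + b * y2) + (c * x + d * y) * (c * x2 + d * y2) with hB
  set N2 : ℝ := (a * x2 + b * y2) ^ 2 + (c * x2 + d * y2) ^ 2 with hN2
  have hBk : B = B0 - k * N1 := by
    rw [hB, hB0, hN1, hx2, hy2]
    push_cast
    ring
  have hBle : |B| ≤ N1 / 2 := by
    have h1 := abs_sub_round (B0 / N1)
    have h2 : B = (B0 / N1 - k) * N1 := by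
      rw [hBk]
      field_simp
    rw [h2, abs_mul, abs_of_pos hN1pos]
    have h3 := mul_le_mul_of_nonneg_right h1 hN1pos.le
    linarith
  have hB2 : B ^ 2 ≤ N1 ^ 2 / 4 := by
    have := pow_le_pow_left₀ (abs_nonneg B) hBle 2
    rw [sq_abs] at this
    have h3 : (N1 / 2) ^ 2 = N1 ^ 2 / 4 := by ring
    linarith
  have hdet2r : (x : ℝ) * y2 - x2 * y = 1 := by exact_mod_cast hdet2
  have hLag : N1 * N2 = 1 + B ^ 2 := by
    have h1 : (a * x + b * y) * (c * x2 + d * y2) - (a * x2 + b * y2) * (c * x + d * y) = 1 := by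
      have : (a * x + b * y) * (c * x2 + d * y2) - (a * x2 + b * y2) * (c * x + d * y) =
          (a * d - b * c) * ((x : ℝ) * y2 - x2 * y) := by ring
      rw [this, hdet, hdet2r, one_mul]
    have h2 : N1 * N2 = ((a * x + b * y) * (c * x2 + d * y2) -
        (a * x2 + b * y2) * (c * x + d * y)) ^ 2 + B ^ 2 := by
      rw [hN1, hN2, hB]
      ring
    rw [h2, h1]
    ring
  have hv0 : (![x2, y2] : Fin 2 → ℤ) ≠ 0 := by
    intro h
    have h0 := congrFun h 0
    have h1 := congrFun h 1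
    simp only [Matrix.cons_val_zero, Matrix.cons_val_one, Pi.zero_apply] at h0 h1
    rw [h0, h1] at hdet2
    simp at hdet2
  have hN12 : N1 ≤ N2 := by
    have h := hmin _ hv0
    simpa only [Matrix.cons_val_zero, Matrix.cons_val_one] using h
  have hN1le : N1 ≤ 2 := by
    have h1 : N1 * N1 ≤ N1 * N2 := mul_le_mul_of_nonneg_left hN12 hN1pos.le
    clear_value N1 N2 B
    by_contra hcon
    push Not at hcon
    nlinarith
  have hN2le : N2 ≤ 1 / ε ^ 2 + 1 := by
    have h1 : N1 * N2 ≤ 1 + N1 ^ 2 / 4 := by linarith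
    have h2 : N2 ≤ 1 / N1 + N1 / 4 := by
      rw [← sub_nonneg]
      have : 1 / N1 + N1 / 4 - N2 = (1 + N1 ^ 2 / 4 - N1 * N2) / N1 := by
        field_simp
      rw [this]
      exact div_nonneg (by linarith) hN1pos.le
    have h3 : 1 / N1 ≤ 1 / ε ^ 2 := one_div_le_one_div_of_le (by positivity) hlow
    linarith
  have hC2 : 1 / ε ^ 2 + 1 ≤ (2 + 1 / ε) ^ 2 := by
    have h1 : 0 < 1 / ε := by positivity
    have h2 : (1 / ε) ^ 2 = 1 / ε ^ 2 := by rw [div_pow, one_pow]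
    have h3 : (2 + 1 / ε) ^ 2 = 4 + 4 * (1 / ε) + (1 / ε) ^ 2 := by ring
    rw [h3, h2]
    linarith
  have hC1 : (2 : ℝ) ≤ (2 + 1 / ε) ^ 2 := by
    have h1 : 0 < 1 / ε := by positivity
    have h3 : (2 + 1 / ε) ^ 2 = 4 + 4 * (1 / ε) + (1 / ε) ^ 2 := by ring
    have h4 := sq_nonneg (1 / ε)
    rw [h3]
    linarith
  have hC0 : 0 ≤ 2 + 1 / ε := by positivity
  refine ⟨!![x, x2; y, y2], ?_, ?_⟩
  · rw [Matrix.det_fin_two_of]
    exact hdet2
  · have g1 : |a * x + b * y| ≤ 2 + 1 / ε :=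
      abs_le_of_sq_le_sq (((le_add_of_nonneg_right (sq_nonneg _)).trans hN1le).trans hC1) hC0
    have g2 : |c * x + d * y| ≤ 2 + 1 / ε :=
      abs_le_of_sq_le_sq (((le_add_of_nonneg_left (sq_nonneg _)).trans hN1le).trans hC1) hC0
    have g3 : |a * x2 + b * y2| ≤ 2 + 1 / ε :=
      abs_le_of_sq_le_sq (((le_add_of_nonneg_right (sq_nonneg _)).trans hN2le).trans hC2) hC0
    have g4 : |c * x2 + d * y2| ≤ 2 + 1 / ε :=
      abs_le_of_sq_le_sq (((le_add_of_nonneg_left (sq_nonneg _)).trans hN2le).trans hC2) hC0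
    intro i j
    rw [Matrix.mul_apply, Fin.sum_univ_two]
    simp only [Matrix.map_apply]
    fin_cases i <;> fin_cases j
    · simpa using g1
    · simpa using g3
    · simpa using g2
    · simpa using g4

end Pool.Agent.W_MP_bb6588_G
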