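import Mathlib
import Pool.Agent.W_MP_bb6588_G.ProdObv
import Pool.Agent.W_MP_bb6588_G.ProdRed
import Pool.Agent.W_MP_bb6588_G.ProdCusp

set_option autoImplicit false

/-!
# Divergent orbits in the example
-/

namespace Pool.Agent.W_MP_bb6588_G

open Matrix Filter Topology
open Pool.Agent.W_MP_bb6588_an (SLR SLZ nrm Dig step expo dlt val)

/-- the block diagonal element with blocks `A`, `B` -/
def pd_mk (A B : Matrix (Fin 2) (Fin 2) ℝ) (hA : A.det = 1) (hB : B.det = 1) : G22 :=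
  ⟨⟨Matrix.fromBlocks A 0 0 B, by rw [Matrix.det_fromBlocks_zero₂₁, hA, hB, mul_one]⟩,
    ⟨A, B, hA, hB, rfl⟩⟩

theorem pd_coe (A B : Matrix (Fin 2) (Fin 2) ℝ) (hA : A.det = 1) (hB : B.det = 1) :
    ((pd_mk A B hA hB : SLR (Fin 2 ⊕ Fin 2)) : Matrix (Fin 2 ⊕ Fin 2) (Fin 2 ⊕ Fin 2) ℝ) =
      Matrix.fromBlocks A 0 0 B := rfl

theorem pd_ext {x y : G22} (h : ((x : SLR (Fin 2 ⊕ Fin 2)) :
    Matrix (Fin 2 ⊕ Fin 2) (Fin 2 ⊕ Fin 2) ℝ) = ((y : SLR (Fin 2 ⊕ Fin 2)) :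
    Matrix (Fin 2 ⊕ Fin 2) (Fin 2 ⊕ Fin 2) ℝ)) : x = y :=
  Subtype.ext (Subtype.ext h)

/-- the compact set used below -/
theorem pd_compact (B : Matrix (Fin 2) (Fin 2) ℝ) (hB : B.det = 1) (C : ℝ) :
    ∃ K₀ : Set G22, IsCompact K₀ ∧ ∀ (A : Matrix (Fin 2) (Fin 2) ℝ) (hA : A.det = 1),
      (∀ i j, |A i j| ≤ C) → pd_mk A B hA hB ∈ K₀ := by
  have hS : IsCompact {A : Matrix (Fin 2) (Fin 2) ℝ | A.det = 1 ∧ ∀ i j, |A i j| ≤ C} := by
    have h1 : IsCompact (Set.univ.pi fun _ : Fin 2 => Set.univ.pi fun _ : Fin 2 =>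
        Set.Icc (-C) C : Set (Fin 2 → Fin 2 → ℝ)) :=
      isCompact_univ_pi fun _ => isCompact_univ_pi fun _ => isCompact_Icc
    have h2 : IsClosed {A : Matrix (Fin 2) (Fin 2) ℝ | A.det = 1} :=
      isClosed_eq (Continuous.matrix_det continuous_id) continuous_const
    have h3 : IsClosed {A : Matrix (Fin 2) (Fin 2) ℝ | ∀ i j, |A i j| ≤ C} := by
      have h4 : {A : Matrix (Fin 2) (Fin 2) ℝ | ∀ i j, |A i j| ≤ C} =
          ⋂ i, ⋂ j, {A : Matrix (Fin 2) (Fin 2) ℝ | |A i j| ≤ C} := by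
        ext A
        simp
      rw [h4]
      refine isClosed_iInter fun i => isClosed_iInter fun j => ?_
      exact isClosed_le (continuous_abs.comp (continuous_id.matrix_elem i j)) continuous_const
    refine (h1.inter_right h2).of_isClosed_subset ?_ ?_
    · exact IsClosed.inter h2 h3
    · rintro A ⟨hA, hA'⟩
      refine ⟨?_, hA⟩
      intro i _ j _
      exact abs_le.1 (hA' i j)
  have hcomp : CompactSpace {A : Matrix (Fin 2) (Fin 2) ℝ | A.det = 1 ∧ ∀ i j, |A i j| ≤ C} :=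
    isCompact_iff_compactSpace.1 hS
  let ψ : {A : Matrix (Fin 2) (Fin 2) ℝ | A.det = 1 ∧ ∀ i j, |A i j| ≤ C} → G22 :=
    fun A => pd_mk A.1 B A.2.1 hB
  have hψ : Continuous ψ := by
    refine Continuous.subtype_mk (Continuous.subtype_mk ?_ _) _
    exact Continuous.matrix_fromBlocks continuous_subtype_val continuous_const continuous_const
      continuous_const
  refine ⟨Set.range ψ, isCompact_range hψ, fun A hA hC => ⟨⟨A, hA, hC⟩, rfl⟩⟩

/-- A divergent orbit has short vectors at all large times.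

Proof. Let `C` be the constant of `reduction ε` and `K₀ ⊆ G22` the set of the `fromBlocks A' 0 0 B` with
`det A' = 1` and `|A' i j| ≤ C`: a compact set (closed and bounded; `G22` is a closed subset of the
matrices, `Matrix.SpecialLinearGroup.isClosedEmbedding_val`). Its image `K` in `G22/Γ` is compact;
let `R` be the bound from divergence, and `T = R + 1`. Let `|t| ≥ T`, `z = t eta22`,
`d = exp z ∈ G22` (`exp_smul_eta22`), `f = diag(e^t, e^{-t}) A`, `det f = 1`. If there were no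
short vector, `reduction` would give `γ` with `|(f γ) i j| ≤ C`; then `d g (γ, 1) ∈ K₀`,
`d g Γ ∈ K` and `|t| = |z 0 0| ≤ R`, a contradiction. -/
theorem short_of_divergent (g : G22) (A B : Matrix (Fin 2) (Fin 2) ℝ) (hA : A.det = 1)
    (hB : B.det = 1)
    (hg : ((g : SLR (Fin 2 ⊕ Fin 2)) : Matrix (Fin 2 ⊕ Fin 2) (Fin 2 ⊕ Fin 2) ℝ) =
      Matrix.fromBlocks A 0 0 B)
    (h : IsDivergent G22 ((SLZ (Fin 2 ⊕ Fin 2)).subgroupOf G22) E22 g) (ε : ℝ) (hε : 0 < ε) :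
    ∃ T : ℝ, ∀ t : ℝ, T ≤ |t| → ∃ u : Fin 2 → ℤ, u ≠ 0 ∧
      Real.exp t * |A 0 0 * u 0 + A 0 1 * u 1| < ε ∧
      Real.exp (-t) * |A 1 0 * u 0 + A 1 1 * u 1| < ε := by
  obtain ⟨C, hC⟩ := reduction ε hε
  obtain ⟨K₀, hK₀, hmem⟩ := pd_compact B hB C
  have hK : IsCompact ((fun x : G22 => (x : G22 ⧸ ((SLZ (Fin 2 ⊕ Fin 2)).subgroupOf G22))) '' K₀) :=
    hK₀.image continuous_quot_mk
  obtain ⟨R, hR⟩ := h _ hK
  refine ⟨R + 1, fun t ht => ?_⟩
  by_contra hcon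
  push Not at hcon
  have hg' : g = pd_mk A B hA hB := pd_ext hg
  have hdD : (Matrix.diagonal ![Real.exp t, Real.exp (-t)] : Matrix (Fin 2) (Fin 2) ℝ).det = 1 := by
    rw [Matrix.det_diagonal, Fin.prod_univ_two]
    show Real.exp t * Real.exp (-t) = 1
    rw [← Real.exp_add, add_neg_cancel, Real.exp_zero]
  have hf : (Matrix.diagonal ![Real.exp t, Real.exp (-t)] * A).det = 1 := by
    rw [Matrix.det_mul, hdD, hA, mul_one]
  have e0 : ∀ j, (Matrix.diagonal ![Real.exp t, Real.exp (-t)] * A) 0 j = Real.exp t * A 0 j := by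
    intro j
    rw [Matrix.diagonal_mul]
    rfl
  have e1 : ∀ j, (Matrix.diagonal ![Real.exp t, Real.exp (-t)] * A) 1 j = Real.exp (-t) * A 1 j := by
    intro j
    rw [Matrix.diagonal_mul]
    rfl
  obtain ⟨γ, hγ, hγC⟩ := hC (Matrix.diagonal ![Real.exp t, Real.exp (-t)] * A) hf (by
    rintro u hu ⟨h1, h2⟩
    have h3 := hcon u hu
    rw [e0, e0, mul_assoc, mul_assoc, ← mul_add, abs_mul, abs_of_pos (Real.exp_pos _)] at h1
    rw [e1, e1, mul_assoc, mul_assoc, ← mul_add, abs_mul, abs_of_pos (Real.exp_pos _)] at h2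
    exact absurd h2 (not_lt.2 (h3 h1)))
  have hγR : (γ.map fun n : ℤ => (n : ℝ)).det = 1 := by
    have h1 : (γ.map fun n : ℤ => (n : ℝ)).det = ((γ.det : ℤ) : ℝ) := by
      have := (Int.castRingHom ℝ).map_det γ
      exact this.symm
    rw [h1, hγ, Int.cast_one]
  have hone : (1 : Matrix (Fin 2) (Fin 2) ℝ).det = 1 := Matrix.det_one
  let d : G22 := pd_mk (Matrix.diagonal ![Real.exp t, Real.exp (-t)]) 1 hdD hone
  let c : G22 := pd_mk (γ.map fun n : ℤ => (n : ℝ)) 1 hγR hone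
  have hdexp : ((d : SLR (Fin 2 ⊕ Fin 2)) : Matrix (Fin 2 ⊕ Fin 2) (Fin 2 ⊕ Fin 2) ℝ) =
      NormedSpace.exp (t • eta22) := by
    rw [exp_smul_eta22]
    show Matrix.fromBlocks (Matrix.diagonal ![Real.exp t, Real.exp (-t)]) 0 0 1 = _
    ext i j
    rcases i with i | i <;> rcases j with j | j
    · rw [Matrix.fromBlocks_apply₁₁, Matrix.diagonal_apply, Matrix.diagonal_apply]
      simp
    · rw [Matrix.fromBlocks_apply₁₂, Matrix.diagonal_apply]
      simp
    · rw [Matrix.fromBlocks_apply₂₁, Matrix.diagonal_apply]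
      simp
    · rw [Matrix.fromBlocks_apply₂₂, Matrix.diagonal_apply, Matrix.one_apply]
      fin_cases i <;> fin_cases j <;> simp
  have hcΓ : c ∈ (SLZ (Fin 2 ⊕ Fin 2)).subgroupOf G22 := by
    rw [Subgroup.mem_subgroupOf]
    have hdet : (Matrix.fromBlocks γ 0 0 1 : Matrix (Fin 2 ⊕ Fin 2) (Fin 2 ⊕ Fin 2) ℤ).det = 1 := by
      rw [Matrix.det_fromBlocks_zero₂₁, hγ, Matrix.det_one, mul_one]
    refine ⟨⟨Matrix.fromBlocks γ 0 0 1, hdet⟩, ?_⟩
    apply Subtype.ext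
    show (Matrix.fromBlocks γ 0 0 1 : Matrix (Fin 2 ⊕ Fin 2) (Fin 2 ⊕ Fin 2) ℤ).map _ =
      Matrix.fromBlocks (γ.map fun n : ℤ => (n : ℝ)) 0 0 1
    ext i j
    rcases i with i | i <;> rcases j with j | j
    · simp
    · simp
    · simp
    · simp [Matrix.one_apply]
  have hprod : d * g * c = pd_mk (Matrix.diagonal ![Real.exp t, Real.exp (-t)] * A *
      γ.map fun n : ℤ => (n : ℝ)) B (by rw [Matrix.det_mul, hf, hγR, mul_one]) hB := by
    apply pd_ext
    rw [hg']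
    show Matrix.fromBlocks (Matrix.diagonal ![Real.exp t, Real.exp (-t)]) 0 0 1 *
      Matrix.fromBlocks A 0 0 B * Matrix.fromBlocks (γ.map fun n : ℤ => (n : ℝ)) 0 0 1 =
      Matrix.fromBlocks (Matrix.diagonal ![Real.exp t, Real.exp (-t)] * A *
        γ.map fun n : ℤ => (n : ℝ)) 0 0 B
    rw [Matrix.fromBlocks_multiply, Matrix.fromBlocks_multiply]
    simp
  have hin : ((d * g : G22) : G22 ⧸ ((SLZ (Fin 2 ⊕ Fin 2)).subgroupOf G22)) ∈
      ((fun x : G22 => (x : G22 ⧸ ((SLZ (Fin 2 ⊕ Fin 2)).subgroupOf G22))) '' K₀) := by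
    refine ⟨d * g * c, ?_, ?_⟩
    · rw [hprod]
      exact hmem _ _ hγC
    · refine QuotientGroup.eq.2 ?_
      have h1 : (d * g * c)⁻¹ * (d * g) = c⁻¹ := by group
      rw [h1]
      exact Subgroup.inv_mem _ hcΓ
  have hz : t • eta22 ∈ E22 := Submodule.smul_mem _ _ (Submodule.mem_span_singleton_self _)
  have hfin := hR _ hz d hdexp hin (Sum.inl 0) (Sum.inl 0)
  have h00 : (t • eta22) (Sum.inl 0) (Sum.inl 0) = t := by
    simp [eta22]
  rw [h00] at hfin
  linarith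

/-- Every divergent orbit of `D = {(diag(e^t, e^{-t}), 1)}` is obvious: `short_of_divergent`, then
`cusp` for `(p, q)` = (first row, second row) of `A` at `t → +∞` and for (second row, first
row) at `t → -∞`, then `isObvious22`. -/
theorem obvious_of_divergent (g : G22)
    (h : IsDivergent G22 ((SLZ (Fin 2 ⊕ Fin 2)).subgroupOf G22) E22 g) :
    IsObvious G22 E22 g := by
  obtain ⟨A, B, hA, hB, hg⟩ := g.2
  have hs := short_of_divergent g A B hA hB hg h
  have hdet : A 0 0 * A 1 1 - A 0 1 * A 1 0 = 1 := by rw [← Matrix.det_fin_two, hA]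
  obtain ⟨u, hu, hu0⟩ := cusp (A 0) (A 1) (by rw [hdet, abs_one]) (fun ε hε => by
    obtain ⟨T, hT⟩ := hs ε hε
    exact ⟨T, fun t ht => hT t (ht.trans (le_abs_self t))⟩)
  obtain ⟨v, hv, hv0⟩ := cusp (A 1) (A 0) (by
      have h1 : A 1 0 * A 0 1 - A 1 1 * A 0 0 = -1 := by linarith
      rw [h1, abs_neg, abs_one]) (fun ε hε => by
    obtain ⟨T, hT⟩ := hs ε hε
    refine ⟨T, fun t ht => ?_⟩
    obtain ⟨u, hu, h1, h2⟩ := hT (-t) (by
      rw [abs_neg]
      exact ht.trans (le_abs_self t))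
    rw [neg_neg] at h2
    exact ⟨u, hu, h2, h1⟩)
  exact isObvious22 g A B hg u v hu hv hu0 hv0

end Pool.Agent.W_MP_bb6588_G
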