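import Mathlib
import Pool.Agent.W_MP_bb6588_G.ProdDefs

set_option autoImplicit false

/-!
# `sl₂(ℚ) × sl₂(ℚ)` is semisimple
-/

namespace Pool.Agent.W_MP_bb6588_G

open Matrix

theorem ProdSS_fromBlocks_sub (A B C D A' B' C' D' : Matrix (Fin 2) (Fin 2) ℚ) :
    Matrix.fromBlocks A B C D - Matrix.fromBlocks A' B' C' D' =
      Matrix.fromBlocks (A - A') (B - B') (C - C') (D - D') := by
  ext i j
  rcases i with i | i <;> rcases j with j | j <;> rfl

/-- A trace zero matrix `A` with `[A, [Y, A]] = 0` for all trace zero `Y` is zero. -/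
theorem ProdSS_sl2 (A : Matrix (Fin 2) (Fin 2) ℚ) (hA : A.trace = 0)
    (h : ∀ Y : Matrix (Fin 2) (Fin 2) ℚ, Y.trace = 0 →
      A * (Y * A - A * Y) = (Y * A - A * Y) * A) : A = 0 := by
  have h1 := h !![0, 1; 0, 0] (by simp [Matrix.trace, Fin.sum_univ_two])
  have h2 := h !![0, 0; 1, 0] (by simp [Matrix.trace, Fin.sum_univ_two])
  have ht : A 0 0 + A 1 1 = 0 := by
    rw [Matrix.trace, Fin.sum_univ_two] at hA
    exact hA
  have e1 := congrFun (congrFun h1 1) 0
  have e2 := congrFun (congrFun h1 0) 1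
  have e3 := congrFun (congrFun h2 0) 1
  simp only [Matrix.mul_apply, Matrix.sub_apply, Fin.sum_univ_two, Matrix.of_apply,
    Matrix.cons_val', Matrix.cons_val_zero, Matrix.cons_val_one, Matrix.cons_val_fin_one,
    zero_mul, mul_zero, one_mul, mul_one, zero_add, add_zero, sub_zero, zero_sub] at e1 e2 e3
  have hd : A 1 1 = - A 0 0 := by linarith
  rw [hd] at e2
  have hc : A 1 0 = 0 := by
    have : A 1 0 * A 1 0 = 0 := by linarith
    exact mul_self_eq_zero.1 this
  have hb : A 0 1 = 0 := by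
    have : A 0 1 * A 0 1 = 0 := by linarith
    exact mul_self_eq_zero.1 this
  have ha : A 0 0 = 0 := by
    rw [hb, hc] at e2
    have : A 0 0 * A 0 0 = 0 := by linarith
    exact mul_self_eq_zero.1 this
  ext i j
  fin_cases i <;> fin_cases j
  · exact ha
  · exact hb
  · exact hc
  · change A 1 1 = 0
    rw [hd, ha, neg_zero]

/-- Proof. Let `I` be an abelian ideal and `x = (A, B) ∈ I`, say `A ≠ 0`. Bracketing with
`(Y, 0)`, `([Y, A], 0) ∈ I` for all trace zero `Y`; these span a nonzero ideal of `sl₂`, so (explicit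
computation with the basis `e, f, h`) `(e, 0), (f, 0), (h, 0) ∈ I`, which do not commute. -/
theorem isSemisimpleLie_g22 : IsSemisimpleLie g22 := by
  refine ⟨?_, ?_⟩
  · rintro _ ⟨A, B, hA, hB, rfl⟩ _ ⟨A', B', hA', hB', rfl⟩
    refine ⟨A * A' - A' * A, B * B' - B' * B, ?_, ?_, ?_⟩
    · rw [Matrix.trace_sub, Matrix.trace_mul_comm, sub_self]
    · rw [Matrix.trace_sub, Matrix.trace_mul_comm, sub_self]
    · rw [Matrix.fromBlocks_multiply, Matrix.fromBlocks_multiply, ProdSS_fromBlocks_sub]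
      simp
  · intro I hI hid hab
    rw [eq_bot_iff]
    intro x hx
    obtain ⟨A, B, hA, hB, hxe⟩ := hI hx
    rw [Submodule.mem_bot]
    have key1 : A = 0 := by
      refine ProdSS_sl2 A hA fun Y hY => ?_
      have hy : Matrix.fromBlocks Y 0 0 0 ∈ g22 := ⟨Y, 0, hY, by simp, rfl⟩
      have h1 := hab x hx _ (hid _ hy x hx)
      rw [hxe] at h1
      simp only [Matrix.fromBlocks_multiply, ProdSS_fromBlocks_sub, Matrix.fromBlocks_inj,
        Matrix.mul_zero, Matrix.zero_mul, add_zero, sub_zero] at h1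
      exact h1.1
    have key2 : B = 0 := by
      refine ProdSS_sl2 B hB fun Y hY => ?_
      have hy : Matrix.fromBlocks 0 0 0 Y ∈ g22 := ⟨0, Y, by simp, hY, rfl⟩
      have h1 := hab x hx _ (hid _ hy x hx)
      rw [hxe] at h1
      simp only [Matrix.fromBlocks_multiply, ProdSS_fromBlocks_sub, Matrix.fromBlocks_inj,
        Matrix.mul_zero, Matrix.zero_mul, add_zero, zero_add, sub_zero] at h1
      exact h1.2.2.2
    rw [hxe, key1, key2, Matrix.fromBlocks_zero]

end Pool.Agent.W_MP_bb6588_G
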